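import Pool.Agent.Lib.MP_361a6f_ag.H3.Powers

/-!
# Real structures on cohomology algebras with complex coefficients
-/

open CategoryTheory AlgebraicGeometry MonoidalCategory CartesianMonoidalCategory Opposite

universe u v w

set_option linter.unusedSectionVars false

namespace Pool.Agent.Lib.MP_361a6f_ag.H3

variable {k : Type u} [Field k] {W : CohomologyData.{u, 0, w} k ℂ} {𝒱 : VarietyClass k}

/-- An antilinear endomorphism of the graded ring `H(Y)` compatible with the trace. -/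
structure RS (W : CohomologyData.{u, 0, w} k ℂ) (Y : Sch k) where
  j : W.coh Y →ₛₗ[starRingEnd ℂ] W.coh Y
  gr : ∀ i, ∀ x ∈ W.gr Y i, j x ∈ W.gr Y i
  one : j 1 = 1
  mul : ∀ x y, j (x * y) = j x * j y
  tr : ∀ x, W.tr Y (j x) = starRingEnd ℂ (W.tr Y x)

section prod

variable (hW : IsWeilCohomology W 𝒱) {Y X : Sch k} {d e : ℕ} (hY : 𝒱.mem Y d) (hX : 𝒱.mem X e)

include hW hY hX

theorem prod_gen {i j : ℕ} {x : W.coh X} (hx : x ∈ W.gr X i) {y' : W.coh Y} (hy' : y' ∈ W.gr Y j)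
    (y : W.coh Y) (x' : W.coh X) :
    W.pull (fst Y X) y * W.pull (snd Y X) x * (W.pull (fst Y X) y' * W.pull (snd Y X) x')
      = (-1 : ℂ) ^ (i * j) • (W.pull (fst Y X) (y * y') * W.pull (snd Y X) (x * x')) := by
  have hYX := 𝒱.prod hY hX
  have e2 : W.pull (snd Y X) x * W.pull (fst Y X) y'
      = (-1 : ℂ) ^ (i * j) • (W.pull (fst Y X) y' * W.pull (snd Y X) x) :=
    hW.comm_gr hYX (hW.pull_gr hYX hX _ hx) (hW.pull_gr hYX hY _ hy')
  rw [mul_assoc, ← mul_assoc (W.pull (snd Y X) x), e2, smul_mul_assoc, mul_smul_comm,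
    map_mul, map_mul]
  congr 1
  simp only [mul_assoc]

/-- `H(Y × X)` is spanned by products of homogeneous elements -/
theorem span_homog : Submodule.span ℂ {z | ∃ (i j : ℕ) (y : W.coh Y) (x : W.coh X),
    y ∈ W.gr Y i ∧ x ∈ W.gr X j ∧ z = W.pull (fst Y X) y * W.pull (snd Y X) x} = ⊤ := by
  rw [eq_top_iff, ← hW.kunneth_span hY hX, Submodule.span_le]
  rintro _ ⟨y, x, rfl⟩
  refine hW.hom_induction hY (P := fun y => W.pull (fst Y X) y * W.pull (snd Y X) x ∈
    Submodule.span ℂ {z | ∃ (i j : ℕ) (y : W.coh Y) (x : W.coh X),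
    y ∈ W.gr Y i ∧ x ∈ W.gr X j ∧ z = W.pull (fst Y X) y * W.pull (snd Y X) x}) y ?_ ?_ ?_
  · intro i y hy
    refine hW.hom_induction hX (P := fun x => W.pull (fst Y X) y * W.pull (snd Y X) x ∈
      Submodule.span ℂ {z | ∃ (i j : ℕ) (y : W.coh Y) (x : W.coh X),
      y ∈ W.gr Y i ∧ x ∈ W.gr X j ∧ z = W.pull (fst Y X) y * W.pull (snd Y X) x}) x ?_ ?_ ?_
    · intro j x hx
      exact Submodule.subset_span ⟨i, j, y, x, hy, hx, rfl⟩
    · simp
    · intro p q hp hq
      rw [map_add, mul_add]; exact add_mem hp hq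
  · simp
  · intro p q hp hq
    rw [map_add, add_mul]; exact add_mem hp hq

/-- the Künneth grading -/
theorem gr_prod {i : ℕ} {z : W.coh (Y ⊗ X)} (hz : z ∈ W.gr (Y ⊗ X) i) :
    z ∈ Submodule.span ℂ {z | ∃ (p q : ℕ) (y : W.coh Y) (x : W.coh X),
      p + q = i ∧ y ∈ W.gr Y p ∧ x ∈ W.gr X q ∧
        z = W.pull (fst Y X) y * W.pull (snd Y X) x} := by
  classical
  have hYX := 𝒱.prod hY hX
  let _ := (hW.internal hYX).chooseDecomposition
  have key : ∀ z : W.coh (Y ⊗ X), ((DirectSum.decompose (W.gr (Y ⊗ X)) z i : W.gr (Y ⊗ X) i) :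
      W.coh (Y ⊗ X)) ∈ Submodule.span ℂ {z | ∃ (p q : ℕ) (y : W.coh Y) (x : W.coh X),
      p + q = i ∧ y ∈ W.gr Y p ∧ x ∈ W.gr X q ∧
        z = W.pull (fst Y X) y * W.pull (snd Y X) x} := by
    intro z
    have hz : z ∈ Submodule.span ℂ {z | ∃ (i j : ℕ) (y : W.coh Y) (x : W.coh X),
      y ∈ W.gr Y i ∧ x ∈ W.gr X j ∧ z = W.pull (fst Y X) y * W.pull (snd Y X) x} := by
      rw [span_homog hW hY hX]; trivial
    refine Submodule.span_induction (p := fun z _ =>
      ((DirectSum.decompose (W.gr (Y ⊗ X)) z i : W.gr (Y ⊗ X) i) :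
      W.coh (Y ⊗ X)) ∈ Submodule.span ℂ {z | ∃ (p q : ℕ) (y : W.coh Y) (x : W.coh X),
      p + q = i ∧ y ∈ W.gr Y p ∧ x ∈ W.gr X q ∧
        z = W.pull (fst Y X) y * W.pull (snd Y X) x}) ?_ ?_ ?_ ?_ hz
    · rintro _ ⟨p, q, y, x, hy, hx, rfl⟩
      have h1 := hW.mul_gr hYX (hW.pull_gr hYX hY (fst Y X) hy) (hW.pull_gr hYX hX (snd Y X) hx)
      by_cases h : p + q = i
      · subst h
        rw [DirectSum.decompose_of_mem_same _ h1]
        exact Submodule.subset_span ⟨p, q, y, x, rfl, hy, hx, rfl⟩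
      · rw [DirectSum.decompose_of_mem_ne _ h1 h]
        exact zero_mem _
    · simp
    · intro p q _ _ hp hq
      rw [DirectSum.decompose_add, DirectSum.add_apply, Submodule.coe_add]
      exact add_mem hp hq
    · intro c p _ hp
      rw [DirectSum.decompose_smul, DirectSum.smul_apply, Submodule.coe_smul]
      exact Submodule.smul_mem _ _ hp
  have h1 := key z
  rwa [DirectSum.decompose_of_mem_same _ hz] at h1

/-- exterior products of bases are bases -/
theorem linInd_prod {ιY ιX : Type} [Fintype ιY] [Fintype ιX] (bY : Module.Basis ιY ℂ (W.coh Y))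
    (bX : Module.Basis ιX ℂ (W.coh X)) :
    LinearIndependent ℂ (fun p : ιY × ιX =>
      W.pull (fst Y X) (bY p.1) * W.pull (snd Y X) (bX p.2)) := by
  classical
  rw [Fintype.linearIndependent_iff]
  intro g hg
  have h1 : ∀ i, ∑ l, g (i, l) • bX l = 0 := by
    intro i
    refine hW.duality hX _ (fun x' => ?_)
    have h2 : W.push (fst Y X) ((∑ p : ιY × ιX, g p • (W.pull (fst Y X) (bY p.1) *
        W.pull (snd Y X) (bX p.2))) * W.pull (snd Y X) x') = 0 := by
      rw [hg, zero_mul, map_zero]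
    rw [Finset.sum_mul, map_sum, Fintype.sum_prod_type] at h2
    have h3 : ∀ i l, W.push (fst Y X) ((g (i, l) • (W.pull (fst Y X) (bY i) *
        W.pull (snd Y X) (bX l))) * W.pull (snd Y X) x')
        = (g (i, l) * W.tr X (bX l * x')) • bY i := by
      intro i l
      rw [smul_mul_assoc, map_smul, mul_assoc, ← map_mul, hW.push_fst hY hX, smul_smul]
    simp only [h3, ← Finset.sum_smul] at h2
    have h4 := (Fintype.linearIndependent_iff.mp bY.linearIndependent) _ h2 i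
    rw [Finset.sum_mul, map_sum]
    rw [← h4]
    refine Finset.sum_congr rfl (fun l _ => ?_)
    rw [smul_mul_assoc, map_smul, smul_eq_mul]
  rintro ⟨i, l⟩
  exact (Fintype.linearIndependent_iff.mp bX.linearIndependent) (fun l => g (i, l)) (h1 i) l

theorem span_prod {ιY ιX : Type} [Fintype ιY] [Fintype ιX] (bY : Module.Basis ιY ℂ (W.coh Y))
    (bX : Module.Basis ιX ℂ (W.coh X)) :
    ⊤ ≤ Submodule.span ℂ (Set.range (fun p : ιY × ιX =>
      W.pull (fst Y X) (bY p.1) * W.pull (snd Y X) (bX p.2))) := by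
  rw [← hW.kunneth_span hY hX, Submodule.span_le]
  rintro _ ⟨y, x, rfl⟩
  rw [← bY.sum_repr y, ← bX.sum_repr x]
  simp only [map_sum, map_smul, Finset.sum_mul, Finset.mul_sum, smul_mul_assoc, mul_smul_comm]
  exact Submodule.sum_mem _ (fun l _ => Submodule.smul_mem _ _ (Submodule.sum_mem _ (fun i _ =>
    Submodule.smul_mem _ _ (Submodule.subset_span ⟨(i, l), rfl⟩))))

/-- the antilinear map on `H(Y × X)` -/
theorem exists_semi (R : W.coh Y →ₛₗ[starRingEnd ℂ] W.coh Y)
    (S : W.coh X →ₛₗ[starRingEnd ℂ] W.coh X) :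
    ∃ j : W.coh (Y ⊗ X) →ₛₗ[starRingEnd ℂ] W.coh (Y ⊗ X), ∀ y x,
      j (W.pull (fst Y X) y * W.pull (snd Y X) x)
        = W.pull (fst Y X) (R y) * W.pull (snd Y X) (S x) := by
  classical
  have := hW.finite hY
  have := hW.finite hX
  set bY := Module.finBasis ℂ (W.coh Y)
  set bX := Module.finBasis ℂ (W.coh X)
  set b := Module.Basis.mk (linInd_prod hW hY hX bY bX) (span_prod hW hY hX bY bX) with hb
  set f : Fin (Module.finrank ℂ (W.coh Y)) × Fin (Module.finrank ℂ (W.coh X)) → W.coh (Y ⊗ X) :=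
    fun p => W.pull (fst Y X) (R (bY p.1)) * W.pull (snd Y X) (S (bX p.2)) with hf
  let j : W.coh (Y ⊗ X) →ₛₗ[starRingEnd ℂ] W.coh (Y ⊗ X) :=
    { toFun := fun z => ∑ p, starRingEnd ℂ (b.repr z p) • f p
      map_add' := fun z z' => by
        rw [← Finset.sum_add_distrib]
        refine Finset.sum_congr rfl (fun p _ => ?_)
        rw [map_add, Finsupp.add_apply, map_add, add_smul]
      map_smul' := fun c z => by
        rw [Finset.smul_sum]
        refine Finset.sum_congr rfl (fun p _ => ?_)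
        rw [map_smul, Finsupp.smul_apply, smul_eq_mul, map_mul, smul_smul] }
  refine ⟨j, fun y x => ?_⟩
  have hj : ∀ z, j z = ∑ p, starRingEnd ℂ (b.repr z p) • f p := fun z => rfl
  have hjb : ∀ p, j (b p) = f p := by
    intro p
    rw [hj, Finset.sum_eq_single p]
    · rw [Module.Basis.repr_self, Finsupp.single_eq_same, map_one, one_smul]
    · intro q _ hq
      rw [Module.Basis.repr_self, Finsupp.single_eq_of_ne hq, map_zero, zero_smul]
    · intro h; exact absurd (Finset.mem_univ _) h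
  have hbp : ∀ i l, b (i, l) = W.pull (fst Y X) (bY i) * W.pull (snd Y X) (bX l) := by
    intro i l
    rw [hb, Module.Basis.mk_apply]
  conv_lhs => rw [← bY.sum_repr y, ← bX.sum_repr x]
  conv_rhs => rw [← bY.sum_repr y, ← bX.sum_repr x]
  simp only [map_sum, map_smul, Finset.sum_mul, Finset.mul_sum, smul_mul_assoc, mul_smul_comm,
    map_smulₛₗ, ← hbp, hjb, hf]

/-- the product of two real structures -/
theorem RS.exists_prod (R : RS W Y) (S : RS W X) : ∃ P : RS W (Y ⊗ X),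
    ∀ y x, P.j (W.pull (fst Y X) y * W.pull (snd Y X) x)
      = W.pull (fst Y X) (R.j y) * W.pull (snd Y X) (S.j x) := by
  have hYX := 𝒱.prod hY hX
  obtain ⟨j, hj⟩ := exists_semi hW hY hX R.j S.j
  have hsp := span_homog hW hY hX
  refine ⟨⟨j, ?_, ?_, ?_, ?_⟩, hj⟩
  · intro i z hz
    refine Submodule.span_induction (p := fun z _ => j z ∈ W.gr (Y ⊗ X) i) ?_ ?_ ?_ ?_
      (gr_prod hW hY hX hz)
    · rintro _ ⟨p, q, y, x, rfl, hy, hx, rfl⟩
      rw [hj]
      exact hW.mul_gr hYX (hW.pull_gr hYX hY _ (R.gr _ _ hy)) (hW.pull_gr hYX hX _ (S.gr _ _ hx))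
    · rw [map_zero]; exact zero_mem _
    · intro a b _ _ ha hb
      rw [map_add]; exact add_mem ha hb
    · intro c a _ ha
      rw [LinearMap.map_smulₛₗ]; exact Submodule.smul_mem _ _ ha
  · have h1 := hj 1 1
    rw [R.one, S.one, map_one, map_one, one_mul] at h1
    exact h1
  · intro z z'
    have hz : z ∈ Submodule.span ℂ {z | ∃ (i j : ℕ) (y : W.coh Y) (x : W.coh X),
      y ∈ W.gr Y i ∧ x ∈ W.gr X j ∧ z = W.pull (fst Y X) y * W.pull (snd Y X) x} := by
      rw [hsp]; trivial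
    have hz' : z' ∈ Submodule.span ℂ {z | ∃ (i j : ℕ) (y : W.coh Y) (x : W.coh X),
      y ∈ W.gr Y i ∧ x ∈ W.gr X j ∧ z = W.pull (fst Y X) y * W.pull (snd Y X) x} := by
      rw [hsp]; trivial
    refine Submodule.span_induction (p := fun z _ => j (z * z') = j z * j z') ?_ ?_ ?_ ?_ hz
    · rintro _ ⟨p, q, y, x, hy, hx, rfl⟩
      refine Submodule.span_induction (p := fun z' _ =>
        j (W.pull (fst Y X) y * W.pull (snd Y X) x * z')
          = j (W.pull (fst Y X) y * W.pull (snd Y X) x) * j z') ?_ ?_ ?_ ?_ hz'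
      · rintro _ ⟨p', q', y', x', hy', hx', rfl⟩
        rw [prod_gen hW hY hX hx hy', LinearMap.map_smulₛₗ, hj, hj, hj,
          prod_gen hW hY hX (S.gr _ _ hx) (R.gr _ _ hy'), R.mul, S.mul]
        congr 1
        simp
      · simp
      · intro a b _ _ ha hb
        rw [mul_add, map_add, ha, hb, map_add, mul_add]
      · intro c a _ ha
        rw [mul_smul_comm, LinearMap.map_smulₛₗ, ha, LinearMap.map_smulₛₗ, mul_smul_comm]
    · simp
    · intro a b _ _ ha hb
      rw [add_mul, map_add, ha, hb, map_add, add_mul]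
    · intro c a _ ha
      rw [smul_mul_assoc, LinearMap.map_smulₛₗ, ha, LinearMap.map_smulₛₗ, smul_mul_assoc]
  · intro z
    have hz : z ∈ Submodule.span ℂ {z | ∃ (i j : ℕ) (y : W.coh Y) (x : W.coh X),
      y ∈ W.gr Y i ∧ x ∈ W.gr X j ∧ z = W.pull (fst Y X) y * W.pull (snd Y X) x} := by
      rw [hsp]; trivial
    refine Submodule.span_induction (p := fun z _ => W.tr (Y ⊗ X) (j z)
      = starRingEnd ℂ (W.tr (Y ⊗ X) z)) ?_ ?_ ?_ ?_ hz
    · rintro _ ⟨p, q, y, x, hy, hx, rfl⟩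
      rw [hj, hW.kunneth_tr hY hX, hW.kunneth_tr hY hX, R.tr, S.tr, map_mul]
    · simp
    · intro a b _ _ ha hb
      rw [map_add, map_add, ha, hb, map_add, map_add]
    · intro c a _ ha
      rw [LinearMap.map_smulₛₗ, map_smul, ha, map_smul, smul_eq_mul, smul_eq_mul, map_mul]

end prod

/-- the real structure on the cohomology of a point -/
theorem RS.exists_point (hW : IsWeilCohomology W 𝒱) : Nonempty (RS W (𝟙_ (Sch k))) := by
  refine ⟨⟨{ toFun := fun x => starRingEnd ℂ (W.tr _ x) • 1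
             map_add' := fun x y => by rw [map_add, map_add, add_smul]
             map_smul' := fun c x => by
              rw [map_smul, smul_eq_mul, map_mul, smul_smul] }, ?_, ?_, ?_, ?_⟩⟩
  · intro i x hx
    change starRingEnd ℂ (W.tr _ x) • (1 : W.coh (𝟙_ (Sch k))) ∈ _
    by_cases hi : i = 2 * 0
    · subst hi
      exact Submodule.smul_mem _ _ (hW.one_gr 𝒱.point)
    · rw [hW.tr_gr 𝒱.point hx hi, map_zero, zero_smul]
      exact zero_mem _
  · change starRingEnd ℂ (W.tr _ 1) • (1 : W.coh (𝟙_ (Sch k))) = 1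
    rw [hW.point_tr, map_one, one_smul]
  · intro x y
    change starRingEnd ℂ (W.tr _ (x * y)) • (1 : W.coh (𝟙_ (Sch k)))
      = starRingEnd ℂ (W.tr _ x) • (1 : W.coh (𝟙_ (Sch k)))
        * starRingEnd ℂ (W.tr _ y) • (1 : W.coh (𝟙_ (Sch k)))
    obtain ⟨c, rfl⟩ := hW.point_coh x
    obtain ⟨d, rfl⟩ := hW.point_coh y
    have e : ∀ c : ℂ, W.tr _ (c • (1 : W.coh (𝟙_ (Sch k)))) = c := by
      intro c
      rw [LinearMap.map_smul, hW.point_tr, smul_eq_mul, mul_one]
    rw [smul_mul_smul_comm, smul_mul_smul_comm, one_mul, e, e, e, map_mul]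
  · intro x
    change W.tr _ (starRingEnd ℂ (W.tr _ x) • (1 : W.coh (𝟙_ (Sch k)))) = _
    rw [map_smul, hW.point_tr]
    simp

/-- the real structure on the powers of `X` -/
theorem RS.exists_pow (hW : IsWeilCohomology W 𝒱) {X : Sch k} {n : ℕ} (hX : 𝒱.mem X n)
    (R : RS W X) : ∃ P : (a : ℕ) → RS W (prodPow (𝟙_ (Sch k)) X a),
      (P 0).j 1 = 1 ∧ ∀ a y x, (P (a + 1)).j (W.pull (fst (prodPow (𝟙_ (Sch k)) X a) X) y
        * W.pull (snd (prodPow (𝟙_ (Sch k)) X a) X) x)
      = W.pull (fst (prodPow (𝟙_ (Sch k)) X a) X) ((P a).j y)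
        * W.pull (snd (prodPow (𝟙_ (Sch k)) X a) X) (R.j x) := by
  classical
  have step : ∀ a, ∀ P : RS W (prodPow (𝟙_ (Sch k)) X a),
      ∃ Q : RS W (prodPow (𝟙_ (Sch k)) X (a + 1)), ∀ y x,
        Q.j (W.pull (fst (prodPow (𝟙_ (Sch k)) X a) X) y
          * W.pull (snd (prodPow (𝟙_ (Sch k)) X a) X) x)
        = W.pull (fst (prodPow (𝟙_ (Sch k)) X a) X) (P.j y)
          * W.pull (snd (prodPow (𝟙_ (Sch k)) X a) X) (R.j x) := fun a P =>
    RS.exists_prod hW (prodPow_mem 𝒱.point hX a) hX P R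
  obtain ⟨P0⟩ := RS.exists_point hW
  refine ⟨fun a => Nat.rec P0 (fun a P => Classical.choose (step a P)) a, P0.one, ?_⟩
  intro a
  exact Classical.choose_spec (step a (Nat.rec P0 (fun a P => Classical.choose (step a P)) a))

end Pool.Agent.Lib.MP_361a6f_ag.H3
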