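import Pool.Agent.Lib.MP_361a6f_ag.H3.HR

/-!
# Tensor product of a Hodge-Riemann module with a string
-/

namespace Pool.Agent.Lib.MP_361a6f_ag.H3

set_option linter.unusedSimpArgs false

namespace LData

variable {K : Type*} [Field K] {M : Type*} [AddCommGroup M] [Module K M] (S : LData K M)

/-- the shift operator on `M ⊗ K[t]/t^(n+1)` -/
def shift (n : ℕ) : (Fin (n + 1) → M) →ₗ[K] (Fin (n + 1) → M) where
  toFun f := Fin.cons 0 (fun b : Fin n => f b.castSucc)
  map_add' f g := by
    ext b
    refine Fin.cases ?_ (fun c => ?_) b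
    · simp
    · simp
  map_smul' c f := by
    ext b
    refine Fin.cases ?_ (fun c => ?_) b
    · simp
    · simp

theorem shift_zero (n : ℕ) (f : Fin (n + 1) → M) : shift (K := K) n f 0 = 0 := rfl

theorem shift_succ (n : ℕ) (f : Fin (n + 1) → M) (b : Fin n) :
    shift (K := K) n f b.succ = f b.castSucc := rfl

/-- `M ⊗ K[t]/t^(n+1)` with the operator `L + t` and the form `⟨x t^a, y t^b⟩ = ⟨x, y⟩` for
`a + b = n`. -/
def Str (n : ℕ) : LData K (Fin (n + 1) → M) where
  L := LinearMap.pi (fun b => S.L ∘ₗ LinearMap.proj b) + shift n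
  B := LinearMap.mk₂ K (fun f g => ∑ b, S.B (f b) (g b.rev))
    (by intro f f' g; simp [Finset.sum_add_distrib])
    (by intro c f g; simp [Finset.mul_sum])
    (by intro f f' g; simp [Finset.sum_add_distrib])
    (by intro c f g; simp [Finset.mul_sum])
  gr j :=
    { carrier := {f | ∀ b : Fin (n + 1), (∀ i, j = i + b → f b ∈ S.gr i) ∧ (j < b → f b = 0)}
      add_mem' := by
        intro f g hf hg b
        refine ⟨fun i hi => add_mem ((hf b).1 i hi) ((hg b).1 i hi), fun hb => ?_⟩
        rw [Pi.add_apply, (hf b).2 hb, (hg b).2 hb, add_zero]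
      zero_mem' := fun b => ⟨fun i _ => zero_mem _, fun _ => rfl⟩
      neg_mem' := by
        intro f hf b
        refine ⟨fun i hi => neg_mem ((hf b).1 i hi), fun hb => ?_⟩
        rw [Pi.neg_apply, (hf b).2 hb, neg_zero] }
  gr_smul := by
    intro j q f hf b
    refine ⟨fun i hi => S.gr_smul _ _ _ ((hf b).1 i hi), fun hb => ?_⟩
    rw [Pi.smul_apply, (hf b).2 hb, smul_zero]
  gr_L := by
    intro j f hf b
    have e : ((LinearMap.pi (fun b => S.L ∘ₗ LinearMap.proj b) + shift n :
        (Fin (n + 1) → M) →ₗ[K] (Fin (n + 1) → M)) f) b = S.L (f b) + shift (K := K) n f b := rfl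
    rw [e]
    constructor
    · intro i hi
      refine add_mem ?_ ?_
      · rcases Nat.eq_zero_or_pos i with h0 | h0
        · have : f b = 0 := (hf b).2 (by omega)
          rw [this, map_zero]; exact zero_mem _
        · obtain ⟨k, rfl⟩ : ∃ k, i = k + 1 := ⟨i - 1, by omega⟩
          exact S.gr_L _ _ ((hf b).1 k (by omega))
      · revert hi
        refine Fin.cases ?_ (fun c => ?_) b
        · intro _; rw [shift_zero]; exact zero_mem _
        · intro hi
          rw [shift_succ]
          refine (hf c.castSucc).1 i ?_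
          simp only [Fin.val_succ, Fin.val_castSucc] at hi ⊢
          omega
    · intro hb
      have h1 : f b = 0 := (hf b).2 (by omega)
      rw [h1, map_zero, zero_add]
      revert hb
      refine Fin.cases ?_ (fun c => ?_) b
      · intro _; rw [shift_zero]
      · intro hb
        rw [shift_succ]
        refine (hf c.castSucc).2 ?_
        simp only [Fin.val_succ, Fin.val_castSucc] at hb ⊢
        omega
  sym := by
    intro i j f g hf hg
    simp only [LinearMap.mk₂_apply]
    rw [← Equiv.sum_comp Fin.revPerm]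
    refine Finset.sum_congr rfl (fun b _ => ?_)
    simp only [Fin.revPerm_apply, Fin.rev_rev]
    by_cases h1 : i < (b.rev : ℕ)
    · rw [(hf b.rev).2 h1]; simp
    · by_cases h2 : j < (b : ℕ)
      · rw [(hg b).2 h2]; simp
      · obtain ⟨k, hk⟩ : ∃ k, i = k + (b.rev : ℕ) := ⟨i - (b.rev : ℕ), by omega⟩
        obtain ⟨l, hl⟩ : ∃ l, j = l + (b : ℕ) := ⟨j - (b : ℕ), by omega⟩
        exact S.sym _ _ _ _ ((hf b.rev).1 k hk) ((hg b).1 l hl)
  adj := by
    intro f g
    simp only [LinearMap.mk₂_apply, LinearMap.add_apply, LinearMap.pi_apply,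
      LinearMap.comp_apply, LinearMap.proj_apply, Pi.add_apply, map_add, Finset.sum_add_distrib,
      S.adj]
    congr 1
    rw [Fin.sum_univ_succ, Fin.sum_univ_castSucc]
    simp only [shift_zero, map_zero, LinearMap.zero_apply, zero_add, shift_succ, Fin.rev_last,
      add_zero]
    refine Finset.sum_congr rfl (fun b _ => ?_)
    rw [Fin.rev_succ, Fin.rev_castSucc, shift_succ]

theorem Str_L (n : ℕ) (f : Fin (n + 1) → M) (b : Fin (n + 1)) :
    (S.Str n).L f b = S.L (f b) + shift (K := K) n f b := rfl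

theorem Str_B (n : ℕ) (f g : Fin (n + 1) → M) :
    (S.Str n).B f g = ∑ b, S.B (f b) (g b.rev) := rfl

/-- the embedding of `M ⊗ K[t]/t^(n+2)` into `M ⊗ K[t]/t^(n+1) ⊗ K[s]/s^2` -/
def emb (n : ℕ) : (Fin (n + 1 + 1) → M) →ₗ[K] (Fin (n + 1) → M) × (Fin (n + 1) → M) where
  toFun f := (fun b => f b.castSucc, fun b => (((b : ℕ) : K) + 1) • f b.succ)
  map_add' f g := by
    ext b
    · simp
    · simp
  map_smul' c f := by
    ext b
    · simp
    · simp only [Pi.smul_apply, Prod.smul_snd, RingHom.id_apply]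
      rw [smul_comm]

theorem emb_L (n : ℕ) (f : Fin (n + 1 + 1) → M) :
    emb (K := K) n ((S.Str (n + 1)).L f) = (S.Str n).P1.L (emb (K := K) n f) := by
  rw [P1_L]
  ext b
  · change (S.Str (n + 1)).L f b.castSucc = (S.Str n).L (fun b => f b.castSucc) b
    rw [Str_L, Str_L]
    congr 1
    refine Fin.cases ?_ (fun c => ?_) b
    · rfl
    · rw [Fin.castSucc_succ, shift_succ, shift_succ]
  · change (((b : ℕ) : K) + 1) • (S.Str (n + 1)).L f b.succ
      = f b.castSucc + (S.Str n).L (fun b => (((b : ℕ) : K) + 1) • f b.succ) b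
    rw [Str_L, Str_L, shift_succ, map_smul]
    refine Fin.cases ?_ (fun c => ?_) b
    · rw [shift_zero]
      simp only [Fin.val_zero, Nat.cast_zero]
      module
    · rw [shift_succ]
      simp only [Fin.val_succ, Fin.val_castSucc, Fin.castSucc_succ]
      push_cast
      module

theorem emb_B [CharZero K] (n : ℕ) (f g : Fin (n + 1 + 1) → M) :
    (S.Str n).P1.B (emb (K := K) n f) (emb (K := K) n g)
      = (((n : ℚ) + 1 : ℚ) : K) * (S.Str (n + 1)).B f g := by
  rw [P1_B, Str_B, Str_B, Str_B]
  have e1 : ∑ b : Fin (n + 1), S.B ((emb (K := K) n f).1 b) ((emb (K := K) n g).2 b.rev)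
      = ∑ c : Fin (n + 1 + 1), ((n : K) + 1 - ((c : ℕ) : K)) * S.B (f c) (g c.rev) := by
    rw [Fin.sum_univ_castSucc
      (fun c : Fin (n + 1 + 1) => ((n : K) + 1 - ((c : ℕ) : K)) * S.B (f c) (g c.rev))]
    have : ((n : K) + 1 - (((Fin.last (n + 1) : Fin (n + 1 + 1)) : ℕ) : K)) = 0 := by
      rw [Fin.val_last]; push_cast; ring
    rw [this, zero_mul, add_zero]
    refine Finset.sum_congr rfl (fun b _ => ?_)
    change S.B (f b.castSucc) (((((b.rev : Fin (n + 1)) : ℕ) : K) + 1) • g b.rev.succ) = _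
    rw [map_smul, smul_eq_mul, Fin.rev_castSucc, Fin.val_castSucc]
    congr 1
    have h1 : ((b.rev : Fin (n + 1)) : ℕ) + (b : ℕ) = n := by
      rw [Fin.val_rev]
      have := b.isLt
      omega
    have h2 : (((b.rev : Fin (n + 1)) : ℕ) : K) + ((b : ℕ) : K) = n := by
      exact_mod_cast h1
    linear_combination h2
  have e2 : ∑ b : Fin (n + 1), S.B ((emb (K := K) n f).2 b) ((emb (K := K) n g).1 b.rev)
      = ∑ c : Fin (n + 1 + 1), (((c : ℕ) : K)) * S.B (f c) (g c.rev) := by
    rw [Fin.sum_univ_succ (fun c : Fin (n + 1 + 1) => ((c : ℕ) : K) * S.B (f c) (g c.rev))]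
    simp only [Fin.val_zero, Nat.cast_zero, zero_mul, zero_add]
    refine Finset.sum_congr rfl (fun b _ => ?_)
    change S.B ((((b : ℕ) : K) + 1) • f b.succ) (g b.rev.castSucc) = _
    rw [map_smul, LinearMap.smul_apply, smul_eq_mul, Fin.rev_succ, Fin.val_succ]
    push_cast
    ring
  rw [e1, e2, ← Finset.sum_add_distrib, Finset.mul_sum]
  refine Finset.sum_congr rfl (fun c _ => ?_)
  push_cast
  ring

theorem emb_gr [CharZero K] (n j : ℕ) (f : Fin (n + 1 + 1) → M) (hf : f ∈ (S.Str (n + 1)).gr j) :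
    emb (K := K) n f ∈ (S.Str n).P1.gr j := by
  refine ⟨?_, ?_, ?_⟩
  · intro b
    refine ⟨fun i hi => (hf b.castSucc).1 i (by simpa using hi), fun hb => (hf b.castSucc).2
      (by simpa using hb)⟩
  · intro i hi b
    refine ⟨fun k hk => ?_, fun hb => ?_⟩
    · have h1 := (hf b.succ).1 k (by rw [Fin.val_succ]; omega)
      have h2 := S.gr_smul k (((b : ℕ) : ℚ) + 1) _ h1
      push_cast at h2
      exact h2
    · have h1 := (hf b.succ).2 (by rw [Fin.val_succ]; omega)
      change (((b : ℕ) : K) + 1) • f b.succ = 0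
      rw [h1, smul_zero]
  · intro hj
    ext b
    have h1 := (hf b.succ).2 (by rw [Fin.val_succ]; omega)
    change (((b : ℕ) : K) + 1) • f b.succ = 0
    rw [h1, smul_zero]

/-- Tensor product with a string. -/
theorem HR.Str [CharZero K] {S : LData K M} {w : ℕ} (h : S.HR w) (n : ℕ) :
    (S.Str n).HR (w + n) := by
  induction n with
  | zero =>
    refine HR.of_embedding (S := S) (LinearMap.proj (0 : Fin (0 + 1))) (c := 1) one_pos
      ?_ ?_ ?_ ?_ h
    · intro f
      change (S.Str 0).L f 0 = S.L (f 0)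
      rw [Str_L, shift_zero, add_zero]
    · intro f g
      rw [Str_B]
      simp
    · intro j f hf
      exact (hf 0).1 j (by simp)
    · intro f hf
      ext b
      have : b = 0 := Fin.ext (by have := b.isLt; omega)
      rw [this]
      exact hf
  | succ n ih =>
    refine HR.of_embedding (S := (S.Str n).P1) (emb n) (c := (n : ℚ) + 1) (by positivity)
      ?_ ?_ ?_ ?_ ih.P1
    · exact S.emb_L n
    · exact S.emb_B n
    · exact S.emb_gr n
    · intro f hf
      have h1 := congrArg Prod.fst hf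
      have h2 := congrArg Prod.snd hf
      ext b
      refine Fin.cases ?_ (fun c => ?_) b
      · exact congrFun h1 0
      · have h3 : (((c : ℕ) : K) + 1) • f c.succ = 0 := congrFun h2 c
        have h4 : (((c : ℕ) : K) + 1) ≠ 0 := Nat.cast_add_one_ne_zero _
        exact (smul_eq_zero.mp h3).resolve_left h4

end LData

end Pool.Agent.Lib.MP_361a6f_ag.H3
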