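import Pool.Agent.Lib.MP_361a6f_ag.H3.WeilThms
import Pool.Agent.Lib.MP_361a6f_ag.H3.Str

/-!
# Basic consequences of the axioms
-/

open CategoryTheory AlgebraicGeometry MonoidalCategory CartesianMonoidalCategory Opposite

universe u v w

namespace Pool.Agent.Lib.MP_361a6f_ag.H3

variable {k : Type u} [Field k] {K : Type v} [Field K]
  {W : CohomologyData.{u, v, w} k K} {𝒱 : VarietyClass k}

namespace CohomologyData

theorem alg_smul [CharZero K] {X : Sch k} {j : ℕ} (q : ℚ) {x : W.coh X}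
    (hx : x ∈ W.alg X j) : (q : K) • x ∈ W.alg X j := by
  induction hx using AddSubgroup.closure_induction with
  | mem x hx =>
    obtain ⟨r, Z, rfl⟩ := hx
    refine AddSubgroup.subset_closure ⟨q * r, Z, ?_⟩
    rw [smul_smul]; push_cast; rfl
  | zero => rw [smul_zero]; exact zero_mem _
  | add x y _ _ hx hy => rw [smul_add]; exact add_mem hx hy
  | neg x _ hx => rw [smul_neg]; exact neg_mem hx

end CohomologyData

namespace IsWeilCohomology

open CohomologyData

variable (hW : IsWeilCohomology W 𝒱)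
include hW

theorem alg_gr {X : Sch k} {d : ℕ} (hX : 𝒱.mem X d) {j : ℕ}
    {x : W.coh X} (hx : x ∈ W.alg X j) : x ∈ W.gr X (2 * j) := by
  induction hx using AddSubgroup.closure_induction with
  | mem x hx =>
    obtain ⟨r, Z, rfl⟩ := hx
    exact Submodule.smul_mem _ _ (hW.cl_gr hX j Z)
  | zero => exact zero_mem _
  | add x y _ _ hx hy => exact add_mem hx hy
  | neg x _ hx => exact neg_mem hx

theorem iSup_gr {X : Sch k} {d : ℕ} (hX : 𝒱.mem X d) :
    ⨆ i, W.gr X i = ⊤ := (hW.internal hX).submodule_iSup_eq_top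

/-- induction on homogeneous elements -/
theorem hom_induction {X : Sch k} {d : ℕ} (hX : 𝒱.mem X d)
    {P : W.coh X → Prop} (x : W.coh X) (hh : ∀ i, ∀ x ∈ W.gr X i, P x)
    (h0 : P 0) (hadd : ∀ x y, P x → P y → P (x + y)) : P x := by
  have hx : x ∈ ⨆ i, W.gr X i := by rw [hW.iSup_gr hX]; trivial
  exact Submodule.iSup_induction (W.gr X) (motive := P) hx hh h0 hadd

theorem even_comm {X : Sch k} {d : ℕ} (hX : 𝒱.mem X d) {j : ℕ}
    {x : W.coh X} (hx : x ∈ W.gr X (2 * j)) (y : W.coh X) : x * y = y * x := by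
  refine hW.hom_induction hX (P := fun y => x * y = y * x) y ?_ ?_ ?_
  · intro i y hy
    rw [hW.comm_gr hX hx hy]
    have : (-1 : K) ^ (2 * j * i) = 1 := by
      rw [mul_assoc, pow_mul]; simp
    rw [this, one_smul]
  · simp
  · intro y z hy hz
    rw [mul_add, add_mul, hy, hz]

theorem alg_comm {X : Sch k} {d : ℕ} (hX : 𝒱.mem X d) {j : ℕ}
    {x : W.coh X} (hx : x ∈ W.alg X j) (y : W.coh X) : x * y = y * x :=
  hW.even_comm hX (hW.alg_gr hX hx) y

theorem pow_alg {X : Sch k} {d : ℕ} (hX : 𝒱.mem X d)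
    {x : W.coh X} (hx : x ∈ W.alg X 1) (b : ℕ) : x ^ b ∈ W.alg X b := by
  induction b with
  | zero => rw [pow_zero]; exact hW.one_alg hX
  | succ b ih => rw [pow_succ]; exact hW.mul_alg hX ih hx

theorem tr_alg [CharZero K] {X : Sch k} {d : ℕ} (hX : 𝒱.mem X d)
    {x : W.coh X} (hx : x ∈ W.alg X d) : ∃ q : ℚ, W.tr X x = q := by
  induction hx using AddSubgroup.closure_induction with
  | mem x hx =>
    obtain ⟨r, Z, rfl⟩ := hx
    exact ⟨r, by rw [map_smul, hW.cl_point hX, smul_eq_mul, mul_one]⟩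
  | zero => exact ⟨0, by simp⟩
  | add x y _ _ hx hy =>
    obtain ⟨q, hq⟩ := hx
    obtain ⟨r, hr⟩ := hy
    exact ⟨q + r, by rw [map_add, hq, hr]; push_cast; rfl⟩
  | neg x _ hx =>
    obtain ⟨q, hq⟩ := hx
    exact ⟨-q, by rw [map_neg, hq]; push_cast; rfl⟩

/-- The trace of `pr₁^* y · pr₂^* x · pr₁^* v`. -/
theorem tr_move {Y X : Sch k} {d e : ℕ} (hY : 𝒱.mem Y d)
    (hX : 𝒱.mem X e) (y v : W.coh Y) (x : W.coh X) :
    W.tr (Y ⊗ X) (W.pull (fst Y X) y * W.pull (snd Y X) x * W.pull (fst Y X) v)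
      = W.tr Y (y * v) * W.tr X x := by
  have hYX := 𝒱.prod hY hX
  refine hW.hom_induction hX (P := fun x => W.tr (Y ⊗ X) (W.pull (fst Y X) y *
    W.pull (snd Y X) x * W.pull (fst Y X) v) = W.tr Y (y * v) * W.tr X x) x ?_ ?_ ?_
  · intro i x hx
    refine hW.hom_induction hY (P := fun v => W.tr (Y ⊗ X) (W.pull (fst Y X) y *
      W.pull (snd Y X) x * W.pull (fst Y X) v) = W.tr Y (y * v) * W.tr X x) v ?_ ?_ ?_
    · intro j v hv
      have h1 := hW.pull_gr hYX hX (snd Y X) hx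
      have h2 := hW.pull_gr hYX hY (fst Y X) hv
      rw [mul_assoc, hW.comm_gr hYX h1 h2, mul_smul_comm, map_smul, ← mul_assoc, ← map_mul,
        hW.kunneth_tr hY hX]
      by_cases hi : i = 2 * e
      · have : (-1 : K) ^ (i * j) = 1 := by
          rw [hi, mul_assoc, pow_mul]; simp
        rw [this, one_smul]
      · rw [hW.tr_gr hX hx hi, mul_zero, smul_zero]
    · simp
    · intro v v' h h'
      rw [map_add, mul_add, map_add, h, h', mul_add, map_add, add_mul]
  · simp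
  · intro x x' h h'
    rw [map_add, mul_add, add_mul, map_add, h, h', map_add, mul_add]

theorem push_fst {Y X : Sch k} {d e : ℕ} (hY : 𝒱.mem Y d)
    (hX : 𝒱.mem X e) (y : W.coh Y) (x : W.coh X) :
    W.push (fst Y X) (W.pull (fst Y X) y * W.pull (snd Y X) x) = W.tr X x • y := by
  have hYX := 𝒱.prod hY hX
  rw [← sub_eq_zero]
  refine hW.duality hY _ (fun v => ?_)
  rw [sub_mul, map_sub, hW.push_adj hYX hY, hW.tr_move hY hX, smul_mul_assoc, map_smul,
    smul_eq_mul]
  ring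

/-- push-forward lowers the degree -/
theorem push_zero {Y Z : Sch k} {d e : ℕ} (hZ : 𝒱.mem Z d)
    (hY : 𝒱.mem Y e) (f : Z ⟶ Y) {i : ℕ} {x : W.coh Z} (hx : x ∈ W.gr Z i)
    (hi : i + 2 * e < 2 * d) : W.push f x = 0 := by
  refine hW.duality hY _ (fun v => ?_)
  rw [hW.push_adj hZ hY]
  refine hW.hom_induction hY (P := fun v => W.tr Z (x * W.pull f v) = 0) v ?_ ?_ ?_
  · intro j v hv
    by_cases hj : 2 * e < j
    · rw [hW.top_gr hY hv hj]; simp
    · exact hW.tr_gr hZ (hW.mul_gr hZ hx (hW.pull_gr hZ hY f hv)) (by omega)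
  · simp
  · intro v v' h h'
    rw [map_add, mul_add, map_add, h, h', add_zero]

end IsWeilCohomology

end Pool.Agent.Lib.MP_361a6f_ag.H3
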