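import Pool.Agent.Lib.MP_361a6f_ag.H3.Conv

/-!
# The algebra of algebraic correspondences on the transcendental part
-/

open CategoryTheory AlgebraicGeometry MonoidalCategory CartesianMonoidalCategory Opposite

universe u v w

set_option linter.unusedSectionVars false

namespace Pool.Agent.Lib.MP_361a6f_ag.H3

variable {k : Type u} [Field k] {K : Type v} [Field K] [CharZero K]
  {W : CohomologyData.{u, v, w} k K} {𝒱 : VarietyClass k}

/-- the bilinear form attached to a class on `X × X` -/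
noncomputable def bil (W : CohomologyData.{u, v, w} k K) {X : Sch k} (γ : W.coh (X ⊗ X))
    (s t : W.coh X) : K :=
  W.tr (X ⊗ X) (W.pull (fst X X) s * W.pull (snd X X) t * γ)

section

variable {X : Sch k}

theorem bil_add (γ γ' : W.coh (X ⊗ X)) (s t : W.coh X) :
    bil W (γ + γ') s t = bil W γ s t + bil W γ' s t := by
  rw [bil, mul_add, map_add]; rfl

theorem bil_neg (γ : W.coh (X ⊗ X)) (s t : W.coh X) :
    bil W (-γ) s t = - bil W γ s t := by
  rw [bil, mul_neg, map_neg]; rfl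

theorem bil_zero (s t : W.coh X) : bil W (0 : W.coh (X ⊗ X)) s t = 0 := by
  rw [bil, mul_zero, map_zero]

theorem bil_smul (c : K) (γ : W.coh (X ⊗ X)) (s t : W.coh X) :
    bil W (c • γ) s t = c * bil W γ s t := by
  rw [bil, mul_smul_comm, map_smul]; rfl

theorem bil_add_left (γ : W.coh (X ⊗ X)) (s s' t : W.coh X) :
    bil W γ (s + s') t = bil W γ s t + bil W γ s' t := by
  rw [bil, map_add, add_mul, add_mul, map_add]; rfl

theorem bil_smul_left (γ : W.coh (X ⊗ X)) (c : K) (s t : W.coh X) :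
    bil W γ (c • s) t = c * bil W γ s t := by
  rw [bil, map_smul, smul_mul_assoc, smul_mul_assoc, map_smul]; rfl

theorem bil_add_right (γ : W.coh (X ⊗ X)) (s t t' : W.coh X) :
    bil W γ s (t + t') = bil W γ s t + bil W γ s t' := by
  rw [bil, map_add, mul_add, add_mul, map_add]; rfl

theorem bil_smul_right (γ : W.coh (X ⊗ X)) (c : K) (s t : W.coh X) :
    bil W γ s (c • t) = c * bil W γ s t := by
  rw [bil, map_smul, mul_smul_comm, smul_mul_assoc, map_smul]; rfl

theorem bil_sum_left (γ : W.coh (X ⊗ X)) {I : Type} (S : Finset I) (f : I → W.coh X)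
    (t : W.coh X) : bil W γ (∑ i ∈ S, f i) t = ∑ i ∈ S, bil W γ (f i) t := by
  simp only [bil]
  rw [map_sum, Finset.sum_mul, Finset.sum_mul, map_sum]

theorem bil_sum_right (γ : W.coh (X ⊗ X)) {I : Type} (S : Finset I) (f : I → W.coh X)
    (s : W.coh X) : bil W γ s (∑ i ∈ S, f i) = ∑ i ∈ S, bil W γ s (f i) := by
  simp only [bil]
  rw [map_sum, Finset.mul_sum, Finset.sum_mul, map_sum]

end

section

variable (hW : IsWeilCohomology W 𝒱) {X : Sch k} {n : ℕ}
  (hX : 𝒱.mem X n)

/-- induction for classes on a product -/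
theorem prod_induction (hW : IsWeilCohomology W 𝒱) {Y X : Sch k} {d e : ℕ} (hY : 𝒱.mem Y d)
    (hX : 𝒱.mem X e) {P : W.coh (Y ⊗ X) → Prop} (z : W.coh (Y ⊗ X))
    (hgen : ∀ (y : W.coh Y) (x : W.coh X), P (W.pull (fst Y X) y * W.pull (snd Y X) x))
    (h0 : P 0) (hadd : ∀ a b, P a → P b → P (a + b)) (hsmul : ∀ (c : K) a, P a → P (c • a)) :
    P z := by
  have hz : z ∈ Submodule.span K {z | ∃ (x : W.coh Y) (y : W.coh X),
      z = W.pull (fst Y X) x * W.pull (snd Y X) y} := by
    rw [hW.kunneth_span hY hX]; trivial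
  refine Submodule.span_induction (p := fun z _ => P z) ?_ h0 (fun a b _ _ ha hb => hadd a b ha hb)
    (fun c a _ ha => hsmul c a ha) hz
  rintro _ ⟨y, x, rfl⟩
  exact hgen y x

include hW hX in
theorem push_snd (a b : W.coh X) :
    W.push (snd X X) (W.pull (fst X X) a * W.pull (snd X X) b) = W.tr X a • b := by
  have hXX := 𝒱.prod hX hX
  rw [← sub_eq_zero]
  refine hW.duality hX _ (fun v => ?_)
  rw [sub_mul, map_sub, hW.push_adj hXX hX, mul_assoc, ← map_mul, hW.kunneth_tr hX hX,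
    smul_mul_assoc, map_smul, smul_eq_mul, sub_self]

include hW hX in
/-- the trace of `x · pr₁_* v` -/
theorem tr_mul_push_fst (x : W.coh X) (v : W.coh (X ⊗ X)) :
    W.tr X (x * W.push (fst X X) v) = W.tr (X ⊗ X) (W.pull (fst X X) x * v) := by
  refine prod_induction hW hX hX (P := fun v => W.tr X (x * W.push (fst X X) v)
    = W.tr (X ⊗ X) (W.pull (fst X X) x * v)) v ?_ ?_ ?_ ?_
  · intro c d
    rw [hW.push_fst hX hX, ← mul_assoc, ← map_mul, hW.kunneth_tr hX hX, mul_smul_comm, map_smul,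
      smul_eq_mul, mul_comm]
  · simp
  · intro a b ha hb
    rw [map_add, mul_add, map_add, ha, hb, mul_add, map_add]
  · intro c a ha
    rw [map_smul, mul_smul_comm, map_smul, ha, mul_smul_comm, map_smul]

/-- projection to the outer factors -/
noncomputable def pr13 (X : Sch k) : (X ⊗ X) ⊗ X ⟶ X ⊗ X :=
  lift (fst (X ⊗ X) X ≫ fst X X) (snd (X ⊗ X) X)

include hW hX in
/-- base change for the triple product -/
theorem tr_triple (a v : W.coh (X ⊗ X)) :
    W.tr ((X ⊗ X) ⊗ X) (W.pull (fst (X ⊗ X) X) a * W.pull (pr23 X X) v)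
      = W.tr X (W.push (snd X X) a * W.push (fst X X) v) := by
  have hXX := 𝒱.prod hX hX
  refine prod_induction hW hX hX (P := fun a =>
    W.tr ((X ⊗ X) ⊗ X) (W.pull (fst (X ⊗ X) X) a * W.pull (pr23 X X) v)
      = W.tr X (W.push (snd X X) a * W.push (fst X X) v)) a ?_ ?_ ?_ ?_
  · intro a b
    refine prod_induction hW hX hX (P := fun v =>
      W.tr ((X ⊗ X) ⊗ X) (W.pull (fst (X ⊗ X) X) (W.pull (fst X X) a * W.pull (snd X X) b)
        * W.pull (pr23 X X) v)
      = W.tr X (W.push (snd X X) (W.pull (fst X X) a * W.pull (snd X X) b)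
        * W.push (fst X X) v)) v ?_ ?_ ?_ ?_
    · intro c d
      rw [push_snd hW hX, hW.push_fst hX hX, smul_mul_smul_comm, map_smul, smul_eq_mul]
      have e1 : W.pull (pr23 X X) (W.pull (fst X X) c * W.pull (snd X X) d)
          = W.pull (fst (X ⊗ X) X) (W.pull (snd X X) c) * W.pull (snd (X ⊗ X) X) d := by
        rw [map_mul, ← W.pull_comp, ← W.pull_comp, ← W.pull_comp]
        congr 3
        · simp [pr23]
        · simp [pr23]
      rw [e1, ← mul_assoc, ← map_mul, hW.kunneth_tr hXX hX, mul_assoc, ← map_mul,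
        hW.kunneth_tr hX hX]
      ring
    · simp
    · intro p q hp hq
      rw [map_add, mul_add, map_add, hp, hq, map_add, mul_add, map_add]
    · intro c p hp
      rw [map_smul, mul_smul_comm, map_smul, hp, map_smul, mul_smul_comm, map_smul]
  · simp
  · intro p q hp hq
    rw [map_add, add_mul, map_add, hp, hq, map_add, add_mul, map_add]
  · intro c p hp
    rw [map_smul, smul_mul_assoc, map_smul, hp, map_smul, smul_mul_assoc, map_smul]

/-- the action of a class on `X × X` -/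
noncomputable def act (W : CohomologyData.{u, v, w} k K) {X : Sch k} (γ : W.coh (X ⊗ X))
    (s : W.coh X) : W.coh X :=
  W.push (snd X X) (W.pull (fst X X) s * γ)

include hW hX in
theorem act_tr {γ : W.coh (X ⊗ X)} {j : ℕ} (hγ : γ ∈ W.alg (X ⊗ X) j) (s t : W.coh X) :
    W.tr X (act W γ s * t) = bil W γ s t := by
  have hXX := 𝒱.prod hX hX
  rw [act, hW.push_adj hXX hX, bil, mul_assoc, mul_assoc, hW.alg_comm hXX hγ]

/-- the composition of correspondences -/
noncomputable def comp (W : CohomologyData.{u, v, w} k K) {X : Sch k}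
    (γ γ' : W.coh (X ⊗ X)) : W.coh (X ⊗ X) :=
  W.push (pr13 X) (W.pull (fst (X ⊗ X) X) γ * W.pull (pr23 X X) γ')

include hW hX in
theorem comp_alg {γ γ' : W.coh (X ⊗ X)} (hγ : γ ∈ W.alg (X ⊗ X) n)
    (hγ' : γ' ∈ W.alg (X ⊗ X) n) : comp W γ γ' ∈ W.alg (X ⊗ X) n := by
  have hXX := 𝒱.prod hX hX
  have h3 := 𝒱.prod hXX hX
  exact hW.push_alg h3 hXX _ (hW.mul_alg h3 (hW.pull_alg h3 hXX _ hγ) (hW.pull_alg h3 hXX _ hγ'))
    (by omega)

include hW hX in
theorem comp_bil {γ γ' : W.coh (X ⊗ X)} (hγ : γ ∈ W.alg (X ⊗ X) n)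
    (hγ' : γ' ∈ W.alg (X ⊗ X) n) (s t : W.coh X) :
    bil W (comp W γ γ') s t = bil W γ' (act W γ s) t := by
  have hXX := 𝒱.prod hX hX
  have h3 := 𝒱.prod hXX hX
  rw [bil, ← hW.alg_comm hXX (comp_alg hW hX hγ hγ'), comp, hW.push_adj h3 hXX]
  have e1 : W.pull (pr13 X) (W.pull (fst X X) s * W.pull (snd X X) t)
      = W.pull (fst (X ⊗ X) X) (W.pull (fst X X) s)
        * W.pull (pr23 X X) (W.pull (snd X X) t) := by
    rw [map_mul, ← W.pull_comp, ← W.pull_comp, ← W.pull_comp, ← W.pull_comp]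
    congr 3
    · simp [pr13]
    · simp [pr13, pr23]
  have e2 : W.pull (fst (X ⊗ X) X) γ * W.pull (pr23 X X) γ'
        * (W.pull (fst (X ⊗ X) X) (W.pull (fst X X) s)
        * W.pull (pr23 X X) (W.pull (snd X X) t))
      = W.pull (fst (X ⊗ X) X) (W.pull (fst X X) s * γ)
        * W.pull (pr23 X X) (W.pull (snd X X) t * γ') := by
    rw [map_mul, map_mul, mul_assoc (W.pull (fst (X ⊗ X) X) γ),
      ← mul_assoc (W.pull (pr23 X X) γ'),
      hW.alg_comm h3 (hW.pull_alg h3 hXX (pr23 X X) hγ') (W.pull (fst (X ⊗ X) X) _),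
      mul_assoc, ← mul_assoc (W.pull (fst (X ⊗ X) X) γ),
      hW.alg_comm h3 (hW.pull_alg h3 hXX (fst (X ⊗ X) X) hγ),
      hW.alg_comm h3 (hW.pull_alg h3 hXX (pr23 X X) hγ')]
  rw [e1, e2, tr_triple hW hX, tr_mul_push_fst hW hX, bil, act, mul_assoc]

/-- interchange of the factors of `X × X` -/
noncomputable def flip (X : Sch k) : X ⊗ X ≅ X ⊗ X where
  hom := lift (snd X X) (fst X X)
  inv := lift (snd X X) (fst X X)
  hom_inv_id := by ext1 <;> simp
  inv_hom_id := by ext1 <;> simp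

include hW hX in
theorem flip_bil (γ : W.coh (X ⊗ X)) {s t : W.coh X} (hs : s ∈ W.gr X n) (ht : t ∈ W.gr X n) :
    bil W (W.pull (flip X).hom γ) s t = (-1) ^ n * bil W γ t s := by
  have hXX := 𝒱.prod hX hX
  have e1 : W.pull (fst X X) s * W.pull (snd X X) t
      = (-1 : K) ^ n • W.pull (flip X).hom (W.pull (fst X X) t * W.pull (snd X X) s) := by
    rw [map_mul, ← W.pull_comp, ← W.pull_comp,
      hW.comm_gr hXX (hW.pull_gr hXX hX (fst X X) hs) (hW.pull_gr hXX hX (snd X X) ht)]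
    have e2 : (-1 : K) ^ (n * n) = (-1) ^ n := by
      rcases Nat.even_or_odd n with h | h
      · rw [h.neg_one_pow, (h.mul_right n).neg_one_pow]
      · rw [h.neg_one_pow, (h.mul h).neg_one_pow]
    rw [e2]
    congr 4
    · simp [flip]
    · simp [flip]
  rw [bil, e1, smul_mul_assoc, ← map_mul, map_smul, hW.tr_iso hXX hXX, smul_eq_mul, bil]

end

end Pool.Agent.Lib.MP_361a6f_ag.H3
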