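import Pool.Agent.Lib.MP_361a6f_ag.H3.Basic

/-!
# Extension of the field of coefficients of a cohomology theory
-/

open CategoryTheory AlgebraicGeometry MonoidalCategory CartesianMonoidalCategory Opposite
open scoped TensorProduct

universe u v w

set_option linter.unusedSectionVars false

namespace Pool.Agent.Lib.MP_361a6f_ag.H3

variable {k : Type u} [Field k] {K : Type v} [Field K]

/-- extension of scalars along `K → ℂ` -/
noncomputable def CohomologyData.ext' (W : CohomologyData.{u, v, w} k K) [Algebra K ℂ] :
    CohomologyData.{u, 0, w} k ℂ where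
  coh X := ℂ ⊗[K] W.coh X
  ring X := Algebra.TensorProduct.instRing
  algebra X := Algebra.TensorProduct.leftAlgebra
  pull f := Algebra.TensorProduct.map (AlgHom.id ℂ ℂ) (W.pull f)
  pull_id := by
    intro X x
    induction x using TensorProduct.induction_on with
    | zero => simp
    | tmul c x => simp [W.pull_id]
    | add x y hx hy => rw [map_add, hx, hy]
  pull_comp := by
    intro X Y Z f g z
    induction z using TensorProduct.induction_on with
    | zero => simp
    | tmul c x => simp [W.pull_comp]
    | add x y hx hy => rw [map_add, map_add, map_add, hx, hy]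
  gr X i := (W.gr X i).baseChange ℂ
  tr X := (TensorProduct.AlgebraTensorModule.rid K ℂ ℂ).toLinearMap ∘ₗ (W.tr X).baseChange ℂ
  push f := (W.push f).baseChange ℂ
  cl X j Z := (1 : ℂ) ⊗ₜ[K] W.cl X j Z

section

variable [CharZero K] {W : CohomologyData.{u, v, w} k K} {𝒱 : VarietyClass k} [Algebra K ℂ]

/-- the canonical map `H(X) → ℂ ⊗ H(X)` -/
noncomputable def inc (W : CohomologyData.{u, v, w} k K) {X : Sch k} (x : W.coh X) :
    W.ext'.coh X := (1 : ℂ) ⊗ₜ[K] x

theorem inc_add {X : Sch k} (x y : W.coh X) : inc W (x + y) = inc W x + inc W y :=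
  TensorProduct.tmul_add _ _ _

theorem inc_zero {X : Sch k} : inc W (0 : W.coh X) = 0 := TensorProduct.tmul_zero _ _

theorem inc_neg {X : Sch k} (x : W.coh X) : inc W (-x) = - inc W x :=
  TensorProduct.tmul_neg _ _

theorem inc_one {X : Sch k} : inc W (1 : W.coh X) = 1 := rfl

theorem inc_mul {X : Sch k} (x y : W.coh X) : inc W (x * y) = inc W x * inc W y := by
  have h := Algebra.TensorProduct.tmul_mul_tmul (R := K) (1 : ℂ) (1 : ℂ) x y
  rw [one_mul] at h
  exact h.symm

theorem inc_pow {X : Sch k} (x : W.coh X) (r : ℕ) : inc W (x ^ r) = inc W x ^ r := by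
  induction r with
  | zero => rw [pow_zero, pow_zero, inc_one]
  | succ r ih => rw [pow_succ, pow_succ, inc_mul, ih]

theorem tmul_eq {X : Sch k} (c : ℂ) (x : W.coh X) :
    (c ⊗ₜ[K] x : ℂ ⊗[K] W.coh X) = (c • inc W x : W.ext'.coh X) := by
  have h : c • ((1 : ℂ) ⊗ₜ[K] x) = c ⊗ₜ[K] x := by
    rw [TensorProduct.smul_tmul', smul_eq_mul, mul_one]
  exact h.symm

theorem inc_smul {X : Sch k} (c : K) (x : W.coh X) :
    inc W (c • x) = algebraMap K ℂ c • inc W x := by
  have h : (1 : ℂ) ⊗ₜ[K] (c • x) = (c • (1 : ℂ)) ⊗ₜ[K] x := (TensorProduct.smul_tmul c 1 x).symm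
  have h2 : (c • (1 : ℂ)) = algebraMap K ℂ c := (Algebra.algebraMap_eq_smul_one c).symm
  rw [h2] at h
  exact h.trans (tmul_eq _ _)

theorem inc_inj {X : Sch k} : Function.Injective (inc W : W.coh X → W.ext'.coh X) :=
  Algebra.TensorProduct.includeRight_injective (R := K) (A := ℂ) (B := W.coh X)
    (algebraMap K ℂ).injective

/-- induction for classes with extended coefficients -/
theorem ext_induction {X : Sch k} {P : W.ext'.coh X → Prop} (z : W.ext'.coh X)
    (hinc : ∀ x : W.coh X, P (inc W x)) (hadd : ∀ a b, P a → P b → P (a + b))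
    (hsmul : ∀ (c : ℂ) a, P a → P (c • a)) : P z := by
  refine TensorProduct.induction_on (motive := P) z ?_ ?_ ?_
  · have := hinc 0
    rwa [inc_zero] at this
  · intro c x
    rw [tmul_eq]
    exact hsmul c _ (hinc x)
  · exact hadd

theorem ext_pull {X Y : Sch k} (f : X ⟶ Y) (y : W.coh Y) :
    W.ext'.pull f (inc W y) = inc W (W.pull f y) := by
  change Algebra.TensorProduct.map (AlgHom.id ℂ ℂ) (W.pull f) ((1 : ℂ) ⊗ₜ[K] y) = _
  rw [Algebra.TensorProduct.map_tmul]
  rfl

theorem ext_push {X Y : Sch k} (f : X ⟶ Y) (x : W.coh X) :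
    W.ext'.push f (inc W x) = inc W (W.push f x) := by
  change (W.push f).baseChange ℂ ((1 : ℂ) ⊗ₜ[K] x) = _
  rw [LinearMap.baseChange_tmul]
  rfl

theorem ext_tr {X : Sch k} (x : W.coh X) :
    W.ext'.tr X (inc W x) = algebraMap K ℂ (W.tr X x) := by
  change (TensorProduct.AlgebraTensorModule.rid K ℂ ℂ).toLinearMap
    ((W.tr X).baseChange ℂ ((1 : ℂ) ⊗ₜ[K] x)) = _
  rw [LinearMap.baseChange_tmul]
  change TensorProduct.AlgebraTensorModule.rid K ℂ ℂ ((1 : ℂ) ⊗ₜ[K] W.tr X x) = _
  rw [TensorProduct.AlgebraTensorModule.rid_tmul, Algebra.smul_def, mul_one]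

theorem inc_gr {X : Sch k} {i : ℕ} {x : W.coh X} (hx : x ∈ W.gr X i) :
    inc W x ∈ W.ext'.gr X i := Submodule.tmul_mem_baseChange_of_mem _ hx

/-- induction for homogeneous classes with extended coefficients -/
theorem gr_induction {X : Sch k} {i : ℕ} {P : W.ext'.coh X → Prop} {z : W.ext'.coh X}
    (hz : z ∈ W.ext'.gr X i) (hinc : ∀ x ∈ W.gr X i, P (inc W x))
    (hadd : ∀ a b, P a → P b → P (a + b)) (hsmul : ∀ (c : ℂ) a, P a → P (c • a)) : P z := by
  have hz' : z ∈ (W.gr X i).baseChange ℂ := hz
  rw [Submodule.baseChange_eq_span] at hz'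
  refine Submodule.span_induction (p := fun z _ => P z) ?_ ?_ ?_ ?_ hz'
  · rintro _ ⟨x, hx, rfl⟩
    exact hinc x hx
  · have := hinc 0 (zero_mem _)
    rwa [inc_zero] at this
  · intro a b _ _ ha hb; exact hadd _ _ ha hb
  · intro c a _ ha; exact hsmul _ _ ha

theorem ext_alg_iff {X : Sch k} {j : ℕ} {z : W.ext'.coh X} :
    z ∈ W.ext'.alg X j ↔ ∃ x ∈ W.alg X j, z = inc W x := by
  constructor
  · intro hz
    induction hz using AddSubgroup.closure_induction with
    | mem z hz =>
      obtain ⟨q, Z, rfl⟩ := hz
      refine ⟨(q : K) • W.cl X j Z, AddSubgroup.subset_closure ⟨q, Z, rfl⟩, ?_⟩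
      rw [inc_smul, map_ratCast]
      rfl
    | zero => exact ⟨0, zero_mem _, inc_zero.symm⟩
    | add a b _ _ ha hb =>
      obtain ⟨x, hx, rfl⟩ := ha
      obtain ⟨y, hy, rfl⟩ := hb
      exact ⟨x + y, add_mem hx hy, (inc_add _ _).symm⟩
    | neg a _ ha =>
      obtain ⟨x, hx, rfl⟩ := ha
      exact ⟨-x, neg_mem hx, (inc_neg _).symm⟩
  · rintro ⟨x, hx, rfl⟩
    induction hx using AddSubgroup.closure_induction with
    | mem x hx =>
      obtain ⟨q, Z, rfl⟩ := hx
      refine AddSubgroup.subset_closure ⟨q, Z, ?_⟩
      rw [inc_smul, map_ratCast]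
      rfl
    | zero => rw [inc_zero]; exact zero_mem _
    | add x y _ _ hx hy => rw [inc_add]; exact add_mem hx hy
    | neg x _ hx => rw [inc_neg]; exact neg_mem hx

theorem inc_alg {X : Sch k} {j : ℕ} {x : W.coh X} (hx : x ∈ W.alg X j) :
    inc W x ∈ W.ext'.alg X j := ext_alg_iff.mpr ⟨x, hx, rfl⟩

/-- duality after extension of scalars -/
theorem ext_duality (hW : IsWeilCohomology W 𝒱) {X : Sch k} {d : ℕ} (hX : 𝒱.mem X d)
    (x : W.ext'.coh X) (h : ∀ y, W.ext'.tr X (x * y) = 0) : x = 0 := by
  classical
  have := hW.finite hX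
  let B : LinearMap.BilinForm K (W.coh X) := (LinearMap.mul K (W.coh X)).compr₂ (W.tr X)
  have hBapp : ∀ x y, B x y = W.tr X (x * y) := fun _ _ => rfl
  have hB : B.Nondegenerate := by
    refine LinearMap.BilinForm.Nondegenerate.ofSeparatingLeft ?_
    intro x hx
    exact hW.duality hX x (fun y => hx y)
  let b := Module.finBasis K (W.coh X)
  let b' := B.flip.dualBasis hB.flip b
  have hbb : ∀ i j, W.tr X (b j * b' i) = if j = i then 1 else 0 := by
    intro i j
    have := LinearMap.BilinForm.apply_dualBasis_left hB.flip b i j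
    rw [LinearMap.BilinForm.flip_apply] at this
    exact this
  let c : Module.Basis _ ℂ (ℂ ⊗[K] W.coh X) := Algebra.TensorProduct.basis ℂ b
  have hc : ∀ i, c i = inc W (b i) := by
    intro i
    exact Algebra.TensorProduct.basis_apply b i
  have hx : x = ∑ i, c.repr x i • inc W (b i) := by
    have := (c.sum_repr x).symm
    simp only [hc] at this
    exact this
  have h0 : ∀ j, c.repr x j = 0 := by
    intro j
    have h1 := h (inc W (b' j))
    rw [hx, Finset.sum_mul, map_sum] at h1
    have h2 : ∀ i, W.ext'.tr X (c.repr x i • inc W (b i) * inc W (b' j))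
        = if i = j then c.repr x i else 0 := by
      intro i
      rw [smul_mul_assoc, map_smul, ← inc_mul, ext_tr, hbb, smul_eq_mul]
      split_ifs <;> simp
    rw [Finset.sum_congr rfl (fun i _ => h2 i)] at h1
    simpa using h1
  rw [hx]
  exact Finset.sum_eq_zero (fun i _ => by rw [h0 i, zero_smul])

/-- Extension of scalars preserves the axioms. -/
theorem ext_weil (hW : IsWeilCohomology W 𝒱) : IsWeilCohomology W.ext' 𝒱 where
  graded :=
    { internal := fun hX => (hW.internal hX).baseChange
      finite := fun {X} {d} hX => by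
        have := hW.finite hX
        exact (inferInstance : Module.Finite ℂ (ℂ ⊗[K] W.coh X))
      one := fun hX => inc_gr (hW.one_gr hX)
      mul := fun {X} {d} hX {i} {j} {x} {y} hx hy => by
        refine gr_induction (P := fun x => x * y ∈ W.ext'.gr X (i + j)) hx ?_ ?_ ?_
        · intro x hx
          refine gr_induction (P := fun y => inc W x * y ∈ W.ext'.gr X (i + j)) hy ?_ ?_ ?_
          · intro y hy
            rw [← inc_mul]
            exact inc_gr (hW.mul_gr hX hx hy)
          · intro a b ha hb
            rw [mul_add]; exact add_mem ha hb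
          · intro c a ha
            rw [mul_smul_comm]; exact Submodule.smul_mem _ _ ha
        · intro a b ha hb
          rw [add_mul]; exact add_mem ha hb
        · intro c a ha
          rw [smul_mul_assoc]; exact Submodule.smul_mem _ _ ha
      comm := fun {X} {d} hX {i} {j} {x} {y} hx hy => by
        change x * y = ((-1 : ℂ) ^ (i * j)) • (y * x)
        refine gr_induction (P := fun x => x * y = ((-1 : ℂ) ^ (i * j)) • (y * x)) hx ?_ ?_ ?_
        · intro x hx
          refine gr_induction (P := fun y => inc W x * y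
            = ((-1 : ℂ) ^ (i * j)) • (y * inc W x)) hy ?_ ?_ ?_
          · intro y hy
            rw [← inc_mul, hW.comm_gr hX hx hy, inc_smul, inc_mul]
            congr 1
            simp
          · intro a b ha hb
            rw [mul_add, add_mul, ha, hb, smul_add]
          · intro c a ha
            rw [mul_smul_comm, smul_mul_assoc, ha, smul_comm]
        · intro a b ha hb
          rw [add_mul, mul_add, ha, hb, smul_add]
        · intro c a ha
          rw [mul_smul_comm, smul_mul_assoc, ha, smul_comm]
      top := fun {X} {d} hX {i} {x} hx hi => by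
        refine gr_induction (P := fun x => x = 0) hx ?_ ?_ ?_
        · intro x hx
          rw [hW.top_gr hX hx hi, inc_zero]
        · rintro a b rfl rfl
          rw [add_zero]
        · rintro c a rfl
          rw [smul_zero]
      pull := fun {X} {Y} {d} {e} hX hY f {i} {y} hy => by
        change W.ext'.pull f y ∈ W.ext'.gr X i
        refine gr_induction (P := fun y => W.ext'.pull f y ∈ W.ext'.gr X i) hy ?_ ?_ ?_
        · intro y hy
          rw [ext_pull]
          exact inc_gr (hW.pull_gr hX hY f hy)
        · intro a b ha hb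
          rw [map_add]; exact add_mem ha hb
        · intro c a ha
          rw [map_smul]; exact Submodule.smul_mem _ _ ha }
  poincare :=
    { point_coh := fun x => by
        refine ext_induction (P := fun x => ∃ c : ℂ, x = W.ext'.scal c 1) x ?_ ?_ ?_
        · intro x
          obtain ⟨c, rfl⟩ := hW.point_coh x
          refine ⟨algebraMap K ℂ c, ?_⟩
          rw [inc_smul, inc_one]
        · rintro _ _ ⟨a, rfl⟩ ⟨b, rfl⟩
          exact ⟨a + b, (add_smul a b _).symm⟩
        · rintro c _ ⟨a, rfl⟩
          exact ⟨c * a, (mul_smul c a _).symm⟩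
      point_tr := by
        have h := ext_tr (W := W) (1 : W.coh (𝟙_ (Sch k)))
        rw [hW.point_tr, map_one] at h
        exact h
      deg := fun {X} {d} hX {i} {x} hx hi => by
        refine gr_induction (P := fun x => W.ext'.tr X x = 0) hx ?_ ?_ ?_
        · intro x hx
          rw [ext_tr, hW.tr_gr hX hx hi, map_zero]
        · intro a b ha hb
          rw [map_add, ha, hb, add_zero]
        · intro c a ha
          rw [map_smul, ha, smul_zero]
      duality := fun hX x h => ext_duality hW hX x h
      iso := fun {X} {Y} {d} {e} hX hY f y => by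
        refine ext_induction (P := fun y => W.ext'.tr X (W.ext'.pull f.hom y) = W.ext'.tr Y y)
          y ?_ ?_ ?_
        · intro y
          rw [ext_pull, ext_tr, ext_tr, hW.tr_iso hX hY]
        · intro a b ha hb
          rw [map_add, map_add, ha, hb, map_add]
        · intro c a ha
          rw [map_smul, map_smul, ha, map_smul]
      adj := fun {X} {Y} {d} {e} hX hY f x y => by
        change W.ext'.tr Y (W.ext'.push f x * y) = W.ext'.tr X (x * W.ext'.pull f y)
        refine ext_induction (P := fun x => W.ext'.tr Y (W.ext'.push f x * y)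
          = W.ext'.tr X (x * W.ext'.pull f y)) x ?_ ?_ ?_
        · intro x
          refine ext_induction (P := fun y => W.ext'.tr Y (W.ext'.push f (inc W x) * y)
            = W.ext'.tr X (inc W x * W.ext'.pull f y)) y ?_ ?_ ?_
          · intro y
            rw [ext_push, ext_pull, ← inc_mul, ← inc_mul, ext_tr, ext_tr, hW.push_adj hX hY]
          · intro a b ha hb
            rw [mul_add, map_add, ha, hb, map_add, mul_add, map_add]
          · intro c a ha
            rw [mul_smul_comm, map_smul, ha, map_smul, mul_smul_comm, map_smul]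
        · intro a b ha hb
          rw [map_add, add_mul, map_add, ha, hb, add_mul, map_add]
        · intro c a ha
          rw [map_smul, smul_mul_assoc, map_smul, ha, smul_mul_assoc, map_smul] }
  kunneth :=
    { span := fun {X} {Y} {d} {e} hX hY => by
        rw [eq_top_iff]
        intro z _
        refine ext_induction (P := fun z => z ∈ Submodule.span ℂ {z | ∃ (x : W.ext'.coh X)
          (y : W.ext'.coh Y), z = W.ext'.ext x y}) z ?_ ?_ ?_
        · intro z
          have hz : z ∈ Submodule.span K {z | ∃ (x : W.coh X) (y : W.coh Y),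
              z = W.pull (fst X Y) x * W.pull (snd X Y) y} := by
            rw [hW.kunneth_span hX hY]; trivial
          refine Submodule.span_induction (p := fun z _ => inc W z ∈ Submodule.span ℂ
            {z | ∃ (x : W.ext'.coh X) (y : W.ext'.coh Y), z = W.ext'.ext x y}) ?_ ?_ ?_ ?_ hz
          · rintro _ ⟨x, y, rfl⟩
            refine Submodule.subset_span ⟨inc W x, inc W y, ?_⟩
            rw [inc_mul, ← ext_pull, ← ext_pull]
          · rw [inc_zero]; exact zero_mem _
          · intro a b _ _ ha hb
            rw [inc_add]; exact add_mem ha hb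
          · intro c a _ ha
            rw [inc_smul]; exact Submodule.smul_mem _ _ ha
        · intro a b ha hb; exact add_mem ha hb
        · intro c a ha; exact Submodule.smul_mem _ _ ha
      trace := fun {X} {Y} {d} {e} hX hY x y => by
        change W.ext'.tr (X ⊗ Y) (W.ext'.pull (fst X Y) x * W.ext'.pull (snd X Y) y)
          = W.ext'.tr X x * W.ext'.tr Y y
        refine ext_induction (P := fun x => W.ext'.tr (X ⊗ Y) (W.ext'.pull (fst X Y) x *
          W.ext'.pull (snd X Y) y) = W.ext'.tr X x * W.ext'.tr Y y) x ?_ ?_ ?_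
        · intro x
          refine ext_induction (P := fun y => W.ext'.tr (X ⊗ Y) (W.ext'.pull (fst X Y)
            (inc W x) * W.ext'.pull (snd X Y) y) = W.ext'.tr X (inc W x) * W.ext'.tr Y y)
            y ?_ ?_ ?_
          · intro y
            rw [ext_pull, ext_pull, ← inc_mul, ext_tr, ext_tr, ext_tr, hW.kunneth_tr hX hY,
              RingHom.map_mul]
          · intro a b ha hb
            rw [map_add, mul_add, map_add, ha, hb, map_add, mul_add]
          · intro c a ha
            rw [map_smul, mul_smul_comm, map_smul, ha, map_smul, smul_eq_mul, smul_eq_mul]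
            ring
        · intro a b ha hb
          rw [map_add, add_mul, map_add, ha, hb, map_add, add_mul]
        · intro c a ha
          rw [map_smul, smul_mul_assoc, map_smul, ha, map_smul, smul_eq_mul, smul_eq_mul]
          ring }
  cycles :=
    { deg := fun hX j Z => inc_gr (hW.cl_gr hX j Z)
      point := fun hX Z => by
        have h := ext_tr (W := W) (W.cl _ _ Z)
        rw [hW.cl_point hX, map_one] at h
        exact h
      one := fun hX => inc_alg (hW.one_alg hX)
      mul := fun {X} {d} hX {i} {j} {x} {y} hx hy => by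
        obtain ⟨x', hx', rfl⟩ := ext_alg_iff.mp hx
        obtain ⟨y', hy', rfl⟩ := ext_alg_iff.mp hy
        have h := inc_alg (hW.mul_alg hX hx' hy')
        rw [inc_mul] at h
        exact h
      pull := fun {X} {Y} {d} {e} hX hY f {j} {y} hy => by
        obtain ⟨y', hy', rfl⟩ := ext_alg_iff.mp hy
        have h := inc_alg (hW.pull_alg hX hY f hy')
        rw [← ext_pull] at h
        exact h
      push := fun {X} {Y} {d} {e} hX hY f {i} {j} {x} hx hij => by
        obtain ⟨x', hx', rfl⟩ := ext_alg_iff.mp hx
        have h := inc_alg (hW.push_alg hX hY f hx' hij)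
        rw [← ext_push] at h
        exact h }

end

end Pool.Agent.Lib.MP_361a6f_ag.H3
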