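import Pool.Agent.Lib.MP_361a6f_ag.H3.GenMain
import Pool.Agent.Lib.MP_361a6f_ag.H3.BaseChange

/-!
# The main theorem for powers with classes generated by the square
-/

open CategoryTheory AlgebraicGeometry MonoidalCategory CartesianMonoidalCategory Opposite
open scoped TensorProduct

universe u v w

set_option linter.unusedSectionVars false

namespace Pool.Agent.Lib.MP_361a6f_ag.H3

section

variable {k : Type u} [Field k] {K : Type v} [Field K] [CharZero K]
  {W : CohomologyData.{u, v, w} k K} {𝒱 : VarietyClass k} [Algebra K ℂ]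

theorem ratPos_ext {x : K} : RatPos (algebraMap K ℂ x) ↔ RatPos x := by
  constructor
  · rintro ⟨r, hr, h⟩
    refine ⟨r, hr, (algebraMap K ℂ).injective ?_⟩
    rw [h, map_ratCast]
  · rintro ⟨r, hr, rfl⟩
    exact ⟨r, hr, by rw [map_ratCast]⟩

theorem hodge_ext {X : Sch k} {n : ℕ} {ξ : W.coh X} :
    HodgeType W.ext' X n (inc W ξ) ↔ HodgeType W X n ξ := by
  have key : ∀ (j : ℕ) (x : W.coh X), (-1 : ℂ) ^ j * W.ext'.tr X
      (inc W ξ ^ (n - 2 * j) * (inc W x * inc W x))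
      = algebraMap K ℂ ((-1) ^ j * W.tr X (ξ ^ (n - 2 * j) * (x * x))) := by
    intro j x
    rw [← inc_mul, ← inc_pow, ← inc_mul, ext_tr, RingHom.map_mul, map_pow, map_neg, map_one]
  constructor
  · intro h j hj x hx h1 h2
    have h3 := h j hj (inc W x) (inc_alg hx) (by
      rw [← inc_pow, ← inc_mul, h1, inc_zero]) (fun h0 => h2 (inc_inj (by
        rw [h0, inc_zero])))
    rw [key] at h3
    exact ratPos_ext.mp h3
  · intro h j hj z hz h1 h2
    obtain ⟨x, hx, rfl⟩ := ext_alg_iff.mp hz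
    rw [key]
    refine ratPos_ext.mpr (h j hj x hx (inc_inj ?_) (fun h0 => h2 (by rw [h0, inc_zero])))
    rw [inc_mul, inc_pow, h1, inc_zero]

theorem prodPol_ext {Z X : Sch k} (l : W.coh Z) (ξ : ℕ → W.coh X) (m : ℕ) :
    prodPol W.ext' (inc W l) (fun i => inc W (ξ i)) m = inc W (prodPol W l ξ m) := by
  induction m with
  | zero => rfl
  | succ m ih =>
    have e1 : prodPol W.ext' (inc W l) (fun i => inc W (ξ i)) (m + 1)
        = W.ext'.pull (fst (prodPow Z X m) X) (prodPol W.ext' (inc W l) (fun i => inc W (ξ i)) m)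
          + W.ext'.pull (snd (prodPow Z X m) X) (inc W (ξ m)) := rfl
    rw [e1, ih, ext_pull, ext_pull]
    exact (inc_add _ _).symm

theorem halg_ext {X : Sch k} {n : ℕ} (halg : AlgebraicOutside W X n) :
    ∀ i, i ≠ n → W.ext'.gr X i
      ≤ Submodule.span ℂ {x | ∃ j, 2 * j = i ∧ x ∈ W.ext'.alg X j} := by
  intro i hi z hz
  refine gr_induction (P := fun z => z ∈ Submodule.span ℂ
    {x | ∃ j, 2 * j = i ∧ x ∈ W.ext'.alg X j}) hz ?_ ?_ ?_
  · intro x hx
    refine Submodule.span_induction (p := fun x _ => inc W x ∈ Submodule.span ℂ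
      {x | ∃ j, 2 * j = i ∧ x ∈ W.ext'.alg X j}) ?_ ?_ ?_ ?_ (halg i x hi hx)
    · rintro x ⟨j, hj, hx⟩
      exact Submodule.subset_span ⟨j, hj, inc_alg hx⟩
    · rw [inc_zero]; exact zero_mem _
    · intro a b _ _ ha hb
      rw [inc_add]; exact add_mem ha hb
    · intro c a _ ha
      rw [inc_smul]; exact Submodule.smul_mem _ _ ha
  · intro a b ha hb; exact add_mem ha hb
  · intro c a ha; exact Submodule.smul_mem _ _ ha

theorem gen_ext {X : Sch k} (hG : GeneratedBySquare W X) : GeneratedBySquare W.ext' X := by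
  intro a j z hz
  obtain ⟨x, hx, rfl⟩ := ext_alg_iff.mp hz
  refine Algebra.adjoin_induction (p := fun x _ => inc W x ∈
    Algebra.adjoin ℂ {w | SquareClass W.ext' X a w}) ?_ ?_ ?_ ?_ (hG a j x hx)
  · rintro w ⟨i, l, j, γ, hγ, rfl⟩
    refine Algebra.subset_adjoin ⟨i, l, j, inc W γ, inc_alg hγ, ?_⟩
    exact (ext_pull _ _).symm
  · intro r
    rw [Algebra.algebraMap_eq_smul_one, inc_smul, inc_one, ← Algebra.algebraMap_eq_smul_one]
    exact Subalgebra.algebraMap_mem _ _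
  · intro a b _ _ ha hb
    rw [inc_add]; exact add_mem ha hb
  · intro a b _ _ ha hb
    rw [inc_mul]; exact mul_mem ha hb

end

/-- The main theorem. -/
theorem gen_final {k : Type u} [Field k] {K : Type v} [Field K] [CharZero K]
    {W : CohomologyData.{u, v, w} k K} {𝒱 : VarietyClass k} (ι : K →+* ℂ)
    (hW : IsWeilCohomology W 𝒱) {X : Sch k} {n : ℕ} (hX : 𝒱.mem X n) (hn : 0 < n)
    {ξ : ℕ → W.coh X} (hξ : ∀ i, ξ i ∈ W.alg X 1) (hHT : ∀ i, HodgeType W X n (ξ i))
    (halg : AlgebraicOutside W X n)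
    (h2 : HodgeType W (prodPow (𝟙_ (Sch k)) X 2) (2 * n)
      (prodPol W (0 : W.coh (𝟙_ (Sch k))) ξ 2))
    (hG : GeneratedBySquare W X) (m : ℕ) :
    HodgeType W (prodPow (𝟙_ (Sch k)) X m) (m * n)
      (prodPol W (0 : W.coh (𝟙_ (Sch k))) ξ m) := by
  let _ : Algebra K ℂ := ι.toAlgebra
  have h3 : ∀ m, prodPol W.ext' (0 : W.ext'.coh (𝟙_ (Sch k))) (fun i => inc W (ξ i)) m
      = inc W (prodPol W (0 : W.coh (𝟙_ (Sch k))) ξ m) := by
    intro m
    rw [← prodPol_ext, inc_zero]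
  have h4 := gen_main (ext_weil hW) hX (ξ := fun i => inc W (ξ i)) (fun i => inc_alg (hξ i))
    (fun i => hodge_ext.mpr (hHT i)) hn (halg_ext halg)
    (by rw [h3]; exact hodge_ext.mpr h2)
    (fun a j z hz _ => gen_ext hG a j z hz) m
  rw [h3] at h4
  exact hodge_ext.mp h4

end Pool.Agent.Lib.MP_361a6f_ag.H3
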