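import Pool.Agent.Lib.MP_361a6f_ag.H3.Lef

/-!
# Powers
-/

open CategoryTheory AlgebraicGeometry MonoidalCategory CartesianMonoidalCategory Opposite

universe u v w

set_option linter.unusedSectionVars false

namespace Pool.Agent.Lib.MP_361a6f_ag.H3

variable {k : Type u} [Field k] {K : Type v} [Field K] [CharZero K]
  {W : CohomologyData.{u, v, w} k K} {𝒱 : VarietyClass k}

/-- positivity on the primitive algebraic classes in a subspace `S` -/
def HTS (W : CohomologyData.{u, v, w} k K) (X : Sch k) (n : ℕ)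
    (ξ : W.coh X) (S : Submodule K (W.coh X)) : Prop :=
  ∀ j : ℕ, 2 * j ≤ n → ∀ x ∈ W.alg X j, x ∈ S → ξ ^ (n - 2 * j + 1) * x = 0 → x ≠ 0 →
    RatPos ((-1) ^ j * W.tr X (ξ ^ (n - 2 * j) * (x * x)))

theorem HTS_top {X : Sch k} {n : ℕ} {ξ : W.coh X} :
    HTS W X n ξ ⊤ ↔ HodgeType W X n ξ :=
  ⟨fun h j hj x hx h1 h2 => h j hj x hx trivial h1 h2, fun h j hj x hx _ h1 h2 => h j hj x hx h1 h2⟩

theorem HTS.mono {X : Sch k} {n : ℕ} {ξ : W.coh X}
    {S S' : Submodule K (W.coh X)} (h : HTS W X n ξ S') (hS : S ≤ S') : HTS W X n ξ S :=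
  fun j hj x hx hxS h1 h2 => h j hj x hx (hS hxS) h1 h2

theorem LD_HR_iff (hW : IsWeilCohomology W 𝒱) {X : Sch k} {n : ℕ}
    (hX : 𝒱.mem X n) {ξ : W.coh X} (hξ : ξ ∈ W.alg X 1) (S : Submodule K (W.coh X))
    (hS : ∀ x ∈ S, ξ * x ∈ S) :
    (LD hW hX hξ S hS).HR n ↔ HTS W X n ξ S := by
  constructor
  · intro h j hj x hx hxS h1 h2
    have h3 := h j hj x ⟨hx, hxS⟩ (by rw [LD_pow]; exact h1) h2
    rw [LD_pow, LD_B, ← mul_assoc, hW.alg_comm hX hx, mul_assoc] at h3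
    exact h3
  · intro h j hj x hx h1 h2
    have h3 := h j hj x hx.1 hx.2 (by rw [LD_pow] at h1; exact h1) h2
    rw [LD_pow, LD_B, ← mul_assoc, hW.alg_comm hX hx.1, mul_assoc]
    exact h3

/-- transport along an isomorphism -/
theorem HTS.iso (hW : IsWeilCohomology W 𝒱) {X Y : Sch k} {d n e : ℕ}
    (hX : 𝒱.mem X d) (hY : 𝒱.mem Y e) (f : X ≅ Y) {ξ : W.coh Y} {S : Submodule K (W.coh Y)}
    {S' : Submodule K (W.coh X)} (hS : ∀ x ∈ S, W.pull f.hom x ∈ S')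
    (h : HTS W X n (W.pull f.hom ξ) S') : HTS W Y n ξ S := by
  intro j hj x hx hxS h1 h2
  have h3 := h j hj (W.pull f.hom x) (hW.pull_alg hX hY _ hx) (hS x hxS)
    (by rw [← map_pow, ← map_mul, h1, map_zero])
    (fun h0 => h2 (by
      have := congrArg (W.pull f.inv) h0
      rwa [← W.pull_comp, f.inv_hom_id, W.pull_id, map_zero] at this))
  rw [← map_pow, ← map_mul, ← map_mul, hW.tr_iso hX hY] at h3
  exact h3

section

variable (hW : IsWeilCohomology W 𝒱) {Z X : Sch k} {d n : ℕ}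
  (hZ : 𝒱.mem Z d) (hX : 𝒱.mem X n)

/-- interchange of the last two factors -/
noncomputable def swap (Z X : Sch k) : (Z ⊗ X) ⊗ X ≅ (Z ⊗ X) ⊗ X where
  hom := lift (lift (fst (Z ⊗ X) X ≫ fst Z X) (snd (Z ⊗ X) X)) (fst (Z ⊗ X) X ≫ snd Z X)
  inv := lift (lift (fst (Z ⊗ X) X ≫ fst Z X) (snd (Z ⊗ X) X)) (fst (Z ⊗ X) X ≫ snd Z X)
  hom_inv_id := by
    ext1
    · ext1 <;> simp
    · simp
  inv_hom_id := by
    ext1
    · ext1 <;> simp
    · simp

theorem swap_fst_fst :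
    ((swap Z X).hom ≫ fst (Z ⊗ X) X) ≫ fst Z X = fst (Z ⊗ X) X ≫ fst Z X := by
  simp [swap]

theorem swap_fst_snd : ((swap Z X).hom ≫ fst (Z ⊗ X) X) ≫ snd Z X = snd (Z ⊗ X) X := by
  simp [swap]

theorem swap_snd : (swap Z X).hom ≫ snd (Z ⊗ X) X = fst (Z ⊗ X) X ≫ snd Z X := by
  simp [swap]

theorem swap_lam (l : W.coh Z) (ξ₁ ξ₂ : W.coh X) :
    W.pull (swap Z X).hom (lam W (lam W l ξ₁) ξ₂) = lam W (lam W l ξ₂) ξ₁ := by
  simp only [lam, map_add]
  rw [← W.pull_comp, ← W.pull_comp, ← W.pull_comp, ← W.pull_comp, ← W.pull_comp, swap_snd,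
    swap_fst_fst, swap_fst_snd, W.pull_comp, W.pull_comp]
  abel

include hW hZ hX in
theorem swap_tens {T : Submodule K (W.coh X)} (hTn : T ≤ W.gr X n) :
    ∀ x ∈ tens W (⊤ : Submodule K (W.coh (Z ⊗ X))) T,
      W.pull (swap Z X).hom x ∈ tens W (tens W (⊤ : Submodule K (W.coh Z)) T)
        (⊤ : Submodule K (W.coh X)) := by
  have hZX := 𝒱.prod hZ hX
  have h1 := 𝒱.prod hZX hX
  intro x hx
  refine Submodule.span_induction (p := fun x _ => W.pull (swap Z X).hom x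
    ∈ tens W (tens W (⊤ : Submodule K (W.coh Z)) T) (⊤ : Submodule K (W.coh X))) ?_ ?_ ?_ ?_ hx
  · rintro _ ⟨b, _, t, ht, rfl⟩
    have hb : b ∈ tens W (⊤ : Submodule K (W.coh Z)) (⊤ : Submodule K (W.coh X)) := by
      rw [tens_top hW hZ hX]; trivial
    refine Submodule.span_induction (p := fun b _ => W.pull (swap Z X).hom
      (W.pull (fst (Z ⊗ X) X) b * W.pull (snd (Z ⊗ X) X) t)
      ∈ tens W (tens W (⊤ : Submodule K (W.coh Z)) T) (⊤ : Submodule K (W.coh X))) ?_ ?_ ?_ ?_ hb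
    · rintro _ ⟨y, _, x, _, rfl⟩
      refine hW.hom_induction hX (P := fun x => W.pull (swap Z X).hom
        (W.pull (fst (Z ⊗ X) X) (W.pull (fst Z X) y * W.pull (snd Z X) x)
          * W.pull (snd (Z ⊗ X) X) t)
        ∈ tens W (tens W (⊤ : Submodule K (W.coh Z)) T) (⊤ : Submodule K (W.coh X))) x ?_ ?_ ?_
      · intro i x hx
        rw [map_mul (W.pull (swap Z X).hom), map_mul (W.pull (fst (Z ⊗ X) X)),
          map_mul (W.pull (swap Z X).hom), ← W.pull_comp, ← W.pull_comp,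
          ← W.pull_comp, ← W.pull_comp, ← W.pull_comp, swap_snd, swap_fst_fst, swap_fst_snd,
          mul_assoc]
        rw [hW.comm_gr h1 (hW.pull_gr h1 hX (snd (Z ⊗ X) X) hx)
          (hW.pull_gr h1 hX (fst (Z ⊗ X) X ≫ snd Z X) (hTn ht)), mul_smul_comm, ← mul_assoc,
          W.pull_comp, W.pull_comp, ← map_mul]
        exact Submodule.smul_mem _ _ (mem_tens (mem_tens trivial ht) trivial)
      · simp
      · intro p q hp hq
        rw [map_add, mul_add, map_add, add_mul, map_add]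
        exact add_mem hp hq
    · simp
    · intro p q _ _ hp hq
      rw [map_add, add_mul, map_add]
      exact add_mem hp hq
    · intro c p _ hp
      rw [map_smul, smul_mul_assoc, map_smul]
      exact Submodule.smul_mem _ _ hp
  · rw [map_zero]; exact zero_mem _
  · intro p q _ _ hp hq
    rw [map_add]
    exact add_mem hp hq
  · intro c p _ hp
    rw [map_smul]
    exact Submodule.smul_mem _ _ hp

include hW hZ hX in
/-- on `H(Z) ⊗ T` the polarisation of `X` does not matter -/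
theorem HTS_change {T : Submodule K (W.coh X)} {l : W.coh Z} (hl : l ∈ W.alg Z 1)
    {ξ₁ ξ₂ : W.coh X} (hξ₁ : ξ₁ ∈ W.alg X 1) (hξ₂ : ξ₂ ∈ W.alg X 1)
    (hT₁ : ∀ t ∈ T, ξ₁ * t = 0) (hT₂ : ∀ t ∈ T, ξ₂ * t = 0)
    {e : ℕ} (h : HTS W (Z ⊗ X) e (lam W l ξ₁) (tens W (⊤ : Submodule K (W.coh Z)) T)) :
    HTS W (Z ⊗ X) e (lam W l ξ₂) (tens W (⊤ : Submodule K (W.coh Z)) T) := by
  have hst : ∀ z ∈ tens W (⊤ : Submodule K (W.coh Z)) T,
      lam W l ξ₂ * z ∈ tens W (⊤ : Submodule K (W.coh Z)) T :=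
    tens_stable hW hZ hX hl hξ₂ (fun _ _ => trivial)
      (fun t ht => by rw [hT₂ t ht]; exact zero_mem _)
  have h1 : ∀ z ∈ tens W (⊤ : Submodule K (W.coh Z)) T, lam W l ξ₁ * z = lam W l ξ₂ * z := by
    intro z hz
    refine Submodule.span_induction (p := fun z _ => lam W l ξ₁ * z = lam W l ξ₂ * z)
      ?_ ?_ ?_ ?_ hz
    · rintro _ ⟨y, _, t, ht, rfl⟩
      rw [lam_mul hW hZ hX hl hξ₁, lam_mul hW hZ hX hl hξ₂, hT₁ t ht, hT₂ t ht]
    · simp
    · intro p q _ _ hp hq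
      rw [mul_add, mul_add, hp, hq]
    · intro c p _ hp
      rw [mul_smul_comm, mul_smul_comm, hp]
  have h2 : ∀ r, ∀ z ∈ tens W (⊤ : Submodule K (W.coh Z)) T,
      lam W l ξ₁ ^ r * z = lam W l ξ₂ ^ r * z := by
    intro r
    induction r with
    | zero => intro z _; simp
    | succ r ih =>
      intro z hz
      rw [pow_succ, mul_assoc, h1 z hz, ih _ (hst z hz), ← mul_assoc, ← pow_succ]
  intro j hj x hx hxS h3 h4
  have h5 := h j hj x hx hxS (by rw [h2 _ x hxS]; exact h3) h4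
  rw [← mul_assoc, h2 _ x hxS, mul_assoc] at h5
  exact h5

end

section

variable (hW : IsWeilCohomology W 𝒱) {Z X : Sch k} {d n : ℕ}
  (hZ : 𝒱.mem Z d) (hX : 𝒱.mem X n)

include hZ hX in
theorem prodPow_mem (m : ℕ) : 𝒱.mem (prodPow Z X m) (d + m * n) := by
  induction m with
  | zero => simpa [prodPow] using hZ
  | succ m ih =>
    have := 𝒱.prod ih hX
    rwa [show d + m * n + n = d + (m + 1) * n by ring] at this

include hW hZ hX in
theorem prodPol_alg {l : W.coh Z} (hl : l ∈ W.alg Z 1) {ξ : ℕ → W.coh X}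
    (hξ : ∀ i, ξ i ∈ W.alg X 1) (m : ℕ) : prodPol W l ξ m ∈ W.alg (prodPow Z X m) 1 := by
  induction m with
  | zero => exact hl
  | succ m ih => exact lam_alg hW (prodPow_mem hZ hX m) hX ih (hξ m)

include hW hZ hX in
/-- The induction step. -/
theorem step {l : W.coh Z} (hl : l ∈ W.alg Z 1) {ξ : W.coh X} (hξ : ξ ∈ W.alg X 1)
    {ι : Type} [Fintype ι] (σ : Strings W X n ξ ι)
    {κ : Type} [Fintype κ] (φ : Frame W X n σ.T κ)
    (h1 : HTS W Z d l ⊤)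
    (h2 : HTS W (Z ⊗ X) (d + n) (lam W l ξ) (tens W (⊤ : Submodule K (W.coh Z)) σ.T)) :
    HTS W (Z ⊗ X) (d + n) (lam W l ξ) ⊤ ∧
      ∀ ξ' ∈ W.alg X 1, (∀ t ∈ σ.T, ξ' * t = 0) →
        HTS W ((Z ⊗ X) ⊗ X) (d + n + n) (lam W (lam W l ξ) ξ')
          (tens W (⊤ : Submodule K (W.coh (Z ⊗ X))) σ.T) := by
  have hZX := 𝒱.prod hZ hX
  have hsup := σ.perpT_sup hW hX hξ
  constructor
  · have := (LD_HR_iff hW hZX (lam_alg hW hZ hX hl hξ) _ _).mp
      (σ.hr_prod hW hZ hX hl hξ (S := ⊤) (fun _ _ => trivial)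
      ((LD_HR_iff hW hZ hl ⊤ _).mpr h1) ((LD_HR_iff hW hZX (lam_alg hW hZ hX hl hξ) _ _).mpr h2))
    rwa [tens_top hW hZ hX] at this
  · intro ξ' hξ' hT'
    have hst' : ∀ z ∈ tens W (⊤ : Submodule K (W.coh Z)) σ.T,
        lam W l ξ' * z ∈ tens W (⊤ : Submodule K (W.coh Z)) σ.T :=
      tens_stable hW hZ hX hl hξ' (fun _ _ => trivial)
        (fun t ht => by rw [hT' t ht]; exact zero_mem _)
    have k1 := HTS_change hW hZ hX hl hξ hξ' σ.T_xi hT' h2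
    have k2 := (LD_HR_iff hW (𝒱.prod hZX hX) _ _ _).mp
      (hr_TT hW hZ hX σ.T_gr φ hl hξ' hξ hT' σ.T_xi hsup ((LD_HR_iff hW hZ hl ⊤ _).mpr h1))
    have k3 := (LD_HR_iff hW (𝒱.prod hZX hX) (lam_alg hW hZX hX (lam_alg hW hZ hX hl hξ') hξ)
      _ _).mp
      (σ.hr_prod hW hZX hX (lam_alg hW hZ hX hl hξ') hξ
        (S := tens W (⊤ : Submodule K (W.coh Z)) σ.T) hst'
        ((LD_HR_iff hW hZX (lam_alg hW hZ hX hl hξ') _ hst').mpr k1)
        ((LD_HR_iff hW (𝒱.prod hZX hX) _ _ _).mpr k2))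
    refine HTS.iso hW (𝒱.prod hZX hX) (𝒱.prod hZX hX) (swap Z X)
      (S' := tens W (tens W (⊤ : Submodule K (W.coh Z)) σ.T) ⊤) (swap_tens hW hZ hX σ.T_gr) ?_
    rw [swap_lam]
    exact k3

include hW hZ hX in
/-- Powers of a variety with strings and a frame. -/
theorem powers {l : W.coh Z} (hl : l ∈ W.alg Z 1) {ξ : ℕ → W.coh X}
    (hξ : ∀ i, ξ i ∈ W.alg X 1) (T : Submodule K (W.coh X))
    (hσ : ∀ i, ∃ (ι : Type) (_ : Fintype ι) (σ : Strings W X n (ξ i) ι), σ.T = T)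
    {κ : Type} [Fintype κ] (φ : Frame W X n T κ)
    (h1 : HodgeType W Z d l) {ξ₀ : W.coh X} (hξ₀ : ξ₀ ∈ W.alg X 1) (hT₀ : ∀ t ∈ T, ξ₀ * t = 0)
    (h2 : HodgeType W (Z ⊗ X) (d + n) (lam W l ξ₀)) (m : ℕ) :
    HodgeType W (prodPow Z X m) (d + m * n) (prodPol W l ξ m) := by
  have key : ∀ m, HTS W (prodPow Z X m) (d + m * n) (prodPol W l ξ m) ⊤ ∧
      ∀ ξ' ∈ W.alg X 1, (∀ t ∈ T, ξ' * t = 0) →
        HTS W (prodPow Z X m ⊗ X) (d + m * n + n) (lam W (prodPol W l ξ m) ξ')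
          (tens W (⊤ : Submodule K (W.coh (prodPow Z X m))) T) := by
    intro m
    induction m with
    | zero =>
      rw [zero_mul, add_zero]
      refine ⟨HTS_top.mpr h1, fun ξ' hξ' hT' => ?_⟩
      exact HTS_change hW hZ hX hl hξ₀ hξ' hT₀ hT' ((HTS_top.mpr h2).mono le_top)
    | succ m ih =>
      obtain ⟨ι, hι, σ, hσT⟩ := hσ m
      subst hσT
      have h3 := step hW (prodPow_mem hZ hX m) hX (prodPol_alg hW hZ hX hl hξ m) (hξ m) σ φ ih.1
        (ih.2 (ξ m) (hξ m) σ.T_xi)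
      rw [show d + (m + 1) * n = d + m * n + n by ring]
      exact h3
  exact HTS_top.mp (key m).1

end

end Pool.Agent.Lib.MP_361a6f_ag.H3
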