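import Pool.Agent.Lib.MP_361a6f_ag.H3.Perm

/-!
# Frobenius and the reality of algebraic classes
-/

open CategoryTheory AlgebraicGeometry MonoidalCategory CartesianMonoidalCategory Opposite

universe u v w

set_option linter.unusedSectionVars false

namespace Pool.Agent.Lib.MP_361a6f_ag.H3

variable {k : Type u} [Field k] {K : Type v} [Field K] [CharZero K]
  {W : CohomologyData.{u, v, w} k K} {𝒱 : VarietyClass k}

theorem IsFrobenius.degree {W : CohomologyData.{u, v, w} k K} {X : Sch k} {n : ℕ} {F : X ⟶ X}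
    {q : ℕ} (h : IsFrobenius W n F q) (x : W.coh X) :
    W.tr X (W.pull F x) = (q : K) ^ n * W.tr X x := h.deg x

theorem IsFrobenius.algebraic {W : CohomologyData.{u, v, w} k K} {X : Sch k} {n : ℕ} {F : X ⟶ X}
    {q : ℕ} (h : IsFrobenius W n F q) (a j : ℕ) (x : W.coh (prodPow (𝟙_ (Sch k)) X a))
    (hx : x ∈ W.alg (prodPow (𝟙_ (Sch k)) X a) j) :
    ∃ s : ℕ, 0 < s ∧ (W.pull (powHom F a))^[s] x = (q : K) ^ (j * s) • x := h.alg a j x hx

section

variable {X : Sch k} {n : ℕ} (hW : IsWeilCohomology W 𝒱)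
  (hX : 𝒱.mem X n)

theorem pull_tensorHom {Y Y' X X' : Sch k} (f : Y ⟶ Y') (g : X ⟶ X')
    (y : W.coh Y') (x : W.coh X') :
    W.pull (f ⊗ₘ g) (W.pull (fst Y' X') y * W.pull (snd Y' X') x)
      = W.pull (fst Y X) (W.pull f y) * W.pull (snd Y X) (W.pull g x) := by
  rw [map_mul, ← W.pull_comp, ← W.pull_comp, ← W.pull_comp, ← W.pull_comp]
  congr 3
  · simp
  · simp

include hW hX in
theorem tr_powHom {F : X ⟶ X} {q : ℕ}
    (hdeg : ∀ x : W.coh X, W.tr X (W.pull F x) = (q : K) ^ n * W.tr X x) (a : ℕ)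
    (x : W.coh (prodPow (𝟙_ (Sch k)) X a)) :
    W.tr _ (W.pull (powHom F a) x) = (q : K) ^ (a * n) * W.tr _ x := by
  induction a with
  | zero =>
    rw [zero_mul, pow_zero, one_mul]
    exact congrArg _ (W.pull_id x)
  | succ a ih =>
    have h1 := prodPow_mem 𝒱.point hX a
    have hx : x ∈ tens W (⊤ : Submodule K (W.coh (prodPow
        (𝟙_ (Sch k)) X a))) (⊤ : Submodule K (W.coh X)) := by
      rw [tens_top hW h1 hX]; trivial
    have key : ∀ x ∈ tens W (⊤ : Submodule K (W.coh (prodPow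
        (𝟙_ (Sch k)) X a))) (⊤ : Submodule K (W.coh X)),
        W.tr (prodPow (𝟙_ (Sch k)) X a ⊗ X)
          (W.pull (powHom F a ⊗ₘ F) x) = (q : K) ^ ((a + 1) * n) *
            W.tr (prodPow (𝟙_ (Sch k)) X a ⊗ X) x := by
      intro x hx
      refine Submodule.span_induction (p := fun x _ =>
        W.tr (prodPow (𝟙_ (Sch k)) X a ⊗ X)
          (W.pull (powHom F a ⊗ₘ F) x) = (q : K) ^ ((a + 1) * n) *
            W.tr (prodPow (𝟙_ (Sch k)) X a ⊗ X) x) ?_ ?_ ?_ ?_ hx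
      · rintro _ ⟨y, _, x', _, rfl⟩
        rw [pull_tensorHom, hW.kunneth_tr h1 hX, hW.kunneth_tr h1 hX, ih, hdeg]
        ring
      · simp
      · intro p r _ _ hp hr
        rw [map_add, map_add, hp, hr, map_add, mul_add]
      · intro c p _ hp
        rw [map_smul, map_smul, hp, map_smul, smul_eq_mul, smul_eq_mul]
        ring
    exact key x hx

include hW hX in
theorem tr_powHom_iter {F : X ⟶ X} {q : ℕ}
    (hdeg : ∀ x : W.coh X, W.tr X (W.pull F x) = (q : K) ^ n * W.tr X x) (a s : ℕ)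
    (x : W.coh (prodPow (𝟙_ (Sch k)) X a)) :
    W.tr _ ((W.pull (powHom F a))^[s] x) = ((q : K) ^ (a * n)) ^ s * W.tr _ x := by
  induction s with
  | zero => simp
  | succ s ih =>
    rw [Function.iterate_succ_apply', tr_powHom hW hX hdeg, ih, pow_succ]
    ring

theorem iter_mul {Y : Sch k} (f : Y ⟶ Y) (s : ℕ) (x y : W.coh Y) :
    (W.pull f)^[s] (x * y) = (W.pull f)^[s] x * (W.pull f)^[s] y := by
  induction s with
  | zero => rfl
  | succ s ih => rw [Function.iterate_succ_apply', ih, map_mul, Function.iterate_succ_apply',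
      Function.iterate_succ_apply']

/-- the class of the graph of an endomorphism -/
noncomputable def graph' (W : CohomologyData.{u, v, w} k K) {X : Sch k}
    (f : X ⟶ X) : W.coh (X ⊗ X) := W.push (lift (𝟙 X) f) 1

include hW hX in
theorem graph'_alg (f : X ⟶ X) : graph' W f ∈ W.alg (X ⊗ X) n :=
  hW.push_alg hX (𝒱.prod hX hX) _ (hW.one_alg hX) (by omega)

include hW hX in
theorem graph'_tr (f : X ⟶ X) (s t : W.coh X) :
    W.tr (X ⊗ X) (W.pull (fst X X) s * W.pull (snd X X) t * graph' W f)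
      = W.tr X (s * W.pull f t) := by
  have hXX := 𝒱.prod hX hX
  rw [← hW.alg_comm hXX (graph'_alg hW hX f), graph', hW.push_adj hX hXX, one_mul, map_mul,
    ← W.pull_comp, ← W.pull_comp, lift_fst, lift_snd, W.pull_id]

/-- iterates of an endomorphism -/
noncomputable def iterHom {X : Sch k} (F : X ⟶ X) : ℕ → (X ⟶ X)
  | 0 => 𝟙 X
  | c + 1 => iterHom F c ≫ F

end

namespace Eigen

variable {X : Sch k} {n : ℕ} {T : Submodule K (W.coh X)} {F : X ⟶ X}
  {Q : K} {I : Type} [Fintype I] [DecidableEq I] (ε : Eigen W X n T F Q I)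
  (hW : IsWeilCohomology W 𝒱) (hX : 𝒱.mem X n)

theorem powHom_eI (a : ℕ) (J : Fin a → I) :
    W.pull (powHom F a) (ε.eI a J) = (∏ b, ε.α (J b)) • ε.eI a J := by
  induction a with
  | zero =>
    rw [Fin.prod_univ_zero, one_smul]
    exact W.pull_id _
  | succ a ih =>
    have e1 : W.pull (powHom F (a + 1)) (ε.eI (a + 1) J)
        = W.pull (fst (prodPow (𝟙_ (Sch k)) X a) X)
            (W.pull (powHom F a) (ε.eI a (Fin.init J)))
          * W.pull (snd (prodPow (𝟙_ (Sch k)) X a) X)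
            (W.pull F (ε.e (J (Fin.last a)))) := pull_tensorHom _ _ _ _
    rw [e1, ih, ε.eig, map_smul, map_smul, smul_mul_assoc, mul_smul_comm, smul_smul,
      Fin.prod_univ_castSucc]
    rfl

theorem iter_eI (a s : ℕ) (J : Fin a → I) :
    (W.pull (powHom F a))^[s] (ε.eI a J) = (∏ b, ε.α (J b)) ^ s • ε.eI a J := by
  induction s with
  | zero => simp
  | succ s ih =>
    rw [Function.iterate_succ_apply', ih, map_smul, ε.powHom_eI, smul_smul, pow_succ]

include hW hX in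
/-- nonzero coordinates of algebraic classes are balanced -/
theorem co_bal {q : ℕ} (hq : 0 < q) (hF : IsFrobenius W n F q)
    (hind : ∀ (a : ℕ) (J : Fin a → I) (s c : ℕ), 0 < s →
      (∏ b, ε.α (J b)) ^ s = (q : K) ^ c → ε.Bal J)
    {a j : ℕ} (hj : 2 * j = a * n)
    {z : W.coh (prodPow (𝟙_ (Sch k)) X a)} (hz : z ∈ W.alg _ j)
    {J : Fin a → I} (h : ε.co a z J ≠ 0) : ε.Bal J := by
  obtain ⟨s, hs, hs'⟩ := hF.algebraic a j z hz
  refine hind a J s (j * s) hs ?_
  have h1 := tr_powHom_iter hW hX hF.degree a s (z * ε.eI a J)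
  rw [iter_mul, hs', ε.iter_eI, smul_mul_assoc, mul_smul_comm, map_smul, map_smul,
    smul_eq_mul, smul_eq_mul] at h1
  have hq' : ((q : K) ^ (j * s)) ≠ 0 := pow_ne_zero _ (by exact_mod_cast hq.ne')
  have h2 : ((q : K) ^ (a * n)) ^ s = (q : K) ^ (j * s) * (q : K) ^ (j * s) := by
    rw [← pow_mul, ← pow_add, ← hj]
    congr 1
    ring
  rw [h2] at h1
  have h3 : (q : K) ^ (j * s) * ((∏ b, ε.α (J b)) ^ s * ε.co a z J)
      = (q : K) ^ (j * s) * ((q : K) ^ (j * s) * ε.co a z J) := by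
    rw [co]
    linear_combination h1
  exact mul_right_cancel₀ h (mul_left_cancel₀ hq' h3)

theorem iterHom_e (c : ℕ) (i : I) : W.pull (iterHom F c) (ε.e i) = ε.α i ^ c • ε.e i := by
  induction c with
  | zero =>
    rw [pow_zero, one_smul]
    exact W.pull_id _
  | succ c ih =>
    rw [iterHom, W.pull_comp, ε.eig, map_smul, ih, smul_smul, pow_succ']

/-- contraction on powers -/
noncomputable def contrI (W : CohomologyData.{u, v, w} k K) {X : Sch k}
    (γ : W.coh (X ⊗ X)) (a : ℕ) :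
    W.coh (prodPow (𝟙_ (Sch k)) X (a + 2)) →ₗ[K]
      W.coh (prodPow (𝟙_ (Sch k)) X a) :=
  contr W (Z := prodPow (𝟙_ (Sch k)) X a) γ

include hW hX in
theorem contrI_eI (γ : W.coh (X ⊗ X)) (a : ℕ) (J : Fin (a + 2) → I) {k₀ l₀ : I}
    (hk₀ : J (Fin.last a).castSucc = k₀) (hl₀ : J (Fin.last (a + 1)) = l₀) :
    contrI W γ a (ε.eI (a + 2) J)
      = W.tr (X ⊗ X) (W.pull (fst X X) (ε.e k₀) * W.pull (snd X X) (ε.e l₀) * γ)
        • ε.eI a (Fin.init (Fin.init J)) := by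
  subst hk₀
  subst hl₀
  exact contr_gen hW (prodPow_mem 𝒱.point hX a) hX γ (ε.eI a (Fin.init (Fin.init J))) _ _

theorem co_add (a : ℕ) (p r : W.coh (prodPow (𝟙_ (Sch k)) X a))
    (J : Fin a → I) : ε.co a (p + r) J = ε.co a p J + ε.co a r J := by
  simp only [co]; rw [add_mul, map_add]

theorem co_smul (a : ℕ) (c : K) (p : W.coh (prodPow (𝟙_ (Sch k)) X a))
    (J : Fin a → I) : ε.co a (c • p) J = c * ε.co a p J := by
  simp only [co]; rw [smul_mul_assoc, map_smul, smul_eq_mul]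

theorem co_zero (a : ℕ) (J : Fin a → I) :
    ε.co a (0 : W.coh (prodPow (𝟙_ (Sch k)) X a)) J = 0 := by
  simp only [co]; rw [zero_mul, map_zero]

include ε hW hX in
theorem contrI_tpow (γ : W.coh (X ⊗ X)) (a : ℕ)
    {z : W.coh (prodPow (𝟙_ (Sch k)) X (a + 2))}
    (hz : z ∈ tpow W (⊤ : Submodule K (W.coh (𝟙_ (Sch k)))) T (a + 2)) :
    contrI W γ a z ∈ tpow W (⊤ : Submodule K (W.coh (𝟙_ (Sch k)))) T a := by
  refine Submodule.span_induction (p := fun z _ =>
    contrI W γ a z ∈ tpow W (⊤ : Submodule K (W.coh (𝟙_ (Sch k)))) T a)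
      ?_ ?_ ?_ ?_ (ε.tpow_span hW (a + 2) z hz)
  · rintro _ ⟨J, rfl⟩
    rw [ε.contrI_eI hW hX γ a J rfl rfl]
    exact Submodule.smul_mem _ _ (ε.eI_mem _ _)
  · rw [map_zero]; exact zero_mem _
  · intro p q _ _ hp hq
    rw [map_add]; exact add_mem hp hq
  · intro c p _ hp
    rw [map_smul]; exact Submodule.smul_mem _ _ hp

include hW hX in
theorem co_eI (a : ℕ) (J : Fin (a + 2) → I) {k₀ l₀ : I}
    (hk₀ : J (Fin.last a).castSucc = k₀) (hl₀ : J (Fin.last (a + 1)) = l₀) (J' : Fin a → I)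
    (m m' : I) :
    ε.co (a + 2) (ε.eI (a + 2) J)
        (Fin.snoc (Fin.snoc J' m : Fin (a + 1) → I) m' : Fin (a + 2) → I)
        = (-1) ^ n * (W.tr _ (ε.eI a (Fin.init (Fin.init J)) * ε.eI a J')
          * ((if m = ε.ν k₀ then ε.sg k₀ else 0) * (if m' = ε.ν l₀ then ε.sg l₀ else 0))) := by
  have h1 := prodPow_mem 𝒱.point hX a
  have e4 : ε.co (a + 2) (ε.eI (a + 2) J)
      (Fin.snoc (Fin.snoc J' m : Fin (a + 1) → I) m' : Fin (a + 2) → I)
      = W.tr ((prodPow (𝟙_ (Sch k)) X a ⊗ X) ⊗ X)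
        (gen W (ε.eI a (Fin.init (Fin.init J))) (ε.e k₀) (ε.e l₀)
          * gen W (ε.eI a (Fin.init (Fin.init
            (Fin.snoc (Fin.snoc J' m : Fin (a + 1) → I) m' : Fin (a + 2) → I))))
            (ε.e ((Fin.snoc (Fin.snoc J' m : Fin (a + 1) → I) m' : Fin (a + 2) → I)
              (Fin.last a).castSucc))
            (ε.e ((Fin.snoc (Fin.snoc J' m : Fin (a + 1) → I) m' : Fin (a + 2) → I)
              (Fin.last (a + 1))))) := by
    rw [← hk₀, ← hl₀]; rfl
  rw [e4, Fin.init_snoc, Fin.init_snoc, Fin.snoc_castSucc, Fin.snoc_last, Fin.snoc_last,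
    tr_gen hW h1 hX _ _ (ε.e_gr _) (ε.e_gr _) (ε.e_gr _), ε.pair', ε.pair']

include hW hX in
/-- coordinates of contractions with graphs of iterates -/
theorem co_contr (c a : ℕ) {z : W.coh (prodPow (𝟙_ (Sch k)) X (a + 2))}
    (hz : z ∈ tpow W (⊤ : Submodule K (W.coh (𝟙_ (Sch k)))) T (a + 2))
    (J' : Fin a → I) :
    ε.co a (contrI W (graph' W (iterHom F c)) a z) J'
      = (-1) ^ n * ∑ m, ε.α m ^ c * (ε.sg m * ε.co (a + 2) z
        (Fin.snoc (Fin.snoc J' m : Fin (a + 1) → I) (ε.ν m) : Fin (a + 2) → I)) := by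
  refine Submodule.span_induction (p := fun z _ =>
    ε.co a (contrI W (graph' W (iterHom F c)) a z) J'
      = (-1) ^ n * ∑ m, ε.α m ^ c * (ε.sg m * ε.co (a + 2) z
        (Fin.snoc (Fin.snoc J' m : Fin (a + 1) → I) (ε.ν m) : Fin (a + 2) → I))) ?_ ?_ ?_ ?_
        (ε.tpow_span hW (a + 2) z hz)
  · rintro _ ⟨J, rfl⟩
    obtain ⟨k₀, hk₀⟩ : ∃ k₀, J (Fin.last a).castSucc = k₀ := ⟨_, rfl⟩
    obtain ⟨l₀, hl₀⟩ : ∃ l₀, J (Fin.last (a + 1)) = l₀ := ⟨_, rfl⟩
    rw [ε.contrI_eI hW hX _ a J hk₀ hl₀, graph'_tr hW hX, ε.iterHom_e, mul_smul_comm, map_smul,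
      ε.pair', ε.co_smul, smul_eq_mul]
    simp only [ε.co_eI hW hX a J hk₀ hl₀]
    rw [Finset.sum_eq_single l₀]
    · rw [if_pos rfl]
      obtain ⟨t, ht⟩ : ∃ t, W.tr _ (ε.eI a (Fin.init (Fin.init J)) * ε.eI a J') = t := ⟨_, rfl⟩
      rw [co, ht]
      by_cases hkl : l₀ = ε.ν k₀
      · rw [if_pos hkl]
        have h3 : ((-1 : K) ^ n) * (-1) ^ n = 1 := by rw [← mul_pow]; simp
        linear_combination (-(ε.α l₀ ^ c * ε.sg k₀ * t) * (ε.sg l₀ * ε.sg l₀)) * h3
          - (ε.α l₀ ^ c * ε.sg k₀ * t) * ε.sg_sq l₀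
      · rw [if_neg hkl]; ring
    · intro m _ hm
      rw [if_neg (c := ε.ν m = ε.ν l₀) (fun h => hm (ε.ν_inj h))]
      ring
    · intro h; exact absurd (Finset.mem_univ _) h
  · rw [map_zero, co_zero]
    simp only [co_zero]
    simp
  · intro p r _ _ hp hr
    rw [map_add, co_add, hp, hr, ← mul_add, ← Finset.sum_add_distrib]
    congr 1
    refine Finset.sum_congr rfl (fun m _ => ?_)
    rw [co_add]; ring
  · intro c' p _ hp
    rw [map_smul, co_smul, hp, mul_left_comm, Finset.mul_sum]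
    congr 1
    refine Finset.sum_congr rfl (fun m _ => ?_)
    rw [co_smul]; ring

end Eigen

/-- power sums determine coefficients -/
theorem coeff_eq_zero {I : Type} [Fintype I] {β : I → ℂ} (hβ : Function.Injective β) {x : I → ℂ}
    (h : ∀ c : ℕ, ∑ m, β m ^ c * x m = 0) : ∀ m, x m = 0 := by
  have h1 := linearIndependent_monoidHom (Multiplicative ℕ) ℂ
  have h2 : LinearIndependent ℂ (fun m : I => ((powersHom ℂ (β m) : Multiplicative ℕ →* ℂ) :
      Multiplicative ℕ → ℂ)) :=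
    h1.comp (fun m : I => (powersHom ℂ (β m) : Multiplicative ℕ →* ℂ))
      (fun a b hab => hβ ((powersHom ℂ).injective hab))
  rw [Fintype.linearIndependent_iff] at h2
  refine h2 x ?_
  funext c
  rw [Finset.sum_apply]
  have h3 := h (Multiplicative.toAdd c)
  rw [Pi.zero_apply, ← h3]
  refine Finset.sum_congr rfl (fun m _ => ?_)
  rw [Pi.smul_apply, smul_eq_mul, powersHom_apply]
  ring

end Pool.Agent.Lib.MP_361a6f_ag.H3
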