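import Pool.Agent.Lib.MP_361a6f_ag.H3.Frob

/-!
# Positivity forces the Riemann hypothesis
-/

namespace Pool.Agent.Lib.MP_361a6f_ag.H3

open Polynomial

section

set_option linter.unusedSectionVars false

variable {I : Type} [Fintype I] [DecidableEq I] {β : I → ℂ} (hβ : Function.Injective β)
  {ν : I → I} (hν : ∀ i, ν (ν i) = i)
  (h : ∀ p : ℚ[X], ∃ r : ℚ, 0 ≤ r ∧ ∑ k, aeval (β k) p * aeval (β (ν k)) p = (r : ℂ))

include hν h in
theorem power_sum_real (c : ℕ) : starRingEnd ℂ (∑ k, β k ^ c) = ∑ k, β k ^ c := by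
  obtain ⟨r1, _, h1⟩ := h (X ^ c + 1)
  obtain ⟨r2, _, h2⟩ := h (X ^ c)
  obtain ⟨r3, _, h3⟩ := h 1
  simp only [map_add, map_pow, aeval_X, map_one] at h1 h2 h3
  have e0 : ∑ k, β (ν k) ^ c = ∑ k, β k ^ c := by
    refine Finset.sum_bij' (fun m _ => ν m) (fun m _ => ν m) ?_ ?_ ?_ ?_ ?_
    · intro m _; exact Finset.mem_univ _
    · intro m _; exact Finset.mem_univ _
    · intro m _; exact hν m
    · intro m _; exact hν m
    · intro m _; rfl
  have e1 : ∑ k, (β k ^ c + 1) * (β (ν k) ^ c + 1)
      = ∑ k, β k ^ c * β (ν k) ^ c + (∑ k, β k ^ c + ∑ k, β k ^ c) + ∑ k : I, (1 : ℂ) * 1 := by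
    conv_rhs =>
      enter [1, 2, 2]
      rw [← e0]
    rw [← Finset.sum_add_distrib, ← Finset.sum_add_distrib, ← Finset.sum_add_distrib]
    refine Finset.sum_congr rfl (fun k _ => ?_)
    ring
  rw [h1, h2, h3] at e1
  have e2 : ∑ k, β k ^ c = (((r1 - r2 - r3) / 2 : ℚ) : ℂ) := by
    push_cast
    linear_combination (-1 / 2 : ℂ) * e1
  rw [e2]
  exact map_ratCast (starRingEnd ℂ) _

include hβ hν h in
theorem conj_stable (k : I) : ∃ l, β l = starRingEnd ℂ (β k) := by
  classical
  set A : Finset ℂ := Finset.univ.image β with hA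
  set B : Finset ℂ := Finset.univ.image (fun k => starRingEnd ℂ (β k)) with hB
  set V : Finset ℂ := A ∪ B with hV
  have hinjB : Function.Injective (fun k => starRingEnd ℂ (β k)) := fun x y hxy =>
    hβ ((starRingEnd ℂ).injective hxy)
  have h1 := coeff_eq_zero (I := V) (β := fun v => (v : ℂ)) Subtype.val_injective
    (x := fun v => (if (v : ℂ) ∈ A then 1 else 0) - (if (v : ℂ) ∈ B then 1 else 0)) (by
      intro c
      have e1 : ∑ m : V, (m : ℂ) ^ c *
          ((if (m : ℂ) ∈ A then 1 else 0) - (if (m : ℂ) ∈ B then 1 else 0))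
          = ∑ v ∈ V, v ^ c * ((if v ∈ A then 1 else 0) - (if v ∈ B then 1 else 0)) :=
        Finset.sum_coe_sort V (fun v : ℂ =>
          v ^ c * ((if v ∈ A then 1 else 0) - (if v ∈ B then 1 else 0)))
      rw [e1]
      have e2 : ∀ S : Finset ℂ, S ⊆ V → ∑ v ∈ V, v ^ c * (if v ∈ S then (1 : ℂ) else 0)
          = ∑ v ∈ S, v ^ c := by
        intro S hS
        rw [← Finset.sum_subset hS]
        · refine Finset.sum_congr rfl (fun v hv => ?_)
          rw [if_pos hv, mul_one]
        · intro v _ hv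
          rw [if_neg hv, mul_zero]
      simp only [mul_sub]
      rw [Finset.sum_sub_distrib, e2 A Finset.subset_union_left, e2 B Finset.subset_union_right,
        hA, hB, Finset.sum_image (fun x _ y _ hxy => hβ hxy),
        Finset.sum_image (fun x _ y _ hxy => hinjB hxy), sub_eq_zero]
      have e3 := power_sum_real hν h c
      rw [map_sum] at e3
      rw [← e3]
      refine Finset.sum_congr rfl (fun x _ => ?_)
      rw [map_pow])
  have hkB : starRingEnd ℂ (β k) ∈ B := Finset.mem_image.mpr ⟨k, Finset.mem_univ _, rfl⟩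
  have h2 := h1 ⟨starRingEnd ℂ (β k), Finset.mem_union_right _ hkB⟩
  simp only [if_pos hkB] at h2
  by_cases hkA : starRingEnd ℂ (β k) ∈ A
  · obtain ⟨l, _, hl⟩ := Finset.mem_image.mp hkA
    exact ⟨l, hl⟩
  · rw [if_neg hkA] at h2
    norm_num at h2

include hβ hν h in
/-- A positive form on rational polynomials forces complex conjugation to be the involution. -/
theorem rh_core (hne : ∀ i, ν i ≠ i) {Q : ℝ} (hQ : 0 < Q)
    (hmul : ∀ i, β i * β (ν i) = (Q : ℂ)) (k : I) : starRingEnd ℂ (β k) = β (ν k) := by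
  classical
  by_contra hcon
  choose σ hσ using fun k => conj_stable hβ hν h k
  have hQC : (Q : ℂ) ≠ 0 := by exact_mod_cast hQ.ne'
  have hβ0 : ∀ i, β i ≠ 0 := fun i h0 => by
    have := hmul i
    rw [h0, zero_mul] at this
    exact hQC this.symm
  have hσσ : ∀ m, σ (σ m) = m := fun m => hβ (by rw [hσ, hσ, Complex.conj_conj])
  have hσν : ∀ m, σ (ν m) = ν (σ m) := by
    intro m
    apply hβ
    apply mul_left_cancel₀ (hβ0 (σ m))
    rw [hmul, hσ, hσ, ← map_mul, hmul, Complex.conj_ofReal]
  have hνinj : ∀ {x y}, ν x = ν y → x = y := fun {x y} hxy => by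
    have := congrArg ν hxy
    rwa [hν, hν] at this
  set l := σ k with hl
  have hlk : l ≠ ν k := by
    intro h0
    apply hcon
    rw [← hσ, ← hl, h0]
  set v : I → ℝ := fun m => if m = k ∨ m = l then 1 else if m = ν k ∨ m = ν l then -1 else 0
    with hv
  have hvσ : ∀ m, v (σ m) = v m := by
    intro m
    have e1 : (σ m = k ∨ σ m = l) ↔ (m = k ∨ m = l) := by
      constructor
      · rintro (h1 | h1)
        · right; rw [hl, ← h1, hσσ]
        · left; rw [hl] at h1
          rw [← hσσ m, h1, hσσ]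
      · rintro (h1 | h1)
        · right; rw [h1]
        · left; rw [h1, hl, hσσ]
    have e2 : (σ m = ν k ∨ σ m = ν l) ↔ (m = ν k ∨ m = ν l) := by
      constructor
      · rintro (h1 | h1)
        · right; rw [← hσσ m, h1, hσν]
        · left; rw [← hσσ m, h1, hσν, hl, hσσ]
      · rintro (h1 | h1)
        · right; rw [h1, hσν]
        · left; rw [h1, hσν, hl, hσσ]
    simp only [hv, e1, e2]
  have hvν : ∀ m, v (ν m) = -v m := by
    intro m
    have e1 : (ν m = k ∨ ν m = l) ↔ (m = ν k ∨ m = ν l) := by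
      constructor
      · rintro (h1 | h1)
        · left; rw [← h1, hν]
        · right; rw [← h1, hν]
      · rintro (h1 | h1)
        · left; rw [h1, hν]
        · right; rw [h1, hν]
    have e2 : (ν m = ν k ∨ ν m = ν l) ↔ (m = k ∨ m = l) := by
      constructor
      · rintro (h1 | h1)
        · left; exact hνinj h1
        · right; exact hνinj h1
      · rintro (h1 | h1)
        · left; rw [h1]
        · right; rw [h1]
    simp only [hv, e1, e2]
    by_cases h1 : m = k ∨ m = l
    · have h2 : ¬ (m = ν k ∨ m = ν l) := by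
        rcases h1 with rfl | rfl
        · rintro (h3 | h3)
          · exact hne m h3.symm
          · exact hlk (by rw [h3, hν])
        · rintro (h3 | h3)
          · exact hlk h3
          · exact hne _ h3.symm
      rw [if_pos h1, if_neg h2, if_pos h1]
    · rw [if_neg h1]
      by_cases h2 : m = ν k ∨ m = ν l
      · rw [if_pos h2, if_neg h1, if_pos h2]; norm_num
      · rw [if_neg h2, if_neg h1, if_neg h2]; norm_num
  -- real coefficients interpolating `v`
  set D : ℕ := Fintype.card I with hD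
  have hDpos : 0 < D := Fintype.card_pos_iff.mpr ⟨k⟩
  set P : ℂ[X] := Lagrange.interpolate Finset.univ β (fun m => (v m : ℂ)) with hP
  have hPe : ∀ m, P.eval (β m) = (v m : ℂ) := fun m =>
    Lagrange.eval_interpolate_at_node _ (hβ.injOn) (Finset.mem_univ m)
  have hPd : P.natDegree < D := by
    have h1 : P.degree < (D : WithBot ℕ) := by
      have := Lagrange.degree_interpolate_lt (s := Finset.univ) (v := β)
        (fun m => (v m : ℂ)) hβ.injOn
      rwa [Finset.card_univ] at this
    by_cases hP0 : P = 0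
    · rw [hP0, natDegree_zero]; exact hDpos
    · exact (natDegree_lt_iff_degree_lt hP0).mpr h1
  set c : Fin D → ℝ := fun j => (P.coeff j).re with hc
  have hce : ∀ m, ∑ j : Fin D, ((c j : ℝ) : ℂ) * β m ^ (j : ℕ) = (v m : ℂ) := by
    intro m
    have e1 : ∀ x : ℂ, P.eval x = ∑ j : Fin D, P.coeff j * x ^ (j : ℕ) := by
      intro x
      rw [eval_eq_sum_range' hPd, Finset.sum_range]
    have e2 := e1 (β m)
    have e3 := e1 (β (σ m))
    rw [hPe] at e2 e3
    have e4 := congrArg (starRingEnd ℂ) e3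
    rw [Complex.conj_ofReal, hvσ, map_sum] at e4
    have e5 : ∀ j : Fin D, ((c j : ℝ) : ℂ) * β m ^ (j : ℕ)
        = (1 / 2) * (P.coeff j * β m ^ (j : ℕ))
          + (1 / 2) * starRingEnd ℂ (P.coeff j * β (σ m) ^ (j : ℕ)) := by
      intro j
      rw [map_mul, map_pow, hσ, Complex.conj_conj]
      have e6 : ((c j : ℝ) : ℂ) = (1 / 2) * (P.coeff j + starRingEnd ℂ (P.coeff j)) := by
        rw [Complex.add_conj, hc]
        push_cast
        ring
      rw [e6]
      ring
    rw [Finset.sum_congr rfl (fun j _ => e5 j), Finset.sum_add_distrib, ← Finset.mul_sum,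
      ← Finset.mul_sum, ← e2, ← e4]
    ring
  -- the quadratic form
  set f : (Fin D → ℝ) → ℝ := fun c => (∑ m, (∑ j : Fin D, ((c j : ℝ) : ℂ) * β m ^ (j : ℕ))
    * (∑ j : Fin D, ((c j : ℝ) : ℂ) * β (ν m) ^ (j : ℕ))).re with hf
  have hfc : Continuous f := by
    apply Complex.continuous_re.comp
    refine continuous_finsetSum _ (fun m _ => ?_)
    refine Continuous.mul ?_ ?_
    · refine continuous_finsetSum _ (fun j _ => ?_)
      exact (Complex.continuous_ofReal.comp (continuous_apply j)).mul continuous_const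
    · refine continuous_finsetSum _ (fun j _ => ?_)
      exact (Complex.continuous_ofReal.comp (continuous_apply j)).mul continuous_const
  have hfQ : ∀ c : Fin D → ℚ, 0 ≤ f (fun j => ((c j : ℚ) : ℝ)) := by
    intro c
    obtain ⟨r, hr, hr'⟩ := h (∑ j : Fin D, C (c j) * X ^ (j : ℕ))
    have e1 : ∀ x : ℂ, aeval x (∑ j : Fin D, C (c j) * X ^ (j : ℕ))
        = ∑ j : Fin D, (((c j : ℚ) : ℝ) : ℂ) * x ^ (j : ℕ) := by
      intro x
      rw [map_sum]
      refine Finset.sum_congr rfl (fun j _ => ?_)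
      rw [map_mul, map_pow, aeval_X, aeval_C, eq_ratCast]
      push_cast
      rfl
    simp only [e1] at hr'
    simp only [hf]
    rw [hr', Complex.ratCast_re]
    exact_mod_cast hr
  have hfall : ∀ c, 0 ≤ f c := by
    have hcl : IsClosed {c | 0 ≤ f c} := isClosed_le continuous_const hfc
    have hd : Dense (Set.univ.pi (fun _ : Fin D => Set.range ((↑) : ℚ → ℝ))) :=
      dense_pi Set.univ (fun _ _ => Rat.denseRange_cast)
    have hsub : Set.univ.pi (fun _ : Fin D => Set.range ((↑) : ℚ → ℝ)) ⊆ {c | 0 ≤ f c} := by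
      intro c hc
      choose c' hc' using fun j => hc j (Set.mem_univ j)
      have : c = fun j => ((c' j : ℚ) : ℝ) := by
        funext j
        exact (hc' j).symm
      rw [this]
      exact hfQ c'
    intro c
    have h1 := closure_minimal hsub hcl
    rw [hd.closure_eq] at h1
    exact h1 (Set.mem_univ c)
  have h1 := hfall c
  simp only [hf, hce] at h1
  have h2 : ∑ m, ((v m : ℝ) : ℂ) * ((v (ν m) : ℝ) : ℂ) = ((-(∑ m, v m ^ 2) : ℝ) : ℂ) := by
    push_cast
    rw [← Finset.sum_neg_distrib]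
    refine Finset.sum_congr rfl (fun m _ => ?_)
    rw [hvν]
    push_cast
    ring
  rw [h2, Complex.ofReal_re] at h1
  have h3 : 0 < ∑ m, v m ^ 2 := by
    refine Finset.sum_pos' (fun m _ => sq_nonneg _) ⟨k, Finset.mem_univ _, ?_⟩
    have : v k = 1 := by simp [hv]
    rw [this]; norm_num
  linarith

end

end Pool.Agent.Lib.MP_361a6f_ag.H3
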