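import Pool.Agent.Lib.MP_361a6f_ag.H3.FrobMain
import Pool.Agent.Lib.MP_361a6f_ag.H3.RH

/-!
# Positivity on the square implies the Riemann hypothesis
-/

open CategoryTheory AlgebraicGeometry MonoidalCategory CartesianMonoidalCategory Opposite

universe u v w

set_option linter.unusedSectionVars false

namespace Pool.Agent.Lib.MP_361a6f_ag.H3

variable {k : Type u} [Field k] {K : Type v} [Field K] [CharZero K]
  {W : CohomologyData.{u, v, w} k K} {𝒱 : VarietyClass k}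

section

variable (hW : IsWeilCohomology W 𝒱) {X : Sch k} {n : ℕ}
  (hX : 𝒱.mem X n) {ξ : W.coh X} (hξ : ξ ∈ W.alg X 1) {κ : Type} [Fintype κ]
  (σ : Strings W X n ξ κ)

include hW hX hξ in
theorem PT_tr {Y : Sch k} {d : ℕ} (hY : 𝒱.mem Y d)
    (z : W.coh (Y ⊗ X)) {w : W.coh (Y ⊗ X)} (hw : w ∈ tens W (⊤ : Submodule K (W.coh Y)) σ.T) :
    W.tr (Y ⊗ X) (σ.PT z * w) = W.tr (Y ⊗ X) (z * w) := by
  conv_rhs => rw [σ.eq_sum z]
  rw [add_mul, map_add, Finset.sum_mul, map_sum,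
    Finset.sum_eq_zero (fun s _ => σ.ΨT_orth hW hY hX hξ s _ hw), zero_add]

/-- projection of a class on `X × X` to `T ⊗ T` -/
noncomputable def tproj (γ : W.coh (X ⊗ X)) :
    W.coh ((𝟙_ (Sch k) ⊗ X) ⊗ X) :=
  σ.PT (W.pull (swap (𝟙_ (Sch k)) X).hom
    (σ.PT (W.pull (pr23 (𝟙_ (Sch k)) X) γ)))

/-- projection of a class on `X × X` to `T ⊗ T`, as a class on `prodPow` -/
noncomputable def tprojI (γ : W.coh (X ⊗ X)) :
    W.coh (prodPow (𝟙_ (Sch k)) X 2) := tproj σ γ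

include hW hX hξ in
theorem tproj_alg {j : ℕ} {γ : W.coh (X ⊗ X)} (hγ : γ ∈ W.alg (X ⊗ X) j) :
    tproj σ γ ∈ W.alg _ j := by
  have h1 := 𝒱.prod 𝒱.point hX
  have h2 := 𝒱.prod h1 hX
  exact σ.PT_alg hW h1 hX hξ (hW.pull_alg h2 h2 _
    (σ.PT_alg hW h1 hX hξ (hW.pull_alg h2 (𝒱.prod hX hX) _ hγ)))

include hW hX hξ in
theorem tproj_mem (γ : W.coh (X ⊗ X)) :
    tproj σ γ ∈ tens W (tens W
      (⊤ : Submodule K (W.coh (𝟙_ (Sch k)))) σ.T) σ.T := by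
  have h1 := 𝒱.prod 𝒱.point hX
  exact (σ.PT_mem hW h1 hX hξ _
    (swap_tens hW 𝒱.point hX σ.T_gr _ (σ.PT_top hW h1 hX hξ _))).1

include hW hX hξ in
theorem tproj_tr {γ : W.coh (X ⊗ X)} {j : ℕ} (hγ : γ ∈ W.alg (X ⊗ X) j) {s t : W.coh X}
    (hs : s ∈ σ.T) (ht : t ∈ σ.T) :
    W.tr _ (tproj σ γ * gen W (1 : W.coh (𝟙_ (Sch k))) s t)
      = (-1) ^ n * W.tr (X ⊗ X) (W.pull (fst X X) t * W.pull (snd X X) s * γ) := by
  have h0 : 𝒱.mem (𝟙_ (Sch k)) 0 := 𝒱.point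
  have h1 := 𝒱.prod h0 hX
  have h2 := 𝒱.prod h1 hX
  have hm : ∀ s ∈ σ.T, ∀ t ∈ σ.T,
      gen W (1 : W.coh (𝟙_ (Sch k))) s t
        ∈ tens W (⊤ : Submodule K (W.coh (𝟙_ (Sch k) ⊗ X))) σ.T :=
    fun s _ t ht => mem_tens trivial ht
  rw [tproj, PT_tr hW hX hξ σ h1 _ (hm s hs t ht)]
  have e1 : W.pull (swap (𝟙_ (Sch k)) X).hom
      (σ.PT (W.pull (pr23 (𝟙_ (Sch k)) X) γ))
      * gen W (1 : W.coh (𝟙_ (Sch k))) s t
      = W.pull (swap (𝟙_ (Sch k)) X).hom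
        (σ.PT (W.pull (pr23 (𝟙_ (Sch k)) X) γ)
          * ((-1 : K) ^ n • gen W (1 : W.coh (𝟙_ (Sch k))) t s)) := by
    rw [map_mul, map_smul, swap_gen hW h0 hX _ (σ.T_gr ht) (σ.T_gr hs), smul_smul, ← mul_pow]
    simp
  rw [e1, hW.tr_iso h2 h2, mul_smul_comm, map_smul, smul_eq_mul,
    PT_tr hW hX hξ σ h1 _ (hm t ht s hs)]
  congr 1
  have hz : W.pull (pr23 (𝟙_ (Sch k)) X) γ ∈ W.alg _ j :=
    hW.pull_alg h2 (𝒱.prod hX hX) _ hγ
  have e2 := tr_pr hW h0 hX (1 : W.coh (𝟙_ (Sch k))) 1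
    (W.pull (fst X X) t * W.pull (snd X X) s * γ)
  rw [mul_one, hW.point_tr, one_mul, map_one, one_mul, mul_one] at e2
  rw [hW.alg_comm h2 hz, gen_eq, map_one, one_mul, ← map_mul, e2]

end

section

variable (hW : IsWeilCohomology W 𝒱) {X : Sch k} {n : ℕ}
  (hX : 𝒱.mem X n) {ξ : ℕ → W.coh X} (hξ : ∀ i, ξ i ∈ W.alg X 1) {κ : Type} [Fintype κ]
  (σ : Strings W X n (ξ 0) κ) (hσ1 : ∀ t ∈ σ.T, ξ 1 * t = 0)
  {F : X ⟶ X} {Q : K} {I : Type} [Fintype I] [DecidableEq I]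
  (ε : Eigen W X n σ.T F Q I)

/-- the algebraic class attached to a rational polynomial in `F` -/
noncomputable def gp (σ : Strings W X n (ξ 0) κ) (F : X ⟶ X) (p : Polynomial ℚ) :
    W.coh (prodPow (𝟙_ (Sch k)) X 2) :=
  ∑ c ∈ p.support, ((p.coeff c : ℚ) : K) • tprojI σ (graph' W (iterHom F c))

include hW hX hξ in
theorem gp_alg (p : Polynomial ℚ) : gp σ F p ∈ W.alg _ n :=
  sum_mem (fun _ _ => W.alg_smul _ (tproj_alg hW hX (hξ 0) σ (graph'_alg hW hX _)))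

include hW hX hξ in
theorem gp_mem (p : Polynomial ℚ) :
    gp σ F p ∈ tpow W (⊤ : Submodule K (W.coh (𝟙_ (Sch k)))) σ.T 2 :=
  sum_mem (fun _ _ => Submodule.smul_mem _ _ (tproj_mem hW hX (hξ 0) σ _))

include hW hX hξ in
theorem co_tproj (c : ℕ) (J : Fin 2 → I) :
    ε.co 2 (tprojI σ (graph' W (iterHom F c))) J
      = (-1) ^ n * (ε.α (J 0) ^ c * (if J 0 = ε.ν (J 1) then ε.sg (J 1) else 0)) := by
  have e1 : ε.co 2 (tprojI σ (graph' W (iterHom F c))) J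
      = W.tr _ (tproj σ (graph' W (iterHom F c))
        * gen W (1 : W.coh (𝟙_ (Sch k))) (ε.e (J 0)) (ε.e (J 1))) := rfl
  rw [e1, tproj_tr hW hX (hξ 0) σ (graph'_alg hW hX _) (ε.e_mem _) (ε.e_mem _),
    graph'_tr hW hX, ε.iterHom_e, mul_smul_comm, map_smul, ε.pair', smul_eq_mul]

include hW hX hξ in
theorem co_gp (p : Polynomial ℚ) (J : Fin 2 → I) :
    ε.co 2 (gp σ F p) J = (-1) ^ n * (Polynomial.aeval (ε.α (J 0)) p
      * (if J 0 = ε.ν (J 1) then ε.sg (J 1) else 0)) := by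
  have e0 : ∀ (S : Finset ℕ) (f : ℕ → W.coh (prodPow (𝟙_ (Sch k)) X 2)),
      ε.co 2 (∑ c ∈ S, f c) J = ∑ c ∈ S, ε.co 2 (f c) J := by
    intro S f
    simp only [Eigen.co]
    rw [Finset.sum_mul, map_sum]
  rw [gp, e0, Polynomial.aeval_eq_sum_range' (n := p.natDegree + 1) (by omega)]
  have e2 : ∀ c, ε.co 2 (((p.coeff c : ℚ) : K) • tprojI σ (graph' W (iterHom F c))) J
      = (-1) ^ n * (((p.coeff c : ℚ) : K) * ε.α (J 0) ^ c
        * (if J 0 = ε.ν (J 1) then ε.sg (J 1) else 0)) := by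
    intro c
    rw [ε.co_smul, co_tproj hW hX hξ σ ε]
    ring
  rw [Finset.sum_congr rfl (fun c _ => e2 c), ← Finset.mul_sum, Finset.sum_mul]
  congr 1
  have e3 : ∑ c ∈ p.support, ((p.coeff c : ℚ) : K) * ε.α (J 0) ^ c
        * (if J 0 = ε.ν (J 1) then ε.sg (J 1) else 0)
      = ∑ c ∈ Finset.range (p.natDegree + 1), ((p.coeff c : ℚ) : K) * ε.α (J 0) ^ c
        * (if J 0 = ε.ν (J 1) then ε.sg (J 1) else 0) := by
    refine Finset.sum_subset ?_ ?_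
    · intro c hc
      rw [Finset.mem_range]
      have := Polynomial.le_natDegree_of_mem_supp c hc
      omega
    · intro c _ hc
      rw [Polynomial.notMem_support_iff.mp hc]
      simp
  rw [e3]
  refine Finset.sum_congr rfl (fun c _ => ?_)
  rw [Algebra.smul_def]
  rfl

include hW hX hξ in
/-- the self-intersection of the class of a polynomial -/
theorem gp_tr (p : Polynomial ℚ) :
    W.tr _ (gp σ F p * gp σ F p)
      = (-1) ^ n * ∑ i, Polynomial.aeval (ε.α i) p * Polynomial.aeval (ε.α (ε.ν i)) p := by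
  rw [ε.tr_expand hW hX 2 n (gp_mem hW hX hξ σ p) (gp_alg hW hX hξ σ p)]
  rw [← (finTwoArrowEquiv I).symm.sum_comp, Fintype.sum_prod_type, Finset.mul_sum]
  refine Finset.sum_congr rfl (fun i _ => ?_)
  rw [Finset.sum_eq_single (ε.ν i)]
  · rw [co_gp hW hX hξ σ ε, co_gp hW hX hξ σ ε]
    have e1 : ((finTwoArrowEquiv I).symm (i, ε.ν i)) 0 = i := rfl
    have e2 : ((finTwoArrowEquiv I).symm (i, ε.ν i)) 1 = ε.ν i := rfl
    have e3 : ε.nm 2 ((finTwoArrowEquiv I).symm (i, ε.ν i)) = 1 := by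
      have e4 : ε.nm 2 ((finTwoArrowEquiv I).symm (i, ε.ν i))
          = (-1) ^ (n * (1 * n)) * ((-1) ^ (n * (0 * n)) * 1 * ε.sg i) * ε.sg (ε.ν i) := rfl
      rw [e4]
      have e5 : (-1 : K) ^ (n * (1 * n)) = (-1) ^ n := by
        rw [one_mul]
        rcases Nat.even_or_odd n with h | h
        · rw [h.neg_one_pow, (h.mul_right n).neg_one_pow]
        · rw [h.neg_one_pow, (h.mul h).neg_one_pow]
      rw [e5, zero_mul, mul_zero, pow_zero, one_mul, one_mul, mul_assoc, ε.sg_ν, ← mul_pow]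
      simp
    rw [e3]
    simp only [Function.comp_apply, e1, e2, ε.ν_ν, if_true, div_one]
    have h3 : ((-1 : K) ^ n) * (-1) ^ n = 1 := by rw [← mul_pow]; simp
    have h4 := ε.sg_ν i
    linear_combination (Polynomial.aeval (ε.α (ε.ν i)) p * Polynomial.aeval (ε.α i) p
      * (ε.sg i * ε.sg (ε.ν i))) * h3
      + (Polynomial.aeval (ε.α (ε.ν i)) p * Polynomial.aeval (ε.α i) p) * h4
  · intro l _ hl
    rw [co_gp hW hX hξ σ ε p ((finTwoArrowEquiv I).symm (i, l))]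
    have e1 : ((finTwoArrowEquiv I).symm (i, l)) 0 = i := rfl
    have e2 : ((finTwoArrowEquiv I).symm (i, l)) 1 = l := rfl
    rw [e1, e2, if_neg]
    · ring
    · intro h
      apply hl
      rw [h, ε.ν_ν]
  · intro h; exact absurd (Finset.mem_univ _) h

include hW hX hξ hσ1 ε in
/-- positivity on the square gives positivity of the form on rational polynomials -/
theorem poly_pos (h2 : HodgeType W (prodPow (𝟙_ (Sch k)) X 2) (2 * n)
      (prodPol W (0 : W.coh (𝟙_ (Sch k))) ξ 2)) (p : Polynomial ℚ) :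
    ∃ r : ℚ, 0 ≤ r ∧ ∑ i, Polynomial.aeval (ε.α i) p * Polynomial.aeval (ε.α (ε.ν i)) p
      = (r : K) := by
  have h3 : ((-1 : K) ^ n) * (-1) ^ n = 1 := by rw [← mul_pow]; simp
  have htr := gp_tr hW hX hξ σ ε p
  by_cases h0 : gp σ F p = 0
  · refine ⟨0, le_refl _, ?_⟩
    rw [h0, zero_mul, map_zero] at htr
    rw [Rat.cast_zero]
    have h4 : ((-1 : K) ^ n) ≠ 0 := pow_ne_zero _ (by norm_num)
    exact (mul_eq_zero.mp htr.symm).resolve_left h4
  · have hprim : prodPol W (0 : W.coh (𝟙_ (Sch k))) ξ 2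
        ^ (2 * n - 2 * n + 1) * gp σ F p = 0 := by
      rw [Nat.sub_self, zero_add, pow_one]
      have key : ∀ z ∈ tens W (tens W
          (⊤ : Submodule K (W.coh (𝟙_ (Sch k)))) σ.T) σ.T,
          lam W (lam W (0 : W.coh (𝟙_ (Sch k))) (ξ 0)) (ξ 1) * z = 0 := by
        intro z hz
        refine TT_induction (P := fun z =>
          lam W (lam W (0 : W.coh (𝟙_ (Sch k))) (ξ 0)) (ξ 1) * z = 0)
          ?_ ?_ ?_ ?_ hz
        · intro y s hs t ht
          rw [lam_gen hW 𝒱.point hX (zero_mem _) (hξ 0) (hξ 1) σ.T_xi hσ1 y hs ht, zero_mul]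
          simp [gen]
        · rw [mul_zero]
        · intro a b ha hb
          rw [mul_add, ha, hb, add_zero]
        · intro c a ha
          rw [mul_smul_comm, ha, smul_zero]
      exact key _ (gp_mem hW hX hξ σ p)
    obtain ⟨r, hr, hr'⟩ := h2 n (by omega) (gp σ F p) (gp_alg hW hX hξ σ p) hprim h0
    rw [Nat.sub_self, pow_zero, one_mul, htr, ← mul_assoc, h3, one_mul] at hr'
    exact ⟨r, hr.le, hr'⟩

end

end Pool.Agent.Lib.MP_361a6f_ag.H3
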