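import Pool.Agent.Lib.MP_361a6f_ag.H3.Dec

/-!
# Hodge-Riemann property of a product with a variety with strings
-/

open CategoryTheory AlgebraicGeometry MonoidalCategory CartesianMonoidalCategory Opposite

universe u v w

set_option linter.unusedSectionVars false

namespace Pool.Agent.Lib.MP_361a6f_ag.H3

variable {k : Type u} [Field k] {K : Type v} [Field K] [CharZero K]
  {W : CohomologyData.{u, v, w} k K} {𝒱 : VarietyClass k}

/-- the product polarisation -/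
noncomputable def lam (W : CohomologyData.{u, v, w} k K)
    {Y X : Sch k} (l : W.coh Y) (ξ : W.coh X) : W.coh (Y ⊗ X) :=
  W.pull (fst Y X) l + W.pull (snd Y X) ξ

section

variable (hW : IsWeilCohomology W 𝒱) {Y X : Sch k} {d n : ℕ}
  (hY : 𝒱.mem Y d) (hX : 𝒱.mem X n) {l : W.coh Y} (hl : l ∈ W.alg Y 1)
  {ξ : W.coh X} (hξ : ξ ∈ W.alg X 1)

include hW hY hX hl hξ

theorem lam_alg : lam W l ξ ∈ W.alg (Y ⊗ X) 1 :=
  add_mem (hW.pull_alg (𝒱.prod hY hX) hY _ hl) (hW.pull_alg (𝒱.prod hY hX) hX _ hξ)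

theorem lam_mul (y : W.coh Y) (x : W.coh X) :
    lam W l ξ * (W.pull (fst Y X) y * W.pull (snd Y X) x)
      = W.pull (fst Y X) (l * y) * W.pull (snd Y X) x
        + W.pull (fst Y X) y * W.pull (snd Y X) (ξ * x) := by
  have h1 := hW.alg_comm (𝒱.prod hY hX) (hW.pull_alg (𝒱.prod hY hX) hX (snd Y X) hξ)
    (W.pull (fst Y X) y)
  rw [lam, add_mul, map_mul, map_mul, mul_assoc, ← mul_assoc (W.pull (snd Y X) ξ), h1, mul_assoc]

theorem tens_stable {S : Submodule K (W.coh Y)} {U : Submodule K (W.coh X)}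
    (hS : ∀ y ∈ S, l * y ∈ S) (hU : ∀ x ∈ U, ξ * x ∈ U) :
    ∀ z ∈ tens W S U, lam W l ξ * z ∈ tens W S U := by
  intro z hz
  refine Submodule.span_induction (p := fun z _ => lam W l ξ * z ∈ tens W S U) ?_ ?_ ?_ ?_ hz
  · rintro _ ⟨y, hy, x, hx, rfl⟩
    rw [lam_mul hW hY hX hl hξ]
    exact add_mem (mem_tens (hS y hy) hx) (mem_tens hy (hU x hx))
  · rw [mul_zero]; exact zero_mem _
  · intro a b _ _ ha hb
    rw [mul_add]; exact add_mem ha hb
  · intro c a _ ha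
    rw [mul_smul_comm]; exact Submodule.smul_mem _ _ ha

end

namespace Strings

variable (hW : IsWeilCohomology W 𝒱) {Y X : Sch k} {d n : ℕ}
  (hY : 𝒱.mem Y d) (hX : 𝒱.mem X n) {l : W.coh Y} (hl : l ∈ W.alg Y 1)
  {ξ : W.coh X} (hξ : ξ ∈ W.alg X 1) {S : Submodule K (W.coh Y)}
  (hS : ∀ x ∈ S, l * x ∈ S) {ι : Type} [Fintype ι] (σ : Strings W X n ξ ι)

theorem T_stable : ∀ t ∈ σ.T, ξ * t ∈ σ.T := by
  intro t ht
  rw [σ.T_xi t ht]; exact zero_mem _

include hX hξ in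
theorem Ψ_L (s : ι) (f : Fin (σ.len s + 1) → W.coh Y) :
    lam W l ξ * σ.Ψ s f = σ.Ψ s (((LD hW hY hl S hS).Str (σ.len s)).L f) := by
  rw [Ψ_apply, Ψ_apply, Finset.mul_sum]
  have e1 : ∀ b : Fin (σ.len s + 1),
      lam W l ξ * (W.pull (fst Y X) (f b) * W.pull (snd Y X) (ξ ^ (b : ℕ) * σ.p s))
        = W.pull (fst Y X) (l * f b) * W.pull (snd Y X) (ξ ^ (b : ℕ) * σ.p s)
          + W.pull (fst Y X) (f b) * W.pull (snd Y X) (ξ ^ ((b : ℕ) + 1) * σ.p s) := by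
    intro b
    rw [lam_mul hW hY hX hl hξ, ← mul_assoc ξ, ← pow_succ']
  have e2 : ∀ b : Fin (σ.len s + 1),
      W.pull (fst Y X) (((LD hW hY hl S hS).Str (σ.len s)).L f b)
          * W.pull (snd Y X) (ξ ^ (b : ℕ) * σ.p s)
        = W.pull (fst Y X) (l * f b) * W.pull (snd Y X) (ξ ^ (b : ℕ) * σ.p s)
          + W.pull (fst Y X) (LData.shift (K := K) (σ.len s) f b)
            * W.pull (snd Y X) (ξ ^ (b : ℕ) * σ.p s) := by
    intro b
    rw [LData.Str_L, LD_L, map_add, add_mul]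
  rw [Finset.sum_congr rfl (fun b _ => e1 b), Finset.sum_congr rfl (fun b _ => e2 b),
    Finset.sum_add_distrib, Finset.sum_add_distrib]
  congr 1
  rw [Fin.sum_univ_castSucc, Fin.sum_univ_succ]
  have e3 : ξ ^ (((Fin.last (σ.len s) : Fin (σ.len s + 1)) : ℕ) + 1) * σ.p s = 0 := by
    rw [Fin.val_last]
    exact σ.high_zero s _ (by omega)
  rw [e3, map_zero, mul_zero, add_zero, LData.shift_zero, map_zero, zero_mul, zero_add]
  refine Finset.sum_congr rfl (fun c _ => ?_)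
  rw [LData.shift_succ, Fin.val_castSucc, Fin.val_succ]

include hW hY hX hξ in
theorem gen_B (s s' : ι) (a b : ℕ) (y y' : W.coh Y) :
    W.tr (Y ⊗ X) (W.pull (fst Y X) y * W.pull (snd Y X) (ξ ^ a * σ.p s)
      * (W.pull (fst Y X) y' * W.pull (snd Y X) (ξ ^ b * σ.p s')))
      = W.tr Y (y * y') * W.tr X (ξ ^ (a + b) * (σ.p s * σ.p s')) := by
  have hYX := 𝒱.prod hY hX
  have h1 : ξ ^ a * σ.p s ∈ W.alg X (a + σ.j s) :=
    hW.mul_alg hX (hW.pow_alg hX hξ a) (σ.p_alg s)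
  have h2 := hW.alg_comm hYX (hW.pull_alg hYX hX (snd Y X) h1) (W.pull (fst Y X) y')
  have e : W.pull (fst Y X) y * W.pull (snd Y X) (ξ ^ a * σ.p s)
      * (W.pull (fst Y X) y' * W.pull (snd Y X) (ξ ^ b * σ.p s'))
      = W.pull (fst Y X) (y * y')
        * W.pull (snd Y X) (ξ ^ a * σ.p s * (ξ ^ b * σ.p s')) := by
    rw [map_mul (W.pull (fst Y X)), map_mul (W.pull (snd Y X)) (ξ ^ a * σ.p s), mul_assoc,
      ← mul_assoc (W.pull (snd Y X) (ξ ^ a * σ.p s)), h2, mul_assoc, mul_assoc]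
  rw [e, hW.kunneth_tr hY hX]
  congr 2
  rw [mul_assoc, ← mul_assoc (σ.p s), hW.alg_comm hX (σ.p_alg s), mul_assoc, ← mul_assoc,
    ← pow_add]

include hW hY hX hξ in
theorem Ψ_B (s : ι) (f g : Fin (σ.len s + 1) → W.coh Y) :
    W.tr (Y ⊗ X) (σ.Ψ s f * σ.Ψ s g)
      = (-1) ^ (σ.j s) * (σ.D s : K) * ∑ b, W.tr Y (f b * g b.rev) := by
  rw [Ψ_apply, Ψ_apply, Finset.sum_mul_sum, map_sum, Finset.mul_sum]
  refine Finset.sum_congr rfl (fun a _ => ?_)
  rw [map_sum, Finset.sum_eq_single a.rev]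
  · rw [σ.gen_B hW hY hX hξ]
    have : (a : ℕ) + (a.rev : ℕ) = n - 2 * σ.j s := by
      rw [Fin.val_rev]
      have := a.isLt
      simp only [len] at *
      omega
    rw [this, σ.norm]; ring
  · intro b _ hb
    rw [σ.gen_B hW hY hX hξ, σ.norm_other hW hX hξ, mul_zero]
    intro h
    apply hb
    apply Fin.ext
    rw [Fin.val_rev]
    have := a.isLt
    omega
  · intro h; exact absurd (Finset.mem_univ _) h

include hW hY hX hξ in
theorem Ψ_orth (s s' : ι) (hs : s ≠ s') (f : Fin (σ.len s + 1) → W.coh Y)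
    (g : Fin (σ.len s' + 1) → W.coh Y) : W.tr (Y ⊗ X) (σ.Ψ s f * σ.Ψ s' g) = 0 := by
  rw [Ψ_apply, Ψ_apply, Finset.sum_mul_sum, map_sum]
  refine Finset.sum_eq_zero (fun a _ => ?_)
  rw [map_sum]
  refine Finset.sum_eq_zero (fun b _ => ?_)
  rw [σ.gen_B hW hY hX hξ, σ.orth s s' hs, mul_zero]

include hW hY hX hξ in
theorem ΨT_orth (s : ι) (f : Fin (σ.len s + 1) → W.coh Y) {z : W.coh (Y ⊗ X)}
    (hz : z ∈ tens W (⊤ : Submodule K (W.coh Y)) σ.T) : W.tr (Y ⊗ X) (σ.Ψ s f * z) = 0 := by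
  have hYX := 𝒱.prod hY hX
  refine Submodule.span_induction (p := fun z _ => W.tr (Y ⊗ X) (σ.Ψ s f * z) = 0)
    ?_ ?_ ?_ ?_ hz
  · rintro _ ⟨y', _, t, ht, rfl⟩
    rw [Ψ_apply, Finset.sum_mul, map_sum]
    refine Finset.sum_eq_zero (fun a _ => ?_)
    have h1 : ξ ^ (a : ℕ) * σ.p s ∈ W.alg X (a + σ.j s) :=
      hW.mul_alg hX (hW.pow_alg hX hξ a) (σ.p_alg s)
    have h2 := hW.alg_comm hYX (hW.pull_alg hYX hX (snd Y X) h1) (W.pull (fst Y X) y')
    have e : W.pull (fst Y X) (f a) * W.pull (snd Y X) (ξ ^ (a : ℕ) * σ.p s)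
        * (W.pull (fst Y X) y' * W.pull (snd Y X) t)
        = W.pull (fst Y X) (f a * y')
          * W.pull (snd Y X) (ξ ^ (a : ℕ) * σ.p s * t) := by
      rw [map_mul (W.pull (fst Y X)), map_mul (W.pull (snd Y X)) (ξ ^ (a : ℕ) * σ.p s), mul_assoc,
        ← mul_assoc (W.pull (snd Y X) (ξ ^ (a : ℕ) * σ.p s)), h2, mul_assoc, mul_assoc]
    rw [e, hW.kunneth_tr hY hX, mul_assoc, hW.alg_comm hX (σ.p_alg s) t, σ.T_orth t ht, mul_zero]
  · simp
  · intro a b _ _ ha hb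
    rw [mul_add, map_add, ha, hb, add_zero]
  · intro c a _ ha
    rw [mul_smul_comm, map_smul, ha, smul_zero]

include hW hY hX hξ in
theorem PT_Ψ (s : ι) (f : Fin (σ.len s + 1) → W.coh Y) : σ.PT (σ.Ψ s f) = 0 := by
  rw [Ψ_apply, map_sum]
  exact Finset.sum_eq_zero (fun b _ => σ.PT_string hW hY hX hξ s b (f b))

include hW hY hX hξ in
theorem PT_top (z : W.coh (Y ⊗ X)) : σ.PT z ∈ tens W (⊤ : Submodule K (W.coh Y)) σ.T := by
  refine (σ.PT_mem hW hY hX hξ ⊤ ?_).1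
  rw [tens_top hW hY hX]; trivial

include hX hξ in
theorem mul_dec (z : W.coh (Y ⊗ X)) :
    lam W l ξ * z
      = ∑ s, σ.Ψ s (((LD hW hY hl S hS).Str (σ.len s)).L (fun b => σ.F s b z))
        + lam W l ξ * σ.PT z := by
  conv_lhs => rw [σ.eq_sum z]
  rw [mul_add, Finset.mul_sum]
  congr 1
  exact Finset.sum_congr rfl (fun s _ => σ.Ψ_L hW hY hX hl hξ hS s _)

include hX hξ in
theorem F_L (s : ι) (z : W.coh (Y ⊗ X)) :
    (fun b : Fin (σ.len s + 1) => σ.F s b (lam W l ξ * z))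
      = ((LD hW hY hl S hS).Str (σ.len s)).L (fun b => σ.F s b z) := by
  classical
  funext b
  rw [σ.mul_dec hW hY hX hl hξ hS z, map_add, map_sum]
  have h1 : σ.F s b (lam W l ξ * σ.PT z) = 0 :=
    σ.F_T hW hY hX hξ s b (tens_stable hW hY hX hl hξ (S := ⊤) (fun _ _ => trivial) σ.T_stable _
      (σ.PT_top hW hY hX hξ z))
  rw [h1, add_zero, Finset.sum_eq_single s]
  · rw [σ.F_Ψ hW hY hX hξ, dif_pos rfl]
  · intro s' _ hs'
    rw [σ.F_Ψ hW hY hX hξ, dif_neg (Ne.symm hs')]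
  · intro h; exact absurd (Finset.mem_univ _) h

include hW hY hX hl hξ in
theorem PT_L (z : W.coh (Y ⊗ X)) : σ.PT (lam W l ξ * z) = lam W l ξ * σ.PT z := by
  rw [σ.mul_dec hW hY hX hl hξ (S := ⊤) (fun _ _ => trivial) z, map_add, map_sum]
  rw [Finset.sum_eq_zero (fun s _ => σ.PT_Ψ hW hY hX hξ s _), zero_add]
  exact σ.PT_T hW hY hX hξ (tens_stable hW hY hX hl hξ (S := ⊤) (fun _ _ => trivial) σ.T_stable _
      (σ.PT_top hW hY hX hξ z))

include hX hξ in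
theorem F_pow (s : ι) (r : ℕ) (z : W.coh (Y ⊗ X)) :
    (fun b : Fin (σ.len s + 1) => σ.F s b (lam W l ξ ^ r * z))
      = (((LD hW hY hl S hS).Str (σ.len s)).L ^ r) (fun b => σ.F s b z) := by
  induction r with
  | zero => simp
  | succ r ih =>
    rw [pow_succ', mul_assoc, σ.F_L hW hY hX hl hξ hS, ih, ← Module.End.mul_apply, ← pow_succ']

include hW hY hX hl hξ in
theorem PT_pow (r : ℕ) (z : W.coh (Y ⊗ X)) :
    σ.PT (lam W l ξ ^ r * z) = lam W l ξ ^ r * σ.PT z := by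
  induction r with
  | zero => simp
  | succ r ih =>
    rw [pow_succ', mul_assoc, σ.PT_L hW hY hX hl hξ, ih, mul_assoc]

include hX hξ in
theorem pow_dec (r : ℕ) (z : W.coh (Y ⊗ X)) :
    lam W l ξ ^ r * z
      = ∑ s, σ.Ψ s ((((LD hW hY hl S hS).Str (σ.len s)).L ^ r) (fun b => σ.F s b z))
        + lam W l ξ ^ r * σ.PT z := by
  conv_lhs => rw [σ.eq_sum (lam W l ξ ^ r * z)]
  rw [σ.PT_pow hW hY hX hl hξ]
  congr 1
  exact Finset.sum_congr rfl (fun s _ => by rw [σ.F_pow hW hY hX hl hξ hS])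

include hW hY hX hξ in
/-- the components of an algebraic class are algebraic -/
theorem F_alg (s : ι) (b : ℕ) (hb : b ≤ σ.len s) {j : ℕ} {z : W.coh (Y ⊗ X)}
    (hz : z ∈ W.alg (Y ⊗ X) j) :
    (∀ i, j = i + σ.j s + b → σ.F s b z ∈ W.alg Y i) ∧ (j < σ.j s + b → σ.F s b z = 0) := by
  have hYX := 𝒱.prod hY hX
  have h1 : ξ ^ (σ.len s - b) * σ.p s ∈ W.alg X (σ.len s - b + σ.j s) :=
    hW.mul_alg hX (hW.pow_alg hX hξ _) (σ.p_alg s)
  have h2 := hW.mul_alg hYX hz (hW.pull_alg hYX hX (snd Y X) h1)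
  have hjs := σ.hj s
  constructor
  · intro i hi
    rw [F_apply]
    have h3 : W.push (fst Y X) (z * W.pull (snd Y X) (ξ ^ (σ.len s - b) * σ.p s)) ∈ W.alg Y i := by
      refine hW.push_alg hYX hY _ h2 ?_
      simp only [len] at *
      omega
    have h4 := W.alg_smul ((-1) ^ (σ.j s) * (σ.D s)⁻¹) h3
    push_cast at h4 ⊢
    exact h4
  · intro hj
    rw [F_apply]
    have h3 : W.push (fst Y X) (z * W.pull (snd Y X) (ξ ^ (σ.len s - b) * σ.p s)) = 0 := by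
      refine hW.push_zero hYX hY _ (hW.alg_gr hYX h2) ?_
      simp only [len] at *
      omega
    rw [h3, smul_zero]

include hW hY hX hξ in
theorem Ψ_alg (s : ι) {j : ℕ} {z : W.coh (Y ⊗ X)} (hz : z ∈ W.alg (Y ⊗ X) j) :
    σ.Ψ s (fun b => σ.F s b z) ∈ W.alg (Y ⊗ X) j := by
  have hYX := 𝒱.prod hY hX
  rw [Ψ_apply]
  refine sum_mem (fun b _ => ?_)
  have hb : (b : ℕ) ≤ σ.len s := by have := b.isLt; omega
  obtain ⟨h1, h2⟩ := σ.F_alg hW hY hX hξ s b hb hz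
  by_cases hj : j < σ.j s + b
  · rw [h2 hj, map_zero, zero_mul]; exact zero_mem _
  · obtain ⟨i, hi⟩ : ∃ i, j = i + σ.j s + b := ⟨j - σ.j s - b, by omega⟩
    have h3 := hW.mul_alg hYX (hW.pull_alg hYX hY (fst Y X) (h1 i hi))
      (hW.pull_alg hYX hX (snd Y X) (hW.mul_alg hX (hW.pow_alg hX hξ (b : ℕ)) (σ.p_alg s)))
    have e : i + ((b : ℕ) + σ.j s) = j := by omega
    rw [e] at h3
    exact h3

include hW hY hX hξ in
theorem PT_alg {j : ℕ} {z : W.coh (Y ⊗ X)} (hz : z ∈ W.alg (Y ⊗ X) j) :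
    σ.PT z ∈ W.alg (Y ⊗ X) j := by
  rw [PT_apply]
  exact sub_mem hz (sum_mem (fun s _ => σ.Ψ_alg hW hY hX hξ s hz))

/-- Hodge-Riemann property for the product with `X`. -/
theorem hr_prod (h1 : (LD hW hY hl S hS).HR d)
    (h2 : (LD hW (𝒱.prod hY hX) (lam_alg hW hY hX hl hξ) (tens W S σ.T)
      (tens_stable hW hY hX hl hξ hS σ.T_stable)).HR (d + n)) :
    (LD hW (𝒱.prod hY hX) (lam_alg hW hY hX hl hξ) (tens W S ⊤)
      (tens_stable hW hY hX hl hξ hS (fun _ _ => trivial))).HR (d + n) := by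
  classical
  intro j hj z hz hprim hne
  have hYX := 𝒱.prod hY hX
  obtain ⟨hzalg, hzS⟩ := hz
  obtain ⟨r, hr⟩ : ∃ r, d + n - 2 * j = r := ⟨_, rfl⟩
  rw [hr] at hprim ⊢
  rw [LD_pow] at hprim
  rw [LD_pow, LD_B]
  have hPTS := σ.PT_mem hW hY hX hξ S hzS
  have hPTalg := σ.PT_alg hW hY hX hξ hzalg
  -- the trace
  have htr : W.tr (Y ⊗ X) (z * (lam W l ξ ^ r * z))
      = ∑ s, W.tr (Y ⊗ X) (σ.Ψ s (fun b => σ.F s b z)
          * σ.Ψ s ((((LD hW hY hl S hS).Str (σ.len s)).L ^ r) (fun b => σ.F s b z)))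
        + W.tr (Y ⊗ X) (σ.PT z * (lam W l ξ ^ r * σ.PT z)) := by
    have hT : lam W l ξ ^ r * σ.PT z ∈ tens W (⊤ : Submodule K (W.coh Y)) σ.T := by
      rw [← σ.PT_pow hW hY hX hl hξ]
      exact σ.PT_top hW hY hX hξ _
    have hT0 := σ.PT_top hW hY hX hξ z
    conv_lhs => rw [σ.pow_dec hW hY hX hl hξ hS r z]
    conv_lhs =>
      enter [2, 1]
      rw [σ.eq_sum z]
    rw [add_mul, mul_add, mul_add, map_add, map_add, map_add]
    have c1 : W.tr (Y ⊗ X) ((∑ s, σ.Ψ s (fun b => σ.F s b z)) * (lam W l ξ ^ r * σ.PT z)) = 0 := by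
      rw [Finset.sum_mul, map_sum]
      exact Finset.sum_eq_zero (fun s _ => σ.ΨT_orth hW hY hX hξ s _ hT)
    have c2 : W.tr (Y ⊗ X) (σ.PT z * ∑ s, σ.Ψ s ((((LD hW hY hl S hS).Str (σ.len s)).L ^ r)
        (fun b => σ.F s b z))) = 0 := by
      rw [hW.alg_comm hYX hPTalg, Finset.sum_mul, map_sum]
      exact Finset.sum_eq_zero (fun s _ => σ.ΨT_orth hW hY hX hξ s _ hT0)
    rw [c1, c2, add_zero, zero_add]
    congr 1
    rw [Finset.sum_mul_sum, map_sum]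
    refine Finset.sum_congr rfl (fun s _ => ?_)
    rw [map_sum, Finset.sum_eq_single s]
    · intro s' _ hs'
      exact σ.Ψ_orth hW hY hX hξ s s' (Ne.symm hs') _ _
    · intro h; exact absurd (Finset.mem_univ _) h
  rw [htr, mul_add, Finset.mul_sum]
  -- positivity of the string parts
  have hstr : ∀ s, (fun b : Fin (σ.len s + 1) => σ.F s b z) ≠ 0 →
      RatPos ((-1) ^ j * W.tr (Y ⊗ X) (σ.Ψ s (fun b => σ.F s b z)
          * σ.Ψ s ((((LD hW hY hl S hS).Str (σ.len s)).L ^ r) (fun b => σ.F s b z)))) := by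
    intro s hs
    have hjs := σ.hj s
    have hjj : σ.j s ≤ j := by
      by_contra hcon
      apply hs
      funext b
      have hb : (b : ℕ) ≤ σ.len s := by have := b.isLt; omega
      exact (σ.F_alg hW hY hX hξ s b hb hzalg).2 (by omega)
    have hmem : (fun b : Fin (σ.len s + 1) => σ.F s b z)
        ∈ ((LD hW hY hl S hS).Str (σ.len s)).gr (j - σ.j s) := by
      intro b
      have hb : (b : ℕ) ≤ σ.len s := by have := b.isLt; omega
      obtain ⟨k1, k2⟩ := σ.F_alg hW hY hX hξ s b hb hzalg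
      exact ⟨fun i hi => ⟨k1 i (by omega), hPTS.2 s b⟩, fun hb' => k2 (by omega)⟩
    have hprim' : ((((LD hW hY hl S hS).Str (σ.len s)).L ^ (r + 1))
        (fun b : Fin (σ.len s + 1) => σ.F s b z)) = 0 := by
      rw [← σ.F_pow hW hY hX hl hξ hS, hprim]
      funext b
      exact map_zero _
    have hexp : d + σ.len s - 2 * (j - σ.j s) = r := by
      simp only [len]; omega
    have h3 := h1.Str (σ.len s) (j - σ.j s) (by simp only [len]; omega) _ hmem
      (by rw [hexp]; exact hprim') hs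
    rw [hexp] at h3
    have h4 := h3.smul (σ.D_pos s)
    rw [σ.Ψ_B hW hY hX hξ]
    rw [LData.Str_B] at h4
    have e : (-1 : K) ^ j * (-1) ^ (σ.j s) = (-1) ^ (j - σ.j s) := by
      obtain ⟨c, rfl⟩ : ∃ c, j = c + σ.j s := ⟨j - σ.j s, by omega⟩
      rw [Nat.add_sub_cancel, pow_add, mul_assoc, ← mul_pow]
      simp
    rw [← mul_assoc, ← mul_assoc, e]
    have e' : ∀ A : K, (-1 : K) ^ (j - σ.j s) * (σ.D s : K) * A
        = (σ.D s : K) * ((-1) ^ (j - σ.j s) * A) := fun A => by ring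
    rw [e']
    exact h4
  have hPT : σ.PT z ≠ 0 →
      RatPos ((-1) ^ j * W.tr (Y ⊗ X) (σ.PT z * (lam W l ξ ^ r * σ.PT z))) := by
    intro hPT0
    have h3 := h2 j hj (σ.PT z) ⟨hPTalg, hPTS.1⟩ (by
      rw [hr, LD_pow, ← σ.PT_pow hW hY hX hl hξ, hprim, map_zero]) hPT0
    rw [hr, LD_pow, LD_B] at h3
    exact h3
  have hfin : RatPos (∑ o : Option ι, (fun o : Option ι => match o with
      | none => (-1) ^ j * W.tr (Y ⊗ X) (σ.PT z * (lam W l ξ ^ r * σ.PT z))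
      | some s => (-1) ^ j * W.tr (Y ⊗ X) (σ.Ψ s (fun b => σ.F s b z)
          * σ.Ψ s ((((LD hW hY hl S hS).Str (σ.len s)).L ^ r) (fun b => σ.F s b z)))) o) := by
    refine RatPos.sum _ _ ?_ ?_
    · rintro (_ | s) _
      · by_cases h0 : σ.PT z = 0
        · left; simp only [h0]; simp
        · right; exact hPT h0
      · by_cases h0 : (fun b : Fin (σ.len s + 1) => σ.F s b z) = 0
        · left; simp only [h0]; simp
        · right; exact hstr s h0
    · by_cases h0 : σ.PT z = 0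
      · have : ∃ s, (fun b : Fin (σ.len s + 1) => σ.F s b z) ≠ 0 := by
          by_contra hcon
          push Not at hcon
          apply hne
          rw [σ.eq_sum z, h0, add_zero]
          refine Finset.sum_eq_zero (fun s _ => ?_)
          rw [hcon s, map_zero]
        obtain ⟨s, hs⟩ := this
        exact ⟨some s, Finset.mem_univ _, hstr s hs⟩
      · exact ⟨none, Finset.mem_univ _, hPT h0⟩
  rw [Fintype.sum_option] at hfin
  rw [add_comm]
  exact hfin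

end Strings

end Pool.Agent.Lib.MP_361a6f_ag.H3
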