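import Pool.Agent.Lib.MP_361a6f_ag.H3.Weil

/-!
# The definitions used in the statements
-/

open CategoryTheory AlgebraicGeometry MonoidalCategory CartesianMonoidalCategory

universe u v w

namespace Pool.Agent.Lib.MP_361a6f_ag.H3

variable {k : Type u} [Field k] {K : Type v} [Field K]

/-- the element `x` of `K` is a positive rational number -/
def RatPos (x : K) : Prop := ∃ r : ℚ, 0 < r ∧ x = (r : K)

/-- `(X, ξ)` is of Hodge type: on the space of primitive algebraic classes of codimension `j ≤ n/2`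
the form `(-1)^j tr(ξ^(n-2j) x x)` takes positive rational values for `x ≠ 0`. -/
def HodgeType (W : CohomologyData.{u, v, w} k K) (X : Sch k) (n : ℕ)
    (ξ : W.coh X) : Prop :=
  ∀ j : ℕ, 2 * j ≤ n → ∀ x ∈ W.alg X j, ξ ^ (n - 2 * j + 1) * x = 0 → x ≠ 0 →
    RatPos ((-1) ^ j * W.tr X (ξ ^ (n - 2 * j) * (x * x)))

/-- the product `Z × X^m` -/
noncomputable def prodPow (Z X : Sch k) :
    ℕ → Sch k
  | 0 => Z
  | m + 1 => (prodPow Z X m).prod X

/-- the class `pr_0^* l + Σ_i pr_i^* ξ_i` on `Z × X^m` -/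
noncomputable def prodPol (W : CohomologyData.{u, v, w} k K)
    {Z X : Sch k} (l : W.coh Z) (ξ : ℕ → W.coh X) :
    (m : ℕ) → W.coh (prodPow Z X m)
  | 0 => l
  | m + 1 => W.pb ((prodPow Z X m).pr₁ X) (prodPol W l ξ m) + W.pb ((prodPow Z X m).pr₂ X) (ξ m)

/-- The power `X^m`. -/
noncomputable abbrev power (X : Sch k) (m : ℕ) : Sch k := prodPow (𝟙_ (Sch k)) X m

variable (W : CohomologyData.{u, v, w} k K)

/-- The class `∑ pr_i^* ξ_i`, `i < m`, on `X^m`. -/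
noncomputable abbrev powerClass {X : Sch k} (ξ : ℕ → W.coh X) (m : ℕ) : W.coh (power X m) :=
  prodPol W (0 : W.coh (𝟙_ (Sch k))) ξ m

/-- `H^i(X)` is spanned by algebraic classes for all `i ≠ n`. -/
def AlgebraicOutside (X : Sch k) (n : ℕ) : Prop :=
  ∀ i x, i ≠ n → W.Deg X i x → x ∈ Submodule.span K {y | ∃ j, 2 * j = i ∧ W.IsAlg X j y}

/-- `H^i(X)` is spanned by powers of `ξ` for all `i ≠ n`. -/
def PowersOutside (X : Sch k) (n : ℕ) (ξ : W.coh X) : Prop :=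
  ∀ i x, i ≠ n → W.Deg X i x → x ∈ Submodule.span K {y | ∃ b, 2 * b = i ∧ y = ξ ^ b}

/-- `ξ` lies in `C^1(X)` and `Tr(ξ^n)` is a positive rational number. -/
def PositiveDivisor (X : Sch k) (n : ℕ) (ξ : W.coh X) : Prop :=
  W.IsAlg X 1 ξ ∧ RatPos (W.Tr (ξ ^ n))

/-- Q1 for `(X, ξ)` in the codimensions `j` in which `C^j(X)` is not contained in the line
`K ξ^j`. -/
def PartialHodge (X : Sch k) (n : ℕ) (ξ : W.coh X) : Prop :=
  ∀ j, 2 * j ≤ n → (∃ x, W.IsAlg X j x ∧ ∀ c : K, x ≠ W.scal c (ξ ^ j)) →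
    ∀ x, W.IsAlg X j x → W.cup (ξ ^ (n - 2 * j + 1)) x = 0 → x ≠ 0 →
      RatPos ((-1) ^ j * W.Tr (W.cup (ξ ^ (n - 2 * j)) (W.cup x x)))

/-- The space of all `x` in `H^n(X)` with `ξ x = 0`, as a predicate. -/
def InPrim (X : Sch k) (n : ℕ) (ξ : W.coh X) (x : W.coh X) : Prop :=
  W.Deg X n x ∧ W.cup ξ x = 0

/-- Every `K`-linear map `φ` that maps `P = {x ∈ H^n(X) : ξ x = 0}` to itself and commutes on `P`
with the automorphisms in `G` acts on `P` as a scalar. -/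
def ScalarCommutant (X : Sch k) (n : ℕ) (ξ : W.coh X) (G : Subgroup (Aut X)) : Prop :=
  ∀ φ : W.coh X →ₗ[K] W.coh X, (∀ t, InPrim W X n ξ t → InPrim W X n ξ (φ t)) →
    (∀ g ∈ G, ∀ t, InPrim W X n ξ t → φ (W.pb g.hom t) = W.pb g.hom (φ t)) →
    ∃ c : K, ∀ t, InPrim W X n ξ t → φ t = W.scal c t

/-- If `n = 2 j` and `P = {x ∈ H^n(X) : ξ x = 0}` contains a nonzero algebraic class then it
contains an algebraic class `x₀` with `(-1)^j Tr(x₀²)` a positive rational number. -/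
def PositiveSign (X : Sch k) (n : ℕ) (ξ : W.coh X) : Prop :=
  ∀ j, 2 * j = n → (∃ x, W.IsAlg X j x ∧ W.cup ξ x = 0 ∧ x ≠ 0) →
    ∃ x₀, W.IsAlg X j x₀ ∧ W.cup ξ x₀ = 0 ∧ RatPos ((-1) ^ j * W.Tr (W.cup x₀ x₀))

/-- `α_1, …, α_g, q` are multiplicatively independent. -/
def MultIndependent {g : ℕ} (α : Fin g → K) (q : ℕ) : Prop :=
  ∀ (c : Fin g → ℤ) (d : ℤ), ∏ i, α i ^ c i = (q : K) ^ d → c = 0

/-- `t` lies in `T = {t ∈ H^n(X) : Tr(t a) = 0 for all algebraic classes a}`. -/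
def InTrans (X : Sch k) (n : ℕ) (t : W.coh X) : Prop :=
  W.Deg X n t ∧ ∀ j a, W.IsAlg X j a → W.Tr (W.cup t a) = 0

/-- A basis of `T` consisting of eigenvectors of `F^*` with eigenvalues
`α_1, …, α_g, q^n / α_1, …, q^n / α_g`. -/
structure EigenBasis (X : Sch k) (n : ℕ) (F : Sch.Mor X X) (q : ℕ) {g : ℕ} (α : Fin g → K) where
  e : Fin g ⊕ Fin g → W.coh X
  mem : ∀ i, InTrans W X n (e i)
  indep : LinearIndependent K e
  span : ∀ t, InTrans W X n t → t ∈ Submodule.span K (Set.range e)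
  left : ∀ i, W.pb F (e (Sum.inl i)) = W.scal (α i) (e (Sum.inl i))
  right : ∀ i, W.pb F (e (Sum.inr i)) = W.scal ((q : K) ^ n / α i) (e (Sum.inr i))

/-- the endomorphism `F × ⋯ × F` of `X^a` -/
noncomputable def powHom {X : Sch k} (F : Sch.Mor X X) :
    (a : ℕ) → Sch.Mor (prodPow (𝟙_ (Sch k)) X a) (prodPow (𝟙_ (Sch k)) X a)
  | 0 => 𝟙 _
  | a + 1 => powHom F a ⊗ₘ F

/-- `F` acts like the `q`-Frobenius endomorphism of a model of `X` over the field with `q`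
elements: it has degree `q^n`, and every algebraic class of codimension `j` on a power of `X` is
multiplied by `q^(j s)` under some iterate `s ≥ 1` of `F × ⋯ × F`. -/
structure IsFrobenius {X : Sch k}
    (n : ℕ) (F : Sch.Mor X X) (q : ℕ) : Prop where
  deg : ∀ x : W.coh X, W.Tr (W.pb F x) = (q : K) ^ n * W.Tr x
  alg : ∀ (a j : ℕ) (x : W.coh (prodPow (𝟙_ (Sch k)) X a)), W.IsAlg _ j x →
      ∃ s : ℕ, 0 < s ∧ (W.pb (powHom F a))^[s] x = W.scal ((q : K) ^ (j * s)) x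

end Pool.Agent.Lib.MP_361a6f_ag.H3
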