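import Pool.Agent.Lib.MP_361a6f_ag.H3.Defs

/-!
# Classes on powers generated by classes on the square
-/

open CategoryTheory AlgebraicGeometry MonoidalCategory CartesianMonoidalCategory

universe u v w

namespace Pool.Agent.Lib.MP_361a6f_ag.H3

variable {k : Type u} [Field k] {K : Type v} [Field K]

/-- The `i`-th projection `X^a → X`. -/
noncomputable def powPr (X : Sch k) : (a : ℕ) → Fin a → Sch.Mor (power X a) X
  | 0, i => i.elim0
  | a + 1, i => Fin.lastCases (motive := fun _ => Sch.Mor (power X (a + 1)) X)
      (Sch.pr₂ (power X a) X) (fun i => Sch.pr₁ (power X a) X ≫ powPr X a i) i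

/-- The morphism `(pr_i, pr_j) : X^a → X × X`. -/
noncomputable def powPr₂ (X : Sch k) (a : ℕ) (i j : Fin a) : Sch.Mor (power X a) (X.prod X) :=
  lift (powPr X a i) (powPr X a j)

variable (W : CohomologyData.{u, v, w} k K)

/-- The pull-backs to `X^a` of the algebraic classes on `X × X` under the morphisms
`(pr_i, pr_j)`. -/
def SquareClass (X : Sch k) (a : ℕ) (w : W.coh (power X a)) : Prop :=
  ∃ (i j : Fin a) (l : ℕ) (γ : W.coh (X.prod X)),
    W.IsAlg (X.prod X) l γ ∧ w = W.pb (powPr₂ X a i j) γ

/-- For all `a`, the algebraic classes on `X^a` lie in the `K`-subalgebra generated by the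
pull-backs of the algebraic classes on `X × X` under the morphisms `(pr_i, pr_j)`. -/
def GeneratedBySquare (X : Sch k) : Prop :=
  ∀ (a j : ℕ) (z : W.coh (power X a)), W.IsAlg (power X a) j z →
    z ∈ Algebra.adjoin K {w | SquareClass W X a w}

end Pool.Agent.Lib.MP_361a6f_ag.H3
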