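import Pool.Agent.Lib.MP_361a6f_ag.H3.Red

/-!
# Eigenbases of tensor powers
-/

open CategoryTheory AlgebraicGeometry MonoidalCategory CartesianMonoidalCategory Opposite

universe u v w

set_option linter.unusedSectionVars false

namespace Pool.Agent.Lib.MP_361a6f_ag.H3

variable {k : Type u} [Field k] {K : Type v} [Field K] [CharZero K]
  {W : CohomologyData.{u, v, w} k K} {𝒱 : VarietyClass k}

/-- a normalised basis of eigenvectors for an endomorphism -/
structure Eigen (W : CohomologyData.{u, v, w} k K) (X : Sch k)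
    (n : ℕ) (T : Submodule K (W.coh X)) (F : X ⟶ X) (Q : K) (I : Type) [Fintype I]
    [DecidableEq I] where
  ν : I → I
  ν_ν : ∀ i, ν (ν i) = i
  α : I → K
  e : I → W.coh X
  pos : I → Bool
  pos_ν : ∀ i, pos (ν i) = !pos i
  α_ν : ∀ i, α i * α (ν i) = Q
  α_inj : Function.Injective α
  span_e : Submodule.span K (Set.range e) = T
  T_gr : T ≤ W.gr X n
  eig : ∀ i, W.pull F (e i) = α i • e i
  pair : ∀ i j, W.tr X (e i * e j) = if j = ν i then (if pos i then 1 else (-1) ^ n) else 0

namespace Eigen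

variable {X : Sch k} {n : ℕ} {T : Submodule K (W.coh X)} {F : X ⟶ X}
  {Q : K} {I : Type} [Fintype I] [DecidableEq I] (ε : Eigen W X n T F Q I)

/-- the sign of an index -/
def sg (i : I) : K := if ε.pos i then 1 else (-1) ^ n

theorem sg_sq (i : I) : ε.sg i * ε.sg i = 1 := by
  unfold sg
  split_ifs
  · simp
  · rw [← mul_pow]; simp

theorem sg_ne (i : I) : ε.sg i ≠ 0 := fun h => by
  have := ε.sg_sq i
  rw [h, mul_zero] at this
  exact zero_ne_one this

theorem sg_ν (i : I) : ε.sg i * ε.sg (ε.ν i) = (-1) ^ n := by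
  unfold sg
  rw [ε.pos_ν]
  by_cases h : ε.pos i = true
  · rw [h]; simp
  · have h' : ε.pos i = false := by simpa using h
    rw [h']; simp

theorem ν_inj : Function.Injective ε.ν := by
  intro i j h
  have := congrArg ε.ν h
  rwa [ε.ν_ν, ε.ν_ν] at this

theorem ν_ne (i : I) : ε.ν i ≠ i := by
  intro h
  have := ε.pos_ν i
  rw [h] at this
  cases hp : ε.pos i <;> rw [hp] at this <;> simp at this

theorem e_mem (i : I) : ε.e i ∈ T := ε.span_e.le (Submodule.subset_span ⟨i, rfl⟩)

theorem e_gr (i : I) : ε.e i ∈ W.gr X n := ε.T_gr (ε.e_mem i)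

theorem pair' (i j : I) : W.tr X (ε.e i * ε.e j) = if j = ε.ν i then ε.sg i else 0 := ε.pair i j

/-- the basis of the tensor powers -/
noncomputable def eI :
    (a : ℕ) → (Fin a → I) → W.coh (prodPow (𝟙_ (Sch k)) X a)
  | 0, _ => 1
  | a + 1, J => W.pull (fst (prodPow (𝟙_ (Sch k)) X a) X)
      (eI a (Fin.init J)) *
      W.pull (snd (prodPow (𝟙_ (Sch k)) X a) X) (ε.e (J (Fin.last a)))

/-- norms of the basis vectors -/
def nm : (a : ℕ) → (Fin a → I) → K
  | 0, _ => 1
  | a + 1, J => (-1) ^ (n * (a * n)) * nm a (Fin.init J) * ε.sg (J (Fin.last a))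

theorem nm_ne (a : ℕ) (J : Fin a → I) : ε.nm a J ≠ 0 := by
  induction a with
  | zero => exact one_ne_zero
  | succ a ih =>
    exact mul_ne_zero (mul_ne_zero (pow_ne_zero _ (by norm_num)) (ih _)) (ε.sg_ne _)

section

variable (hW : IsWeilCohomology W 𝒱) (hX : 𝒱.mem X n)

include hW hX in
theorem eI_gr (a : ℕ) (J : Fin a → I) :
    ε.eI a J ∈ W.gr (prodPow (𝟙_ (Sch k)) X a) (a * n) := by
  induction a with
  | zero =>
    rw [zero_mul]
    exact hW.one_gr 𝒱.point
  | succ a ih =>
    have h1 := prodPow_mem 𝒱.point hX a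
    have h2 := 𝒱.prod h1 hX
    have h3 := hW.mul_gr h2 (hW.pull_gr h2 h1 (fst _ X) (ih (Fin.init J)))
      (hW.pull_gr h2 hX (snd _ X) (ε.e_gr (J (Fin.last a))))
    rw [show (a + 1) * n = a * n + n by ring]
    exact h3

theorem eI_mem (a : ℕ) (J : Fin a → I) :
    ε.eI a J ∈ tpow W (⊤ : Submodule K (W.coh (𝟙_ (Sch k)))) T a := by
  induction a with
  | zero => trivial
  | succ a ih => exact mem_tens (ih _) (ε.e_mem _)

include hW in
/-- sign rule for traces -/
theorem tr_sign {Y : Sch k} {d e : ℕ} (hY : 𝒱.mem Y d)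
    (hX : 𝒱.mem X e) {i j : ℕ} {t : W.coh X} (ht : t ∈ W.gr X i) (t' : W.coh X)
    {a' : W.coh Y} (ha' : a' ∈ W.gr Y j) (a : W.coh Y) :
    W.tr (Y ⊗ X) (W.pull (fst Y X) a * W.pull (snd Y X) t
      * (W.pull (fst Y X) a' * W.pull (snd Y X) t'))
      = (-1) ^ (i * j) * (W.tr Y (a * a') * W.tr X (t * t')) := by
  have hYX := 𝒱.prod hY hX
  have e2 : W.pull (snd Y X) t * W.pull (fst Y X) a'
      = (-1 : K) ^ (i * j) • (W.pull (fst Y X) a' * W.pull (snd Y X) t) :=
    hW.comm_gr hYX (hW.pull_gr hYX hX _ ht) (hW.pull_gr hYX hY _ ha')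
  have e4 : (W.pull (fst Y X) a * W.pull (snd Y X) t)
        * (W.pull (fst Y X) a' * W.pull (snd Y X) t')
        = (-1 : K) ^ (i * j) • (W.pull (fst Y X) (a * a') * W.pull (snd Y X) (t * t')) := by
    rw [mul_assoc, ← mul_assoc (W.pull (snd Y X) t), e2, smul_mul_assoc, mul_smul_comm,
      map_mul, map_mul]
    congr 1
    simp only [mul_assoc]
  rw [e4, map_smul, hW.kunneth_tr hY hX, smul_eq_mul]

include hW hX in
theorem eI_tr (a : ℕ) (J J' : Fin a → I) :
    W.tr _ (ε.eI a J * ε.eI a J') = if J' = ε.ν ∘ J then ε.nm a J else 0 := by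
  induction a with
  | zero =>
    rw [if_pos (Subsingleton.elim _ _)]
    change W.tr (𝟙_ (Sch k)) (1 * 1) = 1
    rw [one_mul, hW.point_tr]
  | succ a ih =>
    have h1 := prodPow_mem 𝒱.point hX a
    have h2 := tr_sign hW h1 hX (ε.e_gr (J (Fin.last a))) (ε.e (J' (Fin.last a)))
      (ε.eI_gr hW hX a (Fin.init J')) (ε.eI a (Fin.init J))
    refine h2.trans ?_
    rw [ih, ε.pair']
    by_cases h3 : Fin.init J' = ε.ν ∘ Fin.init J
    · by_cases h4 : J' (Fin.last a) = ε.ν (J (Fin.last a))
      · have h5 : J' = ε.ν ∘ J := by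
          funext b
          refine Fin.lastCases ?_ (fun c => ?_) b
          · exact h4
          · exact congrFun h3 c
        rw [if_pos h3, if_pos h4, if_pos h5, nm]
        ring
      · rw [if_neg h4, mul_zero, mul_zero, if_neg]
        intro h5
        exact h4 (by rw [h5]; rfl)
    · rw [if_neg h3, zero_mul, mul_zero, if_neg]
      intro h5
      apply h3
      funext b
      rw [h5]; rfl

include hW in
theorem tpow_span (a : ℕ) :
    ∀ z ∈ tpow W (⊤ : Submodule K (W.coh (𝟙_ (Sch k)))) T a,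
      z ∈ Submodule.span K (Set.range (ε.eI a)) := by
  induction a with
  | zero =>
    intro z _
    obtain ⟨c, hc⟩ := hW.point_coh z
    rw [hc]
    exact Submodule.smul_mem _ _ (Submodule.subset_span ⟨Fin.elim0, rfl⟩)
  | succ a ih =>
    intro z hz
    have key : ∀ z ∈ tens W (tpow W
        (⊤ : Submodule K (W.coh (𝟙_ (Sch k)))) T a) T,
        z ∈ Submodule.span K (Set.range (ε.eI (a + 1))) := by
      intro z hz
      refine Submodule.span_induction (p := fun z _ =>
        z ∈ Submodule.span K (Set.range (ε.eI (a + 1)))) ?_ ?_ ?_ ?_ hz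
      · rintro _ ⟨y, hy, t, ht, rfl⟩
        rw [← ε.span_e] at ht
        refine Submodule.span_induction (p := fun t _ =>
          W.pull (fst (prodPow (𝟙_ (Sch k)) X a) X) y *
          W.pull (snd (prodPow (𝟙_ (Sch k)) X a) X) t ∈
            Submodule.span K (Set.range (ε.eI (a + 1)))) ?_ ?_ ?_ ?_ ht
        · rintro _ ⟨i, rfl⟩
          refine Submodule.span_induction (p := fun y _ =>
            W.pull (fst (prodPow (𝟙_ (Sch k)) X a) X) y *
            W.pull (snd (prodPow (𝟙_ (Sch k)) X a) X) (ε.e i) ∈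
              Submodule.span K (Set.range (ε.eI (a + 1)))) ?_ ?_ ?_ ?_ (ih y hy)
          · rintro _ ⟨J, rfl⟩
            refine Submodule.subset_span ⟨Fin.snoc J i, ?_⟩
            rw [eI, Fin.init_snoc, Fin.snoc_last]
          · rw [map_zero, zero_mul]; exact zero_mem _
          · intro p q _ _ hp hq
            rw [map_add, add_mul]; exact add_mem hp hq
          · intro c p _ hp
            rw [map_smul, smul_mul_assoc]; exact Submodule.smul_mem _ _ hp
        · rw [map_zero, mul_zero]; exact zero_mem _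
        · intro p q _ _ hp hq
          rw [map_add, mul_add]; exact add_mem hp hq
        · intro c p _ hp
          rw [map_smul, mul_smul_comm]; exact Submodule.smul_mem _ _ hp
      · exact zero_mem _
      · intro p q _ _ hp hq; exact add_mem hp hq
      · intro c p _ hp; exact Submodule.smul_mem _ _ hp
    exact key z hz

/-- the coordinates of a class -/
noncomputable def co (a : ℕ) (z : W.coh (prodPow (𝟙_ (Sch k)) X a))
    (J : Fin a → I) : K := W.tr _ (z * ε.eI a J)

include hW hX in
theorem expand (a : ℕ) {z : W.coh (prodPow (𝟙_ (Sch k)) X a)}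
    (hz : z ∈ tpow W (⊤ : Submodule K (W.coh (𝟙_ (Sch k)))) T a) :
    z = ∑ J, (ε.co a z (ε.ν ∘ J) / ε.nm a J) • ε.eI a J := by
  refine Submodule.span_induction (p := fun z _ =>
    z = ∑ J, (ε.co a z (ε.ν ∘ J) / ε.nm a J) • ε.eI a J) ?_ ?_ ?_ ?_ (ε.tpow_span hW a z hz)
  · rintro _ ⟨J₀, rfl⟩
    rw [Finset.sum_eq_single J₀]
    · rw [co, ε.eI_tr hW hX, if_pos rfl, div_self (ε.nm_ne a J₀), one_smul]
    · intro J _ hJ
      rw [co, ε.eI_tr hW hX, if_neg, zero_div, zero_smul]
      intro h
      apply hJ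
      funext b
      exact ε.ν_inj (congrFun h b)
    · intro h; exact absurd (Finset.mem_univ _) h
  · simp [co]
  · intro p q _ _ hp hq
    conv_lhs => rw [hp, hq]
    rw [← Finset.sum_add_distrib]
    refine Finset.sum_congr rfl (fun J _ => ?_)
    rw [← add_smul]
    congr 1
    simp only [co]
    rw [add_mul, map_add]
    ring
  · intro c p _ hp
    conv_lhs => rw [hp]
    rw [Finset.smul_sum]
    refine Finset.sum_congr rfl (fun J _ => ?_)
    rw [smul_smul]
    congr 1
    simp only [co]
    rw [smul_mul_assoc, map_smul, smul_eq_mul]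
    ring

include hW hX in
/-- self-intersection in coordinates -/
theorem tr_expand (a j : ℕ) {z : W.coh (prodPow (𝟙_ (Sch k)) X a)}
    (hz : z ∈ tpow W (⊤ : Submodule K (W.coh (𝟙_ (Sch k)))) T a)
    (hza : z ∈ W.alg _ j) :
    W.tr _ (z * z) = ∑ J, (ε.co a z (ε.ν ∘ J) / ε.nm a J) * ε.co a z J := by
  conv_lhs =>
    enter [2, 1]
    rw [ε.expand hW hX a hz]
  rw [Finset.sum_mul, map_sum]
  refine Finset.sum_congr rfl (fun J _ => ?_)
  rw [smul_mul_assoc, map_smul, smul_eq_mul,
    ← hW.alg_comm (prodPow_mem 𝒱.point hX a) hza, co]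
  rfl

/-- balanced multi-indices -/
def Bal {a : ℕ} (J : Fin a → I) : Prop :=
  ∀ i, (Finset.univ.filter (fun b => J b = i)).card
    = (Finset.univ.filter (fun b => J b = ε.ν i)).card

theorem card_pos {a : ℕ} {J : Fin a → I} (hJ : ε.Bal J) :
    2 * (Finset.univ.filter (fun b => ε.pos (J b) = false)).card = a := by
  classical
  have h1 : (Finset.univ.filter (fun b => ε.pos (J b) = false)).card
      = (Finset.univ.filter (fun b => ε.pos (J b) = true)).card := by
    have e1 : ∀ v : Bool, (Finset.univ.filter (fun b => ε.pos (J b) = v)).card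
        = ∑ i ∈ Finset.univ.filter (fun i => ε.pos i = v),
          (Finset.univ.filter (fun b => J b = i)).card := by
      intro v
      rw [Finset.card_eq_sum_card_fiberwise (f := J)
        (t := Finset.univ.filter (fun i => ε.pos i = v))]
      · refine Finset.sum_congr rfl (fun i hi => ?_)
        congr 1
        ext b
        simp only [Finset.mem_filter, Finset.mem_univ, true_and] at hi ⊢
        constructor
        · rintro ⟨_, h⟩; exact h
        · intro h; exact ⟨by rw [h]; exact hi, h⟩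
      · intro b hb
        simpa using hb
    rw [e1, e1]
    refine Finset.sum_bij' (fun i _ => ε.ν i) (fun i _ => ε.ν i) ?_ ?_ ?_ ?_ ?_
    · intro i hi
      simp only [Finset.mem_filter, Finset.mem_univ, true_and] at hi ⊢
      rw [ε.pos_ν, hi]; rfl
    · intro i hi
      simp only [Finset.mem_filter, Finset.mem_univ, true_and] at hi ⊢
      rw [ε.pos_ν, hi]; rfl
    · intro i _; exact ε.ν_ν i
    · intro i _; exact ε.ν_ν i
    · intro i _; exact hJ i
  have h2 : (Finset.univ.filter (fun b => ε.pos (J b) = false)).card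
      + (Finset.univ.filter (fun b => ε.pos (J b) = true)).card = a := by
    have h3 := Finset.card_filter_add_card_filter_not (s := (Finset.univ : Finset (Fin a)))
      (fun b => ε.pos (J b) = false)
    have h4 : (Finset.univ.filter (fun b => ¬ ε.pos (J b) = false))
        = Finset.univ.filter (fun b => ε.pos (J b) = true) := by
      ext b; simp
    rw [h4] at h3
    simpa using h3
  omega

theorem nm_closed (a : ℕ) (J : Fin a → I) :
    ε.nm a J = (-1) ^ (n * (a * (a - 1) / 2)) * ∏ b, ε.sg (J b) := by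
  induction a with
  | zero => simp [nm]
  | succ a ih =>
    rw [nm, ih, Fin.prod_univ_castSucc]
    have e1 : ((-1 : K)) ^ (n * (a * n)) * (-1) ^ (n * (a * (a - 1) / 2))
        = (-1) ^ (n * ((a + 1) * (a + 1 - 1) / 2)) := by
      have h1 : (a + 1) * (a + 1 - 1) / 2 = a + a * (a - 1) / 2 := by
        rw [Nat.add_sub_cancel]
        rcases Nat.eq_zero_or_pos a with h | h
        · subst h; rfl
        · obtain ⟨b, rfl⟩ : ∃ b, a = b + 1 := ⟨a - 1, by omega⟩
          rw [Nat.add_sub_cancel]
          have h2 : (b + 1 + 1) * (b + 1) = 2 * (b + 1) + (b + 1) * b := by ring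
          rw [h2, Nat.mul_add_div (by norm_num)]
      rw [h1, mul_add, pow_add]
      congr 1
      have h2 : n * (a * n) = n * n * a := by ring
      have h3 : (-1 : K) ^ (n * n) = (-1) ^ n := by
        rcases Nat.even_or_odd n with h | h
        · rw [h.neg_one_pow, (h.mul_right n).neg_one_pow]
        · rw [h.neg_one_pow, (h.mul h).neg_one_pow]
      rw [h2, pow_mul (-1 : K) (n * n) a, h3, ← pow_mul]
    rw [← e1]
    simp only [Fin.init]
    ring

theorem nm_bal {a : ℕ} {J : Fin a → I} (hJ : ε.Bal J) : ε.nm a J = 1 := by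
  classical
  have h1 := ε.card_pos hJ
  rw [nm_closed]
  have h2 : ∏ b, ε.sg (J b)
      = ((-1) ^ n) ^ (Finset.univ.filter (fun b => ε.pos (J b) = false)).card := by
    rw [← Finset.prod_const, Finset.prod_filter]
    refine Finset.prod_congr rfl (fun b _ => ?_)
    unfold sg
    cases ε.pos (J b) <;> simp
  rw [h2]
  obtain ⟨r, hr⟩ : ∃ r, (Finset.univ.filter (fun b => ε.pos (J b) = false)).card = r := ⟨_, rfl⟩
  rw [hr] at h1 ⊢
  subst h1
  have h3 : 2 * r * (2 * r - 1) / 2 = r * (2 * r - 1) := by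
    rw [mul_assoc, Nat.mul_div_cancel_left _ (by norm_num)]
  rw [h3, ← pow_mul, ← pow_add]
  have h4 : n * (r * (2 * r - 1)) + n * r = 2 * (n * (r * r)) := by
    rcases Nat.eq_zero_or_pos r with h | h
    · subst h; simp
    · obtain ⟨s, rfl⟩ : ∃ s, r = s + 1 := ⟨r - 1, by omega⟩
      rw [show 2 * (s + 1) - 1 = 2 * s + 1 by omega]
      ring
  rw [h4, pow_mul]; simp

end

end Eigen

end Pool.Agent.Lib.MP_361a6f_ag.H3
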