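import Pool.Agent.Lib.MP_361a6f_ag.H3.Powers

/-!
# Varieties with an irreducible group action on the transcendental cohomology
-/

open CategoryTheory AlgebraicGeometry MonoidalCategory CartesianMonoidalCategory Opposite

universe u v w

set_option linter.unusedSectionVars false

namespace Pool.Agent.Lib.MP_361a6f_ag.H3

variable {k : Type u} [Field k] {K : Type v} [Field K] [CharZero K]
  {W : CohomologyData.{u, v, w} k K} {𝒱 : VarietyClass k}

theorem point_hodge (hW : IsWeilCohomology W 𝒱) :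
    HodgeType W (𝟙_ (Sch k)) 0 0 := by
  intro j hj x hx _ hne
  have hj0 : j = 0 := by omega
  subst hj0
  obtain ⟨c, rfl⟩ := hW.point_coh x
  obtain ⟨q, hq⟩ := hW.tr_alg 𝒱.point hx
  rw [map_smul, hW.point_tr, smul_eq_mul, mul_one] at hq
  subst hq
  have hq0 : q ≠ 0 := by
    rintro rfl
    apply hne
    simp
  refine ⟨q * q, mul_self_pos.mpr hq0, ?_⟩
  simp only [mul_zero, Nat.sub_zero, pow_zero, one_mul, mul_one, mul_smul_comm,
    map_smul, hW.point_tr, smul_eq_mul]
  push_cast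
  ring

theorem unit_hodge (hW : IsWeilCohomology W 𝒱) {X : Sch k} {n e : ℕ}
    (hX : 𝒱.mem X n) {ξ : W.coh X} (h : HodgeType W X e ξ) :
    HodgeType W (𝟙_ (Sch k) ⊗ X) e
      (lam W (0 : W.coh (𝟙_ (Sch k))) ξ) := by
  rw [← HTS_top] at h ⊢
  refine HTS.iso hW hX (𝒱.prod 𝒱.point hX) (λ_ X).symm (S' := ⊤) (fun _ _ => trivial) ?_
  have e1 : W.pull (λ_ X).symm.hom
      (lam W (0 : W.coh (𝟙_ (Sch k))) ξ) = ξ := by
    rw [lam, map_zero, zero_add, ← W.pull_comp]
    have : (λ_ X).symm.hom ≫ snd (𝟙_ (Sch k)) X = 𝟙 X := by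
      simp
    rw [this, W.pull_id]
  rw [e1]
  exact h

section

variable (hW : IsWeilCohomology W 𝒱) {X : Sch k} {n : ℕ}
  (hX : 𝒱.mem X n)

include hW hX in
/-- The main theorem for a variety with a finite group acting with scalar commutant on the
transcendental part. -/
theorem main {ξ : ℕ → W.coh X} (hξ : ∀ i, ξ i ∈ W.alg X 1)
    (hHT : ∀ i, HodgeType W X n (ξ i))
    (halg : ∀ i, i ≠ n → W.gr X i ≤ Submodule.span K {x | ∃ j, 2 * j = i ∧ x ∈ W.alg X j})
    {G : Subgroup (Aut X)} [Finite G]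
    (hirr : ∀ φ : W.coh X →ₗ[K] W.coh X, (∀ t ∈ trans W X n, φ t ∈ trans W X n) →
      (∀ g ∈ G, ∀ t ∈ trans W X n, φ (W.pull g.hom t) = W.pull g.hom (φ t)) →
      ∃ c : K, ∀ t ∈ trans W X n, φ t = c • t)
    {Z : Sch k} {d : ℕ} (hZ : 𝒱.mem Z d)
    {l : W.coh Z} (hl : l ∈ W.alg Z 1) (h1 : HodgeType W Z d l)
    (h2 : HodgeType W (Z ⊗ X) (d + n) (lam W l (ξ 0))) (m : ℕ) :
    HodgeType W (prodPow Z X m) (d + m * n) (prodPol W l ξ m) := by
  obtain ⟨r, ⟨φ⟩⟩ := exists_frame hW hX (T := trans W X n) (G := G)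
    (fun g _ t ht => trans_stable hW hX g ht) hirr
  have hσ : ∀ i, ∃ (ι : Type) (_ : Fintype ι) (σ : Strings W X n (ξ i) ι),
      σ.T = trans W X n := by
    intro i
    obtain ⟨ι, hι, ⟨F⟩⟩ := exists_primFam hW hX (hξ i) (hHT i)
    exact ⟨ι, hι, F.toStrings hW hX (hξ i) halg, rfl⟩
  have hT₀ : ∀ t ∈ trans W X n, ξ 0 * t = 0 := by
    obtain ⟨ι, _, σ, hσT⟩ := hσ 0
    intro t ht
    exact σ.T_xi t (by rw [hσT]; exact ht)
  exact powers hW hZ hX hl hξ (trans W X n) hσ φ h1 (hξ 0) hT₀ h2 m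

include hW hX in
theorem main_point {ξ : ℕ → W.coh X} (hξ : ∀ i, ξ i ∈ W.alg X 1)
    (hHT : ∀ i, HodgeType W X n (ξ i))
    (halg : ∀ i, i ≠ n → W.gr X i ≤ Submodule.span K {x | ∃ j, 2 * j = i ∧ x ∈ W.alg X j})
    {G : Subgroup (Aut X)} [Finite G]
    (hirr : ∀ φ : W.coh X →ₗ[K] W.coh X, (∀ t ∈ trans W X n, φ t ∈ trans W X n) →
      (∀ g ∈ G, ∀ t ∈ trans W X n, φ (W.pull g.hom t) = W.pull g.hom (φ t)) →
      ∃ c : K, ∀ t ∈ trans W X n, φ t = c • t) (m : ℕ) :
    HodgeType W (prodPow (𝟙_ (Sch k)) X m) (m * n)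
      (prodPol W (0 : W.coh (𝟙_ (Sch k))) ξ m) := by
  have h := main hW hX hξ hHT halg hirr 𝒱.point (l := 0) (zero_mem _) (point_hodge hW)
    (unit_hodge hW hX (by rw [zero_add]; exact hHT 0)) m
  rwa [zero_add] at h

/-- the primitive part of the middle cohomology -/
noncomputable def primitive (W : CohomologyData.{u, v, w} k K)
    (X : Sch k) (n : ℕ) (ξ : W.coh X) : Submodule K (W.coh X) :=
  W.gr X n ⊓ LinearMap.ker (LinearMap.mulLeft K ξ)

theorem mem_primitive {ξ x : W.coh X} :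
    x ∈ primitive W X n ξ ↔ x ∈ W.gr X n ∧ ξ * x = 0 := Iff.rfl

variable {ξ : W.coh X} (hξ : ξ ∈ W.alg X 1) (hdeg : RatPos (W.tr X (ξ ^ n)))
  (hspan : ∀ i, i ≠ n → W.gr X i ≤ Submodule.span K {x | ∃ b, 2 * b = i ∧ x = ξ ^ b})

include hW hX hξ hspan in
theorem halg_of_span (i : ℕ) (hi : i ≠ n) :
    W.gr X i ≤ Submodule.span K {x | ∃ j, 2 * j = i ∧ x ∈ W.alg X j} := by
  refine (hspan i hi).trans (Submodule.span_mono ?_)
  rintro _ ⟨b, hb, rfl⟩
  exact ⟨b, hb, hW.pow_alg hX hξ b⟩

include hW hX hξ hdeg hspan in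
/-- decomposition of the middle cohomology -/
theorem middle_dec {j : ℕ} (hj : 2 * j = n) {x : W.coh X} (hx : x ∈ W.gr X n) :
    ξ * (x - (W.tr X (x * ξ ^ j) / W.tr X (ξ ^ n)) • ξ ^ j) = 0 := by
  obtain ⟨q, hq, hq'⟩ := hdeg
  have hne : W.tr X (ξ ^ n) ≠ 0 := by rw [hq']; exact_mod_cast hq.ne'
  have hξj : ξ ^ j ∈ W.gr X n := by
    have := hW.alg_gr hX (hW.pow_alg hX hξ j)
    rwa [hj] at this
  set c : K := W.tr X (x * ξ ^ j) / W.tr X (ξ ^ n) with hc
  have hz : x - c • ξ ^ j ∈ W.gr X n := sub_mem hx (Submodule.smul_mem _ _ hξj)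
  refine hW.duality hX _ (fun y => ?_)
  refine hW.hom_induction hX (P := fun y => W.tr X (ξ * (x - c • ξ ^ j) * y) = 0) y ?_ ?_ ?_
  · intro m y hy
    by_cases hm : m + 2 = n
    · refine Submodule.span_induction (p := fun y _ => W.tr X (ξ * (x - c • ξ ^ j) * y) = 0)
        ?_ ?_ ?_ ?_ (hspan m (by omega) hy)
      · rintro x' ⟨b, hb, rfl⟩
        have e1 : ξ * (x - c • ξ ^ j) * ξ ^ b = (x - c • ξ ^ j) * ξ ^ (b + 1) := by
          rw [hW.alg_comm hX hξ, mul_assoc, ← pow_succ']
        rw [e1, show b + 1 = j by omega, sub_mul, smul_mul_assoc, ← pow_add,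
          show j + j = n by omega, map_sub, map_smul, smul_eq_mul, hc, div_mul_cancel₀ _ hne,
          sub_self]
      · simp
      · intro p q _ _ hp hq
        rw [mul_add, map_add, hp, hq, add_zero]
      · intro c p _ hp
        rw [mul_smul_comm, map_smul, hp, smul_zero]
    · exact hW.tr_gr hX (hW.mul_gr hX (hW.mul_gr hX (hW.alg_gr hX hξ) hz) hy) (by omega)
  · simp
  · intro p q hp hq
    rw [mul_add, map_add, hp, hq, add_zero]

include hW hX hξ hdeg hspan in
theorem primitive_nondeg {x : W.coh X} (hx : x ∈ primitive W X n ξ)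
    (h : ∀ y ∈ primitive W X n ξ, W.tr X (x * y) = 0) : x = 0 := by
  refine hW.duality hX _ (fun y => ?_)
  refine hW.hom_induction hX (P := fun y => W.tr X (x * y) = 0) y ?_ ?_ ?_
  · intro m y hy
    by_cases hm : m = n
    · subst hm
      rcases Nat.even_or_odd m with he | ho
      · obtain ⟨j, hj⟩ := he
        rcases Nat.eq_zero_or_pos j with hj0 | hj0
        · refine h y ⟨hy, ?_⟩
          exact hW.top_gr hX (hW.mul_gr hX (hW.alg_gr hX hξ) hy) (by omega)
        · have h1 := middle_dec hW hX hξ hdeg hspan (j := j) (by omega) hy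
          set c : K := W.tr X (y * ξ ^ j) / W.tr X (ξ ^ m) with hc
          have hξj : ξ ^ j ∈ W.gr X m := by
            have := hW.alg_gr hX (hW.pow_alg hX hξ j)
            rwa [show 2 * j = m by omega] at this
          have e : y = (y - c • ξ ^ j) + c • ξ ^ j := by abel
          have h2 : W.tr X (x * ξ ^ j) = 0 := by
            obtain ⟨i, rfl⟩ : ∃ i, j = i + 1 := ⟨j - 1, by omega⟩
            rw [pow_succ', ← mul_assoc, ← hW.alg_comm hX hξ x, (mem_primitive.mp hx).2]
            simp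
          rw [e, mul_add, map_add, mul_smul_comm, map_smul, h2, smul_zero, add_zero]
          exact h _ ⟨sub_mem hy (Submodule.smul_mem _ _ hξj), h1⟩
      · refine h y ⟨hy, ?_⟩
        obtain ⟨j, hj⟩ := ho
        refine hW.duality hX _ (fun v => ?_)
        refine hW.hom_induction hX (P := fun v => W.tr X (ξ * y * v) = 0) v ?_ ?_ ?_
        · intro i v hv
          by_cases hi : i + 2 = m
          · refine Submodule.span_induction (p := fun v _ => W.tr X (ξ * y * v) = 0)
              ?_ ?_ ?_ ?_ (hspan i (by omega) hv)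
            · rintro x' ⟨b, hb, _⟩
              omega
            · simp
            · intro p q _ _ hp hq
              rw [mul_add, map_add, hp, hq, add_zero]
            · intro c p _ hp
              rw [mul_smul_comm, map_smul, hp, smul_zero]
          · exact hW.tr_gr hX (hW.mul_gr hX (hW.mul_gr hX (hW.alg_gr hX hξ) hy) hv) (by omega)
        · simp
        · intro p q hp hq
          rw [mul_add, map_add, hp, hq, add_zero]
    · exact hW.tr_gr hX (hW.mul_gr hX (mem_primitive.mp hx).1 hy) (by omega)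
  · simp
  · intro p q hp hq
    rw [mul_add, map_add, hp, hq, add_zero]

include hW hX hξ hspan in
theorem trans_le_primitive : trans W X n ≤ primitive W X n ξ := by
  intro t ht
  refine ⟨ht.1, ?_⟩
  refine hW.duality hX _ (fun y => ?_)
  refine hW.hom_induction hX (P := fun y => W.tr X (ξ * t * y) = 0) y ?_ ?_ ?_
  · intro m y hy
    by_cases hm : m + 2 = n
    · refine Submodule.span_induction (p := fun y _ => W.tr X (ξ * t * y) = 0) ?_ ?_ ?_ ?_
        (hspan m (by omega) hy)
      · rintro _ ⟨b, _, rfl⟩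
        rw [hW.alg_comm hX hξ, mul_assoc, ← pow_succ']
        exact ht.2 _ _ (hW.pow_alg hX hξ _)
      · simp
      · intro p q _ _ hp hq
        rw [mul_add, map_add, hp, hq, add_zero]
      · intro c p _ hp
        rw [mul_smul_comm, map_smul, hp, smul_zero]
    · exact hW.tr_gr hX (hW.mul_gr hX (hW.mul_gr hX (hW.alg_gr hX hξ) ht.1) hy) (by omega)
  · simp
  · intro p q hp hq
    rw [mul_add, map_add, hp, hq, add_zero]

include hW hX hξ hdeg hspan in
/-- below the middle degree -/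
theorem below_middle {j : ℕ} (hj : 2 * j < n) {x : W.coh X} (hx : x ∈ W.alg X j)
    (h1 : ξ ^ (n - 2 * j + 1) * x = 0) (hne : x ≠ 0) :
    RatPos ((-1) ^ j * W.tr X (ξ ^ (n - 2 * j) * (x * x))) := by
  obtain ⟨q, hq, hq'⟩ := hdeg
  have hqK : ((q : ℚ) : K) ≠ 0 := by exact_mod_cast hq.ne'
  -- `x` is a multiple of `ξ ^ j`
  obtain ⟨c, rfl⟩ : ∃ c : K, x = c • ξ ^ j := by
    have h2 := hspan (2 * j) (by omega) (hW.alg_gr hX hx)
    have h3 : {x : W.coh X | ∃ b, 2 * b = 2 * j ∧ x = ξ ^ b} = {ξ ^ j} := by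
      ext y
      constructor
      · rintro ⟨b, hb, rfl⟩
        rw [show b = j by omega]
        exact Set.mem_singleton _
      · intro hy
        exact ⟨j, rfl, Set.mem_singleton_iff.mp hy⟩
    rw [h3] at h2
    obtain ⟨c, hc⟩ := Submodule.mem_span_singleton.mp h2
    exact ⟨c, hc.symm⟩
  rcases Nat.eq_zero_or_pos j with hj0 | hj0
  · subst hj0
    have h2 := hW.mul_alg hX hx (hW.pow_alg hX hξ n)
    rw [zero_add] at h2
    obtain ⟨r, hr⟩ := hW.tr_alg hX h2
    rw [pow_zero, smul_mul_assoc, one_mul, map_smul, hq', smul_eq_mul] at hr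
    have hc : c = ((r / q : ℚ) : K) := by
      push_cast
      field_simp
      exact hr
    have hrq : r / q ≠ 0 := by
      intro h0
      apply hne
      rw [hc, h0]; simp
    refine ⟨(r / q) * (r / q) * q, mul_pos (mul_self_pos.mpr hrq) hq, ?_⟩
    rw [hc]
    simp only [pow_zero, mul_zero, Nat.sub_zero, one_mul, mul_one,
      mul_smul_comm, map_smul, hq', smul_eq_mul]
    push_cast
    ring
  · exfalso
    have h2 : W.tr X (ξ ^ (j - 1) * (ξ ^ (n - 2 * j + 1) * (c • ξ ^ j))) = 0 := by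
      rw [h1]; simp
    rw [mul_smul_comm, mul_smul_comm, ← pow_add, ← pow_add, map_smul,
      show j - 1 + (n - 2 * j + 1 + j) = n by omega, hq', smul_eq_mul] at h2
    apply hne
    rw [(mul_eq_zero.mp h2).resolve_right hqK, zero_smul]

variable {G : Subgroup (Aut X)} (hG : ∀ g ∈ G, W.pull g.hom ξ = ξ)
  (hirr : ∀ φ : W.coh X →ₗ[K] W.coh X,
    (∀ t ∈ primitive W X n ξ, φ t ∈ primitive W X n ξ) →
    (∀ g ∈ G, ∀ t ∈ primitive W X n ξ, φ (W.pull g.hom t) = W.pull g.hom (φ t)) →
    ∃ c : K, ∀ t ∈ primitive W X n ξ, φ t = c • t)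

include hW hX hG in
theorem primitive_stable : ∀ g ∈ G, ∀ t ∈ primitive W X n ξ,
    W.pull g.hom t ∈ primitive W X n ξ := by
  intro g hg t ht
  refine ⟨hW.pull_gr hX hX _ ht.1, ?_⟩
  have h1 : ξ * W.pull g.hom t = W.pull g.hom (ξ * t) := by
    rw [map_mul, hG g hg]
  change ξ * W.pull g.hom t = 0
  rw [h1, (mem_primitive.mp ht).2, map_zero]

include hW hX hξ hdeg hspan hG hirr in
/-- the Hodge standard conjecture for `X` from one class of the right sign -/
theorem hodge_of_sign [Finite G]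
    (hsign : ∀ j, 2 * j = n → ∀ x ∈ W.alg X j, ξ * x = 0 → x ≠ 0 →
      ∃ x₀ ∈ W.alg X j, ξ * x₀ = 0 ∧ RatPos ((-1) ^ j * W.tr X (x₀ * x₀))) :
    HodgeType W X n ξ := by
  let _ := Fintype.ofFinite G
  have hfin := hW.finite hX
  intro j hj x hx h1 hne
  rcases lt_or_eq_of_le hj with hlt | heq
  · exact below_middle hW hX hξ hdeg hspan hlt hx h1 hne
  · rw [show n - 2 * j = 0 by omega] at h1 ⊢
    rw [zero_add, pow_one] at h1
    rw [pow_zero, one_mul]
    obtain ⟨x₀, hx₀, h2, ⟨q, hq, hq'⟩⟩ := hsign j heq x hx h1 hne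
    have hxP : x ∈ primitive W X n ξ := ⟨by rw [← heq]; exact hW.alg_gr hX hx, h1⟩
    have hx₀P : x₀ ∈ primitive W X n ξ := ⟨by rw [← heq]; exact hW.alg_gr hX hx₀, h2⟩
    have hst := primitive_stable hW hX (n := n) hG
    have hs2 : ((-1 : K) ^ j) * ((-1 : K) ^ j) = 1 := by rw [← mul_pow]; simp
    have htr0 : W.tr X (x₀ * x₀) = (-1) ^ j * (q : K) := by
      linear_combination (-(W.tr X (x₀ * x₀))) * hs2 + ((-1) ^ j : K) * hq'
    have hqK : ((q : ℚ) : K) ≠ 0 := by exact_mod_cast hq.ne'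
    have hj1 : ((-1 : K) ^ j) ≠ 0 := pow_ne_zero _ (by norm_num)
    -- rational intersection numbers
    have hrat : ∀ g : G, ∃ r : ℚ, W.tr X (x * W.pull (g : Aut X).hom x₀) = r := by
      intro g
      have h3 := hW.mul_alg hX hx (hW.pull_alg hX hX (g : Aut X).hom hx₀)
      rw [show j + j = n by omega] at h3
      exact hW.tr_alg hX h3
    choose r hr using hrat
    have hN : Module.finrank K (primitive W X n ξ) ≠ 0 := by
      intro h0
      have hbot : primitive W X n ξ = ⊥ := Submodule.finrank_eq_zero.mp h0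
      rw [hbot] at hxP
      exact hne ((Submodule.mem_bot K).mp hxP)
    have hcard : 0 < Fintype.card G := Fintype.card_pos
    have hcardK : ((Fintype.card G : ℕ) : K) ≠ 0 := by exact_mod_cast hcard.ne'
    have hsch := schur hW hX hst hirr (s := x) (s' := x) (t := x₀) (t' := x₀) hxP hx₀P
    have hsum : ∑ g : G, W.tr X (x * W.pull (g : Aut X).hom x₀)
        * W.tr X (x * W.pull (g : Aut X).hom x₀) = ((∑ g : G, r g * r g : ℚ) : K) := by
      push_cast
      exact Finset.sum_congr rfl (fun g _ => by rw [hr g])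
    rw [hsum, htr0] at hsch
    have hpos : 0 < ∑ g : G, r g * r g := by
      refine lt_of_le_of_ne (Finset.sum_nonneg (fun g _ => mul_self_nonneg _)) (Ne.symm ?_)
      intro h0
      have hall : ∀ g : G, r g = 0 := by
        intro g
        have := (Finset.sum_eq_zero_iff_of_nonneg (fun g _ => mul_self_nonneg (r g))).mp h0 g
          (Finset.mem_univ g)
        exact mul_self_eq_zero.mp this
      apply hne
      refine primitive_nondeg hW hX hξ hdeg hspan hxP (fun y hy => ?_)
      have h4 := schur hW hX hst hirr (s := y) (s' := x) (t := x₀) (t' := x₀) hxP hx₀P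
      have h5 : ∑ g : G, W.tr X (y * W.pull (g : Aut X).hom x₀)
          * W.tr X (x * W.pull (g : Aut X).hom x₀) = 0 := by
        refine Finset.sum_eq_zero (fun g _ => ?_)
        rw [hr g, hall g]; simp
      rw [h5, mul_zero, htr0] at h4
      have h6 : W.tr X (y * x) = 0 := by
        have h7 := (mul_eq_zero.mp h4.symm).resolve_left hcardK
        exact (mul_eq_zero.mp h7).resolve_right (mul_ne_zero hj1 hqK)
      rw [hW.alg_comm hX hx]
      exact h6
    set N := Module.finrank K (primitive W X n ξ) with hNdef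
    refine ⟨(N : ℚ) * (∑ g : G, r g * r g) / ((Fintype.card G : ℚ) * q), ?_, ?_⟩
    · have : 0 < (N : ℚ) := by exact_mod_cast Nat.pos_of_ne_zero hN
      have hc : 0 < (Fintype.card G : ℚ) := by exact_mod_cast hcard
      positivity
    · push_cast
      push_cast at hsch
      rw [eq_div_iff (mul_ne_zero hcardK hqK)]
      linear_combination (-1 : K) * hsch

include hW hX hξ hdeg hspan hG hirr in
/-- scalar commutant on the transcendental part -/
theorem trans_scalar [Finite G]
    (hsign : ∀ j, 2 * j = n → ∀ x ∈ W.alg X j, ξ * x = 0 → x ≠ 0 →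
      ∃ x₀ ∈ W.alg X j, ξ * x₀ = 0 ∧ RatPos ((-1) ^ j * W.tr X (x₀ * x₀))) :
    ∀ φ : W.coh X →ₗ[K] W.coh X, (∀ t ∈ trans W X n, φ t ∈ trans W X n) →
      (∀ g ∈ G, ∀ t ∈ trans W X n, φ (W.pull g.hom t) = W.pull g.hom (φ t)) →
      ∃ c : K, ∀ t ∈ trans W X n, φ t = c • t := by
  let _ := Fintype.ofFinite G
  have hle := trans_le_primitive hW hX hξ hspan
  have hst := primitive_stable hW hX (n := n) hG
  by_cases hex : ∃ j, 2 * j = n ∧ ∃ x ∈ W.alg X j, ξ * x = 0 ∧ x ≠ 0
  · -- there are primitive algebraic classes: the transcendental part vanishes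
    obtain ⟨j, hj, x, hx, h1, hne⟩ := hex
    obtain ⟨x₀, hx₀, h2, ⟨q, hq, hq'⟩⟩ := hsign j hj x hx h1 hne
    have hx₀P : x₀ ∈ primitive W X n ξ := ⟨by rw [← hj]; exact hW.alg_gr hX hx₀, h2⟩
    have hqK : ((q : ℚ) : K) ≠ 0 := by exact_mod_cast hq.ne'
    have htr0 : W.tr X (x₀ * x₀) ≠ 0 := by
      intro h0
      rw [h0, mul_zero] at hq'
      exact hqK hq'.symm
    have hcard : 0 < Fintype.card G := Fintype.card_pos
    have hcardK : ((Fintype.card G : ℕ) : K) ≠ 0 := by exact_mod_cast hcard.ne'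
    have hzero : ∀ t ∈ trans W X n, t = 0 := by
      intro t ht
      refine primitive_nondeg hW hX hξ hdeg hspan (hle ht) (fun y hy => ?_)
      have h4 := schur hW hX hst hirr (s := t) (s' := y) (t := x₀) (t' := x₀) hy hx₀P
      have h5 : ∑ g : G, W.tr X (t * W.pull (g : Aut X).hom x₀)
          * W.tr X (y * W.pull (g : Aut X).hom x₀) = 0 := by
        refine Finset.sum_eq_zero (fun g _ => ?_)
        rw [ht.2 j _ (hW.pull_alg hX hX _ hx₀), zero_mul]
      rw [h5, mul_zero] at h4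
      have h7 := (mul_eq_zero.mp h4.symm).resolve_left hcardK
      exact (mul_eq_zero.mp h7).resolve_right htr0
    intro φ _ _
    exact ⟨0, fun t ht => by rw [hzero t ht]; simp⟩
  · -- no primitive algebraic classes: the transcendental part is the primitive part
    push Not at hex
    have hge : primitive W X n ξ ≤ trans W X n := by
      intro t ht
      refine ⟨ht.1, fun j a ha => ?_⟩
      by_cases hj : 2 * j = n
      · rcases Nat.eq_zero_or_pos j with hj0 | hj0
        · have h1 : ξ * a = 0 := hW.top_gr hX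
            (hW.mul_gr hX (hW.alg_gr hX hξ) (hW.alg_gr hX ha)) (by omega)
          rw [hex j hj a ha h1]; simp
        · have h1 := middle_dec hW hX hξ hdeg hspan hj (x := a)
            (by rw [← hj]; exact hW.alg_gr hX ha)
          obtain ⟨q, hq, hq'⟩ := hdeg
          have h3 := hW.mul_alg hX ha (hW.pow_alg hX hξ j)
          rw [show j + j = n by omega] at h3
          obtain ⟨r, hr⟩ := hW.tr_alg hX h3
          rw [hr, hq'] at h1
          have h4 : a - ((r : K) / (q : K)) • ξ ^ j ∈ W.alg X j := by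
            refine sub_mem ha ?_
            have := W.alg_smul (r / q) (hW.pow_alg hX hξ j)
            push_cast at this
            exact this
          have h5 := hex j hj _ h4 h1
          rw [sub_eq_zero.mp h5, mul_smul_comm, map_smul]
          obtain ⟨i, rfl⟩ : ∃ i, j = i + 1 := ⟨j - 1, by omega⟩
          rw [pow_succ', ← mul_assoc, ← hW.alg_comm hX hξ t, (mem_primitive.mp ht).2]
          simp
      · exact hW.tr_gr hX (hW.mul_gr hX ht.1 (hW.alg_gr hX ha)) (by omega)
    have heq : trans W X n = primitive W X n ξ := le_antisymm hle hge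
    rw [heq]
    exact hirr

omit [CharZero K] in
theorem HodgeType.scale [CharZero K] (h : HodgeType W X n ξ) {a : ℚ} (ha : 0 < a) :
    HodgeType W X n ((a : K) • ξ) := by
  have haK : ((a : ℚ) : K) ≠ 0 := by exact_mod_cast ha.ne'
  intro j hj x hx h1 hne
  rw [smul_pow, smul_mul_assoc] at h1
  have h2 := h j hj x hx ((smul_eq_zero.mp h1).resolve_left (pow_ne_zero _ haK)) hne
  have h3 := h2.smul (pow_pos ha (n - 2 * j))
  rw [smul_pow, smul_mul_assoc, map_smul, smul_eq_mul]
  have e : (-1 : K) ^ j * ((a : K) ^ (n - 2 * j) * W.tr X (ξ ^ (n - 2 * j) * (x * x)))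
      = (((a ^ (n - 2 * j) : ℚ)) : K) * ((-1) ^ j * W.tr X (ξ ^ (n - 2 * j) * (x * x))) := by
    push_cast
    ring
  rw [e]
  exact h3

include hW hX hξ hdeg hspan hG hirr in
/-- Powers of a variety with absolutely irreducible primitive cohomology. -/
theorem main_irr [Finite G]
    (hsign : ∀ j, 2 * j = n → ∀ x ∈ W.alg X j, ξ * x = 0 → x ≠ 0 →
      ∃ x₀ ∈ W.alg X j, ξ * x₀ = 0 ∧ RatPos ((-1) ^ j * W.tr X (x₀ * x₀)))
    {a : ℕ → ℚ} (ha : ∀ i, 0 < a i) (m : ℕ) :
    HodgeType W (prodPow (𝟙_ (Sch k)) X m) (m * n)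
      (prodPol W (0 : W.coh (𝟙_ (Sch k)))
        (fun i => ((a i : ℚ) : K) • ξ) m) := by
  have h1 := hodge_of_sign hW hX hξ hdeg hspan hG hirr hsign
  exact main_point hW hX (fun i => W.alg_smul (a i) hξ) (fun i => h1.scale (ha i))
    (halg_of_span hW hX hξ hspan) (trans_scalar hW hX hξ hdeg hspan hG hirr hsign) m

end

end Pool.Agent.Lib.MP_361a6f_ag.H3
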