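import Pool.Agent.Lib.MP_361a6f_ag.H3.Dec2

/-!
# Frames of algebraic correspondences on the transcendental part
-/

open CategoryTheory AlgebraicGeometry MonoidalCategory CartesianMonoidalCategory Opposite

universe u v w

set_option linter.unusedSectionVars false

namespace Pool.Agent.Lib.MP_361a6f_ag.H3

variable {k : Type u} [Field k] {K : Type v} [Field K] [CharZero K]
  {W : CohomologyData.{u, v, w} k K} {𝒱 : VarietyClass k}

/-- A weighted frame of algebraic correspondences for the subspace `T` of the cohomology of `X`. -/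
structure Frame (W : CohomologyData.{u, v, w} k K) (X : Sch k)
    (n : ℕ) (T : Submodule K (W.coh X)) (κ : Type) [Fintype κ] where
  γ : κ → W.coh (X ⊗ X)
  c : κ → ℚ
  γ_alg : ∀ i, γ i ∈ W.alg (X ⊗ X) n
  c_pos : ∀ i, 0 < c i
  frame : ∀ s ∈ T, ∀ t ∈ T, ∀ s' ∈ T, ∀ t' ∈ T,
    ∑ i, (c i : K) * (W.tr (X ⊗ X) (W.pull (fst X X) s * W.pull (snd X X) t * γ i)
        * W.tr (X ⊗ X) (W.pull (fst X X) s' * W.pull (snd X X) t' * γ i))
      = W.tr X (s * s') * W.tr X (t * t')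

section

variable (hW : IsWeilCohomology W 𝒱) {Z X : Sch k} {d n : ℕ}
  (hZ : 𝒱.mem Z d) (hX : 𝒱.mem X n)

/-- the generators of `H(Z) ⊗ H(X) ⊗ H(X)` -/
noncomputable def gen (W : CohomologyData.{u, v, w} k K) {Z X : Sch k}
    (y : W.coh Z) (s t : W.coh X) : W.coh ((Z ⊗ X) ⊗ X) :=
  W.pull (fst (Z ⊗ X) X) (W.pull (fst Z X) y * W.pull (snd Z X) s) * W.pull (snd (Z ⊗ X) X) t

/-- projection to the last two factors -/
noncomputable def pr23 (Z X : Sch k) : (Z ⊗ X) ⊗ X ⟶ X ⊗ X :=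
  lift (fst (Z ⊗ X) X ≫ snd Z X) (snd (Z ⊗ X) X)

/-- projection to the first factor -/
noncomputable def pr1 (Z X : Sch k) : (Z ⊗ X) ⊗ X ⟶ Z :=
  fst (Z ⊗ X) X ≫ fst Z X

theorem assoc_fst : (α_ Z X X).hom ≫ fst Z (X ⊗ X) = pr1 Z X := by
  simp [pr1]

theorem assoc_snd : (α_ Z X X).hom ≫ snd Z (X ⊗ X) = pr23 Z X := by
  ext1 <;> simp [pr23]

theorem gen_eq (y : W.coh Z) (s t : W.coh X) :
    gen W y s t = W.pull (pr1 Z X) y
      * W.pull (pr23 Z X) (W.pull (fst X X) s * W.pull (snd X X) t) := by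
  rw [gen, map_mul, map_mul, ← W.pull_comp, ← W.pull_comp, ← W.pull_comp, ← W.pull_comp,
    mul_assoc]
  congr 3
  · simp [pr23]
  · simp [pr23]

include hW hZ hX in
theorem tr_pr (y v : W.coh Z) (u : W.coh (X ⊗ X)) :
    W.tr ((Z ⊗ X) ⊗ X) (W.pull (pr1 Z X) y * W.pull (pr23 Z X) u * W.pull (pr1 Z X) v)
      = W.tr Z (y * v) * W.tr (X ⊗ X) u := by
  have h1 := 𝒱.prod (𝒱.prod hZ hX) hX
  have h2 := 𝒱.prod hZ (𝒱.prod hX hX)
  rw [← assoc_fst, ← assoc_snd, W.pull_comp, W.pull_comp, W.pull_comp, ← map_mul, ← map_mul,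
    hW.tr_iso h1 h2, hW.tr_move hZ (𝒱.prod hX hX)]

/-- contraction with a class on `X × X` -/
noncomputable def contr (W : CohomologyData.{u, v, w} k K) {Z X : Sch k}
    (γ : W.coh (X ⊗ X)) : W.coh ((Z ⊗ X) ⊗ X) →ₗ[K] W.coh Z where
  toFun z := W.push (pr1 Z X) (z * W.pull (pr23 Z X) γ)
  map_add' a b := by rw [add_mul, map_add]
  map_smul' c a := by rw [smul_mul_assoc, map_smul, RingHom.id_apply]

theorem contr_apply (γ : W.coh (X ⊗ X)) (z : W.coh ((Z ⊗ X) ⊗ X)) :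
    contr W γ z = W.push (pr1 Z X) (z * W.pull (pr23 Z X) γ) := rfl

include hW hZ hX in
theorem contr_gen (γ : W.coh (X ⊗ X)) (y : W.coh Z) (s t : W.coh X) :
    contr W γ (gen W y s t)
      = W.tr (X ⊗ X) (W.pull (fst X X) s * W.pull (snd X X) t * γ) • y := by
  have h1 := 𝒱.prod (𝒱.prod hZ hX) hX
  rw [← sub_eq_zero]
  refine hW.duality hZ _ (fun v => ?_)
  rw [sub_mul, map_sub, contr_apply, hW.push_adj h1 hZ, gen_eq, mul_assoc (W.pull (pr1 Z X) y),
    ← map_mul, tr_pr hW hZ hX, smul_mul_assoc, map_smul, smul_eq_mul]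
  ring

include hW hZ hX in
theorem contr_alg {γ : W.coh (X ⊗ X)} (hγ : γ ∈ W.alg (X ⊗ X) n) {j : ℕ}
    {z : W.coh ((Z ⊗ X) ⊗ X)} (hz : z ∈ W.alg ((Z ⊗ X) ⊗ X) j) :
    (∀ i, j = i + n → contr W γ z ∈ W.alg Z i) ∧ (j < n → contr W γ z = 0) := by
  have h1 := 𝒱.prod (𝒱.prod hZ hX) hX
  have h2 := hW.mul_alg h1 hz (hW.pull_alg h1 (𝒱.prod hX hX) (pr23 Z X) hγ)
  constructor
  · intro i hi
    exact hW.push_alg h1 hZ _ h2 (by omega)
  · intro hj
    exact hW.push_zero h1 hZ _ (hW.alg_gr h1 h2) (by omega)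

theorem gen_add_left (y y' : W.coh Z) (s t : W.coh X) :
    gen W (y + y') s t = gen W y s t + gen W y' s t := by
  simp only [gen, map_add, add_mul]

include hW hZ hX in
/-- intersection numbers of generators -/
theorem tr_gen (y y' : W.coh Z) {s t s' t' : W.coh X} (hs : s ∈ W.gr X n) (ht : t ∈ W.gr X n)
    (hs' : s' ∈ W.gr X n) :
    W.tr ((Z ⊗ X) ⊗ X) (gen W y s t * gen W y' s' t')
      = (-1) ^ n * (W.tr Z (y * y') * (W.tr X (s * s') * W.tr X (t * t'))) := by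
  have hZX := 𝒱.prod hZ hX
  have h1 := 𝒱.prod hZX hX
  refine hW.hom_induction hZ (P := fun y' => W.tr ((Z ⊗ X) ⊗ X) (gen W y s t * gen W y' s' t')
      = (-1) ^ n * (W.tr Z (y * y') * (W.tr X (s * s') * W.tr X (t * t')))) y' ?_ ?_ ?_
  · intro i y' hy'
    have ha' : W.pull (fst Z X) y' * W.pull (snd Z X) s' ∈ W.gr (Z ⊗ X) (i + n) :=
      hW.mul_gr hZX (hW.pull_gr hZX hZ _ hy') (hW.pull_gr hZX hX _ hs')
    have e1 : W.pull (snd (Z ⊗ X) X) t
        * W.pull (fst (Z ⊗ X) X) (W.pull (fst Z X) y' * W.pull (snd Z X) s')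
        = (-1 : K) ^ (n * (i + n)) •
          (W.pull (fst (Z ⊗ X) X) (W.pull (fst Z X) y' * W.pull (snd Z X) s')
            * W.pull (snd (Z ⊗ X) X) t) :=
      hW.comm_gr h1 (hW.pull_gr h1 hX _ ht) (hW.pull_gr h1 hZX _ ha')
    have e2 : W.pull (snd Z X) s * W.pull (fst Z X) y'
        = (-1 : K) ^ (n * i) • (W.pull (fst Z X) y' * W.pull (snd Z X) s) :=
      hW.comm_gr hZX (hW.pull_gr hZX hX _ hs) (hW.pull_gr hZX hZ _ hy')
    have e3 : gen W y s t * gen W y' s' t'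
        = ((-1 : K) ^ (n * (i + n)) * (-1 : K) ^ (n * i)) •
          (W.pull (fst (Z ⊗ X) X) (W.pull (fst Z X) (y * y') * W.pull (snd Z X) (s * s'))
            * W.pull (snd (Z ⊗ X) X) (t * t')) := by
      have e4 : (W.pull (fst Z X) y * W.pull (snd Z X) s)
          * (W.pull (fst Z X) y' * W.pull (snd Z X) s')
          = (-1 : K) ^ (n * i) • (W.pull (fst Z X) (y * y') * W.pull (snd Z X) (s * s')) := by
        rw [mul_assoc, ← mul_assoc (W.pull (snd Z X) s), e2, smul_mul_assoc, mul_smul_comm,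
          map_mul, map_mul]
        congr 1
        simp only [mul_assoc]
      rw [gen, gen, mul_assoc, ← mul_assoc (W.pull (snd (Z ⊗ X) X) t), e1, smul_mul_assoc,
        mul_smul_comm, mul_assoc, ← mul_assoc (W.pull (fst (Z ⊗ X) X) _), ← map_mul, e4,
        ← map_mul, map_smul, smul_mul_assoc, smul_smul]
    rw [e3, map_smul, hW.kunneth_tr hZX hX, hW.kunneth_tr hZ hX, smul_eq_mul, ← pow_add]
    have e5 : (-1 : K) ^ (n * (i + n) + n * i) = (-1) ^ n := by
      rw [show n * (i + n) + n * i = 2 * (n * i) + n * n by ring, pow_add, pow_mul]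
      have h2 : (-1 : K) ^ (n * n) = (-1) ^ n := by
        rw [pow_mul]
        rcases Nat.even_or_odd n with h | h
        · rw [h.neg_one_pow]; simp
        · rw [h.neg_one_pow, h.neg_one_pow]
      rw [h2]; simp
    rw [e5]
    ring
  · simp [gen]
  · intro a b ha hb
    rw [gen_add_left, mul_add, map_add, ha, hb, mul_add, map_add]
    ring

end

end Pool.Agent.Lib.MP_361a6f_ag.H3
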