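import Pool.Agent.Lib.MP_361a6f_ag.H3.Pos

/-!
# Powers of varieties with independent Frobenius eigenvalues
-/

open CategoryTheory AlgebraicGeometry MonoidalCategory CartesianMonoidalCategory Opposite

universe u v w

set_option linter.unusedSectionVars false

namespace Pool.Agent.Lib.MP_361a6f_ag.H3

variable {k : Type u} [Field k] {K : Type v} [Field K] [CharZero K]
  {W : CohomologyData.{u, v, w} k K} {𝒱 : VarietyClass k}

section

variable (hW : IsWeilCohomology W 𝒱) {X : Sch k} {n : ℕ}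
  (hX : 𝒱.mem X n)

include hW hX in
/-- In the codimensions where all algebraic classes are multiples of the powers of `ξ`, positivity
is automatic. -/
theorem hodge_of_part {ξ : W.coh X} (hξ : ξ ∈ W.alg X 1) (hdeg : RatPos (W.tr X (ξ ^ n)))
    (hpart : ∀ j, 2 * j ≤ n → (∃ x ∈ W.alg X j, ∀ c : K, x ≠ c • ξ ^ j) →
      ∀ x ∈ W.alg X j, ξ ^ (n - 2 * j + 1) * x = 0 → x ≠ 0 →
        RatPos ((-1) ^ j * W.tr X (ξ ^ (n - 2 * j) * (x * x)))) :
    HodgeType W X n ξ := by
  intro j hj x hx h1 hne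
  by_cases hex : ∃ x ∈ W.alg X j, ∀ c : K, x ≠ c • ξ ^ j
  · exact hpart j hj hex x hx h1 hne
  · push Not at hex
    obtain ⟨q, hq, hq'⟩ := hdeg
    have hqK : ((q : ℚ) : K) ≠ 0 := by exact_mod_cast hq.ne'
    obtain ⟨c, rfl⟩ := hex x hx
    rcases Nat.eq_zero_or_pos j with hj0 | hj0
    · subst hj0
      have h2 := hW.mul_alg hX hx (hW.pow_alg hX hξ n)
      rw [zero_add] at h2
      obtain ⟨r, hr⟩ := hW.tr_alg hX h2
      rw [pow_zero, smul_mul_assoc, one_mul, map_smul, hq', smul_eq_mul] at hr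
      have hc : c = ((r / q : ℚ) : K) := by
        push_cast
        field_simp
        exact hr
      have hrq : r / q ≠ 0 := by
        intro h0
        apply hne
        rw [hc, h0]; simp
      refine ⟨(r / q) * (r / q) * q, mul_pos (mul_self_pos.mpr hrq) hq, ?_⟩
      rw [hc]
      simp only [pow_zero, mul_zero, Nat.sub_zero, one_mul, mul_one,
        mul_smul_comm, map_smul, hq', smul_eq_mul]
      push_cast
      ring
    · exfalso
      have h2 : W.tr X (ξ ^ (j - 1) * (ξ ^ (n - 2 * j + 1) * (c • ξ ^ j))) = 0 := by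
        rw [h1]; simp
      rw [mul_smul_comm, mul_smul_comm, ← pow_add, ← pow_add, map_smul,
        show j - 1 + (n - 2 * j + 1 + j) = n by omega, hq', smul_eq_mul] at h2
      apply hne
      rw [(mul_eq_zero.mp h2).resolve_right hqK, zero_smul]

include hW hX in
theorem trans_nondeg (hsup : perpT (trans W X n) ⊔ trans W X n = ⊤) {t : W.coh X}
    (ht : t ∈ trans W X n) (h : ∀ t' ∈ trans W X n, W.tr X (t * t') = 0) : t = 0 := by
  refine hW.duality hX _ (fun y => ?_)
  have hy : y ∈ perpT (trans W X n) ⊔ trans W X n := by rw [hsup]; trivial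
  obtain ⟨a, ha, t', ht', rfl⟩ := Submodule.mem_sup.mp hy
  rw [mul_add, map_add, h t' ht', add_zero]
  refine Submodule.span_induction (p := fun a _ => W.tr X (t * a) = 0) ?_ ?_ ?_ ?_ ha
  · rintro a ⟨j, _, ha2⟩
    exact ha2 t ht
  · simp
  · intro p r _ _ hp hr
    rw [mul_add, map_add, hp, hr, add_zero]
  · intro c p _ hp
    rw [mul_smul_comm, map_smul, hp, smul_zero]

variable {F : X ⟶ X} {q : ℕ} (hq : 1 < q) (hF : IsFrobenius W n F q) {g : ℕ} {α : Fin g → K}
  (hα0 : ∀ i, α i ≠ 0)
  (hind : ∀ (c : Fin g → ℤ) (d : ℤ), ∏ i, α i ^ c i = (q : K) ^ d → c = 0)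

include hind in
theorem ind_ne (i j : Fin g) : α i * α j ≠ (q : K) ^ n := by
  intro h
  have h1 := hind (Pi.single i 1 + Pi.single j 1) n (by
    have e : ∀ l : Fin g, α l ^ ((Pi.single i 1 + Pi.single j 1 : Fin g → ℤ) l)
        = α l ^ ((Pi.single i (1 : ℕ) + Pi.single j (1 : ℕ) : Fin g → ℕ) l) := by
      intro l
      rw [← zpow_natCast]
      congr 1
      simp only [Pi.add_apply, Pi.single_apply]
      push_cast
      rfl
    rw [Finset.prod_congr rfl (fun l _ => e l)]
    simp only [Pi.add_apply, pow_add, Finset.prod_mul_distrib]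
    rw [Finset.prod_eq_single i, Finset.prod_eq_single j]
    · simp only [Pi.single_eq_same, pow_one]
      rw [h, zpow_natCast]
    · intro l _ hl; rw [Pi.single_eq_of_ne hl, pow_zero]
    · intro h'; exact absurd (Finset.mem_univ _) h'
    · intro l _ hl; rw [Pi.single_eq_of_ne hl, pow_zero]
    · intro h'; exact absurd (Finset.mem_univ _) h')
  have h2 := congrFun h1 i
  simp only [Pi.add_apply, Pi.single_eq_same, Pi.zero_apply] at h2
  rw [Pi.single_apply] at h2
  split_ifs at h2 <;> omega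

include hind hα0 in
theorem ind_inj (i j : Fin g) (h : α i = α j) : i = j := by
  by_contra hij
  have h1 := hind (Pi.single i 1 - Pi.single j 1) 0 (by
    have e : ∀ l : Fin g, α l ^ ((Pi.single i 1 - Pi.single j 1 : Fin g → ℤ) l)
        = α l ^ ((Pi.single i (1 : ℤ) : Fin g → ℤ) l)
          * (α l ^ ((Pi.single j (1 : ℤ) : Fin g → ℤ) l))⁻¹ := by
      intro l
      rw [Pi.sub_apply, zpow_sub₀ (hα0 l), div_eq_mul_inv]
    rw [Finset.prod_congr rfl (fun l _ => e l), Finset.prod_mul_distrib,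
      Finset.prod_eq_single i, Finset.prod_eq_single j]
    · simp only [Pi.single_eq_same, zpow_one, zpow_zero]
      rw [h, mul_inv_cancel₀ (hα0 j)]
    · intro l _ hl; rw [Pi.single_eq_of_ne hl, zpow_zero, inv_one]
    · intro h'; exact absurd (Finset.mem_univ _) h'
    · intro l _ hl; rw [Pi.single_eq_of_ne hl, zpow_zero]
    · intro h'; exact absurd (Finset.mem_univ _) h')
  have h2 := congrFun h1 i
  simp only [Pi.sub_apply, Pi.single_eq_same, Pi.zero_apply] at h2
  rw [Pi.single_eq_of_ne hij] at h2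
  omega

variable (b : Module.Basis (Fin g ⊕ Fin g) K (trans W X n))
  (hb1 : ∀ i, W.pull F (b (Sum.inl i) : W.coh X) = α i • (b (Sum.inl i) : W.coh X))
  (hb2 : ∀ i, W.pull F (b (Sum.inr i) : W.coh X)
    = ((q : K) ^ n / α i) • (b (Sum.inr i) : W.coh X))

include hF hb1 hb2 hind hα0 hq in
theorem pair_zero (i j : Fin g ⊕ Fin g) (hij : j ≠ Sum.swap i) :
    W.tr X ((b i : W.coh X) * (b j : W.coh X)) = 0 := by
  have hqn : ((q : K) ^ n) ≠ 0 := pow_ne_zero _ (by
    have : q ≠ 0 := by omega
    exact_mod_cast this)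
  by_contra hne
  have h1 := hF.degree ((b i : W.coh X) * (b j : W.coh X))
  rw [map_mul] at h1
  rcases i with i | i <;> rcases j with j | j
  · rw [hb1, hb1, smul_mul_assoc, mul_smul_comm, smul_smul, map_smul, smul_eq_mul] at h1
    exact ind_ne hind i j (mul_right_cancel₀ hne h1)
  · rw [hb1, hb2, smul_mul_assoc, mul_smul_comm, smul_smul, map_smul, smul_eq_mul] at h1
    have h2 := mul_right_cancel₀ hne h1
    have h3 : α i = α j := by
      have h4 := hα0 j
      field_simp at h2
      exact h2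
    exact hij (by rw [ind_inj hα0 hind i j h3]; rfl)
  · rw [hb2, hb1, smul_mul_assoc, mul_smul_comm, smul_smul, map_smul, smul_eq_mul] at h1
    have h2 := mul_right_cancel₀ hne h1
    have h3 : α j = α i := by
      have h4 := hα0 i
      field_simp at h2
      exact h2
    exact hij (by rw [ind_inj hα0 hind j i h3]; rfl)
  · rw [hb2, hb2, smul_mul_assoc, mul_smul_comm, smul_smul, map_smul, smul_eq_mul] at h1
    have h2 := mul_right_cancel₀ hne h1
    apply ind_ne (n := n) hind i j
    have h4 := hα0 i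
    have h5 := hα0 j
    field_simp at h2
    have h6 : (q : K) ^ n * (q : K) ^ n = (q : K) ^ n * (α i * α j) := by
      first
        | linear_combination h2
        | linear_combination (q : K) ^ n * h2
    exact (mul_left_cancel₀ hqn h6).symm

include hW hX hF hb1 hb2 hind hα0 hq in
theorem pair_ne (hsup : perpT (trans W X n) ⊔ trans W X n = ⊤) (i : Fin g) :
    W.tr X ((b (Sum.inl i) : W.coh X) * (b (Sum.inr i) : W.coh X)) ≠ 0 := by
  intro h0
  apply b.ne_zero (Sum.inl i)
  apply Subtype.ext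
  refine trans_nondeg hW hX hsup (b (Sum.inl i)).2 (fun t' ht' => ?_)
  have h1 : (⟨t', ht'⟩ : trans W X n) ∈ Submodule.span K (Set.range b) := by
    rw [b.span_eq]; trivial
  have h2 : ∀ s : trans W X n, s ∈ Submodule.span K (Set.range b) →
      W.tr X ((b (Sum.inl i) : W.coh X) * (s : W.coh X)) = 0 := by
    intro s hs
    refine Submodule.span_induction (p := fun (s : trans W X n) _ =>
      W.tr X ((b (Sum.inl i) : W.coh X) * (s : W.coh X)) = 0) ?_ ?_ ?_ ?_ hs
    · rintro _ ⟨j, rfl⟩
      by_cases hj : j = Sum.swap (Sum.inl i)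
      · rw [hj]; exact h0
      · exact pair_zero hq hF hα0 hind b hb1 hb2 _ _ hj
    · simp
    · intro p r _ _ hp hr
      rw [Submodule.coe_add, mul_add, map_add, hp, hr, add_zero]
    · intro c p _ hp
      rw [Submodule.coe_smul, mul_smul_comm, map_smul, hp, smul_zero]
  exact h2 _ h1

include hW hX hF hb1 hb2 hind hα0 hq in
/-- the normalised eigenbasis -/
theorem exists_eigen (hsup : perpT (trans W X n) ⊔ trans W X n = ⊤) :
    ∃ ε : Eigen W X n (trans W X n) F ((q : K) ^ n) (Fin g ⊕ Fin g),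
      (∀ i, ε.ν i = Sum.swap i) ∧ (∀ i, ε.α (Sum.inl i) = α i) ∧
      (∀ i, ε.α (Sum.inr i) = (q : K) ^ n / α i) := by
  have hqn : ((q : K) ^ n) ≠ 0 := pow_ne_zero _ (by
    have : q ≠ 0 := by omega
    exact_mod_cast this)
  set β : Fin g → K := fun i =>
    W.tr X ((b (Sum.inl i) : W.coh X) * (b (Sum.inr i) : W.coh X)) with hβ
  have hβ0 : ∀ i, β i ≠ 0 := fun i => pair_ne hW hX hq hF hα0 hind b hb1 hb2 hsup i
  set e : Fin g ⊕ Fin g → W.coh X := Sum.elim (fun i => (b (Sum.inl i) : W.coh X))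
    (fun i => (β i)⁻¹ • (b (Sum.inr i) : W.coh X)) with he
  have hpz : ∀ i j : Fin g ⊕ Fin g, j ≠ Sum.swap i → W.tr X (e i * e j) = 0 := by
    intro i j hij
    have h1 := pair_zero hq hF hα0 hind b hb1 hb2 i j hij
    rcases i with i | i <;> rcases j with j | j
    · exact h1
    · simp only [he, Sum.elim_inl, Sum.elim_inr]
      rw [mul_smul_comm, map_smul, h1, smul_zero]
    · simp only [he, Sum.elim_inl, Sum.elim_inr]
      rw [smul_mul_assoc, map_smul, h1, smul_zero]
    · simp only [he, Sum.elim_inr]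
      rw [smul_mul_assoc, mul_smul_comm, map_smul, map_smul, h1, smul_zero, smul_zero]
  have hp1 : ∀ i : Fin g, W.tr X (e (Sum.inl i) * e (Sum.inr i)) = 1 := by
    intro i
    simp only [he, Sum.elim_inl, Sum.elim_inr]
    rw [mul_smul_comm, map_smul, smul_eq_mul]
    exact inv_mul_cancel₀ (hβ0 i)
  have hegr : ∀ i, e i ∈ W.gr X n := by
    intro i
    rcases i with i | i
    · exact (b (Sum.inl i)).2.1
    · exact Submodule.smul_mem _ _ (b (Sum.inr i)).2.1
  have hp2 : ∀ i : Fin g, W.tr X (e (Sum.inr i) * e (Sum.inl i)) = (-1) ^ n := by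
    intro i
    rw [hW.comm_gr hX (hegr _) (hegr _), map_smul, hp1, smul_eq_mul, mul_one]
    rcases Nat.even_or_odd n with h | h
    · rw [h.neg_one_pow, (h.mul_right n).neg_one_pow]
    · rw [h.neg_one_pow, (h.mul h).neg_one_pow]
  refine ⟨
    { ν := Sum.swap
      ν_ν := Sum.swap_swap
      α := Sum.elim α (fun i => (q : K) ^ n / α i)
      e := e
      pos := Sum.elim (fun _ => true) (fun _ => false)
      pos_ν := by rintro (i | i) <;> rfl
      α_ν := ?_
      α_inj := ?_
      span_e := ?_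
      T_gr := fun t ht => ht.1
      eig := ?_
      pair := ?_ }, fun i => rfl, fun i => rfl, fun i => rfl⟩
  · rintro (i | i)
    · simp only [Sum.swap_inl, Sum.elim_inl, Sum.elim_inr]
      rw [mul_div_cancel₀ _ (hα0 i)]
    · simp only [Sum.swap_inr, Sum.elim_inl, Sum.elim_inr]
      rw [div_mul_cancel₀ _ (hα0 i)]
  · rintro (i | i) (j | j) hij
    · simp only [Sum.elim_inl] at hij
      rw [ind_inj hα0 hind i j hij]
    · simp only [Sum.elim_inl, Sum.elim_inr] at hij
      exfalso
      apply ind_ne (n := n) hind i j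
      rw [hij, div_mul_cancel₀ _ (hα0 j)]
    · simp only [Sum.elim_inl, Sum.elim_inr] at hij
      exfalso
      apply ind_ne (n := n) hind j i
      rw [← hij, div_mul_cancel₀ _ (hα0 i)]
    · simp only [Sum.elim_inr] at hij
      have h1 : α i = α j := by
        have h2 := hα0 i
        have h3 := hα0 j
        rw [div_eq_div_iff h2 h3] at hij
        exact (mul_left_cancel₀ hqn hij).symm
      rw [ind_inj hα0 hind i j h1]
  · apply le_antisymm
    · rw [Submodule.span_le]
      rintro _ ⟨i, rfl⟩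
      rcases i with i | i
      · exact (b (Sum.inl i)).2
      · exact Submodule.smul_mem _ _ (b (Sum.inr i)).2
    · intro t ht
      have h1 : (⟨t, ht⟩ : trans W X n) ∈ Submodule.span K (Set.range b) := by
        rw [b.span_eq]; trivial
      have h2 : ∀ s : trans W X n, s ∈ Submodule.span K (Set.range b) →
          (s : W.coh X) ∈ Submodule.span K (Set.range e) := by
        intro s hs
        refine Submodule.span_induction (p := fun (s : trans W X n) _ =>
          (s : W.coh X) ∈ Submodule.span K (Set.range e)) ?_ ?_ ?_ ?_ hs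
        · rintro _ ⟨i, rfl⟩
          rcases i with i | i
          · exact Submodule.subset_span ⟨Sum.inl i, rfl⟩
          · have h3 : (b (Sum.inr i) : W.coh X) = β i • e (Sum.inr i) := by
              simp only [he, Sum.elim_inr]
              rw [smul_smul, mul_inv_cancel₀ (hβ0 i), one_smul]
            rw [h3]
            exact Submodule.smul_mem _ _ (Submodule.subset_span ⟨Sum.inr i, rfl⟩)
        · exact zero_mem _
        · intro p r _ _ hp hr; exact add_mem hp hr
        · intro c p _ hp; exact Submodule.smul_mem _ _ hp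
      exact h2 _ h1
  · rintro (i | i)
    · exact hb1 i
    · simp only [he, Sum.elim_inr]
      rw [map_smul, hb2, smul_comm]
  · rintro (i | i) (j | j)
    · rw [hpz _ _ (by simp), if_neg (by simp)]
    · by_cases hij : j = i
      · subst hij
        rw [hp1]; simp
      · rw [hpz _ _ (by simpa using hij), if_neg (by simpa using hij)]
    · by_cases hij : j = i
      · subst hij
        rw [hp2]; simp
      · rw [hpz _ _ (by simpa using hij), if_neg (by simpa using hij)]
    · rw [hpz _ _ (by simp), if_neg (by simp)]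

include hq hα0 hind in
/-- independence implies that relations are balanced -/
theorem bal_of_ind {T : Submodule K (W.coh X)} (ε : Eigen W X n T F ((q : K) ^ n) (Fin g ⊕ Fin g))
    (hν : ∀ i, ε.ν i = Sum.swap i) (h1 : ∀ i, ε.α (Sum.inl i) = α i)
    (h2 : ∀ i, ε.α (Sum.inr i) = (q : K) ^ n / α i) (a : ℕ) (J : Fin a → Fin g ⊕ Fin g)
    (s c : ℕ) (hs : 0 < s) (h : (∏ b, ε.α (J b)) ^ s = (q : K) ^ c) : ε.Bal J := by
  classical
  have hqK : (q : K) ≠ 0 := by
    have : q ≠ 0 := by omega
    exact_mod_cast this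
  set N : Fin g ⊕ Fin g → ℕ := fun i => (Finset.univ.filter (fun b => J b = i)).card with hN
  have e1 : ∏ b, ε.α (J b) = ∏ i, ε.α i ^ N i := by
    rw [← Finset.prod_fiberwise_of_maps_to (s := Finset.univ) (t := Finset.univ) (g := J)
      (fun b _ => Finset.mem_univ _)]
    refine Finset.prod_congr rfl (fun i _ => ?_)
    rw [hN, ← Finset.prod_const]
    refine Finset.prod_congr rfl (fun b hb => ?_)
    simp only [Finset.mem_filter, Finset.mem_univ, true_and] at hb
    rw [hb]
  have e2 : ∏ i, ε.α i ^ N i = (∏ i : Fin g, α i ^ ((N (Sum.inl i) : ℤ) - N (Sum.inr i)))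
      * (q : K) ^ ((n * ∑ i : Fin g, N (Sum.inr i) : ℕ) : ℤ) := by
    rw [Fintype.prod_sum_type, ← Finset.prod_mul_distrib, zpow_natCast, pow_mul,
      ← Finset.prod_pow_eq_pow_sum, ← Finset.prod_mul_distrib]
    refine Finset.prod_congr rfl (fun i _ => ?_)
    rw [h1, h2, zpow_sub₀ (hα0 i), zpow_natCast, zpow_natCast, div_pow]
    ring
  rw [e1, e2, mul_pow, ← Finset.prod_pow] at h
  have h3 := hind (fun i => ((N (Sum.inl i) : ℤ) - N (Sum.inr i)) * s)
    ((c : ℤ) - (n * ∑ i : Fin g, N (Sum.inr i) : ℕ) * s) (by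
      have e3 : ∀ i : Fin g, α i ^ (((N (Sum.inl i) : ℤ) - N (Sum.inr i)) * s)
          = (α i ^ ((N (Sum.inl i) : ℤ) - N (Sum.inr i))) ^ s := by
        intro i
        rw [zpow_mul, zpow_natCast]
      rw [Finset.prod_congr rfl (fun i _ => e3 i), zpow_sub₀ hqK, zpow_mul, zpow_natCast,
        zpow_natCast, ← h, mul_div_assoc, div_self, mul_one]
      exact pow_ne_zero _ (zpow_ne_zero _ hqK))
  have h4 : ∀ i : Fin g, N (Sum.inl i) = N (Sum.inr i) := by
    intro i
    have h5 := congrFun h3 i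
    simp only [Pi.zero_apply] at h5
    have h6 : (s : ℤ) ≠ 0 := by exact_mod_cast hs.ne'
    have h7 := (mul_eq_zero.mp h5).resolve_right h6
    have h8 : (N (Sum.inl i) : ℤ) = N (Sum.inr i) := by linarith
    exact_mod_cast h8
  rintro (i | i)
  · rw [hν]
    exact h4 i
  · rw [hν]
    exact (h4 i).symm

include hW hX hF hb1 hb2 hind hq in
/-- Powers of varieties with independent Frobenius eigenvalues. -/
theorem frob_main {ξ : ℕ → W.coh X} (hξ : ∀ i, ξ i ∈ W.alg X 1)
    (hHT : ∀ i, HodgeType W X n (ξ i))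
    (halg : ∀ i, i ≠ n → W.gr X i ≤ Submodule.span K {x | ∃ j, 2 * j = i ∧ x ∈ W.alg X j})
    (ι : K →+* ℂ) (hRH : ∀ i, ‖ι (α i)‖ ^ 2 = (q : ℝ) ^ n) (m : ℕ) :
    HodgeType W (prodPow (𝟙_ (Sch k)) X m) (m * n)
      (prodPol W (0 : W.coh (𝟙_ (Sch k))) ξ m) := by
  have hα0 : ∀ i, α i ≠ 0 := by
    intro i h0
    have h1 := hRH i
    rw [h0, map_zero, norm_zero] at h1
    have h2 : (0 : ℝ) < (q : ℝ) ^ n := by
      have : (0 : ℝ) < q := by exact_mod_cast (by omega : 0 < q)
      positivity
    rw [← h1] at h2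
    norm_num at h2
  have hσ : ∀ i, ∃ (κ : Type) (_ : Fintype κ) (σ : Strings W X n (ξ i) κ),
      σ.T = trans W X n := by
    intro i
    obtain ⟨κ, hκ, ⟨Fam⟩⟩ := exists_primFam hW hX (hξ i) (hHT i)
    exact ⟨κ, hκ, Fam.toStrings hW hX (hξ i) halg, rfl⟩
  have hsup : perpT (trans W X n) ⊔ trans W X n = ⊤ := by
    obtain ⟨κ, _, σ, hσT⟩ := hσ 0
    rw [← hσT]
    exact σ.perpT_sup hW hX (hξ 0)
  obtain ⟨ε, hν, h1, h2⟩ := exists_eigen hW hX hq hF hα0 hind b hb1 hb2 hsup
  have hqC : (ι ((q : K) ^ n) : ℂ) = ((q : ℝ) ^ n : ℝ) := by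
    rw [map_pow, map_natCast]; push_cast; rfl
  have hcl : ∀ i, starRingEnd ℂ (ι (α i)) = ι ((q : K) ^ n / α i) := by
    intro i
    have h3 : ι (α i) ≠ 0 := fun h => hα0 i ((map_eq_zero ι).mp h)
    rw [map_div₀, eq_div_iff h3, hqC, ← Complex.normSq_eq_conj_mul_self]
    rw [← hRH i, Complex.normSq_eq_norm_sq]
  have hconj : ∀ i, starRingEnd ℂ (ι (ε.α i)) = ι (ε.α (ε.ν i)) := by
    rintro (i | i)
    · rw [hν, Sum.swap_inl, h1, h2]
      exact hcl i
    · rw [hν, Sum.swap_inr, h1, h2, ← hcl i, Complex.conj_conj]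
  have h3 := red hW 𝒱.point hX (l := 0) (zero_mem _) hξ (trans W X n) hσ
    (ε.hts_all hW hX ι hconj (by omega) hF
      (fun a J s c hs h => bal_of_ind hq hα0 hind ε hν h1 h2 a J s c hs h)) m
  rwa [zero_add] at h3

end

end Pool.Agent.Lib.MP_361a6f_ag.H3
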