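import Pool.Agent.Lib.MP_361a6f_ag.H3.Real3

/-!
# The main theorem over the complex numbers
-/

open CategoryTheory AlgebraicGeometry MonoidalCategory CartesianMonoidalCategory Opposite
open scoped ComplexOrder MatrixOrder

universe u v w

set_option linter.unusedSectionVars false

namespace Pool.Agent.Lib.MP_361a6f_ag.H3

/-- a positive definite Gram matrix has an orthonormal basis -/
theorem exists_orth {I : Type} [Fintype I] [DecidableEq I] {G : Matrix I I ℂ} (hG : G.PosDef) :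
    ∃ E F : Matrix I I ℂ, E.transpose * G * cj E = 1 ∧ E * F = 1 := by
  obtain ⟨B, hB⟩ := CStarAlgebra.nonneg_iff_eq_star_mul_self.mp
    (Matrix.nonneg_iff_posSemidef.mpr hG.posSemidef)
  have hB' : G = B.conjTranspose * B := hB
  have hGu : IsUnit G := hG.isUnit
  have hBu : IsUnit B := by
    rw [Matrix.isUnit_iff_isUnit_det] at hGu ⊢
    rw [hB', Matrix.det_mul] at hGu
    exact isUnit_of_mul_isUnit_right hGu
  have h1 : B * B⁻¹ = 1 := mul_inv_self hBu
  have h2 : B⁻¹ * B = 1 := inv_mul_self hBu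
  refine ⟨cj B⁻¹, cj B, ?_, ?_⟩
  · rw [cj_cj, transpose_cj, hB']
    calc (B⁻¹).conjTranspose * (B.conjTranspose * B) * B⁻¹
        = (B⁻¹).conjTranspose * B.conjTranspose * (B * B⁻¹) := by simp only [mul_assoc]
      _ = 1 := by rw [← Matrix.conjTranspose_mul, h1, mul_one, Matrix.conjTranspose_one]
  · rw [← cj_mul, h2, cj_one]

section

variable {k : Type u} [Field k] {W : CohomologyData.{u, 0, w} k ℂ} {𝒱 : VarietyClass k}
  {X : Sch k} {n : ℕ} (hW : IsWeilCohomology W 𝒱) (hX : 𝒱.mem X n)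
  {I : Type} [Fintype I] [DecidableEq I] (b : Module.Basis I ℂ (trans W X n))

/-- an orthogonal basis for a real structure given by a matrix -/
theorem exists_orthBasis {R : RS W X} {U : Matrix I I ℂ} {δ : ℂ}
    (hJ : ∀ i, R.j (b i : W.coh X) = ∑ l, U l i • (b l : W.coh X))
    {E F : Matrix I I ℂ} (hE : E.transpose * (gram b * U) * cj E = δ • 1) (hEF : E * F = 1) :
    Nonempty (OrthBasis W X n R δ I) := by
  refine ⟨⟨fun i => ∑ p, E p i • (b p : W.coh X), ?_, ?_, ?_⟩⟩
  · intro i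
    exact sum_mem (fun p _ => Submodule.smul_mem _ _ (b p).2)
  · intro t ht
    rw [basis_expand b ht]
    refine sum_mem (fun m _ => Submodule.smul_mem _ _ ?_)
    have e1 : (b m : W.coh X) = ∑ i, F i m • ∑ p, E p i • (b p : W.coh X) := by
      have e2 : ∀ i, F i m • ∑ p, E p i • (b p : W.coh X)
          = ∑ p, (E p i * F i m) • (b p : W.coh X) := by
        intro i
        rw [Finset.smul_sum]
        refine Finset.sum_congr rfl (fun p _ => ?_)
        rw [smul_smul, mul_comm]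
      rw [Finset.sum_congr rfl (fun i _ => e2 i), Finset.sum_comm]
      simp only [← Finset.sum_smul, ← Matrix.mul_apply, hEF, Matrix.one_apply]
      rw [Finset.sum_eq_single m]
      · rw [if_pos rfl, one_smul]
      · intro p _ hp
        rw [if_neg hp, zero_smul]
      · intro h; exact absurd (Finset.mem_univ _) h
    rw [e1]
    exact sum_mem (fun i _ => Submodule.smul_mem _ _ (Submodule.subset_span ⟨i, rfl⟩))
  · intro i l
    have e3 : W.tr X ((∑ p, E p i • (b p : W.coh X)) * R.j (∑ p, E p l • (b p : W.coh X)))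
        = (E.transpose * (gram b * U) * cj E) i l := by
      rw [map_sum, Finset.sum_mul, map_sum, mul_assoc, Matrix.mul_apply]
      refine Finset.sum_congr rfl (fun p _ => ?_)
      rw [smul_mul_assoc, map_smul, Finset.mul_sum, map_sum, Matrix.transpose_apply,
        Matrix.mul_apply, smul_eq_mul]
      congr 1
      refine Finset.sum_congr rfl (fun m _ => ?_)
      rw [LinearMap.map_smulₛₗ, mul_smul_comm, map_smul, hJ, Finset.mul_sum, map_sum,
        Matrix.mul_apply, smul_eq_mul, cj_apply, mul_comm]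
      congr 1
      refine Finset.sum_congr rfl (fun r _ => ?_)
      rw [mul_smul_comm, map_smul, gram_apply, smul_eq_mul, mul_comm]
    rw [e3, hE, Matrix.smul_apply, Matrix.one_apply, smul_eq_mul]
    split_ifs <;> simp

include hW hX in
/-- the good real structure given by a matrix -/
theorem exists_good (hsup : perpT (trans W X n) ⊔ trans W X n = ⊤) (hn : 0 < n)
    {ε : ℂ} (hε : ε * ε = 1) (hεr : starRingEnd ℂ ε = ε) {U : Matrix I I ℂ}
    (hU : U * cj U = ε • (1 : Matrix I I ℂ))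
    (hform : U.transpose * gram b * U = cj (gram b))
    (hc : ∀ γ ∈ W.alg (X ⊗ X) n, ∀ M, Rep b γ M → M * U = U * cj M) :
    ∃ R : GoodRS W X n, ∀ i, R.R.j (b i : W.coh X) = ∑ l, U l i • (b l : W.coh X) := by
  obtain ⟨J, hJ1, hJ2⟩ := exists_J hW hX hsup b U
  obtain ⟨R, hR, hsurj⟩ := exists_RS hW hX hsup b hJ1 hJ2 hn hε hεr hU hform hc
  refine ⟨⟨R, ?_, ?_, ?_, ?_⟩, ?_⟩
  · rw [hR]; exact hJ1
  · rw [hR]; exact fun t ht => J_mem b hJ2 ht
  · rw [hR]; exact fun m γ hγ s hs t ht => J_bil hW hX hsup b hJ2 hform hc hγ hs ht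
  · rw [hR]; exact hsurj
  · rw [hR]; exact hJ2

include hW hX in
/-- the real structures on powers and the reality of the square classes -/
theorem exists_powRS (hsup : perpT (trans W X n) ⊔ trans W X n = ⊤) (R : GoodRS W X n) :
    ∃ P : PowRS W X R.R, ∀ a w, SquareClass W X a w → (P.P a).j w = w := by
  obtain ⟨P, _, hP⟩ := RS.exists_pow hW hX R.R
  obtain ⟨S, hS⟩ := RS.exists_prod hW hX hX R.R R.R
  refine ⟨⟨P, hP⟩, ?_⟩
  rintro a w ⟨i, l, j, γ, hγ, rfl⟩
  have h1 := PowRS.pair hW hX ⟨P, hP⟩ S hS a i l γ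
  rw [R.fixed hW hX hsup S hS hγ] at h1
  exact h1

include hW hX in
/-- The main theorem with complex coefficients. -/
theorem gen_main {ξ : ℕ → W.coh X} (hξ : ∀ i, ξ i ∈ W.alg X 1)
    (hHT : ∀ i, HodgeType W X n (ξ i)) (hn : 0 < n)
    (halg : ∀ i, i ≠ n → W.gr X i ≤ Submodule.span ℂ {x | ∃ j, 2 * j = i ∧ x ∈ W.alg X j})
    (h2 : HodgeType W (prodPow (𝟙_ (Sch k)) X 2) (2 * n)
      (prodPol W (0 : W.coh (𝟙_ (Sch k))) ξ 2))
    (hG : ∀ a j, ∀ z ∈ W.alg (prodPow (𝟙_ (Sch k)) X a) j,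
      z ∈ tpow W (⊤ : Submodule ℂ (W.coh (𝟙_ (Sch k)))) (trans W X n) a →
      z ∈ Algebra.adjoin ℂ {w | SquareClass W X a w}) (m : ℕ) :
    HodgeType W (prodPow (𝟙_ (Sch k)) X m) (m * n)
      (prodPol W (0 : W.coh (𝟙_ (Sch k))) ξ m) := by
  classical
  have hσ : ∀ i, ∃ (κ : Type) (_ : Fintype κ) (σ : Strings W X n (ξ i) κ),
      σ.T = trans W X n := by
    intro i
    obtain ⟨κ, hκ, ⟨Fam⟩⟩ := exists_primFam hW hX (hξ i) (hHT i)
    exact ⟨κ, hκ, Fam.toStrings hW hX (hξ i) halg, rfl⟩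
  obtain ⟨κ, _, σ, hσT⟩ := hσ 0
  obtain ⟨κ', _, σ', hσT'⟩ := hσ 1
  have hsup : perpT (trans W X n) ⊔ trans W X n = ⊤ := by
    rw [← hσT]
    exact σ.perpT_sup hW hX (hξ 0)
  have := hW.finite hX
  obtain ⟨b⟩ : Nonempty (Module.Basis (Fin (Module.finrank ℂ (trans W X n))) ℂ
    (trans W X n)) := ⟨Module.finBasis ℂ (trans W X n)⟩
  obtain ⟨U, hU, hUc⟩ := exists_realT b hW hX hξ σ hσT (by
    rw [hσT, ← hσT']; exact σ'.T_xi) h2
  have h3 : ((-1 : ℂ) ^ n) * (-1) ^ n = 1 := by rw [← mul_pow]; simp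
  obtain ⟨E, F, hE, hEF⟩ := exists_orth hU.pos
  have hcjneg : cj (-U) = - cj U := by
    ext i j; simp [cj_apply]
  -- the two real structures
  obtain ⟨R, hR⟩ := exists_good hW hX b hsup hn h3 (by simp) hU.sq hU.form hUc
  obtain ⟨R', hR'⟩ := exists_good hW hX b hsup hn (U := -U) h3 (by simp)
    (by rw [hcjneg, neg_mul_neg]; exact hU.sq)
    (by rw [Matrix.transpose_neg, neg_mul, neg_mul, mul_neg, neg_neg]; exact hU.form)
    (fun γ hγ M hM => by rw [mul_neg, neg_mul, hUc γ hγ M hM])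
  obtain ⟨E1⟩ := exists_orthBasis b (δ := 1) hR (by rw [hE, one_smul]) hEF
  obtain ⟨E2⟩ := exists_orthBasis b (δ := -1) hR' (by
    rw [mul_neg, mul_neg, neg_mul, hE, neg_smul, one_smul]) hEF
  obtain ⟨P, hP⟩ := exists_powRS hW hX hsup R
  obtain ⟨P', hP'⟩ := exists_powRS hW hX hsup R'
  have hneg : ∀ t ∈ trans W X n, R'.R.j t = - R.R.j t := by
    intro t ht
    refine T_induction b (P := fun t => R'.R.j t = - R.R.j t) ht ?_ ?_ ?_ ?_
    · intro i
      rw [hR, hR', ← Finset.sum_neg_distrib]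
      refine Finset.sum_congr rfl (fun l _ => ?_)
      rw [Matrix.neg_apply, neg_smul]
    · simp
    · intro x y hx hy
      rw [map_add, map_add, hx, hy, neg_add]
    · intro c x hx
      rw [LinearMap.map_smulₛₗ, LinearMap.map_smulₛₗ, hx, smul_neg]
  have h4 := red hW 𝒱.point hX (l := 0) (zero_mem _) hξ (trans W X n) hσ (fun a => by
    intro j hj z hz hzT _ hne
    have h1 := prodPow_mem 𝒱.point hX a
    have hgr : z ∈ W.gr _ (a * n) := by
      refine Submodule.span_induction (p := fun z _ => z ∈ W.gr _ (a * n)) ?_ ?_ ?_ ?_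
        (tpow_eJ hW E1 a z hzT)
      · rintro _ ⟨J, rfl⟩
        exact eJ_gr hW hX E1 a J
      · exact zero_mem _
      · intro p r _ _ hp hr; exact add_mem hp hr
      · intro c p _ hp; exact Submodule.smul_mem _ _ hp
    have hj2 : 2 * j = a * n := by
      by_contra hcon
      apply hne
      refine hW.duality h1 _ (fun y => ?_)
      refine hW.hom_induction h1 (P := fun y => W.tr _ (z * y) = 0) y ?_ ?_ ?_
      · intro m y hy
        by_cases hm : a * n + m = 2 * (0 + a * n)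
        · exact hW.tr_gr h1 (hW.mul_gr h1 (hW.alg_gr h1 hz) hy) (by omega)
        · exact hW.tr_gr h1 (hW.mul_gr h1 hgr hy) hm
      · simp
      · intro p r hp hr
        rw [mul_add, map_add, hp, hr, add_zero]
    have hU1 := adjoin_le hW hX P hP a (hG a j z hz hzT)
    have hU2 := adjoin_le hW hX P' hP' a (hG a j z hz hzT)
    have h5 := pos_alg hW hX E1 P E2 P' (by norm_num) (by norm_num) hneg R.mem hj2 hz hzT hU1
      hU2 hne
    rw [show 0 + a * n - 2 * j = 0 by omega, pow_zero, one_mul]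
    exact h5) m
  rwa [zero_add] at h4

end

end Pool.Agent.Lib.MP_361a6f_ag.H3
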