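import Pool.Agent.Lib.MP_361a6f_ag.H3.Defs

/-!
# Hodge-Riemann modules (abstract linear algebra)
-/

namespace Pool.Agent.Lib.MP_361a6f_ag.H3

variable {K : Type*} [Field K] [CharZero K]

theorem RatPos.add {x y : K} (hx : RatPos x) (hy : RatPos y) : RatPos (x + y) := by
  obtain ⟨r, hr, rfl⟩ := hx
  obtain ⟨s, hs, rfl⟩ := hy
  exact ⟨r + s, add_pos hr hs, by push_cast; rfl⟩

theorem RatPos.smul {x : K} (hx : RatPos x) {q : ℚ} (hq : 0 < q) : RatPos ((q : K) * x) := by
  obtain ⟨r, hr, rfl⟩ := hx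
  exact ⟨q * r, mul_pos hq hr, by push_cast; rfl⟩

theorem RatPos.sum {ι : Type*} (s : Finset ι) (f : ι → K) (h0 : ∀ i ∈ s, f i = 0 ∨ RatPos (f i))
    (h1 : ∃ i ∈ s, RatPos (f i)) : RatPos (∑ i ∈ s, f i) := by
  classical
  obtain ⟨i, hi, hpos⟩ := h1
  rw [← Finset.add_sum_erase s f hi]
  have h2 : (∑ j ∈ s.erase i, f j) = 0 ∨ RatPos (∑ j ∈ s.erase i, f j) := by
    have : ∀ t : Finset ι, t ⊆ s → (∑ j ∈ t, f j) = 0 ∨ RatPos (∑ j ∈ t, f j) := by
      intro t
      induction t using Finset.induction_on with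
      | empty => intro _; left; simp
      | insert a t ha ih =>
        intro hts
        rw [Finset.sum_insert ha]
        have h3 := ih (fun x hx => hts (Finset.mem_insert_of_mem hx))
        have h4 := h0 a (hts (Finset.mem_insert_self a t))
        rcases h3 with h3 | h3 <;> rcases h4 with h4 | h4
        · left; rw [h3, h4, add_zero]
        · right; rw [h3, add_zero]; exact h4
        · right; rw [h4, zero_add]; exact h3
        · right; exact h4.add h3
    exact this _ (Finset.erase_subset i s)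
  rcases h2 with h2 | h2
  · rw [h2, add_zero]; exact hpos
  · exact hpos.add h2

/-- A Lefschetz datum: a `K`-vector space with an operator `L`, a bilinear form `B` and a family
of subgroups `gr j` (the algebraic classes of codimension `j`). -/
structure LData (K : Type*) [Field K] (M : Type*) [AddCommGroup M] [Module K M] where
  L : M →ₗ[K] M
  B : M →ₗ[K] M →ₗ[K] K
  gr : ℕ → AddSubgroup M
  gr_smul : ∀ (j : ℕ) (q : ℚ) (x : M), x ∈ gr j → (q : K) • x ∈ gr j
  gr_L : ∀ (j : ℕ) (x : M), x ∈ gr j → L x ∈ gr (j + 1)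
  sym : ∀ (i j : ℕ) (x y : M), x ∈ gr i → y ∈ gr j → B x y = B y x
  adj : ∀ x y : M, B (L x) y = B x (L y)

/-- the Hodge-Riemann property of weight `w`. -/
def LData.HR {M : Type*} [AddCommGroup M] [Module K M] (S : LData K M) (w : ℕ) : Prop :=
  ∀ j : ℕ, 2 * j ≤ w → ∀ x ∈ S.gr j, (S.L ^ (w - 2 * j + 1)) x = 0 → x ≠ 0 →
    RatPos ((-1) ^ j * S.B x ((S.L ^ (w - 2 * j)) x))

namespace LData

variable {M : Type*} [AddCommGroup M] [Module K M] (S : LData K M)

omit [CharZero K] in
theorem pow_L (r : ℕ) (x : M) : (S.L ^ r) (S.L x) = (S.L ^ (r + 1)) x := by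
  rw [pow_succ S.L r, Module.End.mul_apply]

omit [CharZero K] in
theorem L_pow (r : ℕ) (x : M) : S.L ((S.L ^ r) x) = (S.L ^ (r + 1)) x := by
  rw [pow_succ' S.L r, Module.End.mul_apply]

omit [CharZero K] in
theorem gr_pow (r j : ℕ) (x : M) (hx : x ∈ S.gr j) : (S.L ^ r) x ∈ S.gr (j + r) := by
  induction r with
  | zero => simpa using hx
  | succ r ih =>
    rw [pow_succ', Module.End.mul_apply]
    exact S.gr_L _ _ ih

omit [CharZero K] in
theorem adj_pow (r : ℕ) (x y : M) : S.B ((S.L ^ r) x) y = S.B x ((S.L ^ r) y) := by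
  induction r generalizing x y with
  | zero => simp
  | succ r ih =>
    have e1 : (S.L ^ (r + 1)) x = S.L ((S.L ^ r) x) := by
      rw [pow_succ', Module.End.mul_apply]
    have e2 : (S.L ^ (r + 1)) y = (S.L ^ r) (S.L y) := by
      rw [pow_succ, Module.End.mul_apply]
    rw [e1, e2, S.adj, ih]

/-- transfer of the Hodge-Riemann property along an isometric embedding -/
theorem HR.of_embedding {M' : Type*} [AddCommGroup M'] [Module K M'] {S : LData K M}
    {S' : LData K M'} (φ : M' →ₗ[K] M) {c : ℚ} (hc : 0 < c)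
    (hL : ∀ x, φ (S'.L x) = S.L (φ x))
    (hB : ∀ x y, S.B (φ x) (φ y) = (c : K) * S'.B x y)
    (hgr : ∀ j x, x ∈ S'.gr j → φ x ∈ S.gr j)
    (hinj : ∀ x, φ x = 0 → x = 0) {w : ℕ} (h : S.HR w) : S'.HR w := by
  have hpow : ∀ r x, φ ((S'.L ^ r) x) = (S.L ^ r) (φ x) := by
    intro r
    induction r with
    | zero => intro x; simp
    | succ r ih =>
      intro x
      rw [pow_succ', Module.End.mul_apply, hL, ih, pow_succ', Module.End.mul_apply]
  intro j hj x hx h1 h2
  have h3 := h j hj (φ x) (hgr j x hx) (by rw [← hpow, h1, map_zero])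
    (fun h0 => h2 (hinj x h0))
  rw [← hpow, hB] at h3
  have h4 := h3.smul (inv_pos.mpr hc)
  have hc' : (c : K) ≠ 0 := by exact_mod_cast hc.ne'
  have e : ((c⁻¹ : ℚ) : K) * ((-1) ^ j * ((c : K) * S'.B x ((S'.L ^ (w - 2 * j)) x)))
      = (-1) ^ j * S'.B x ((S'.L ^ (w - 2 * j)) x) := by
    push_cast
    field_simp
  rwa [e] at h4

/-- the product with a projective line: elements `x + y t`, `t ^ 2 = 0`. -/
def P1 : LData K (M × M) where
  L := LinearMap.prod (S.L ∘ₗ LinearMap.fst K M M)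
    (LinearMap.fst K M M + S.L ∘ₗ LinearMap.snd K M M)
  B := LinearMap.mk₂ K (fun x y => S.B x.1 y.2 + S.B x.2 y.1)
    (by intro x y z; simp; ring) (by intro c x y; simp; ring)
    (by intro x y z; simp; ring) (by intro c x y; simp; ring)
  gr j :=
    { carrier := {z | z.1 ∈ S.gr j ∧ (∀ i, j = i + 1 → z.2 ∈ S.gr i) ∧ (j = 0 → z.2 = 0)}
      add_mem' := by
        rintro z z' ⟨h1, h2, h3⟩ ⟨h1', h2', h3'⟩
        refine ⟨add_mem h1 h1', fun i hi => add_mem (h2 i hi) (h2' i hi), fun hj => ?_⟩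
        rw [Prod.snd_add, h3 hj, h3' hj, add_zero]
      zero_mem' := ⟨zero_mem _, fun _ _ => zero_mem _, fun _ => rfl⟩
      neg_mem' := by
        rintro z ⟨h1, h2, h3⟩
        refine ⟨neg_mem h1, fun i hi => neg_mem (h2 i hi), fun hj => ?_⟩
        rw [Prod.snd_neg, h3 hj, neg_zero] }
  gr_smul := by
    rintro j q z ⟨h1, h2, h3⟩
    refine ⟨S.gr_smul _ _ _ h1, fun i hi => S.gr_smul _ _ _ (h2 i hi), fun hj => ?_⟩
    rw [Prod.smul_snd, h3 hj, smul_zero]
  gr_L := by
    rintro j z ⟨h1, h2, h3⟩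
    refine ⟨S.gr_L _ _ h1, fun i hi => ?_, fun hj => by omega⟩
    have hij : i = j := by omega
    subst hij
    refine add_mem h1 ?_
    rcases Nat.eq_zero_or_pos i with h0 | h0
    · change S.L z.2 ∈ _
      rw [h3 h0, map_zero]; exact zero_mem _
    · obtain ⟨k, rfl⟩ : ∃ k, i = k + 1 := ⟨i - 1, by omega⟩
      exact S.gr_L _ _ (h2 k rfl)
  sym := by
    rintro i j z z' ⟨h1, h2, h3⟩ ⟨h1', h2', h3'⟩
    have e1 : S.B z.1 z'.2 = S.B z'.2 z.1 := by
      rcases Nat.eq_zero_or_pos j with h0 | h0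
      · rw [h3' h0]; simp
      · obtain ⟨k, rfl⟩ : ∃ k, j = k + 1 := ⟨j - 1, by omega⟩
        exact S.sym _ _ _ _ h1 (h2' k rfl)
    have e2 : S.B z.2 z'.1 = S.B z'.1 z.2 := by
      rcases Nat.eq_zero_or_pos i with h0 | h0
      · rw [h3 h0]; simp
      · obtain ⟨k, rfl⟩ : ∃ k, i = k + 1 := ⟨i - 1, by omega⟩
        exact S.sym _ _ _ _ (h2 k rfl) h1'
    simp only [LinearMap.mk₂_apply]
    rw [e1, e2]; ring
  adj := by
    intro z z'
    simp [S.adj]; ring

omit [CharZero K] in
theorem P1_L (z : M × M) : S.P1.L z = (S.L z.1, z.1 + S.L z.2) := rfl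

omit [CharZero K] in
theorem P1_B (z z' : M × M) : S.P1.B z z' = S.B z.1 z'.2 + S.B z.2 z'.1 := rfl

omit [CharZero K] in
theorem P1_pow (r : ℕ) (z : M × M) :
    (S.P1.L ^ r) z = ((S.L ^ r) z.1, (r : K) • (S.L ^ (r - 1)) z.1 + (S.L ^ r) z.2) := by
  induction r with
  | zero => simp
  | succ r ih =>
    rw [pow_succ', Module.End.mul_apply, ih, P1_L]
    ext
    · simp only
      rw [pow_succ', Module.End.mul_apply]
    · simp only [map_add, map_smul]
      rw [show S.L ((S.L ^ r) z.2) = (S.L ^ (r + 1)) z.2 by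
        rw [pow_succ', Module.End.mul_apply]]
      rw [← add_assoc]
      congr 1
      rcases Nat.eq_zero_or_pos r with h0 | h0
      · subst h0; simp
      · obtain ⟨k, rfl⟩ : ∃ k, r = k + 1 := ⟨r - 1, by omega⟩
        rw [show k + 1 - 1 = k by omega, show k + 1 + 1 - 1 = k + 1 by omega]
        rw [show S.L ((S.L ^ k) z.1) = (S.L ^ (k + 1)) z.1 by
          rw [pow_succ', Module.End.mul_apply]]
        push_cast
        module

/-- product with a projective line -/
theorem HR.P1 {S : LData K M} {w : ℕ} (h : S.HR w) : S.P1.HR (w + 1) := by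
  intro j hj z hz hprim hne
  obtain ⟨x, y⟩ := z
  obtain ⟨hx, hy, hy0⟩ := hz
  simp only at hx hy hy0
  rw [P1_pow] at hprim
  obtain ⟨s, hs⟩ : ∃ s, w + 1 - 2 * j = s := ⟨_, rfl⟩
  rw [hs] at hprim ⊢
  rw [P1_pow]
  simp only [Prod.mk_eq_zero, Nat.add_sub_cancel] at hprim
  obtain ⟨hp1, hp2⟩ := hprim
  rw [P1_B]
  simp only
  have hs1 : ((s : K) + 1) ≠ 0 := by exact_mod_cast Nat.succ_ne_zero s
  rcases Nat.eq_zero_or_pos j with hj0 | hj0
  · -- j = 0
    subst hj0
    have hyz : y = 0 := hy0 rfl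
    subst hyz
    have hs' : s = w + 1 := by omega
    subst hs'
    have hxne : x ≠ 0 := by
      rintro rfl
      exact hne rfl
    have hLx : (S.L ^ (w + 1)) x = 0 := by
      rw [map_zero, add_zero] at hp2
      push_cast at hp2
      rcases smul_eq_zero.mp hp2 with h1 | h1
      · exfalso
        apply hs1
        push_cast
        exact h1
      · exact h1
    have h1 := h 0 (by omega) x hx (by simpa using hLx) hxne
    have h2 := h1.smul (q := (w : ℚ) + 1) (by positivity)
    simp only [pow_zero, one_mul, mul_zero, Nat.sub_zero, map_zero, add_zero, map_smul,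
      LinearMap.zero_apply, smul_eq_mul, Nat.add_sub_cancel] at h2 ⊢
    push_cast at h2 ⊢
    exact h2
  · obtain ⟨i, rfl⟩ : ∃ i, j = i + 1 := ⟨j - 1, by omega⟩
    have hyi : y ∈ S.gr i := hy i rfl
    have hwi : w - 2 * i = s + 1 := by omega
    -- y is primitive
    have hLy : (S.L ^ (s + 2)) y = 0 := by
      have h1 := congrArg S.L hp2
      rw [map_add, map_smul, map_zero] at h1
      rw [S.L_pow, hp1, smul_zero, zero_add, S.L_pow] at h1
      exact h1
    have hLsx : (S.L ^ s) x = (-(1 / ((s : K) + 1))) • (S.L ^ (s + 1)) y := by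
      have h1 : ((s : K) + 1) • (S.L ^ s) x = -(S.L ^ (s + 1)) y := by
        have := hp2
        push_cast at this
        exact eq_neg_of_add_eq_zero_left this
      have h2 : (S.L ^ s) x = (1 / ((s : K) + 1)) • (((s : K) + 1) • (S.L ^ s) x) := by
        rw [smul_smul, one_div_mul_cancel hs1, one_smul]
      rw [h2, h1]
      module
    have hyx : S.B x ((S.L ^ s) y) = S.B y ((S.L ^ s) x) := by
      rw [← S.adj_pow]
      exact S.sym _ _ _ _ (S.gr_pow s _ x hx) hyi
    have hyLy : y ≠ 0 → RatPos ((-1) ^ i * S.B y ((S.L ^ (s + 1)) y)) := by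
      intro hyne
      have h1 := h i (by omega) y hyi (by rw [hwi]; exact hLy) hyne
      rw [hwi] at h1
      exact h1
    rcases Nat.eq_zero_or_pos s with hs0 | hs0
    · -- s = 0
      subst hs0
      simp only [pow_zero, Module.End.one_apply, Nat.cast_zero, zero_smul, zero_add] at hyx hLsx ⊢
      have hyne : y ≠ 0 := by
        rintro rfl
        apply hne
        rw [hLsx]; simp
      have h1 := (hyLy hyne).smul (q := 2) (by norm_num)
      have e : (-1 : K) ^ (i + 1) * (S.B x y + S.B y x)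
          = ((2 : ℚ) : K) * ((-1) ^ i * S.B y ((S.L ^ (0 + 1)) y)) := by
        rw [hyx]
        rw [hLsx]
        simp only [map_smul, smul_eq_mul]
        push_cast
        ring
      rw [e]
      exact h1
    · -- s ≥ 1
      obtain ⟨r, rfl⟩ : ∃ r, s = r + 1 := ⟨s - 1, by omega⟩
      simp only [Nat.add_sub_cancel]
      set p : M := (((r + 1 : ℕ) : K) + 1) • x + S.L y with hp
      have hpgr : p ∈ S.gr (i + 1) := by
        refine add_mem ?_ (S.gr_L _ _ hyi)
        have := S.gr_smul (i + 1) (((r + 1 : ℕ) : ℚ) + 1) x hx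
        push_cast at this ⊢
        exact this
      have hwj : w - 2 * (i + 1) = r := by omega
      have hpprim : (S.L ^ (r + 1)) p = 0 := by
        rw [hp, map_add, map_smul]
        rw [S.pow_L]
        have := hp2
        push_cast at this ⊢
        exact this
      have hppos : p ≠ 0 → RatPos ((-1) ^ (i + 1) * S.B p ((S.L ^ r) p)) := by
        intro hpne
        have h1 := h (i + 1) (by omega) p hpgr (by rw [hwj]; exact hpprim) hpne
        rw [hwj] at h1
        exact h1
      have hxp : x = (1 / (((r + 1 : ℕ) : K) + 1)) • p - (1 / (((r + 1 : ℕ) : K) + 1)) • S.L y := by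
        rw [hp, smul_add, smul_smul, one_div_mul_cancel hs1]
        module
      -- evaluate B x (L^r x)
      have hBpy : S.B p ((S.L ^ (r + 1)) y) = 0 := by
        rw [← S.adj_pow, hpprim]; simp
      have hBLy : S.B (S.L y) ((S.L ^ r) p) = 0 := by
        rw [S.adj, S.L_pow, hpprim]
        simp
      have hBpLy : S.B p ((S.L ^ r) (S.L y)) = 0 := by
        rw [S.pow_L]
        exact hBpy
      have hBLyLy : S.B (S.L y) ((S.L ^ r) (S.L y)) = S.B y ((S.L ^ (r + 1 + 1)) y) := by
        rw [S.adj, S.pow_L, S.L_pow]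
      have hBxx : S.B x ((S.L ^ r) x) = (1 / (((r + 1 : ℕ) : K) + 1)) ^ 2 *
          (S.B p ((S.L ^ r) p) + S.B y ((S.L ^ (r + 1 + 1)) y)) := by
        conv_lhs => rw [hxp]
        simp only [map_sub, map_smul, LinearMap.sub_apply, LinearMap.smul_apply, smul_eq_mul]
        rw [hBLy, hBpLy, hBLyLy]
        ring
      have hmain : S.B x ((((r + 1 : ℕ) : K)) • (S.L ^ r) x + (S.L ^ (r + 1)) y)
          + S.B y ((S.L ^ (r + 1)) x)
          = (((r + 1 : ℕ) : K)) / (((r + 1 : ℕ) : K) + 1) ^ 2 * S.B p ((S.L ^ r) p)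
            - ((((r + 1 : ℕ) : K)) + 2) / (((r + 1 : ℕ) : K) + 1) ^ 2
              * S.B y ((S.L ^ (r + 1 + 1)) y) := by
        rw [map_add, map_smul, hyx, hBxx, hLsx, map_smul]
        simp only [smul_eq_mul]
        field_simp
        ring
      rw [hmain]
      have hq1 : 0 < ((r + 1 : ℕ) : ℚ) / (((r + 1 : ℕ) : ℚ) + 1) ^ 2 := by positivity
      have hq2 : 0 < (((r + 1 : ℕ) : ℚ) + 2) / (((r + 1 : ℕ) : ℚ) + 1) ^ 2 := by positivity
      have e : (-1 : K) ^ (i + 1) * ((((r + 1 : ℕ) : K)) / (((r + 1 : ℕ) : K) + 1) ^ 2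
            * S.B p ((S.L ^ r) p) - ((((r + 1 : ℕ) : K)) + 2) / (((r + 1 : ℕ) : K) + 1) ^ 2
              * S.B y ((S.L ^ (r + 1 + 1)) y))
          = ((((r + 1 : ℕ) : ℚ) / (((r + 1 : ℕ) : ℚ) + 1) ^ 2 : ℚ) : K)
              * ((-1) ^ (i + 1) * S.B p ((S.L ^ r) p))
            + (((((r + 1 : ℕ) : ℚ) + 2) / (((r + 1 : ℕ) : ℚ) + 1) ^ 2 : ℚ) : K)
              * ((-1) ^ i * S.B y ((S.L ^ (r + 1 + 1)) y)) := by
        push_cast
        ring
      rw [e]
      by_cases hy1 : y = 0
      · have hpne : p ≠ 0 := by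
          intro hp0
          apply hne
          rw [hxp, hp0, hy1]; simp
        rw [hy1]
        simp only [map_zero, mul_zero, add_zero]
        exact (hppos hpne).smul hq1
      · by_cases hp0 : p = 0
        · rw [hp0]
          simp only [map_zero, mul_zero, zero_add]
          exact (hyLy hy1).smul hq2
        · exact ((hppos hp0).smul hq1).add ((hyLy hy1).smul hq2)

end LData

end Pool.Agent.Lib.MP_361a6f_ag.H3
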