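import Pool.Agent.Lib.MP_361a6f_ag.H3.Ortho

/-!
# The Lefschetz decomposition of algebraic classes
-/

open CategoryTheory AlgebraicGeometry MonoidalCategory CartesianMonoidalCategory Opposite

universe u v w

set_option linter.unusedSectionVars false

namespace Pool.Agent.Lib.MP_361a6f_ag.H3

variable {k : Type u} [Field k] {K : Type v} [Field K] [CharZero K]
  {W : CohomologyData.{u, v, w} k K} {𝒱 : VarietyClass k}

/-- an orthogonal family of primitive algebraic classes -/
structure PrimFam (W : CohomologyData.{u, v, w} k K) (X : Sch k)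
    (n : ℕ) (ξ : W.coh X) (ι : Type) [Fintype ι] where
  j : ι → ℕ
  p : ι → W.coh X
  D : ι → ℚ
  hj : ∀ s, 2 * j s ≤ n
  p_alg : ∀ s, p s ∈ W.alg X (j s)
  D_pos : ∀ s, 0 < D s
  norm : ∀ s, W.tr X (ξ ^ (n - 2 * j s) * (p s * p s)) = (-1) ^ (j s) * (D s : K)
  prim : ∀ s, ξ ^ (n - 2 * j s + 1) * p s = 0
  orth : ∀ s s', s ≠ s' → ∀ b, W.tr X (ξ ^ b * (p s * p s')) = 0
  span : ∀ i, 2 * i ≤ n → ∀ x ∈ H3.prim W X n ξ i,
    x ∈ Submodule.span K {y | ∃ s, j s = i ∧ y = p s}

section

variable (hW : IsWeilCohomology W 𝒱) {X : Sch k} {n : ℕ}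
  (hX : 𝒱.mem X n) {ξ : W.coh X} (hξ : ξ ∈ W.alg X 1)

include hW hX hξ in
theorem exists_primFam (hHT : HodgeType W X n ξ) :
    ∃ (ι : Type) (_ : Fintype ι), Nonempty (PrimFam W X n ξ ι) := by
  choose r e D h1 h2 h3 h4 h5 using fun i : Fin (n / 2 + 1) =>
    exists_prim hW hX hξ hHT (i : ℕ) (by have := i.isLt; omega)
  have hi : ∀ i : Fin (n / 2 + 1), 2 * (i : ℕ) ≤ n := fun i => by have := i.isLt; omega
  refine ⟨Σ i : Fin (n / 2 + 1), Fin (r i), inferInstance, ⟨
    { j := fun s => s.1
      p := fun s => e s.1 s.2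
      D := fun s => D s.1 s.2
      hj := fun s => hi s.1
      p_alg := fun s => (h1 s.1 s.2).1
      D_pos := fun s => h2 s.1 s.2
      norm := fun s => h3 s.1 s.2
      prim := fun s => (h1 s.1 s.2).2
      orth := ?_
      span := ?_ }⟩⟩
  · rintro ⟨i, a⟩ ⟨i', a'⟩ hs b
    simp only
    have ha := (h1 i a)
    have ha' := (h1 i' a')
    have hb1 := hW.mul_alg hX (hW.pow_alg hX hξ b) (hW.mul_alg hX ha.1 ha'.1)
    by_cases hd : b + ((i : ℕ) + (i' : ℕ)) = n
    · rcases lt_trichotomy (i : ℕ) (i' : ℕ) with hlt | heq | hgt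
      · obtain ⟨c, hc⟩ : ∃ c, b = c + (n - 2 * (i' : ℕ) + 1) :=
          ⟨b - (n - 2 * (i' : ℕ) + 1), by have := hi i'; omega⟩
        rw [hW.alg_comm hX ha.1, ← mul_assoc, hc, pow_add, mul_assoc (ξ ^ c), ha'.2]
        simp
      · have hii : i = i' := Fin.ext heq
        subst hii
        have hb : b = n - 2 * (i : ℕ) := by omega
        rw [hb]
        exact h4 i a a' (fun h => hs (by rw [h]))
      · obtain ⟨c, hc⟩ : ∃ c, b = c + (n - 2 * (i : ℕ) + 1) :=
          ⟨b - (n - 2 * (i : ℕ) + 1), by have := hi i; omega⟩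
        rw [← mul_assoc, hc, pow_add, mul_assoc (ξ ^ c), ha.2]
        simp
    · exact hW.tr_gr hX (hW.alg_gr hX hb1) (by omega)
  · intro i hi' x hx
    have h6 := h5 ⟨i, by omega⟩ x hx
    refine Submodule.span_mono ?_ h6
    rintro _ ⟨a, rfl⟩
    exact ⟨⟨⟨i, by omega⟩, a⟩, rfl, rfl⟩

namespace PrimFam

variable {ι : Type} [Fintype ι] (F : PrimFam W X n ξ ι)

/-- the span of the string elements of codimension `i` -/
def sp (i : ℕ) : Submodule K (W.coh X) :=
  Submodule.span K {y | ∃ s c, c + F.j s = i ∧ y = ξ ^ c * F.p s}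

include hW hX hξ in
/-- intersection numbers of string elements -/
theorem tr_string [DecidableEq ι] (s s' : ι) (a c : ℕ) (h : a + c + F.j s + F.j s' = n) :
    W.tr X (ξ ^ a * F.p s * (ξ ^ c * F.p s'))
      = if s = s' then (-1) ^ (F.j s) * (F.D s : K) else 0 := by
  have e : ξ ^ a * F.p s * (ξ ^ c * F.p s') = ξ ^ (a + c) * (F.p s * F.p s') := by
    rw [mul_assoc, ← mul_assoc (F.p s), ← hW.alg_comm hX (hW.pow_alg hX hξ c) (F.p s),
      mul_assoc (ξ ^ c), ← mul_assoc (ξ ^ a), ← pow_add]
  rw [e]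
  by_cases hs : s = s'
  · subst hs
    rw [if_pos rfl, show a + c = n - 2 * F.j s by omega, F.norm]
  · rw [if_neg hs, F.orth s s' hs]

/-- the projection to the strings -/
noncomputable def proj (i : ℕ) (x : W.coh X) : W.coh X :=
  ∑ s, if F.j s ≤ i then ((-1) ^ (F.j s) * ((F.D s)⁻¹ : ℚ)
    * W.tr X (x * (ξ ^ (i - F.j s) * F.p s)) : K) • (ξ ^ (i - F.j s) * F.p s) else 0

include hW hX hξ in
theorem tr_proj (i c : ℕ) (s' : ι) (hc : c + F.j s' = i) (hi : 2 * i ≤ n) (x : W.coh X) :
    W.tr X (ξ ^ (n - 2 * i) * F.proj i x * (ξ ^ c * F.p s')) = W.tr X (x * (ξ ^ c * F.p s')) := by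
  classical
  rw [proj, Finset.mul_sum, Finset.sum_mul, map_sum, Finset.sum_eq_single s']
  · rw [if_pos (by omega), mul_smul_comm, smul_mul_assoc, map_smul,
      ← mul_assoc (ξ ^ (n - 2 * i)), ← pow_add, F.tr_string hW hX hξ s' s' _ _ (by omega), if_pos rfl, smul_eq_mul,
      show i - F.j s' = c by omega]
    have h1 : ((F.D s' : ℚ) : K) ≠ 0 := by exact_mod_cast (F.D_pos s').ne'
    have h2 : ((-1 : K) ^ (F.j s')) * ((-1 : K) ^ (F.j s')) = 1 := by
      rw [← mul_pow]; simp
    push_cast
    field_simp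
    linear_combination (W.tr X (x * (ξ ^ c * F.p s'))) * h2
  · intro s _ hs
    by_cases hjs : F.j s ≤ i
    · rw [if_pos hjs, mul_smul_comm, smul_mul_assoc, map_smul,
        ← mul_assoc (ξ ^ (n - 2 * i)), ← pow_add, F.tr_string hW hX hξ s s' _ _ (by omega), if_neg hs, smul_zero]
    · rw [if_neg hjs, mul_zero, zero_mul, map_zero]
  · intro h; exact absurd (Finset.mem_univ _) h

include hW hX hξ in
theorem proj_alg (i : ℕ) (hi : 2 * i ≤ n) {x : W.coh X} (hx : x ∈ W.alg X (n - i)) :
    F.proj i x ∈ W.alg X i := by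
  rw [proj]
  refine sum_mem (fun s _ => ?_)
  by_cases hjs : F.j s ≤ i
  · rw [if_pos hjs]
    have h1 := hW.mul_alg hX (hW.pow_alg hX hξ (i - F.j s)) (F.p_alg s)
    rw [show i - F.j s + F.j s = i by omega] at h1
    have h2 := hW.mul_alg hX hx h1
    rw [show n - i + i = n by omega] at h2
    obtain ⟨q, hq⟩ := hW.tr_alg hX h2
    rw [hq]
    have h3 := W.alg_smul ((-1) ^ (F.j s) * (F.D s)⁻¹ * q) h1
    push_cast at h3 ⊢
    exact h3
  · rw [if_neg hjs]; exact zero_mem _

theorem proj_mem (i : ℕ) (x : W.coh X) : F.proj i x ∈ F.sp i := by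
  rw [proj]
  refine sum_mem (fun s _ => ?_)
  by_cases hjs : F.j s ≤ i
  · rw [if_pos hjs]
    exact Submodule.smul_mem _ _ (Submodule.subset_span ⟨s, i - F.j s, by omega, rfl⟩)
  · rw [if_neg hjs]; exact zero_mem _

variable (halg : ∀ i, i ≠ n → W.gr X i ≤ Submodule.span K {x | ∃ j, 2 * j = i ∧ x ∈ W.alg X j})

include hW hX hξ halg in
theorem surj (i : ℕ) (hi : 2 * i < n) (hsp : ∀ x ∈ W.alg X i, x ∈ F.sp i) {b : W.coh X}
    (hb : b ∈ W.alg X (n - i)) : ξ ^ (n - 2 * i) * F.proj i b = b := by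
  have hpa := F.proj_alg hW hX hξ i (by omega) hb
  have h1 : ξ ^ (n - 2 * i) * F.proj i b ∈ W.gr X (2 * (n - i)) := by
    have := hW.alg_gr hX (hW.mul_alg hX (hW.pow_alg hX hξ (n - 2 * i)) hpa)
    rwa [show n - 2 * i + i = n - i by omega] at this
  rw [← sub_eq_zero]
  refine hW.duality hX _ (fun y => ?_)
  refine hW.hom_induction hX (P := fun y =>
    W.tr X ((ξ ^ (n - 2 * i) * F.proj i b - b) * y) = 0) y ?_ ?_ ?_
  · intro m y hy
    by_cases hm : m = 2 * i
    · subst hm
      have hy' := halg (2 * i) (by omega) hy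
      refine Submodule.span_induction (p := fun y _ =>
        W.tr X ((ξ ^ (n - 2 * i) * F.proj i b - b) * y) = 0) ?_ ?_ ?_ ?_ hy'
      · rintro x ⟨j, hj, hx⟩
        have hji : j = i := by omega
        subst hji
        refine Submodule.span_induction (p := fun y _ =>
          W.tr X ((ξ ^ (n - 2 * j) * F.proj j b - b) * y) = 0) ?_ ?_ ?_ ?_ (hsp x hx)
        · rintro _ ⟨s, c, hc, rfl⟩
          rw [sub_mul, map_sub, F.tr_proj hW hX hξ j c s hc (by omega), sub_self]
        · simp
        · intro p q _ _ hp hq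
          rw [mul_add, map_add, hp, hq, add_zero]
        · intro c p _ hp
          rw [mul_smul_comm, map_smul, hp, smul_zero]
      · simp
      · intro p q _ _ hp hq
        rw [mul_add, map_add, hp, hq, add_zero]
      · intro c p _ hp
        rw [mul_smul_comm, map_smul, hp, smul_zero]
    · exact hW.tr_gr hX (hW.mul_gr hX (sub_mem h1 (hW.alg_gr hX hb)) hy) (by omega)
  · simp
  · intro p q hp hq
    rw [mul_add, map_add, hp, hq, add_zero]

include hW hX hξ halg in
theorem alg_sp (i : ℕ) (hi : 2 * i ≤ n) : ∀ x ∈ W.alg X i, x ∈ F.sp i := by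
  induction i with
  | zero =>
    intro x hx
    have hp : x ∈ H3.prim W X n ξ 0 := ⟨hx, hW.top_gr hX
      (hW.alg_gr hX (hW.mul_alg hX (hW.pow_alg hX hξ _) hx)) (by omega)⟩
    refine Submodule.span_mono ?_ (F.span 0 hi x hp)
    rintro _ ⟨s, hs, rfl⟩
    exact ⟨s, 0, by omega, by simp⟩
  | succ i ih =>
    intro x hx
    have ih' := ih (by omega)
    have hb : ξ ^ (n - 2 * i - 1) * x ∈ W.alg X (n - i) := by
      have := hW.mul_alg hX (hW.pow_alg hX hξ (n - 2 * i - 1)) hx
      rwa [show n - 2 * i - 1 + (i + 1) = n - i by omega] at this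
    set a := F.proj i (ξ ^ (n - 2 * i - 1) * x) with ha
    have ha1 : a ∈ W.alg X i := F.proj_alg hW hX hξ i (by omega) hb
    have ha2 : ξ ^ (n - 2 * i) * a = ξ ^ (n - 2 * i - 1) * x :=
      F.surj hW hX hξ halg i (by omega) ih' hb
    have hp : x - ξ * a ∈ H3.prim W X n ξ (i + 1) := by
      refine ⟨sub_mem hx ?_, ?_⟩
      · rw [add_comm]; exact hW.mul_alg hX hξ ha1
      · rw [show n - 2 * (i + 1) + 1 = n - 2 * i - 1 by omega, mul_sub, ← mul_assoc, ← pow_succ,
          show n - 2 * i - 1 + 1 = n - 2 * i by omega, ha2, sub_self]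
    have e : x = (x - ξ * a) + ξ * a := by abel
    rw [e]
    refine add_mem ?_ ?_
    · refine Submodule.span_mono ?_ (F.span (i + 1) hi _ hp)
      rintro _ ⟨s, hs, rfl⟩
      exact ⟨s, 0, by omega, by simp⟩
    · refine Submodule.span_induction (p := fun y _ => ξ * y ∈ F.sp (i + 1)) ?_ ?_ ?_ ?_
        (ih' a ha1)
      · rintro _ ⟨s, c, hc, rfl⟩
        exact Submodule.subset_span ⟨s, c + 1, by omega, by rw [pow_succ', mul_assoc]⟩
      · rw [mul_zero]; exact zero_mem _
      · intro p q _ _ hp hq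
        rw [mul_add]; exact add_mem hp hq
      · intro c p _ hp
        rw [mul_smul_comm]; exact Submodule.smul_mem _ _ hp

include hW hX hξ halg in
theorem alg_le (i : ℕ) : ∀ x ∈ W.alg X i,
    x ∈ Submodule.span K {x | ∃ s b, x = ξ ^ b * F.p s} := by
  intro x hx
  by_cases hi : 2 * i ≤ n
  · refine Submodule.span_mono ?_ (F.alg_sp hW hX hξ halg i hi x hx)
    rintro _ ⟨s, c, _, rfl⟩
    exact ⟨s, c, rfl⟩
  · by_cases hin : n < i
    · rw [hW.top_gr hX (hW.alg_gr hX hx) (by omega)]; exact zero_mem _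
    · obtain ⟨m, hm⟩ : ∃ m, n - i = m := ⟨_, rfl⟩
      have him : i = n - m := by omega
      rw [him] at hx
      have h1 := F.surj hW hX hξ halg m (by omega) (F.alg_sp hW hX hξ halg m (by omega)) hx
      rw [← h1]
      refine Submodule.span_induction (p := fun y _ => ξ ^ (n - 2 * m) * y
        ∈ Submodule.span K {x | ∃ s b, x = ξ ^ b * F.p s}) ?_ ?_ ?_ ?_ (F.proj_mem m x)
      · rintro _ ⟨s, c, _, rfl⟩
        exact Submodule.subset_span ⟨s, n - 2 * m + c, by rw [pow_add, mul_assoc]⟩
      · rw [mul_zero]; exact zero_mem _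
      · intro p q _ _ hp hq
        rw [mul_add]; exact add_mem hp hq
      · intro c p _ hp
        rw [mul_smul_comm]; exact Submodule.smul_mem _ _ hp

include hW hX hξ halg in
/-- the cohomology of `X` is a sum of strings and the transcendental part -/
noncomputable def toStrings : Strings W X n ξ ι where
  j := F.j
  p := F.p
  D := F.D
  T := trans W X n
  hj := F.hj
  p_alg := F.p_alg
  D_pos := F.D_pos
  norm := F.norm
  prim := F.prim
  orth := F.orth
  T_gr := fun t ht => ht.1
  T_xi := by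
    intro t ht
    refine hW.duality hX _ (fun y => ?_)
    refine hW.hom_induction hX (P := fun y => W.tr X (ξ * t * y) = 0) y ?_ ?_ ?_
    · intro m y hy
      by_cases hm : m + 2 = n
      · refine Submodule.span_induction (p := fun y _ => W.tr X (ξ * t * y) = 0) ?_ ?_ ?_ ?_
          (halg m (by omega) hy)
        · rintro x ⟨j, _, hx⟩
          rw [hW.alg_comm hX hξ, mul_assoc]
          exact ht.2 _ _ (hW.mul_alg hX hξ hx)
        · simp
        · intro p q _ _ hp hq
          rw [mul_add, map_add, hp, hq, add_zero]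
        · intro c p _ hp
          rw [mul_smul_comm, map_smul, hp, smul_zero]
      · exact hW.tr_gr hX (hW.mul_gr hX (hW.mul_gr hX (hW.alg_gr hX hξ) ht.1) hy) (by omega)
    · simp
    · intro p q hp hq
      rw [mul_add, map_add, hp, hq, add_zero]
  T_orth := by
    intro t ht s b
    have e : ξ ^ b * (t * F.p s) = t * (ξ ^ b * F.p s) := by
      rw [← mul_assoc, hW.alg_comm hX (hW.pow_alg hX hξ _) t, mul_assoc]
    rw [e]
    exact ht.2 _ _ (hW.mul_alg hX (hW.pow_alg hX hξ b) (F.p_alg s))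
  decomp := by
    rw [eq_top_iff, ← hW.iSup_gr hX]
    refine iSup_le (fun i => ?_)
    intro x hx
    by_cases hi : i = n
    · subst hi
      rcases Nat.even_or_odd i with he | ho
      · obtain ⟨m, hm⟩ := he
        have e : x = F.proj m x + (x - F.proj m x) := by abel
        rw [e]
        refine Submodule.add_mem_sup ?_ ?_
        · refine Submodule.span_mono ?_ (F.proj_mem m x)
          rintro _ ⟨s, c, _, rfl⟩
          exact ⟨s, c, rfl⟩
        · have hpm : F.proj m x ∈ W.gr X i := by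
            refine Submodule.span_induction (p := fun y _ => y ∈ W.gr X i) ?_ ?_ ?_ ?_
              (F.proj_mem m x)
            · rintro _ ⟨s, c, hc, rfl⟩
              have := hW.alg_gr hX (hW.mul_alg hX (hW.pow_alg hX hξ c) (F.p_alg s))
              rwa [show 2 * (c + F.j s) = i by omega] at this
            · exact zero_mem _
            · intro p q _ _ hp hq; exact add_mem hp hq
            · intro c p _ hp; exact Submodule.smul_mem _ _ hp
          refine ⟨sub_mem hx hpm, fun j a ha => ?_⟩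
          by_cases hj : j = m
          · subst hj
            refine Submodule.span_induction (p := fun y _ =>
              W.tr X ((x - F.proj j x) * y) = 0) ?_ ?_ ?_ ?_
              (F.alg_sp hW hX hξ halg j (by omega) a ha)
            · rintro _ ⟨s, c, hc, rfl⟩
              have h1 := F.tr_proj hW hX hξ j c s hc (by omega) x
              rw [show i - 2 * j = 0 by omega, pow_zero, one_mul] at h1
              rw [sub_mul, map_sub, h1, sub_self]
            · simp
            · intro p q _ _ hp hq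
              rw [mul_add, map_add, hp, hq, add_zero]
            · intro c p _ hp
              rw [mul_smul_comm, map_smul, hp, smul_zero]
          · exact hW.tr_gr hX (hW.mul_gr hX (sub_mem hx hpm) (hW.alg_gr hX ha)) (by omega)
      · refine Submodule.mem_sup_right ⟨hx, fun j a ha => ?_⟩
        obtain ⟨m, hm⟩ := ho
        exact hW.tr_gr hX (hW.mul_gr hX hx (hW.alg_gr hX ha)) (by omega)
    · refine Submodule.mem_sup_left ?_
      refine Submodule.span_induction (p := fun y _ =>
        y ∈ Submodule.span K {x | ∃ s b, x = ξ ^ b * F.p s}) ?_ ?_ ?_ ?_ (halg i hi hx)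
      · rintro x ⟨j, _, hx⟩
        exact F.alg_le hW hX hξ halg j x hx
      · exact zero_mem _
      · intro p q _ _ hp hq; exact add_mem hp hq
      · intro c p _ hp; exact Submodule.smul_mem _ _ hp

theorem toStrings_T : (F.toStrings hW hX hξ halg).T = trans W X n := rfl

end PrimFam

end

end Pool.Agent.Lib.MP_361a6f_ag.H3
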