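import Pool.Agent.Lib.MP_361a6f_ag.H3.Ortho

/-!
# Linear algebra: positive involutions and compatible antilinear maps
-/

open Matrix Polynomial
open scoped ComplexOrder MatrixOrder

set_option linter.unusedSectionVars false

namespace Pool.Agent.Lib.MP_361a6f_ag.H3

variable {I : Type} [Fintype I] [DecidableEq I]

/-- entrywise complex conjugation -/
noncomputable def cj (M : Matrix I I ℂ) : Matrix I I ℂ := M.map (starRingEnd ℂ)

theorem cj_apply (M : Matrix I I ℂ) (i j : I) : cj M i j = starRingEnd ℂ (M i j) := rfl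

theorem cj_mul (M N : Matrix I I ℂ) : cj (M * N) = cj M * cj N := by
  unfold cj; rw [Matrix.map_mul]

theorem cj_cj (M : Matrix I I ℂ) : cj (cj M) = M := by
  ext i j; simp [cj]

theorem cj_one : cj (1 : Matrix I I ℂ) = 1 := by
  unfold cj; exact Matrix.map_one _ (map_zero _) (map_one _)

theorem cj_add (M N : Matrix I I ℂ) : cj (M + N) = cj M + cj N := by
  ext i j; simp [cj]

theorem cj_smul (c : ℂ) (M : Matrix I I ℂ) : cj (c • M) = starRingEnd ℂ c • cj M := by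
  ext i j; simp [cj]

theorem cj_transpose (M : Matrix I I ℂ) : cj Mᵀ = Mᴴ := by
  ext i j; simp [cj]

theorem cj_conjTranspose (M : Matrix I I ℂ) : cj Mᴴ = Mᵀ := by
  ext i j; simp [cj]

theorem transpose_cj (M : Matrix I I ℂ) : (cj M)ᵀ = Mᴴ := by
  ext i j; simp [cj]

theorem conjTranspose_cj (M : Matrix I I ℂ) : (cj M)ᴴ = Mᵀ := by
  ext i j; simp [cj]

theorem cj_aeval (P : Matrix I I ℂ) (p : ℝ[X]) : cj (aeval P p) = aeval (cj P) p := by
  induction p using Polynomial.induction_on' with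
  | add p q hp hq => rw [map_add, cj_add, hp, hq, map_add]
  | monomial k a =>
    have hpow : ∀ k : ℕ, cj (P ^ k) = cj P ^ k := by
      intro k
      induction k with
      | zero => rw [pow_zero, pow_zero, cj_one]
      | succ k ih => rw [pow_succ, cj_mul, ih, pow_succ]
    rw [aeval_monomial, aeval_monomial, cj_mul, hpow]
    congr 1
    rw [Algebra.algebraMap_eq_smul_one]
    ext i j
    simp [cj, Matrix.smul_apply]
    by_cases h : i = j
    · subst h; simp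
    · simp [Matrix.one_apply_ne h]

theorem aeval_comm {A B Y : Matrix I I ℂ} (h : A * Y = Y * B) (p : ℝ[X]) :
    aeval A p * Y = Y * aeval B p := by
  induction p using Polynomial.induction_on' with
  | add p q hp hq => rw [map_add, map_add, add_mul, mul_add, hp, hq]
  | monomial k a =>
    have hpow : ∀ k : ℕ, A ^ k * Y = Y * B ^ k := by
      intro k
      induction k with
      | zero => simp
      | succ k ih => rw [pow_succ, mul_assoc, h, ← mul_assoc, ih, mul_assoc, ← pow_succ]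
    rw [aeval_monomial, aeval_monomial, mul_assoc, hpow, Algebra.algebraMap_eq_smul_one,
      smul_mul_assoc, one_mul, smul_mul_assoc, one_mul, mul_smul_comm]

/-- the inverse square root of a positive definite matrix is a real polynomial in it -/
theorem exists_sqrt {P : Matrix I I ℂ} (hP : P.PosDef) :
    ∃ p : ℝ[X], (aeval P p).PosDef ∧ aeval P p * aeval P p * P = 1 := by
  classical
  have hH := hP.1
  set d : I → ℝ := hH.eigenvalues with hd
  have hdpos : ∀ i, 0 < d i := fun i => hP.eigenvalues_pos i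
  obtain ⟨p, hp⟩ : ∃ p : ℝ[X], ∀ i, p.eval (d i) = (Real.sqrt (d i))⁻¹ := by
    refine ⟨Lagrange.interpolate (Finset.univ.image d) id (fun x => (Real.sqrt x)⁻¹), fun i => ?_⟩
    exact Lagrange.eval_interpolate_at_node _ (Function.injective_id.injOn)
      (Finset.mem_image_of_mem d (Finset.mem_univ i))
  set V : Matrix I I ℂ := (hH.eigenvectorUnitary : Matrix I I ℂ) with hV
  have hVV : V * Vᴴ = 1 := by
    have := Unitary.coe_mul_star_self hH.eigenvectorUnitary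
    exact this
  have hVV' : Vᴴ * V = 1 := by
    have := Unitary.coe_star_mul_self hH.eigenvectorUnitary
    exact this
  set D : Matrix I I ℂ := diagonal (fun i => ((d i : ℝ) : ℂ)) with hD
  have hPD : P = V * D * Vᴴ := by
    conv_lhs => rw [hH.spectral_theorem]
    rfl
  have hPV : P * V = V * D := by
    rw [hPD, mul_assoc, hVV', mul_one]
  have hQV : aeval P p * V = V * aeval D p := aeval_comm hPV p
  have hQD : ∀ p : ℝ[X], aeval D p = diagonal (fun i => ((p.eval (d i) : ℝ) : ℂ)) := by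
    intro p
    induction p using Polynomial.induction_on' with
    | add p q hp hq =>
      rw [map_add, hp, hq, diagonal_add]
      congr 1; funext i; simp
    | monomial k a =>
      rw [aeval_monomial, hD, diagonal_pow, Algebra.algebraMap_eq_smul_one, smul_mul_assoc,
        one_mul]
      ext i j
      by_cases h : i = j
      · subst h; simp
      · simp [h]
  have hQ : aeval P p = V * diagonal (fun i => (((Real.sqrt (d i))⁻¹ : ℝ) : ℂ)) * Vᴴ := by
    have h1 : aeval P p = aeval P p * V * Vᴴ := by rw [mul_assoc, hVV, mul_one]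
    rw [h1, hQV, hQD]
    simp only [hp]
  refine ⟨p, ?_, ?_⟩
  · rw [hQ]
    refine Matrix.PosDef.mul_mul_conjTranspose_same ?_ ?_
    · refine Matrix.PosDef.diagonal (fun i => ?_)
      have := hdpos i
      have h2 : 0 < (Real.sqrt (d i))⁻¹ := by positivity
      exact_mod_cast h2
    · rw [Matrix.vecMul_injective_iff_isUnit]
      exact isUnit_iff_exists.mpr ⟨Vᴴ, hVV, hVV'⟩
  · rw [hQ, hPD]
    have h3 : ∀ A B : Matrix I I ℂ, V * A * Vᴴ * (V * B * Vᴴ) = V * (A * B) * Vᴴ := by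
      intro A B
      calc V * A * Vᴴ * (V * B * Vᴴ) = V * A * (Vᴴ * V) * B * Vᴴ := by simp only [mul_assoc]
        _ = V * (A * B) * Vᴴ := by rw [hVV', mul_one]; simp only [mul_assoc]
    rw [h3, h3, hD, diagonal_mul_diagonal, diagonal_mul_diagonal]
    have h4 : (fun i => (((Real.sqrt (d i))⁻¹ : ℝ) : ℂ) * (((Real.sqrt (d i))⁻¹ : ℝ) : ℂ)
        * ((d i : ℝ) : ℂ)) = fun _ => 1 := by
      funext i
      have := hdpos i
      have h5 : (Real.sqrt (d i))⁻¹ * (Real.sqrt (d i))⁻¹ * d i = 1 := by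
        rw [← mul_inv, Real.mul_self_sqrt this.le, inv_mul_cancel₀ this.ne']
      exact_mod_cast h5
    rw [h4, diagonal_one, mul_one, hVV]

/-- the adjoint of `M` for the bilinear form with Gram matrix `Ψ` -/
noncomputable def dag (Ψ M : Matrix I I ℂ) : Matrix I I ℂ := Ψ⁻¹ * Mᵀ * Ψ

section dag

variable {Ψ : Matrix I I ℂ} (hΨ : IsUnit Ψ) {ε : ℂ} (hε : ε * ε = 1) (hsym : Ψᵀ = ε • Ψ)

include hΨ

theorem inv_mul_self : Ψ⁻¹ * Ψ = 1 := Matrix.nonsing_inv_mul _ ((Matrix.isUnit_iff_isUnit_det _).mp hΨ)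

theorem mul_inv_self : Ψ * Ψ⁻¹ = 1 := Matrix.mul_nonsing_inv _ ((Matrix.isUnit_iff_isUnit_det _).mp hΨ)

theorem mul_dag (M : Matrix I I ℂ) : Ψ * dag Ψ M = Mᵀ * Ψ := by
  rw [dag, ← mul_assoc, ← mul_assoc, mul_inv_self hΨ, one_mul]

theorem dag_mul (M N : Matrix I I ℂ) : dag Ψ (M * N) = dag Ψ N * dag Ψ M := by
  unfold dag
  rw [transpose_mul]
  calc Ψ⁻¹ * (Nᵀ * Mᵀ) * Ψ = Ψ⁻¹ * Nᵀ * 1 * Mᵀ * Ψ := by simp only [mul_assoc, one_mul]
    _ = Ψ⁻¹ * Nᵀ * (Ψ * Ψ⁻¹) * Mᵀ * Ψ := by rw [mul_inv_self hΨ]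
    _ = _ := by simp only [mul_assoc]

theorem trace_dag (M : Matrix I I ℂ) : (dag Ψ M).trace = M.trace := by
  unfold dag
  rw [trace_mul_cycle, mul_inv_self hΨ, one_mul, trace_transpose]

include hε hsym in
theorem dag_dag (M : Matrix I I ℂ) : dag Ψ (dag Ψ M) = M := by
  have h1 : Ψ * dag Ψ (dag Ψ M) = Ψ * M := by
    rw [mul_dag hΨ]
    have h2 : (Ψ * dag Ψ M)ᵀ = (Mᵀ * Ψ)ᵀ := by rw [mul_dag hΨ]
    rw [transpose_mul, transpose_mul, hsym, transpose_transpose, mul_smul_comm,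
      smul_mul_assoc] at h2
    have h3 := congrArg (fun Z => ε • Z) h2
    simp only [smul_smul, hε, one_smul] at h3
    exact h3
  have h2 := congrArg (fun Z => Ψ⁻¹ * Z) h1
  simp only [← mul_assoc, inv_mul_self hΨ, one_mul] at h2
  exact h2

end dag

/-- `U` defines an antilinear map `x ↦ U x̄` compatible with the form `Ψ`: its square is `ε`, it
preserves the form up to conjugation, and `(x, y) ↦ Ψ(x, U ȳ)` is positive definite. -/
structure IsReal (Ψ : Matrix I I ℂ) (ε : ℂ) (U : Matrix I I ℂ) : Prop where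
  sq : U * cj U = ε • (1 : Matrix I I ℂ)
  form : Uᵀ * Ψ * U = cj Ψ
  pos : (Ψ * U).PosDef

section orth

variable {Ψ : Matrix I I ℂ} (hΨ : IsUnit Ψ) {ε : ℂ} (hε : ε * ε = 1) (hεr : starRingEnd ℂ ε = ε)
  (hsym : Ψᵀ = ε • Ψ)

include hΨ hε hεr hsym

/-- the case in which the adjoint is the conjugate transpose on `𝒜` -/
theorem exists_real_std (𝒜 : Set (Matrix I I ℂ)) (hcomm : ∀ M ∈ 𝒜, Ψ * Mᴴ = Mᵀ * Ψ)
    (hstar : ∀ M ∈ 𝒜, Mᴴ ∈ 𝒜) :
    ∃ U : Matrix I I ℂ, IsReal Ψ ε U ∧ ∀ M ∈ 𝒜, M * U = U * cj M := by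
  have hdet : Function.Injective Ψ.mulVec := by rw [Matrix.mulVec_injective_iff_isUnit]; exact hΨ
  set P := Ψᴴ * Ψ with hPdef
  have hP : P.PosDef := Matrix.PosDef.conjTranspose_mul_self Ψ hdet
  obtain ⟨p, hQpos, hQ⟩ := exists_sqrt hP
  set Q := aeval P p with hQdef
  have hH : Ψᴴ = ε • cj Ψ := by
    rw [← cj_transpose, hsym, cj_smul, hεr]
  have hcjH : cj Ψᴴ = ε • Ψ := by rw [cj_conjTranspose, hsym]
  have hcjP : cj P = Ψ * Ψᴴ := by
    rw [hPdef, cj_mul, hcjH, hH, smul_mul_assoc, mul_smul_comm]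
  have hPcomm : P * Ψᴴ = Ψᴴ * cj P := by rw [hcjP, hPdef, mul_assoc]
  have hQcomm : Q * Ψᴴ = Ψᴴ * cj Q := by
    rw [hQdef, cj_aeval]
    exact aeval_comm hPcomm p
  have hQH : Qᴴ = Q := hQpos.1
  have hQT : cj Q = Qᵀ := by conv_lhs => rw [← hQH, cj_conjTranspose]
  have hQcomm' : Ψ * Q = cj Q * Ψ := by
    have h1 : (Q * Ψᴴ)ᴴ = (Ψᴴ * cj Q)ᴴ := by rw [hQcomm]
    rw [conjTranspose_mul, conjTranspose_mul, conjTranspose_conjTranspose, hQH,
      conjTranspose_cj] at h1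
    rw [h1, hQT]
  have hPQ : P * Q = Q * P := (aeval_comm rfl p : Q * P = P * aeval P p).symm
  have hPQQ : P * Q * Q = 1 := by
    rw [hPQ, mul_assoc, hPQ, ← mul_assoc, hQ]
  have hHT : (Ψᴴ)ᵀ = cj Ψ := by ext i j; simp [cj]
  have hH' : cj Ψ = ε • Ψᴴ := by rw [hH, smul_smul, hε, one_smul]
  refine ⟨Q * Ψᴴ, ⟨?_, ?_, ?_⟩, ?_⟩
  · rw [cj_mul, hcjH, mul_smul_comm, mul_smul_comm]
    congr 1
    calc Q * Ψᴴ * (cj Q * Ψ) = Q * (Ψᴴ * cj Q) * Ψ := by simp only [mul_assoc]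
      _ = Q * Q * P := by rw [← hQcomm, hPdef]; simp only [mul_assoc]
      _ = 1 := hQ
  · rw [transpose_mul, hHT, ← hQT]
    calc cj Ψ * cj Q * Ψ * (Q * Ψᴴ) = cj Ψ * (cj Q * Ψ) * Q * Ψᴴ := by simp only [mul_assoc]
      _ = ε • (P * Q * Q * Ψᴴ) := by
        rw [← hQcomm', hH', hPdef]
        simp only [smul_mul_assoc, mul_assoc]
      _ = cj Ψ := by rw [hPQQ, one_mul, hH']
  · rw [← mul_assoc]
    refine Matrix.PosDef.mul_mul_conjTranspose_same hQpos ?_
    rw [Matrix.vecMul_injective_iff_isUnit]; exact hΨ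
  · intro M hM
    have h1 : M * Ψᴴ = Ψᴴ * cj M := by
      have h2 : (Ψ * Mᴴ)ᴴ = (Mᵀ * Ψ)ᴴ := by rw [hcomm M hM]
      rw [conjTranspose_mul, conjTranspose_mul, conjTranspose_conjTranspose] at h2
      rw [h2]
      congr 1
    have h3 : cj M * Ψ = Ψ * M := by
      have h4 := hcomm _ (hstar M hM)
      rw [conjTranspose_conjTranspose] at h4
      rw [h4]
      congr 1
    have h5 : P * M = M * P := by
      calc P * M = Ψᴴ * (Ψ * M) := by rw [hPdef, mul_assoc]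
        _ = Ψᴴ * cj M * Ψ := by rw [← h3, mul_assoc]
        _ = M * P := by rw [← h1, hPdef, mul_assoc]
    have h6 : Q * M = M * Q := aeval_comm h5 p
    rw [← mul_assoc, ← h6, mul_assoc, h1, mul_assoc]

end orth

section main

variable {Ψ : Matrix I I ℂ} (hΨ : IsUnit Ψ) {ε : ℂ} (hε : ε * ε = 1) (hεr : starRingEnd ℂ ε = ε)
  (hsym : Ψᵀ = ε • Ψ)

include hΨ hε hsym in
/-- a positive definite `G` for which the adjoint is the conjugate transpose up to `G` -/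
theorem exists_gram (𝒜 : AddSubgroup (Matrix I I ℂ)) (h1 : 1 ∈ 𝒜)
    (hmul : ∀ M ∈ 𝒜, ∀ N ∈ 𝒜, M * N ∈ 𝒜) (hdag : ∀ M ∈ 𝒜, dag Ψ M ∈ 𝒜)
    (hsmul : ∀ q : ℚ, ∀ M ∈ 𝒜, (q : ℂ) • M ∈ 𝒜) (hrat : ∀ M ∈ 𝒜, ∃ q : ℚ, M.trace = q)
    (hpos : ∀ M ∈ 𝒜, M ≠ 0 → RatPos (M * dag Ψ M).trace) :
    ∃ G : Matrix I I ℂ, G.PosDef ∧ ∀ M ∈ 𝒜, M * G = G * (dag Ψ M)ᴴ := by
  classical
  let B : Matrix I I ℂ →ₗ[ℂ] Matrix I I ℂ →ₗ[ℂ] ℂ :=
    LinearMap.mk₂ ℂ (fun M N => (M * dag Ψ N).trace)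
      (fun M M' N => by rw [add_mul, trace_add])
      (fun c M N => by rw [smul_mul_assoc, trace_smul])
      (fun M N N' => by
        have : dag Ψ (N + N') = dag Ψ N + dag Ψ N' := by
          unfold dag; rw [transpose_add, mul_add, add_mul]
        rw [this, mul_add, trace_add])
      (fun c M N => by
        have : dag Ψ (c • N) = c • dag Ψ N := by
          unfold dag; rw [transpose_smul, mul_smul_comm, smul_mul_assoc]
        rw [this, mul_smul_comm, trace_smul])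
  have hB : ∀ M N, B M N = (M * dag Ψ N).trace := fun M N => rfl
  have hBsym : ∀ M N, B M N = B N M := by
    intro M N
    rw [hB, hB, ← trace_dag hΨ, dag_mul hΨ, dag_dag hΨ hε hsym]
  obtain ⟨r, e, D, he, hD, hn, ho, hspan⟩ := exists_ortho 𝒜 hsmul B (fun M _ N _ => hBsym M N)
    (fun M hM N hN => hrat _ (hmul _ hM _ (hdag _ hN))) hpos
  have hDne : ∀ i, ((D i : ℚ) : ℂ) ≠ 0 := fun i => by exact_mod_cast (hD i).ne'
  have hexp : ∀ x ∈ 𝒜, x = ∑ i, (B x (e i) / D i) • e i := by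
    intro x hx
    refine Submodule.span_induction (p := fun x _ => x = ∑ i, (B x (e i) / D i) • e i)
      ?_ ?_ ?_ ?_ (hspan x hx)
    · rintro _ ⟨j, rfl⟩
      rw [Finset.sum_eq_single j]
      · rw [hn, div_self (hDne j), one_smul]
      · intro i _ hij
        rw [ho j i hij.symm, zero_div, zero_smul]
      · intro h; exact absurd (Finset.mem_univ _) h
    · simp
    · intro x y _ _ hx hy
      conv_lhs => rw [hx, hy]
      rw [← Finset.sum_add_distrib]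
      refine Finset.sum_congr rfl (fun i _ => ?_)
      rw [← add_smul, map_add, LinearMap.add_apply, add_div]
    · intro c x _ hx
      conv_lhs => rw [hx]
      rw [Finset.smul_sum]
      refine Finset.sum_congr rfl (fun i _ => ?_)
      rw [smul_smul, map_smul, LinearMap.smul_apply, smul_eq_mul, mul_div_assoc]
  set G : Matrix I I ℂ := ∑ i, ((D i : ℂ)⁻¹) • (e i * (e i)ᴴ) with hG
  have hreal : ∀ M ∈ 𝒜, starRingEnd ℂ M.trace = M.trace := by
    intro M hM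
    obtain ⟨q, hq⟩ := hrat M hM
    rw [hq, map_ratCast]
  refine ⟨G, ?_, ?_⟩
  · refine Matrix.PosDef.of_dotProduct_mulVec_pos ?_ ?_
    · rw [hG, Matrix.IsHermitian, conjTranspose_sum]
      refine Finset.sum_congr rfl (fun i _ => ?_)
      rw [conjTranspose_smul, conjTranspose_mul, conjTranspose_conjTranspose]
      congr 1
      simp
    · intro x hx
      have h2 : star x ⬝ᵥ (G *ᵥ x)
          = ∑ i, (D i : ℂ)⁻¹ * (star ((e i)ᴴ *ᵥ x) ⬝ᵥ ((e i)ᴴ *ᵥ x)) := by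
        rw [hG, Matrix.sum_mulVec, dotProduct_sum]
        refine Finset.sum_congr rfl (fun i _ => ?_)
        rw [Matrix.smul_mulVec, dotProduct_smul, smul_eq_mul, ← Matrix.mulVec_mulVec,
          dotProduct_mulVec, star_mulVec, conjTranspose_conjTranspose]
      rw [h2]
      have h3 : ∀ i, 0 ≤ (D i : ℂ)⁻¹ * (star ((e i)ᴴ *ᵥ x) ⬝ᵥ ((e i)ᴴ *ᵥ x)) := by
        intro i
        refine mul_nonneg ?_ (dotProduct_star_self_nonneg _)
        have : (0 : ℝ) < ((D i : ℚ) : ℝ) := by exact_mod_cast hD i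
        have h4 : (0 : ℝ) ≤ (((D i : ℚ) : ℝ))⁻¹ := by positivity
        have h5 : ((D i : ℂ))⁻¹ = ((((D i : ℚ) : ℝ)⁻¹ : ℝ) : ℂ) := by push_cast; rfl
        rw [h5]
        exact_mod_cast h4
      obtain ⟨i, hi⟩ : ∃ i, (e i)ᴴ *ᵥ x ≠ 0 := by
        by_contra hcon
        push Not at hcon
        apply hx
        have h4 := hexp 1 h1
        have h5 : x = (1 : Matrix I I ℂ)ᴴ *ᵥ x := by simp
        rw [h5, h4, conjTranspose_sum, Matrix.sum_mulVec]
        refine Finset.sum_eq_zero (fun i _ => ?_)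
        rw [conjTranspose_smul, Matrix.smul_mulVec, hcon, smul_zero]
      refine Finset.sum_pos' (fun i _ => h3 i) ⟨i, Finset.mem_univ _, ?_⟩
      refine mul_pos ?_ ?_
      · have : (0 : ℝ) < ((D i : ℚ) : ℝ) := by exact_mod_cast hD i
        have h4 : (0 : ℝ) < (((D i : ℚ) : ℝ))⁻¹ := by positivity
        have h5 : ((D i : ℂ))⁻¹ = ((((D i : ℚ) : ℝ)⁻¹ : ℝ) : ℂ) := by push_cast; rfl
        rw [h5]
        exact_mod_cast h4
      · exact Matrix.dotProduct_star_self_pos_iff.mpr hi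
  · intro M hM
    have e1 : M * G = ∑ i, ∑ j, ((D i : ℂ)⁻¹ * (B (M * e i) (e j) / D j)) • (e j * (e i)ᴴ) := by
      rw [hG, Finset.mul_sum]
      refine Finset.sum_congr rfl (fun i _ => ?_)
      rw [mul_smul_comm, ← mul_assoc]
      conv_lhs => rw [hexp (M * e i) (hmul _ hM _ (he i))]
      rw [Finset.sum_mul, Finset.smul_sum]
      refine Finset.sum_congr rfl (fun j _ => ?_)
      rw [smul_mul_assoc, smul_smul]
    have e2 : G * (dag Ψ M)ᴴ = ∑ j, ∑ i,
        ((D j : ℂ)⁻¹ * (B (dag Ψ M * e j) (e i) / D i)) • (e j * (e i)ᴴ) := by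
      rw [hG, Finset.sum_mul]
      refine Finset.sum_congr rfl (fun j _ => ?_)
      rw [smul_mul_assoc, mul_assoc, ← conjTranspose_mul]
      conv_lhs => rw [hexp (dag Ψ M * e j) (hmul _ (hdag _ hM) _ (he j))]
      rw [conjTranspose_sum, Finset.mul_sum, Finset.smul_sum]
      refine Finset.sum_congr rfl (fun i _ => ?_)
      rw [conjTranspose_smul, mul_smul_comm, smul_smul]
      congr 2
      have h3 : starRingEnd ℂ (B (dag Ψ M * e j) (e i)) = B (dag Ψ M * e j) (e i) :=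
        hreal _ (hmul _ (hmul _ (hdag _ hM) _ (he j)) _ (hdag _ (he i)))
      change starRingEnd ℂ (B (dag Ψ M * e j) (e i) / D i) = _
      rw [map_div₀, h3, map_ratCast]
    rw [e1, e2, Finset.sum_comm]
    refine Finset.sum_congr rfl (fun j _ => Finset.sum_congr rfl (fun i _ => ?_))
    congr 1
    have h4 : B (M * e i) (e j) = B (dag Ψ M * e j) (e i) := by
      rw [hB, hB, ← trace_dag hΨ (dag Ψ M * e j * dag Ψ (e i)), dag_mul hΨ, dag_mul hΨ,
        dag_dag hΨ hε hsym, dag_dag hΨ hε hsym, trace_mul_comm, ← mul_assoc, trace_mul_comm,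
        ← mul_assoc, trace_mul_comm, ← mul_assoc]
    rw [h4]
    ring

include hΨ hε hεr hsym in
/-- A positive involution admits a compatible antilinear map. -/
theorem exists_real (𝒜 : AddSubgroup (Matrix I I ℂ)) (h1 : 1 ∈ 𝒜)
    (hmul : ∀ M ∈ 𝒜, ∀ N ∈ 𝒜, M * N ∈ 𝒜) (hdag : ∀ M ∈ 𝒜, dag Ψ M ∈ 𝒜)
    (hsmul : ∀ q : ℚ, ∀ M ∈ 𝒜, (q : ℂ) • M ∈ 𝒜) (hrat : ∀ M ∈ 𝒜, ∃ q : ℚ, M.trace = q)
    (hpos : ∀ M ∈ 𝒜, M ≠ 0 → RatPos (M * dag Ψ M).trace) :
    ∃ U : Matrix I I ℂ, IsReal Ψ ε U ∧ ∀ M ∈ 𝒜, M * U = U * cj M := by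
  classical
  obtain ⟨G, hG, hGc⟩ := exists_gram hΨ hε hsym 𝒜 h1 hmul hdag hsmul hrat hpos
  obtain ⟨B, hB⟩ := CStarAlgebra.nonneg_iff_eq_star_mul_self.mp
    (Matrix.nonneg_iff_posSemidef.mpr hG.posSemidef)
  have hGu : IsUnit G := hG.isUnit
  set C : Matrix I I ℂ := Bᴴ with hC
  have hGC : G = C * Cᴴ := by
    rw [hC, conjTranspose_conjTranspose]; exact hB
  have hCu : IsUnit C := by
    rw [Matrix.isUnit_iff_isUnit_det] at hGu ⊢
    rw [hGC, det_mul] at hGu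
    exact isUnit_of_mul_isUnit_left hGu
  set C' : Matrix I I ℂ := C⁻¹ with hC'
  have hCC' : C * C' = 1 := mul_inv_self hCu
  have hC'C : C' * C = 1 := inv_mul_self hCu
  set Ψ' : Matrix I I ℂ := Cᵀ * Ψ * C with hΨ'
  have hCTu : IsUnit Cᵀ := by
    rw [Matrix.isUnit_iff_isUnit_det, det_transpose, ← Matrix.isUnit_iff_isUnit_det]; exact hCu
  have hΨ'u : IsUnit Ψ' := (hCTu.mul hΨ).mul hCu
  have hCT : C'ᵀ * Cᵀ = 1 := by rw [← transpose_mul, hCC', transpose_one]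
  have hCT' : Cᵀ * C'ᵀ = 1 := by rw [← transpose_mul, hC'C, transpose_one]
  have hCH : C'ᴴ * Cᴴ = 1 := by rw [← conjTranspose_mul, hCC', conjTranspose_one]
  have hCH' : Cᴴ * C'ᴴ = 1 := by rw [← conjTranspose_mul, hC'C, conjTranspose_one]
  have hsym' : Ψ'ᵀ = ε • Ψ' := by
    rw [hΨ', transpose_mul, transpose_mul, transpose_transpose, hsym, smul_mul_assoc,
      mul_smul_comm, mul_assoc]
  have key : ∀ M ∈ 𝒜, G * Mᴴ = dag Ψ M * G := by
    intro M hM
    have h2 := hGc _ (hdag M hM)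
    rw [dag_dag hΨ hε hsym] at h2
    exact h2.symm
  obtain ⟨U, hU, hUc⟩ := exists_real_std hΨ'u hε hεr hsym' {M' | ∃ M ∈ 𝒜, M' = C' * M * C}
    (by
      rintro _ ⟨M, hM, rfl⟩
      rw [conjTranspose_mul, conjTranspose_mul, transpose_mul, transpose_mul]
      have h2 : Cᵀ * Ψ * (G * Mᴴ) * C'ᴴ = Cᵀ * Mᵀ * Ψ * (C * Cᴴ) * C'ᴴ := by
        rw [key M hM, ← hGC]
        calc Cᵀ * Ψ * (dag Ψ M * G) * C'ᴴ = Cᵀ * (Ψ * dag Ψ M) * G * C'ᴴ := by
              simp only [mul_assoc]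
          _ = Cᵀ * Mᵀ * Ψ * G * C'ᴴ := by rw [mul_dag hΨ]; simp only [mul_assoc]
      calc Ψ' * (Cᴴ * (Mᴴ * C'ᴴ)) = Cᵀ * Ψ * (G * Mᴴ) * C'ᴴ := by
            rw [hΨ', hGC]; simp only [mul_assoc]
        _ = Cᵀ * Mᵀ * Ψ * (C * Cᴴ) * C'ᴴ := h2
        _ = Cᵀ * Mᵀ * Ψ * C * (Cᴴ * C'ᴴ) := by simp only [mul_assoc]
        _ = Cᵀ * Mᵀ * (C'ᵀ * Cᵀ) * Ψ * C := by rw [hCH', hCT, mul_one, mul_one]
        _ = Cᵀ * (Mᵀ * C'ᵀ) * Ψ' := by rw [hΨ']; simp only [mul_assoc])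
    (by
      rintro _ ⟨M, hM, rfl⟩
      refine ⟨dag Ψ M, hdag M hM, ?_⟩
      rw [conjTranspose_mul, conjTranspose_mul]
      calc Cᴴ * (Mᴴ * C'ᴴ) = C' * C * Cᴴ * (Mᴴ * C'ᴴ) := by rw [hC'C, one_mul]
        _ = C' * (G * Mᴴ) * C'ᴴ := by rw [hGC]; simp only [mul_assoc]
        _ = C' * dag Ψ M * C * (Cᴴ * C'ᴴ) := by rw [key M hM, hGC]; simp only [mul_assoc]
        _ = C' * dag Ψ M * C := by rw [hCH', mul_one])
  have hcj : cj C * cj C' = 1 := by rw [← cj_mul, hCC', cj_one]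
  have hcj' : cj C' * cj C = 1 := by rw [← cj_mul, hC'C, cj_one]
  refine ⟨C * U * cj C', ⟨?_, ?_, ?_⟩, ?_⟩
  · rw [cj_mul, cj_mul, cj_cj]
    calc C * U * cj C' * (cj C * cj U * C') = C * U * (cj C' * cj C) * cj U * C' := by
          simp only [mul_assoc]
      _ = C * (U * cj U) * C' := by rw [hcj', mul_one]; simp only [mul_assoc]
      _ = ε • 1 := by rw [hU.sq, mul_smul_comm, mul_one, smul_mul_assoc, hCC']
  · rw [transpose_mul, transpose_mul]
    calc (cj C')ᵀ * (Uᵀ * Cᵀ) * Ψ * (C * U * cj C')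
        = (cj C')ᵀ * (Uᵀ * Ψ' * U) * cj C' := by rw [hΨ']; simp only [mul_assoc]
      _ = (cj C')ᵀ * cj Ψ' * cj C' := by rw [hU.form]
      _ = cj (C'ᵀ * Ψ' * C') := by
        rw [transpose_cj, ← cj_transpose, ← cj_mul, ← cj_mul]
      _ = cj (C'ᵀ * Cᵀ * Ψ * (C * C')) := by rw [hΨ']; simp only [mul_assoc]
      _ = cj Ψ := by rw [hCT, hCC', one_mul, mul_one]
  · have h2 : Ψ * (C * U * cj C') = C'ᵀ * (Ψ' * U) * (C'ᵀ)ᴴ := by
      have h3 : (C'ᵀ)ᴴ = cj C' := by rw [← cj_transpose, transpose_transpose]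
      rw [h3]
      calc Ψ * (C * U * cj C') = C'ᵀ * Cᵀ * Ψ * (C * U * cj C') := by rw [hCT, one_mul]
        _ = C'ᵀ * (Ψ' * U) * cj C' := by rw [hΨ']; simp only [mul_assoc]
    rw [h2]
    refine Matrix.PosDef.mul_mul_conjTranspose_same hU.pos ?_
    rw [Matrix.vecMul_injective_iff_isUnit]
    exact isUnit_iff_exists.mpr ⟨Cᵀ, hCT, hCT'⟩
  · intro M hM
    have h2 := hUc _ ⟨M, hM, rfl⟩
    calc M * (C * U * cj C') = C * C' * M * (C * U * cj C') := by rw [hCC', one_mul]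
      _ = C * (C' * M * C * U) * cj C' := by simp only [mul_assoc]
      _ = C * U * (cj C' * cj M * (cj C * cj C')) := by
        rw [h2, cj_mul, cj_mul]; simp only [mul_assoc]
      _ = C * U * cj C' * cj M := by rw [hcj, mul_one]; simp only [mul_assoc]

end main

end Pool.Agent.Lib.MP_361a6f_ag.H3
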