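import Pool.Agent.Lib.MP_361a6f_ag.H3.Corr
import Pool.Agent.Lib.MP_361a6f_ag.H3.LinAlg

/-!
# The matrix algebra of algebraic correspondences on the transcendental part
-/

open CategoryTheory AlgebraicGeometry MonoidalCategory CartesianMonoidalCategory Opposite

universe u v w

set_option linter.unusedSectionVars false

namespace Pool.Agent.Lib.MP_361a6f_ag.H3

section

variable {k : Type u} [Field k] {K : Type v} [Field K] [CharZero K]
  {W : CohomologyData.{u, v, w} k K} {𝒱 : VarietyClass k}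

/-- a class is homogeneous of degree `m` if it is orthogonal to all other degrees -/
theorem mem_gr_of_tr (hW : IsWeilCohomology W 𝒱) {Y : Sch k} {e : ℕ} (hY : 𝒱.mem Y e) {m : ℕ}
    {y : W.coh Y} (h : ∀ p, p + m ≠ 2 * e → ∀ v ∈ W.gr Y p, W.tr Y (y * v) = 0) :
    y ∈ W.gr Y m := by
  classical
  let _ := (hW.internal hY).chooseDecomposition
  have h1 : y = (DirectSum.decompose (W.gr Y) y m : W.gr Y m) := by
    rw [← sub_eq_zero]
    refine hW.duality hY _ (fun v => ?_)
    refine hW.hom_induction hY (P := fun v => W.tr Y ((y -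
      ((DirectSum.decompose (W.gr Y) y m : W.gr Y m) : W.coh Y)) * v) = 0) v ?_ ?_ ?_
    · intro p v hv
      rw [sub_mul, map_sub]
      by_cases hp : p + m = 2 * e
      · have h2 : ∀ l, l ≠ m → W.tr Y (((DirectSum.decompose (W.gr Y) y l : W.gr Y l) :
            W.coh Y) * v) = 0 := by
          intro l hl
          exact hW.tr_gr hY (hW.mul_gr hY (SetLike.coe_mem _) hv) (by omega)
        have h3 : y = ∑ l ∈ (DirectSum.decompose (W.gr Y) y).support,
            ((DirectSum.decompose (W.gr Y) y l : W.gr Y l) : W.coh Y) :=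
          (DirectSum.sum_support_decompose (W.gr Y) y).symm
        have h4 : W.tr Y (y * v) = W.tr Y (((DirectSum.decompose (W.gr Y) y m : W.gr Y m) :
            W.coh Y) * v) := by
          conv_lhs => rw [h3]
          rw [Finset.sum_mul, map_sum]
          refine Finset.sum_eq_single m (fun l _ hl => h2 l hl) (fun hm => ?_)
          rw [DFinsupp.notMem_support_iff.mp hm]
          simp
        rw [h4, sub_self]
      · rw [h p hp v hv, hW.tr_gr hY (hW.mul_gr hY (SetLike.coe_mem _) hv) (by omega), sub_zero]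
    · simp
    · intro p q hp hq
      rw [mul_add, map_add, hp, hq, add_zero]
  rw [h1]
  exact SetLike.coe_mem _

variable (hW : IsWeilCohomology W 𝒱) {X : Sch k} {n : ℕ}
  (hX : 𝒱.mem X n)

include hW hX in
theorem act_mem {γ : W.coh (X ⊗ X)} (hγ : γ ∈ W.alg (X ⊗ X) n) {s : W.coh X}
    (hs : s ∈ trans W X n) : act W γ s ∈ trans W X n := by
  have hXX := 𝒱.prod hX hX
  constructor
  · refine mem_gr_of_tr hW hX (fun p hp v hv => ?_)
    rw [act_tr hW hX hγ, bil]
    exact hW.tr_gr hXX (hW.mul_gr hXX (hW.mul_gr hXX (hW.pull_gr hXX hX _ hs.1)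
      (hW.pull_gr hXX hX _ hv)) (hW.alg_gr hXX hγ)) (by omega)
  · intro j a ha
    rw [act_tr hW hX hγ, bil, mul_assoc, ← tr_mul_push_fst hW hX]
    refine hs.2 j _ (hW.push_alg hXX hX _ (hW.mul_alg hXX (hW.pull_alg hXX hX _ ha) hγ) ?_)
    omega

end

section

variable {k : Type u} [Field k] {W : CohomologyData.{u, 0, w} k ℂ} {𝒱 : VarietyClass k}
  {X : Sch k} {n : ℕ} {I : Type} [Fintype I] [DecidableEq I]
  (b : Module.Basis I ℂ (trans W X n))

/-- the Gram matrix -/
noncomputable def gram : Matrix I I ℂ :=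
  Matrix.of (fun i j => W.tr X ((b i : W.coh X) * (b j : W.coh X)))

theorem gram_apply (i j : I) : gram b i j = W.tr X ((b i : W.coh X) * (b j : W.coh X)) := rfl

/-- `M` is the matrix of the class `γ` on `X × X` -/
def Rep (γ : W.coh (X ⊗ X)) (M : Matrix I I ℂ) : Prop :=
  ∀ i j, bil W γ (b i : W.coh X) (b j : W.coh X) = (M.transpose * gram b) i j

variable (hW : IsWeilCohomology W 𝒱) (hX : 𝒱.mem X n)

/-- expansion of elements of `T` in the basis -/
theorem basis_expand {t : W.coh X} (ht : t ∈ trans W X n) :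
    t = ∑ i, b.repr ⟨t, ht⟩ i • (b i : W.coh X) := by
  have h1 := congrArg (Subtype.val) (b.sum_repr ⟨t, ht⟩)
  refine (h1.symm.trans ?_ : t = _)
  rw [Submodule.coe_sum]
  rfl

include hW hX in
theorem gram_transpose : (gram b).transpose = ((-1 : ℂ) ^ n) • gram b := by
  ext i j
  rw [Matrix.transpose_apply, Matrix.smul_apply, gram_apply, gram_apply,
    hW.comm_gr hX (b j).2.1 (b i).2.1, map_smul]
  congr 1
  rcases Nat.even_or_odd n with h | h
  · rw [h.neg_one_pow, (h.mul_right n).neg_one_pow]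
  · rw [h.neg_one_pow, (h.mul h).neg_one_pow]

include hW hX in
theorem gram_isUnit (hsup : perpT (trans W X n) ⊔ trans W X n = ⊤) : IsUnit (gram b) := by
  rw [Matrix.isUnit_iff_isUnit_det, isUnit_iff_ne_zero]
  intro hdet
  obtain ⟨v, hv, hv'⟩ := Matrix.exists_vecMul_eq_zero_iff.mpr hdet
  apply hv
  have h1 : (∑ i, v i • (b i : W.coh X)) = 0 := by
    refine trans_nondeg hW hX hsup (sum_mem (fun i _ => Submodule.smul_mem _ _ (b i).2))
      (fun t' ht' => ?_)
    rw [basis_expand b ht', Finset.mul_sum, map_sum]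
    refine Finset.sum_eq_zero (fun j _ => ?_)
    rw [mul_smul_comm, map_smul, Finset.sum_mul, map_sum]
    have h2 := congrFun hv' j
    rw [Matrix.vecMul, dotProduct, Pi.zero_apply] at h2
    have h3 : ∑ i, W.tr X (v i • (b i : W.coh X) * (b j : W.coh X)) = 0 := by
      rw [← h2]
      refine Finset.sum_congr rfl (fun i _ => ?_)
      rw [smul_mul_assoc, map_smul, gram_apply, smul_eq_mul]
    rw [h3, smul_zero]
  have h2 : ∑ i, v i • b i = 0 := by
    apply Subtype.ext
    simpa using h1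
  funext i
  exact (Fintype.linearIndependent_iff.mp b.linearIndependent) v h2 i

include hW hX in
theorem rep_act (hsup : perpT (trans W X n) ⊔ trans W X n = ⊤) {γ : W.coh (X ⊗ X)}
    (hγ : γ ∈ W.alg (X ⊗ X) n) {M : Matrix I I ℂ} (h : Rep b γ M) (i : I) :
    act W γ (b i : W.coh X) = ∑ l, M l i • (b l : W.coh X) := by
  rw [← sub_eq_zero]
  refine trans_nondeg hW hX hsup (sub_mem (act_mem hW hX hγ (b i).2)
    (sum_mem (fun l _ => Submodule.smul_mem _ _ (b l).2))) (fun t' ht' => ?_)
  rw [basis_expand b ht', Finset.mul_sum, map_sum]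
  refine Finset.sum_eq_zero (fun j _ => ?_)
  rw [mul_smul_comm, map_smul, sub_mul, map_sub, act_tr hW hX hγ, h i j, Finset.sum_mul, map_sum,
    Matrix.mul_apply]
  have h3 : ∑ l, W.tr X (M l i • (b l : W.coh X) * (b j : W.coh X))
      = ∑ l, M.transpose i l * gram b l j := by
    refine Finset.sum_congr rfl (fun l _ => ?_)
    rw [smul_mul_assoc, map_smul, gram_apply, smul_eq_mul, Matrix.transpose_apply]
  rw [h3, sub_self, smul_zero]

theorem rep_exists (hΨ : IsUnit (gram b)) (γ : W.coh (X ⊗ X)) : ∃ M : Matrix I I ℂ, Rep b γ M := by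
  refine ⟨((Matrix.of (fun i j => bil W γ (b i : W.coh X) (b j : W.coh X)))
    * (gram b)⁻¹).transpose, ?_⟩
  intro i j
  rw [Matrix.transpose_transpose, mul_assoc, inv_mul_self hΨ, mul_one]
  rfl

theorem rep_unique (hΨ : IsUnit (gram b)) {γ : W.coh (X ⊗ X)} {M M' : Matrix I I ℂ}
    (h : Rep b γ M) (h' : Rep b γ M') : M = M' := by
  have h1 : M.transpose * gram b = M'.transpose * gram b := by
    ext i j
    rw [← h i j, ← h' i j]
  have h2 := hΨ.mul_right_cancel h1
  exact Matrix.transpose_injective h2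

theorem rep_zero : Rep b (0 : W.coh (X ⊗ X)) 0 := by
  intro i j
  rw [bil_zero]; simp

theorem rep_add {γ γ' : W.coh (X ⊗ X)} {M M' : Matrix I I ℂ} (h : Rep b γ M)
    (h' : Rep b γ' M') : Rep b (γ + γ') (M + M') := by
  intro i j
  rw [bil_add, h i j, h' i j, Matrix.transpose_add, add_mul, Matrix.add_apply]

theorem rep_neg {γ : W.coh (X ⊗ X)} {M : Matrix I I ℂ} (h : Rep b γ M) : Rep b (-γ) (-M) := by
  intro i j
  rw [bil_neg, h i j, Matrix.transpose_neg, neg_mul, Matrix.neg_apply]

theorem rep_smul (c : ℂ) {γ : W.coh (X ⊗ X)} {M : Matrix I I ℂ} (h : Rep b γ M) :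
    Rep b (c • γ) (c • M) := by
  intro i j
  rw [bil_smul, h i j, Matrix.transpose_smul, smul_mul_assoc, Matrix.smul_apply, smul_eq_mul]

include hW hX in
theorem rep_one : Rep b (graph' W (𝟙 X)) 1 := by
  intro i j
  rw [bil, graph'_tr hW hX, W.pull_id, Matrix.transpose_one, one_mul, gram_apply]

include hW hX in
theorem rep_mul (hsup : perpT (trans W X n) ⊔ trans W X n = ⊤) {γ γ' : W.coh (X ⊗ X)}
    (hγ : γ ∈ W.alg (X ⊗ X) n) (hγ' : γ' ∈ W.alg (X ⊗ X) n) {M M' : Matrix I I ℂ}
    (h : Rep b γ M) (h' : Rep b γ' M') : Rep b (comp W γ γ') (M' * M) := by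
  intro i j
  rw [comp_bil hW hX hγ hγ', rep_act b hW hX hsup hγ h, bil_sum_left, Matrix.transpose_mul,
    mul_assoc, Matrix.mul_apply]
  refine Finset.sum_congr rfl (fun l _ => ?_)
  rw [bil_smul_left, h' l j, Matrix.transpose_apply]

include hW hX in
theorem rep_flip (hsup : perpT (trans W X n) ⊔ trans W X n = ⊤) {γ : W.coh (X ⊗ X)}
    {M : Matrix I I ℂ} (h : Rep b γ M) :
    Rep b (W.pull (flip X).hom γ) (dag (gram b) M) := by
  have hΨ := gram_isUnit b hW hX hsup
  have hs := gram_transpose b hW hX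
  have h3 : ((-1 : ℂ) ^ n) * (-1) ^ n = 1 := by rw [← mul_pow]; simp
  intro i j
  have e1 : (dag (gram b) M).transpose * gram b
      = ((-1 : ℂ) ^ n) • (M.transpose * gram b).transpose := by
    have e2 : (dag (gram b) M).transpose * gram b
        = ((-1 : ℂ) ^ n) • (gram b * dag (gram b) M).transpose := by
      rw [Matrix.transpose_mul, hs, mul_smul_comm, smul_smul, h3, one_smul]
    rw [e2, mul_dag hΨ]
  rw [flip_bil hW hX _ (b i).2.1 (b j).2.1, h j i, e1, Matrix.smul_apply, Matrix.transpose_apply,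
    smul_eq_mul]

end

end Pool.Agent.Lib.MP_361a6f_ag.H3
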