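import Pool.Agent.Lib.MP_361a6f_ag.H3.MatAlg

/-!
# The trace form on the matrix algebra
-/

open CategoryTheory AlgebraicGeometry MonoidalCategory CartesianMonoidalCategory Opposite

universe u v w

set_option linter.unusedSectionVars false

namespace Pool.Agent.Lib.MP_361a6f_ag.H3

section

variable {k : Type u} [Field k] {K : Type v} [Field K] [CharZero K]
  {W : CohomologyData.{u, v, w} k K} {𝒱 : VarietyClass k} {Z X : Sch k}

theorem gen_smul_left (c : K) (y : W.coh Z) (s t : W.coh X) :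
    gen W (c • y) s t = c • gen W y s t := by
  rw [gen, map_smul, smul_mul_assoc, map_smul, smul_mul_assoc]; rfl

theorem gen_smul_mid (c : K) (y : W.coh Z) (s t : W.coh X) :
    gen W y (c • s) t = c • gen W y s t := by
  rw [gen, map_smul, mul_smul_comm, map_smul, smul_mul_assoc]; rfl

theorem gen_smul_right (c : K) (y : W.coh Z) (s t : W.coh X) :
    gen W y s (c • t) = c • gen W y s t := by
  rw [gen, map_smul, mul_smul_comm]; rfl

theorem gen_sum_mid {I : Type} (S : Finset I) (f : I → W.coh X) (y : W.coh Z) (t : W.coh X) :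
    gen W y (∑ i ∈ S, f i) t = ∑ i ∈ S, gen W y (f i) t := by
  simp only [gen]
  rw [map_sum, Finset.mul_sum, map_sum, Finset.sum_mul]

theorem gen_sum_right {I : Type} (S : Finset I) (f : I → W.coh X) (y : W.coh Z) (s : W.coh X) :
    gen W y s (∑ i ∈ S, f i) = ∑ i ∈ S, gen W y s (f i) := by
  simp only [gen]
  rw [map_sum, Finset.mul_sum]

end

section

variable {k : Type u} [Field k] {W : CohomologyData.{u, 0, w} k ℂ} {𝒱 : VarietyClass k}
  {X : Sch k} {n : ℕ} {I : Type} [Fintype I] [DecidableEq I]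
  (b : Module.Basis I ℂ (trans W X n)) (hW : IsWeilCohomology W 𝒱) (hX : 𝒱.mem X n)

include hW in
theorem TT_span {z : W.coh ((𝟙_ (Sch k) ⊗ X) ⊗ X)}
    (hz : z ∈ tens W (tens W (⊤ : Submodule ℂ (W.coh (𝟙_ (Sch k)))) (trans W X n))
      (trans W X n)) :
    ∃ g : I × I → ℂ, z = ∑ p, g p • gen W (1 : W.coh (𝟙_ (Sch k))) (b p.1 : W.coh X)
      (b p.2 : W.coh X) := by
  have h1 : z ∈ Submodule.span ℂ (Set.range (fun p : I × I =>
      gen W (1 : W.coh (𝟙_ (Sch k))) (b p.1 : W.coh X) (b p.2 : W.coh X))) := by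
    refine TT_induction (P := fun z => z ∈ Submodule.span ℂ (Set.range (fun p : I × I =>
      gen W (1 : W.coh (𝟙_ (Sch k))) (b p.1 : W.coh X) (b p.2 : W.coh X)))) ?_ ?_ ?_ ?_ hz
    · intro y s hs t ht
      obtain ⟨c, rfl⟩ := hW.point_coh y
      rw [gen_smul_left, basis_expand b hs, basis_expand b ht, gen_sum_mid]
      refine Submodule.smul_mem _ _ (sum_mem (fun i _ => ?_))
      rw [gen_smul_mid, gen_sum_right]
      refine Submodule.smul_mem _ _ (sum_mem (fun j _ => ?_))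
      rw [gen_smul_right]
      exact Submodule.smul_mem _ _ (Submodule.subset_span ⟨(i, j), rfl⟩)
    · exact zero_mem _
    · intro p q hp hq; exact add_mem hp hq
    · intro c p hp; exact Submodule.smul_mem _ _ hp
  obtain ⟨g, hg⟩ := (Submodule.mem_span_range_iff_exists_fun ℂ).mp h1
  exact ⟨g, hg.symm⟩

variable {ξ : W.coh X} (hξ : ξ ∈ W.alg X 1) {κ : Type} [Fintype κ]
  (σ : Strings W X n ξ κ) (hσT : σ.T = trans W X n)

include hW hX hξ hσT in
theorem tproj_rep {γ : W.coh (X ⊗ X)} (hγ : γ ∈ W.alg (X ⊗ X) n) {M : Matrix I I ℂ}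
    (h : Rep b γ M) (i j : I) :
    W.tr _ (tproj σ γ * gen W (1 : W.coh (𝟙_ (Sch k))) (b i : W.coh X) (b j : W.coh X))
      = (-1) ^ n * (M.transpose * gram b) j i := by
  rw [tproj_tr hW hX hξ σ hγ (by rw [hσT]; exact (b i).2) (by rw [hσT]; exact (b j).2), ← h j i]
  rfl

include hW hX hξ hσT in
/-- the trace form in terms of matrices -/
theorem tproj_pair (hsup : perpT (trans W X n) ⊔ trans W X n = ⊤) {γ γ' : W.coh (X ⊗ X)}
    (hγ : γ ∈ W.alg (X ⊗ X) n) (hγ' : γ' ∈ W.alg (X ⊗ X) n) {M M' : Matrix I I ℂ}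
    (h : Rep b γ M) (h' : Rep b γ' M') :
    W.tr _ (tproj σ γ' * tproj σ γ) = (-1) ^ n * (M * dag (gram b) M').trace := by
  have hΨ := gram_isUnit b hW hX hsup
  have h3 : ((-1 : ℂ) ^ n) * (-1) ^ n = 1 := by rw [← mul_pow]; simp
  have hmem := tproj_mem hW hX hξ σ γ
  rw [hσT] at hmem
  obtain ⟨g, hg⟩ := TT_span b hW hmem
  -- the coefficients
  have hgM : Matrix.of (fun i j => g (i, j)) * gram b = M := by
    have e1 : (gram b).transpose * (Matrix.of (fun i j => g (i, j)) * gram b)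
        = (gram b).transpose * M := by
      ext i j
      have e2 := tproj_rep b hW hX hξ σ hσT hγ h i j
      rw [hg, Finset.sum_mul, map_sum] at e2
      have e3 : ∀ p : I × I, W.tr _ (g p • gen W (1 : W.coh (𝟙_ (Sch k))) (b p.1 : W.coh X)
          (b p.2 : W.coh X) * gen W (1 : W.coh (𝟙_ (Sch k))) (b i : W.coh X) (b j : W.coh X))
          = (-1) ^ n * (g p * (gram b p.1 i * gram b p.2 j)) := by
        intro p
        rw [smul_mul_assoc, map_smul, tr_gen hW 𝒱.point hX _ _ (b p.1).2.1 (b p.2).2.1 (b i).2.1,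
          one_mul, hW.point_tr, smul_eq_mul, gram_apply, gram_apply]
        ring
      rw [Finset.sum_congr rfl (fun p _ => e3 p), ← Finset.mul_sum] at e2
      have e4 : ∑ p : I × I, g p * (gram b p.1 i * gram b p.2 j) = (M.transpose * gram b) j i :=
        mul_left_cancel₀ (pow_ne_zero n (by norm_num : (-1 : ℂ) ≠ 0)) e2
      rw [Fintype.sum_prod_type] at e4
      have e5 : (M.transpose * gram b) j i = ((gram b).transpose * M) i j := by
        rw [← Matrix.transpose_apply (M.transpose * gram b), Matrix.transpose_mul,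
          Matrix.transpose_transpose]
      rw [← e5, ← e4, Matrix.mul_apply]
      refine Finset.sum_congr rfl (fun l _ => ?_)
      rw [Matrix.transpose_apply, Matrix.mul_apply, Finset.mul_sum]
      refine Finset.sum_congr rfl (fun m _ => ?_)
      rw [Matrix.of_apply]
      ring
    have hΨT : IsUnit (gram b).transpose := by
      rw [Matrix.isUnit_iff_isUnit_det, Matrix.det_transpose, ← Matrix.isUnit_iff_isUnit_det]
      exact hΨ
    exact hΨT.mul_left_cancel e1
  have hg' : Matrix.of (fun i j => g (i, j)) = M * (gram b)⁻¹ := by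
    rw [← hgM, mul_assoc, mul_inv_self hΨ, mul_one]
  rw [hg, Finset.mul_sum, map_sum]
  have e6 : ∀ p : I × I, W.tr _ (tproj σ γ' * g p • gen W (1 : W.coh (𝟙_ (Sch k)))
      (b p.1 : W.coh X) (b p.2 : W.coh X))
      = (-1) ^ n * (g p * (M'.transpose * gram b) p.2 p.1) := by
    intro p
    rw [mul_smul_comm, map_smul, tproj_rep b hW hX hξ σ hσT hγ' h', smul_eq_mul]
    ring
  rw [Finset.sum_congr rfl (fun p _ => e6 p), ← Finset.mul_sum, Fintype.sum_prod_type]
  congr 1
  have e7 : M * dag (gram b) M' = Matrix.of (fun i j => g (i, j)) * (M'.transpose * gram b) := by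
    rw [hg', dag]
    simp only [mul_assoc]
  rw [e7, Matrix.trace]
  refine Finset.sum_congr rfl (fun i _ => ?_)
  rw [Matrix.diag_apply, Matrix.mul_apply]
  rfl

include hW hX hξ hσT in
theorem tproj_ne (hsup : perpT (trans W X n) ⊔ trans W X n = ⊤) {γ : W.coh (X ⊗ X)}
    (hγ : γ ∈ W.alg (X ⊗ X) n) {M : Matrix I I ℂ} (h : Rep b γ M) (hM : M ≠ 0) :
    tproj σ γ ≠ 0 := by
  intro h0
  apply hM
  have hΨ := gram_isUnit b hW hX hsup
  have h1 : M.transpose * gram b = 0 := by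
    ext i j
    have h2 := tproj_rep b hW hX hξ σ hσT hγ h j i
    rw [h0, zero_mul, map_zero] at h2
    exact (mul_eq_zero.mp h2.symm).resolve_left (pow_ne_zero n (by norm_num : (-1 : ℂ) ≠ 0))
  have h2 : M.transpose = 0 := by
    have := congrArg (fun Z => Z * (gram b)⁻¹) h1
    simpa only [mul_assoc, mul_inv_self hΨ, mul_one, zero_mul] using this
  rw [← Matrix.transpose_transpose M, h2, Matrix.transpose_zero]

end

section main

variable {k : Type u} [Field k] {W : CohomologyData.{u, 0, w} k ℂ} {𝒱 : VarietyClass k}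
  {X : Sch k} {n : ℕ} {I : Type} [Fintype I] [DecidableEq I]
  (b : Module.Basis I ℂ (trans W X n)) (hW : IsWeilCohomology W 𝒱) (hX : 𝒱.mem X n)
  {ξ : ℕ → W.coh X} (hξ : ∀ i, ξ i ∈ W.alg X 1) {κ : Type} [Fintype κ]
  (σ : Strings W X n (ξ 0) κ) (hσT : σ.T = trans W X n) (hσ1 : ∀ t ∈ σ.T, ξ 1 * t = 0)

/-- the algebra of matrices of algebraic correspondences -/
noncomputable def corrAlg : AddSubgroup (Matrix I I ℂ) where
  carrier := {M | ∃ γ ∈ W.alg (X ⊗ X) n, Rep b γ M}
  add_mem' := by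
    rintro M M' ⟨γ, hγ, h⟩ ⟨γ', hγ', h'⟩
    exact ⟨γ + γ', add_mem hγ hγ', rep_add b h h'⟩
  zero_mem' := ⟨0, zero_mem _, rep_zero b⟩
  neg_mem' := by
    rintro M ⟨γ, hγ, h⟩
    exact ⟨-γ, neg_mem hγ, rep_neg b h⟩

include hW hX hξ hσT hσ1 in
/-- positivity on the square of `X` gives a real structure on the transcendental part -/
theorem exists_realT (h2 : HodgeType W (prodPow (𝟙_ (Sch k)) X 2) (2 * n)
      (prodPol W (0 : W.coh (𝟙_ (Sch k))) ξ 2)) :
    ∃ U : Matrix I I ℂ, IsReal (gram b) ((-1) ^ n) U ∧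
      ∀ γ ∈ W.alg (X ⊗ X) n, ∀ M, Rep b γ M → M * U = U * cj M := by
  have h3 : ((-1 : ℂ) ^ n) * (-1) ^ n = 1 := by rw [← mul_pow]; simp
  have hsup : perpT (trans W X n) ⊔ trans W X n = ⊤ := by
    rw [← hσT]; exact σ.perpT_sup hW hX (hξ 0)
  have hX2 : 𝒱.mem ((𝟙_ (Sch k) ⊗ X) ⊗ X) (2 * n) := by
    have := 𝒱.prod (𝒱.prod 𝒱.point hX) hX
    rwa [show 0 + n + n = 2 * n by ring] at this
  obtain ⟨U, hU, hUc⟩ := exists_real (gram_isUnit b hW hX hsup) h3 (by simp)
    (gram_transpose b hW hX) (corrAlg b)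
    ⟨_, graph'_alg hW hX _, rep_one b hW hX⟩
    (by
      rintro M ⟨γ, hγ, h⟩ M' ⟨γ', hγ', h'⟩
      exact ⟨_, comp_alg hW hX hγ' hγ, rep_mul b hW hX hsup hγ' hγ h' h⟩)
    (by
      rintro M ⟨γ, hγ, h⟩
      exact ⟨_, hW.pull_alg (𝒱.prod hX hX) (𝒱.prod hX hX) _ hγ, rep_flip b hW hX hsup h⟩)
    (by
      rintro q M ⟨γ, hγ, h⟩
      exact ⟨_, W.alg_smul q hγ, rep_smul b _ h⟩)
    (by
      rintro M ⟨γ, hγ, h⟩
      have e1 := tproj_pair b hW hX (hξ 0) σ hσT hsup hγ (graph'_alg hW hX (𝟙 X)) h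
        (rep_one b hW hX)
      have e2 : dag (gram b) (1 : Matrix I I ℂ) = 1 := by
        rw [dag, Matrix.transpose_one, mul_one, inv_mul_self (gram_isUnit b hW hX hsup)]
      rw [e2, mul_one] at e1
      have e3 := hW.mul_alg hX2 (tproj_alg hW hX (hξ 0) σ (graph'_alg hW hX (𝟙 X)))
        (tproj_alg hW hX (hξ 0) σ hγ)
      rw [show n + n = 2 * n by ring] at e3
      obtain ⟨q, hq⟩ := hW.tr_alg hX2 e3
      refine ⟨(-1) ^ n * q, ?_⟩
      rw [e1] at hq
      push_cast
      rw [← hq, ← mul_assoc, h3, one_mul])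
    (by
      rintro M ⟨γ, hγ, h⟩ hM
      have e1 := tproj_pair b hW hX (hξ 0) σ hσT hsup hγ hγ h h
      have e2 := tproj_ne b hW hX (hξ 0) σ hσT hsup hγ h hM
      have hprim : prodPol W (0 : W.coh (𝟙_ (Sch k))) ξ 2
          ^ (2 * n - 2 * n + 1) * tprojI σ γ = 0 := by
        rw [Nat.sub_self, zero_add, pow_one]
        have key : ∀ z ∈ tens W (tens W
            (⊤ : Submodule ℂ (W.coh (𝟙_ (Sch k)))) σ.T) σ.T,
            lam W (lam W (0 : W.coh (𝟙_ (Sch k))) (ξ 0)) (ξ 1) * z = 0 := by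
          intro z hz
          refine TT_induction (P := fun z =>
            lam W (lam W (0 : W.coh (𝟙_ (Sch k))) (ξ 0)) (ξ 1) * z = 0)
            ?_ ?_ ?_ ?_ hz
          · intro y s hs t ht
            rw [lam_gen hW 𝒱.point hX (zero_mem _) (hξ 0) (hξ 1) σ.T_xi hσ1 y hs ht, zero_mul]
            simp [gen]
          · rw [mul_zero]
          · intro a b ha hb
            rw [mul_add, ha, hb, add_zero]
          · intro c a ha
            rw [mul_smul_comm, ha, smul_zero]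
        exact key _ (tproj_mem hW hX (hξ 0) σ γ)
      have h4 := h2 n (by omega) (tprojI σ γ) (tproj_alg hW hX (hξ 0) σ hγ) hprim e2
      rw [Nat.sub_self, pow_zero, one_mul] at h4
      have e3 : W.tr _ (tprojI σ γ * tprojI σ γ) = (-1) ^ n * (M * dag (gram b) M).trace := e1
      rw [e3, ← mul_assoc, h3, one_mul] at h4
      exact h4)
  exact ⟨U, hU, fun γ hγ M h => hUc M ⟨γ, hγ, h⟩⟩

end main

end Pool.Agent.Lib.MP_361a6f_ag.H3
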