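import Pool.Agent.Lib.MP_361a6f_ag.H3.Schur

/-!
# Orthogonal bases and the Lefschetz decomposition of algebraic classes
-/

open CategoryTheory AlgebraicGeometry MonoidalCategory CartesianMonoidalCategory Opposite

universe u v w

set_option linter.unusedSectionVars false

namespace Pool.Agent.Lib.MP_361a6f_ag.H3

variable {k : Type u} [Field k] {K : Type v} [Field K] [CharZero K]
  {W : CohomologyData.{u, v, w} k K} {𝒱 : VarietyClass k}

/-- existence of finite orthogonal bases for a positive definite rational form -/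
theorem exists_ortho {M : Type w} [AddCommGroup M] [Module K M] [Module.Finite K M]
    (P : AddSubgroup M) (hsmul : ∀ (q : ℚ), ∀ x ∈ P, (q : K) • x ∈ P)
    (B : M →ₗ[K] M →ₗ[K] K) (hsym : ∀ x ∈ P, ∀ y ∈ P, B x y = B y x)
    (hrat : ∀ x ∈ P, ∀ y ∈ P, ∃ q : ℚ, B x y = q)
    (hpos : ∀ x ∈ P, x ≠ 0 → RatPos (B x x)) :
    ∃ (r : ℕ) (e : Fin r → M) (D : Fin r → ℚ), (∀ i, e i ∈ P) ∧ (∀ i, 0 < D i) ∧
      (∀ i, B (e i) (e i) = D i) ∧ (∀ i j, i ≠ j → B (e i) (e j) = 0) ∧
      ∀ x ∈ P, x ∈ Submodule.span K (Set.range e) := by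
  classical
  set Q : ℕ → Prop := fun r => ∃ (e : Fin r → M) (D : Fin r → ℚ), (∀ i, e i ∈ P) ∧
    (∀ i, 0 < D i) ∧ (∀ i, B (e i) (e i) = D i) ∧ (∀ i j, i ≠ j → B (e i) (e j) = 0) with hQ
  have hQ0 : Q 0 := ⟨Fin.elim0, Fin.elim0, fun i => i.elim0, fun i => i.elim0,
    fun i => i.elim0, fun i => i.elim0⟩
  have hbound : ∀ r, Q r → r ≤ Module.finrank K M := by
    rintro r ⟨e, D, he, hD, hn, ho⟩
    have hli : LinearIndependent K e := by
      rw [Fintype.linearIndependent_iff]
      intro g hg i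
      have h1 : B (∑ j, g j • e j) (e i) = 0 := by rw [hg]; simp
      rw [map_sum, LinearMap.sum_apply, Finset.sum_eq_single i] at h1
      · rw [map_smul, LinearMap.smul_apply, hn, smul_eq_mul] at h1
        have h2 : ((D i : ℚ) : K) ≠ 0 := by exact_mod_cast (hD i).ne'
        exact (mul_eq_zero.mp h1).resolve_right h2
      · intro j _ hj
        rw [map_smul, LinearMap.smul_apply, ho j i hj, smul_zero]
      · intro h; exact absurd (Finset.mem_univ _) h
    simpa using hli.fintype_card_le_finrank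
  obtain ⟨r, hr, hr'⟩ : ∃ r, Q r ∧ ¬ Q (r + 1) := by
    by_contra hcon
    push Not at hcon
    have hall : ∀ r, Q r := by
      intro r
      induction r with
      | zero => exact hQ0
      | succ r ih => exact hcon r ih
    have := hbound _ (hall (Module.finrank K M + 1))
    omega
  obtain ⟨e, D, he, hD, hn, ho⟩ := hr
  refine ⟨r, e, D, he, hD, hn, ho, fun x hx => ?_⟩
  choose q hq using fun i => hrat x hx (e i) (he i)
  set x' : M := x - ∑ i, ((q i / D i : ℚ) : K) • e i with hx'
  have hx'P : x' ∈ P := sub_mem hx (sum_mem (fun i _ => hsmul _ _ (he i)))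
  have horth : ∀ i, B x' (e i) = 0 := by
    intro i
    rw [hx', map_sub, LinearMap.sub_apply, map_sum, LinearMap.sum_apply,
      Finset.sum_eq_single i]
    · rw [map_smul, LinearMap.smul_apply, hn, hq, smul_eq_mul]
      have h2 : ((D i : ℚ) : K) ≠ 0 := by exact_mod_cast (hD i).ne'
      push_cast
      field_simp
      ring
    · intro j _ hj
      rw [map_smul, LinearMap.smul_apply, ho j i hj, smul_zero]
    · intro h; exact absurd (Finset.mem_univ _) h
  have hx0 : x' = 0 := by
    by_contra hne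
    apply hr'
    obtain ⟨c, hc, hc'⟩ := hpos x' hx'P hne
    refine ⟨Fin.cons x' e, Fin.cons c D, ?_, ?_, ?_, ?_⟩
    · intro i; refine Fin.cases ?_ (fun i => ?_) i
      · exact hx'P
      · exact he i
    · intro i; refine Fin.cases ?_ (fun i => ?_) i
      · exact hc
      · exact hD i
    · intro i; refine Fin.cases ?_ (fun i => ?_) i
      · simpa using hc'
      · simpa using hn i
    · intro i j
      refine Fin.cases ?_ (fun i => ?_) i
      · refine Fin.cases ?_ (fun j => ?_) j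
        · intro h; exact absurd rfl h
        · intro _; simpa using horth j
      · refine Fin.cases ?_ (fun j => ?_) j
        · intro _
          simp only [Fin.cons_succ, Fin.cons_zero]
          rw [hsym _ (he i) _ hx'P]
          exact horth i
        · intro h
          simp only [Fin.cons_succ]
          exact ho i j (fun h' => h (by rw [h']))
  have : x = ∑ i, ((q i / D i : ℚ) : K) • e i := sub_eq_zero.mp hx0
  rw [this]
  exact Submodule.sum_mem _ (fun i _ => Submodule.smul_mem _ _ (Submodule.subset_span ⟨i, rfl⟩))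

theorem hodgeType_iff (hW : IsWeilCohomology W 𝒱) {X : Sch k} {n : ℕ}
    (hX : 𝒱.mem X n) {ξ : W.coh X} (hξ : ξ ∈ W.alg X 1) :
    (LD hW hX hξ (⊤ : Submodule K (W.coh X)) (fun _ _ => trivial)).HR n ↔ HodgeType W X n ξ := by
  constructor
  · intro h j hj x hx h1 h2
    have h3 := h j hj x ⟨hx, trivial⟩ (by rw [LD_pow]; exact h1) h2
    rw [LD_pow, LD_B, ← mul_assoc, hW.alg_comm hX hx, mul_assoc] at h3
    exact h3
  · intro h j hj x hx h1 h2
    have h3 := h j hj x hx.1 (by rw [LD_pow] at h1; exact h1) h2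
    rw [LD_pow, LD_B, ← mul_assoc, hW.alg_comm hX hx.1, mul_assoc]
    exact h3

section

variable (hW : IsWeilCohomology W 𝒱) {X : Sch k} {n : ℕ}
  (hX : 𝒱.mem X n) {ξ : W.coh X} (hξ : ξ ∈ W.alg X 1)
  (hHT : HodgeType W X n ξ)
  (halg : ∀ i, i ≠ n → W.gr X i ≤ Submodule.span K {x | ∃ j, 2 * j = i ∧ x ∈ W.alg X j})

/-- primitive algebraic classes of codimension `j` -/
noncomputable def prim (W : CohomologyData.{u, v, w} k K) (X : Sch k)
    (n : ℕ) (ξ : W.coh X) (j : ℕ) : AddSubgroup (W.coh X) where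
  carrier := {x | x ∈ W.alg X j ∧ ξ ^ (n - 2 * j + 1) * x = 0}
  add_mem' := by
    rintro x y ⟨hx, hx'⟩ ⟨hy, hy'⟩
    exact ⟨add_mem hx hy, by rw [mul_add, hx', hy', add_zero]⟩
  zero_mem' := ⟨zero_mem _, mul_zero _⟩
  neg_mem' := by
    rintro x ⟨hx, hx'⟩
    exact ⟨neg_mem hx, by rw [mul_neg, hx', neg_zero]⟩

include hW hX hξ hHT in
theorem exists_prim (j : ℕ) (hj : 2 * j ≤ n) :
    ∃ (r : ℕ) (e : Fin r → W.coh X) (D : Fin r → ℚ), (∀ i, e i ∈ prim W X n ξ j) ∧
      (∀ i, 0 < D i) ∧ (∀ i, W.tr X (ξ ^ (n - 2 * j) * (e i * e i)) = (-1) ^ j * (D i : K)) ∧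
      (∀ i i', i ≠ i' → W.tr X (ξ ^ (n - 2 * j) * (e i * e i')) = 0) ∧
      ∀ x ∈ prim W X n ξ j, x ∈ Submodule.span K (Set.range e) := by
  have hfin := hW.finite hX
  have hsq : ((-1 : K) ^ j) * ((-1 : K) ^ j) = 1 := by rw [← mul_pow]; simp
  obtain ⟨r, e, D, h1, h2, h3, h4, h5⟩ := exists_ortho (K := K) (prim W X n ξ j)
    (fun q x hx => ⟨W.alg_smul q hx.1, by rw [mul_smul_comm, hx.2, smul_zero]⟩)
    ((LinearMap.mul K (W.coh X)).compr₂
      (((-1 : K) ^ j) • ((W.tr X) ∘ₗ LinearMap.mulLeft K (ξ ^ (n - 2 * j)))))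
    (fun x hx y _ => by
      simp only [LinearMap.compr₂_apply, LinearMap.mul_apply']
      rw [hW.alg_comm hX hx.1])
    (fun x hx y hy => by
      have h1 := hW.mul_alg hX (hW.pow_alg hX hξ (n - 2 * j)) (hW.mul_alg hX hx.1 hy.1)
      rw [show n - 2 * j + (j + j) = n by omega] at h1
      obtain ⟨q, hq⟩ := hW.tr_alg hX h1
      refine ⟨(-1) ^ j * q, ?_⟩
      simp only [LinearMap.compr₂_apply, LinearMap.mul_apply', LinearMap.smul_apply,
        LinearMap.comp_apply, LinearMap.mulLeft_apply, hq, smul_eq_mul]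
      push_cast; rfl)
    (fun x hx hne => by
      have := hHT j hj x hx.1 hx.2 hne
      simpa only [LinearMap.compr₂_apply, LinearMap.mul_apply', LinearMap.smul_apply,
        LinearMap.comp_apply, LinearMap.mulLeft_apply, smul_eq_mul] using this)
  refine ⟨r, e, D, h1, h2, fun i => ?_, fun i i' hi => ?_, h5⟩
  · have := h3 i
    simp only [LinearMap.compr₂_apply, LinearMap.mul_apply', LinearMap.smul_apply,
      LinearMap.comp_apply, LinearMap.mulLeft_apply, smul_eq_mul] at this
    rw [← this]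
    linear_combination (-(W.tr X (ξ ^ (n - 2 * j) * (e i * e i)))) * hsq
  · have := h4 i i' hi
    simp only [LinearMap.compr₂_apply, LinearMap.mul_apply', LinearMap.smul_apply,
      LinearMap.comp_apply, LinearMap.mulLeft_apply, smul_eq_mul] at this
    have h6 : ((-1 : K) ^ j) ≠ 0 := pow_ne_zero _ (by norm_num)
    exact (mul_eq_zero.mp this).resolve_left h6

end

end Pool.Agent.Lib.MP_361a6f_ag.H3
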