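import Pool.Agent.Lib.MP_361a6f_ag.H3.Eig

/-!
# Permutations of the factors
-/

open CategoryTheory AlgebraicGeometry MonoidalCategory CartesianMonoidalCategory Opposite

universe u v w

set_option linter.unusedSectionVars false

namespace Pool.Agent.Lib.MP_361a6f_ag.H3

variable {k : Type u} [Field k] {K : Type v} [Field K] [CharZero K]
  {W : CohomologyData.{u, v, w} k K} {𝒱 : VarietyClass k}

/-- interchange of two adjacent factors -/
noncomputable def adj (Z X : Sch k) :
    (a : ℕ) → Fin a → (prodPow Z X (a + 1) ≅ prodPow Z X (a + 1))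
  | 0, b => b.elim0
  | a + 1, b => Fin.lastCases (motive := fun _ => (prodPow Z X (a + 2) ≅ prodPow Z X (a + 2)))
      (swap (prodPow Z X a) X) (fun b' => whiskerRightIso (adj Z X a b') X) b

theorem adj_last (Z X : Sch k) (a : ℕ) :
    adj Z X (a + 1) (Fin.last a) = swap (prodPow Z X a) X := by
  rw [adj, Fin.lastCases_last]

theorem adj_castSucc (Z X : Sch k) (a : ℕ) (b : Fin a) :
    adj Z X (a + 1) b.castSucc = whiskerRightIso (adj Z X a b) X := by
  rw [adj, Fin.lastCases_castSucc]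

theorem swap_gen (hW : IsWeilCohomology W 𝒱) {Z X : Sch k} {d n : ℕ}
    (hZ : 𝒱.mem Z d) (hX : 𝒱.mem X n) (y : W.coh Z) {s t : W.coh X} (hs : s ∈ W.gr X n)
    (ht : t ∈ W.gr X n) :
    W.pull (swap Z X).hom (gen W y s t) = (-1 : K) ^ n • gen W y t s := by
  have hZX := 𝒱.prod hZ hX
  have h1 := 𝒱.prod hZX hX
  rw [gen, gen, map_mul (W.pull (swap Z X).hom), map_mul (W.pull (fst (Z ⊗ X) X)),
    map_mul (W.pull (swap Z X).hom), ← W.pull_comp, ← W.pull_comp,
    ← W.pull_comp, ← W.pull_comp, ← W.pull_comp, swap_snd, swap_fst_fst, swap_fst_snd,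
    mul_assoc]
  rw [hW.comm_gr h1 (hW.pull_gr h1 hX (snd (Z ⊗ X) X) hs)
    (hW.pull_gr h1 hX (fst (Z ⊗ X) X ≫ snd Z X) ht), mul_smul_comm, ← mul_assoc,
    W.pull_comp, W.pull_comp, ← map_mul]
  congr 1
  rcases Nat.even_or_odd n with h | h
  · rw [h.neg_one_pow, (h.mul_right n).neg_one_pow]
  · rw [h.neg_one_pow, (h.mul h).neg_one_pow]

namespace Eigen

variable {X : Sch k} {n : ℕ} {T : Submodule K (W.coh X)} {F : X ⟶ X}
  {Q : K} {I : Type} [Fintype I] [DecidableEq I] (ε : Eigen W X n T F Q I)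
  (hW : IsWeilCohomology W 𝒱) (hX : 𝒱.mem X n)

theorem eI_gen (a : ℕ) (J : Fin (a + 2) → I) :
    ε.eI (a + 2) J = gen W (ε.eI a (Fin.init (Fin.init J))) (ε.e (J (Fin.last a).castSucc))
      (ε.e (J (Fin.last (a + 1)))) := rfl

include hW hX in
theorem adj_eI (a : ℕ) (b : Fin a) (J : Fin (a + 1) → I) :
    W.pull (adj (𝟙_ (Sch k)) X a b).hom (ε.eI (a + 1) J)
      = (-1 : K) ^ n • ε.eI (a + 1) (J ∘ Equiv.swap b.castSucc b.succ) := by
  induction a with
  | zero => exact b.elim0
  | succ a ih =>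
    have h1 := prodPow_mem 𝒱.point hX a
    refine Fin.lastCases ?_ (fun b' => ?_) b
    · rw [adj_last]
      have e1 := swap_gen hW h1 hX (ε.eI a (Fin.init (Fin.init J)))
        (ε.e_gr (J (Fin.last a).castSucc)) (ε.e_gr (J (Fin.last (a + 1))))
      refine e1.trans ?_
      rw [eI_gen]
      congr 2
      · congr 1
        funext c
        simp only [Fin.init, Function.comp_apply]
        rw [Equiv.swap_apply_of_ne_of_ne]
        · intro h
          have := congrArg Fin.val h
          simp at this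
          omega
        · intro h
          have := congrArg Fin.val h
          simp at this
          omega
      · simp only [Function.comp_apply]
        rw [Equiv.swap_apply_left, Fin.succ_last]
      · simp only [Function.comp_apply]
        rw [← Fin.succ_last, Equiv.swap_apply_right]
    · rw [adj_castSucc]
      have e1 : W.pull (whiskerRightIso (adj (𝟙_ (Sch k)) X a b') X).hom
          (ε.eI (a + 1 + 1) J)
          = W.pull (fst (prodPow (𝟙_ (Sch k)) X (a + 1)) X)
              (W.pull (adj (𝟙_ (Sch k)) X a b').hom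
                (ε.eI (a + 1) (Fin.init J))) *
            W.pull (snd (prodPow (𝟙_ (Sch k)) X (a + 1)) X)
              (ε.e (J (Fin.last (a + 1)))) := pull_whisker _ _ _
      refine e1.trans ?_
      rw [ih b' (Fin.init J), map_smul, smul_mul_assoc]
      congr 1
      have e2 : ε.eI (a + 1 + 1) (J ∘ Equiv.swap b'.castSucc.castSucc b'.castSucc.succ)
          = W.pull (fst (prodPow (𝟙_ (Sch k)) X (a + 1)) X)
            (ε.eI (a + 1) (Fin.init (J ∘ Equiv.swap b'.castSucc.castSucc b'.castSucc.succ))) *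
            W.pull (snd (prodPow (𝟙_ (Sch k)) X (a + 1)) X)
              (ε.e ((J ∘ Equiv.swap b'.castSucc.castSucc b'.castSucc.succ) (Fin.last (a + 1)))) :=
        rfl
      rw [e2]
      congr 2
      · congr 1
        funext c
        simp only [Fin.init, Function.comp_apply]
        congr 1
        rw [Fin.succ_castSucc]
        by_cases hc1 : c = b'.castSucc
        · rw [hc1, Equiv.swap_apply_left, Equiv.swap_apply_left]
        · by_cases hc2 : c = b'.succ
          · rw [hc2, Equiv.swap_apply_right, Equiv.swap_apply_right]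
          · rw [Equiv.swap_apply_of_ne_of_ne hc1 hc2, Equiv.swap_apply_of_ne_of_ne]
            · intro h; exact hc1 (Fin.castSucc_injective _ h)
            · intro h; exact hc2 (Fin.castSucc_injective _ h)
      · congr 1
        simp only [Function.comp_apply]
        rw [Equiv.swap_apply_of_ne_of_ne]
        · intro h
          have := congrArg Fin.val h
          simp at this
          omega
        · intro h
          have := congrArg Fin.val h
          simp at this
          omega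

include hW hX in
theorem adj_inv_eI (a : ℕ) (b : Fin a) (J : Fin (a + 1) → I) :
    W.pull (adj (𝟙_ (Sch k)) X a b).inv (ε.eI (a + 1) J)
      = (-1 : K) ^ n • ε.eI (a + 1) (J ∘ Equiv.swap b.castSucc b.succ) := by
  have h1 := ε.adj_eI hW hX a b (J ∘ Equiv.swap b.castSucc b.succ)
  have h2 := congrArg (W.pull (adj (𝟙_ (Sch k)) X a b).inv) h1
  rw [← W.pull_comp, Iso.inv_hom_id, W.pull_id, map_smul] at h2
  have h3 : (J ∘ Equiv.swap b.castSucc b.succ) ∘ Equiv.swap b.castSucc b.succ = J := by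
    funext c
    simp
  rw [h3] at h2
  rw [h2, smul_smul, ← mul_pow]
  simp

include ε hW hX in
theorem adj_tpow (a : ℕ) (b : Fin a)
    {z : W.coh (prodPow (𝟙_ (Sch k)) X (a + 1))}
    (hz : z ∈ tpow W (⊤ : Submodule K (W.coh (𝟙_ (Sch k)))) T (a + 1)) :
    W.pull (adj (𝟙_ (Sch k)) X a b).hom z
      ∈ tpow W (⊤ : Submodule K (W.coh (𝟙_ (Sch k)))) T (a + 1) := by
  refine Submodule.span_induction (p := fun z _ =>
    W.pull (adj (𝟙_ (Sch k)) X a b).hom z
      ∈ tpow W (⊤ : Submodule K (W.coh (𝟙_ (Sch k)))) T (a + 1))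
      ?_ ?_ ?_ ?_ (ε.tpow_span hW (a + 1) z hz)
  · rintro _ ⟨J, rfl⟩
    rw [ε.adj_eI hW hX]
    exact Submodule.smul_mem _ _ (ε.eI_mem _ _)
  · rw [map_zero]; exact zero_mem _
  · intro p q _ _ hp hq
    rw [map_add]; exact add_mem hp hq
  · intro c p _ hp
    rw [map_smul]; exact Submodule.smul_mem _ _ hp

include hW hX in
theorem co_adj (a : ℕ) (b : Fin a)
    (z : W.coh (prodPow (𝟙_ (Sch k)) X (a + 1))) (J : Fin (a + 1) → I) :
    ε.co (a + 1) (W.pull (adj (𝟙_ (Sch k)) X a b).hom z) J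
      = (-1) ^ n * ε.co (a + 1) z (J ∘ Equiv.swap b.castSucc b.succ) := by
  have h1 := prodPow_mem 𝒱.point hX (a + 1)
  have e1 : W.pull (adj (𝟙_ (Sch k)) X a b).hom z * ε.eI (a + 1) J
      = W.pull (adj (𝟙_ (Sch k)) X a b).hom
        (z * W.pull (adj (𝟙_ (Sch k)) X a b).inv (ε.eI (a + 1) J)) := by
    rw [map_mul, ← W.pull_comp, Iso.hom_inv_id, W.pull_id]
  rw [co, co, e1, hW.tr_iso h1 h1, ε.adj_inv_eI hW hX, mul_smul_comm, map_smul, smul_eq_mul]

/-- reality of the coordinates of algebraic classes -/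
def Good (ι : K →+* ℂ) (a : ℕ) (J : Fin a → I) : Prop :=
  ∀ j, 2 * j = a * n → ∀ z ∈ W.alg (prodPow (𝟙_ (Sch k)) X a) j,
    z ∈ tpow W (⊤ : Submodule K (W.coh (𝟙_ (Sch k)))) T a →
    starRingEnd ℂ (ι (ε.co a z J)) = (-1) ^ (n * (a / 2)) * ι (ε.co a z (ε.ν ∘ J))

include hW hX in
theorem Good.adj {ι : K →+* ℂ} {a : ℕ} {J : Fin (a + 1) → I} (h : ε.Good ι (a + 1) J)
    (b : Fin a) : ε.Good ι (a + 1) (J ∘ Equiv.swap b.castSucc b.succ) := by
  intro j hj z hz hzT
  have h1 := prodPow_mem 𝒱.point hX (a + 1)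
  have h2 := h j hj (W.pull (H3.adj (𝟙_ (Sch k)) X a b).hom z)
    (hW.pull_alg h1 h1 _ hz) (ε.adj_tpow hW hX a b hzT)
  rw [ε.co_adj hW hX, ε.co_adj hW hX, map_mul, map_mul, map_mul, map_pow, map_pow, map_neg,
    map_neg, map_one, map_one] at h2
  have h3 : ((-1 : ℂ) ^ n) * (-1) ^ n = 1 := by rw [← mul_pow]; simp
  have h4 : ((-1 : ℂ) ^ n) ≠ 0 := pow_ne_zero _ (by norm_num)
  have h5 : (ε.ν ∘ J) ∘ Equiv.swap b.castSucc b.succ
      = ε.ν ∘ (J ∘ Equiv.swap b.castSucc b.succ) := rfl
  rw [h5] at h2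
  apply mul_left_cancel₀ h4
  rw [h2]
  ring

include hW hX in
theorem Good.perm {ι : K →+* ℂ} {a : ℕ} {J : Fin a → I} (h : ε.Good ι a J)
    (τ : Equiv.Perm (Fin a)) : ε.Good ι a (J ∘ τ) := by
  cases a with
  | zero =>
    have : J ∘ τ = J := Subsingleton.elim _ _
    rw [this]; exact h
  | succ a =>
    have hτ : τ ∈ Submonoid.closure
        (Set.range fun i : Fin a => Equiv.swap i.castSucc i.succ) := by
      rw [Equiv.Perm.mclosure_swap_castSucc_succ]; trivial
    have key : ∀ J : Fin (a + 1) → I, ε.Good ι (a + 1) J → ε.Good ι (a + 1) (J ∘ τ) := by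
      refine Submonoid.closure_induction (motive := fun (τ : Equiv.Perm (Fin (a + 1))) _ =>
        ∀ J : Fin (a + 1) → I, ε.Good ι (a + 1) J → ε.Good ι (a + 1) (J ∘ τ)) ?_ ?_ ?_ hτ
      · rintro _ ⟨b, rfl⟩ J hJ
        exact Good.adj ε hW hX hJ b
      · intro J hJ
        exact hJ
      · intro τ₁ τ₂ _ _ h1 h2 J hJ
        have := h2 (J ∘ τ₁) (h1 J hJ)
        exact this
    exact key J h

end Eigen

end Pool.Agent.Lib.MP_361a6f_ag.H3
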