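import Pool.Agent.Lib.MP_361a6f_ag.H3.Frob

/-!
# Positivity on the tensor powers of the transcendental part
-/

open CategoryTheory AlgebraicGeometry MonoidalCategory CartesianMonoidalCategory Opposite

universe u v w

set_option linter.unusedSectionVars false

namespace Pool.Agent.Lib.MP_361a6f_ag.H3

variable {k : Type u} [Field k] {K : Type v} [Field K] [CharZero K]
  {W : CohomologyData.{u, v, w} k K} {𝒱 : VarietyClass k}

namespace Eigen

variable {X : Sch k} {n : ℕ} {T : Submodule K (W.coh X)} {F : X ⟶ X}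
  {Q : K} {I : Type} [Fintype I] [DecidableEq I] (ε : Eigen W X n T F Q I)
  (hW : IsWeilCohomology W 𝒱) (hX : 𝒱.mem X n) (ι : K →+* ℂ)
  (hconj : ∀ i, starRingEnd ℂ (ι (ε.α i)) = ι (ε.α (ε.ν i)))

theorem sg_conj (i : I) : starRingEnd ℂ (ι (ε.sg i)) = ι (ε.sg i) := by
  unfold sg
  split_ifs
  · simp
  · rw [map_pow, map_neg, map_one, map_pow, map_neg, map_one]

include hW hX hconj in
theorem good_step {a : ℕ} (h : ∀ J' : Fin a → I, ε.Good ι a J') (J' : Fin a → I) (l : I) :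
    ε.Good ι (a + 2) (Fin.snoc (Fin.snoc J' (ε.ν l) : Fin (a + 1) → I) l : Fin (a + 2) → I) := by
  intro j hj z hz hzT
  have h1 := prodPow_mem 𝒱.point hX a
  have hjn : n ≤ j := by
    have : (a + 2) * n = a * n + 2 * n := by ring
    rw [this] at hj
    have h2 : a * n ≥ 0 := Nat.zero_le _
    omega
  obtain ⟨j', rfl⟩ : ∃ j', j = j' + n := ⟨j - n, by omega⟩
  have hj' : 2 * j' = a * n := by
    have : (a + 2) * n = a * n + 2 * n := by ring
    omega
  -- the relations
  have hrel : ∀ c : ℕ, ∑ m, ι (ε.α m) ^ c *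
      (ι (ε.sg (ε.ν m)) * starRingEnd ℂ (ι (ε.co (a + 2) z
        (Fin.snoc (Fin.snoc J' (ε.ν m) : Fin (a + 1) → I) m : Fin (a + 2) → I)))
      - (-1) ^ (n * (a / 2)) * (ι (ε.sg m) * ι (ε.co (a + 2) z
        (Fin.snoc (Fin.snoc (ε.ν ∘ J') m : Fin (a + 1) → I) (ε.ν m) : Fin (a + 2) → I)))) = 0 := by
    intro c
    have hγ := graph'_alg hW hX (iterHom F c)
    have hca : contrI W (graph' W (iterHom F c)) a z ∈ W.alg _ j' :=
      (contr_alg hW h1 hX hγ hz).1 j' rfl
    have hcT := ε.contrI_tpow hW hX (graph' W (iterHom F c)) a hzT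
    have h3 := h J' j' hj' _ hca hcT
    rw [ε.co_contr hW hX c a hzT, ε.co_contr hW hX c a hzT] at h3
    rw [map_mul, map_mul, map_mul, map_pow, map_pow, map_neg, map_neg, map_one, map_one,
      map_sum, map_sum, map_sum] at h3
    have h4 : ∑ m, starRingEnd ℂ (ι (ε.α m ^ c * (ε.sg m * ε.co (a + 2) z
        (Fin.snoc (Fin.snoc J' m : Fin (a + 1) → I) (ε.ν m) : Fin (a + 2) → I))))
        = ∑ m, ι (ε.α m) ^ c * (ι (ε.sg (ε.ν m)) * starRingEnd ℂ (ι (ε.co (a + 2) z
        (Fin.snoc (Fin.snoc J' (ε.ν m) : Fin (a + 1) → I) m : Fin (a + 2) → I)))) := by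
      refine Finset.sum_bij' (fun m _ => ε.ν m) (fun m _ => ε.ν m) ?_ ?_ ?_ ?_ ?_
      · intro m _; exact Finset.mem_univ _
      · intro m _; exact Finset.mem_univ _
      · intro m _; exact ε.ν_ν m
      · intro m _; exact ε.ν_ν m
      · intro m _
        simp only [map_mul, map_pow]
        rw [hconj, ε.sg_conj, ε.ν_ν]
    rw [h4] at h3
    have hs : ((-1 : ℂ) ^ n) ≠ 0 := pow_ne_zero _ (by norm_num)
    have h5 : ∑ m, ι (ε.α m) ^ c * (ι (ε.sg (ε.ν m)) * starRingEnd ℂ (ι (ε.co (a + 2) z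
        (Fin.snoc (Fin.snoc J' (ε.ν m) : Fin (a + 1) → I) m : Fin (a + 2) → I))))
        = (-1) ^ (n * (a / 2)) * ∑ m, ι (ε.α m ^ c * (ε.sg m * ε.co (a + 2) z
        (Fin.snoc (Fin.snoc (ε.ν ∘ J') m : Fin (a + 1) → I) (ε.ν m) : Fin (a + 2) → I))) := by
      apply mul_left_cancel₀ hs
      rw [h3]
      ring
    simp only [mul_sub]
    rw [Finset.sum_sub_distrib, h5, Finset.mul_sum, sub_eq_zero]
    refine Finset.sum_congr rfl (fun m _ => ?_)
    rw [map_mul, map_mul, map_pow]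
    ring
  have hinj : Function.Injective (fun m => ι (ε.α m)) := fun x y hxy =>
    ε.α_inj (ι.injective hxy)
  have h6 := coeff_eq_zero hinj hrel l
  have e1 : ε.ν ∘ (Fin.snoc (Fin.snoc J' (ε.ν l) : Fin (a + 1) → I) l : Fin (a + 2) → I)
      = (Fin.snoc (Fin.snoc (ε.ν ∘ J') l : Fin (a + 1) → I) (ε.ν l) : Fin (a + 2) → I) := by
    rw [Fin.comp_snoc, Fin.comp_snoc, ε.ν_ν]
  rw [e1]
  obtain ⟨A, hA⟩ : ∃ A, starRingEnd ℂ (ι (ε.co (a + 2) z
        (Fin.snoc (Fin.snoc J' (ε.ν l) : Fin (a + 1) → I) l : Fin (a + 2) → I))) = A := ⟨_, rfl⟩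
  obtain ⟨B, hB⟩ : ∃ B, ι (ε.co (a + 2) z
        (Fin.snoc (Fin.snoc (ε.ν ∘ J') l : Fin (a + 1) → I) (ε.ν l) : Fin (a + 2) → I)) = B :=
    ⟨_, rfl⟩
  rw [hA, hB] at h6 ⊢
  have h7 : ι (ε.sg l) * ι (ε.sg l) = 1 := by rw [← map_mul, ε.sg_sq, map_one]
  have h8 : ι (ε.sg l) * ι (ε.sg (ε.ν l)) = (-1) ^ n := by
    rw [← map_mul, ε.sg_ν, map_pow, map_neg, map_one]
  have h9 : ((-1 : ℂ) ^ n) * (-1) ^ n = 1 := by rw [← mul_pow]; simp
  rw [show n * ((a + 2) / 2) = n * (a / 2) + n by rw [Nat.add_div_right _ (by norm_num)]; ring,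
    pow_add]
  -- multiply the relation by the sign
  have h10 : (-1) ^ n * A = (-1) ^ (n * (a / 2)) * B := by
    have h11 : ι (ε.sg l) * (ι (ε.sg (ε.ν l)) * A - (-1) ^ (n * (a / 2)) * (ι (ε.sg l) * B))
        = 0 := by rw [h6, mul_zero]
    linear_combination h11 + (-A) * h8 + ((-1) ^ (n * (a / 2)) * B) * h7
  linear_combination ((-1) ^ n) * h10 + (-A) * h9

variable {q : ℕ} (hq : 0 < q) (hF : IsFrobenius W n F q)
  (hind : ∀ (a : ℕ) (J : Fin a → I) (s c : ℕ), 0 < s →
      (∏ b, ε.α (J b)) ^ s = (q : K) ^ c → ε.Bal J)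

theorem Bal.ν {a : ℕ} {J : Fin a → I} (h : ε.Bal J) : ε.Bal (ε.ν ∘ J) := by
  have e1 : ∀ i, (Finset.univ.filter (fun b => (ε.ν ∘ J) b = i))
      = Finset.univ.filter (fun b => J b = ε.ν i) := by
    intro i
    ext b
    simp only [Finset.mem_filter, Finset.mem_univ, true_and, Function.comp_apply]
    constructor
    · intro hb; rw [← hb, ε.ν_ν]
    · intro hb; rw [hb, ε.ν_ν]
  intro i
  rw [e1, e1, ε.ν_ν]
  exact (h i).symm

include hW hX hconj hq hF hind in
theorem good_all (a : ℕ) : ∀ J : Fin a → I, ε.Good ι a J := by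
  induction a using Nat.strong_induction_on with
  | _ a ih =>
    intro J
    by_cases hJ : ε.Bal J
    · rcases Nat.eq_zero_or_pos a with ha | ha
      · subst ha
        intro j hj z hz _
        have hj0 : j = 0 := by omega
        subst hj0
        obtain ⟨r, hr⟩ := hW.tr_alg 𝒱.point hz
        have e1 : ∀ J : Fin 0 → I, ε.co 0 z J = r := by
          intro J
          rw [← hr, co]
          exact congrArg _ (mul_one z)
        rw [e1, e1]
        simp
      · obtain ⟨a₁, rfl⟩ : ∃ a₁, a = a₁ + 1 := ⟨a - 1, by omega⟩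
        -- a partner of the last index
        have h1 : 0 < (Finset.univ.filter (fun b => J b = ε.ν (J (Fin.last a₁)))).card := by
          rw [← hJ (J (Fin.last a₁))]
          exact Finset.card_pos.mpr ⟨Fin.last a₁, by simp⟩
        obtain ⟨b, hb⟩ := Finset.card_pos.mp h1
        simp only [Finset.mem_filter, Finset.mem_univ, true_and] at hb
        have hbl : b ≠ Fin.last a₁ := by
          rintro rfl
          exact ε.ν_ne _ hb.symm
        have ha₁ : 0 < a₁ := by
          rcases Nat.eq_zero_or_pos a₁ with h | h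
          · subst h
            exact absurd (Fin.ext (by have := b.isLt; simp)) hbl
          · exact h
        obtain ⟨a₂, rfl⟩ : ∃ a₂, a₁ = a₂ + 1 := ⟨a₁ - 1, by omega⟩
        set τ : Equiv.Perm (Fin (a₂ + 1 + 1)) := Equiv.swap b (Fin.last a₂).castSucc with hτ
        have hne1 : Fin.last (a₂ + 1) ≠ b := fun h => hbl h.symm
        have hne2 : Fin.last (a₂ + 1) ≠ (Fin.last a₂).castSucc := by
          intro h
          have := congrArg Fin.val h
          simp at this
        have e2 : (J ∘ τ) (Fin.last (a₂ + 1)) = J (Fin.last (a₂ + 1)) := by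
          rw [Function.comp_apply, hτ, Equiv.swap_apply_of_ne_of_ne hne1 hne2]
        have e3 : (J ∘ τ) (Fin.last a₂).castSucc = ε.ν (J (Fin.last (a₂ + 1))) := by
          rw [Function.comp_apply, hτ, Equiv.swap_apply_right, hb]
        have e4 : J ∘ τ = (Fin.snoc (Fin.snoc (Fin.init (Fin.init (J ∘ τ)))
            (ε.ν (J (Fin.last (a₂ + 1)))) : Fin (a₂ + 1) → I) (J (Fin.last (a₂ + 1))) :
            Fin (a₂ + 2) → I) := by
          have e5 : Fin.init (J ∘ τ) = (Fin.snoc (Fin.init (Fin.init (J ∘ τ)))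
            (ε.ν (J (Fin.last (a₂ + 1)))) : Fin (a₂ + 1) → I) := by
            rw [← e3]
            exact (Fin.snoc_init_self (Fin.init (J ∘ τ))).symm
          rw [← e5, ← e2]
          exact (Fin.snoc_init_self (J ∘ τ)).symm
        have h2 : ε.Good ι (a₂ + 2) (J ∘ τ) := by
          rw [e4]
          exact ε.good_step hW hX ι hconj (fun J' => ih a₂ (by omega) J') _ _
        have h3 := Good.perm ε hW hX h2 τ
        have e6 : (J ∘ τ) ∘ τ = J := by
          funext c
          simp [hτ]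
        rw [e6] at h3
        exact h3
    · intro j hj z hz _
      have h1 : ε.co a z J = 0 := by
        by_contra h
        exact hJ (ε.co_bal hW hX hq hF hind hj hz h)
      have h2 : ε.co a z (ε.ν ∘ J) = 0 := by
        by_contra h
        have h3 := Bal.ν ε (ε.co_bal hW hX hq hF hind hj hz h)
        have h4 : ε.ν ∘ (ε.ν ∘ J) = J := by
          funext c
          simp [ε.ν_ν]
        rw [h4] at h3
        exact hJ h3
      rw [h1, h2]
      simp

include ε hW hX in
theorem tpow_gr (a : ℕ) {z : W.coh (prodPow (𝟙_ (Sch k)) X a)}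
    (hz : z ∈ tpow W (⊤ : Submodule K (W.coh (𝟙_ (Sch k)))) T a) :
    z ∈ W.gr _ (a * n) := by
  refine Submodule.span_induction (p := fun z _ => z ∈ W.gr _ (a * n)) ?_ ?_ ?_ ?_
    (ε.tpow_span hW a z hz)
  · rintro _ ⟨J, rfl⟩
    exact ε.eI_gr hW hX a J
  · exact zero_mem _
  · intro p r _ _ hp hr; exact add_mem hp hr
  · intro c p _ hp; exact Submodule.smul_mem _ _ hp

include hW hX hconj hq hF hind in
/-- positivity on the tensor powers -/
theorem pos_main (a j : ℕ) (hj : 2 * j = a * n)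
    {z : W.coh (prodPow (𝟙_ (Sch k)) X a)}
    (hz : z ∈ W.alg _ j)
    (hzT : z ∈ tpow W (⊤ : Submodule K (W.coh (𝟙_ (Sch k)))) T a)
    (hne : z ≠ 0) : RatPos ((-1) ^ j * W.tr _ (z * z)) := by
  have h1 := prodPow_mem 𝒱.point hX a
  -- some coordinate is nonzero
  obtain ⟨J₀, hJ₀⟩ : ∃ J₀, ε.co a z J₀ ≠ 0 := by
    by_contra hcon
    push Not at hcon
    apply hne
    rw [ε.expand hW hX a hzT]
    refine Finset.sum_eq_zero (fun J _ => ?_)
    rw [hcon, zero_div, zero_smul]
  have hbal := ε.co_bal hW hX hq hF hind hj hz hJ₀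
  -- `a` is even
  obtain ⟨r, hr⟩ : ∃ r, a = 2 * r := ⟨_, (ε.card_pos hbal).symm⟩
  have hjr : j = n * (a / 2) := by
    rw [hr, Nat.mul_div_cancel_left _ (by norm_num)]
    have : 2 * j = 2 * (n * r) := by rw [hj, hr]; ring
    omega
  -- the trace is rational
  have h2 := hW.mul_alg h1 hz hz
  rw [show j + j = 0 + a * n by omega] at h2
  obtain ⟨t, ht⟩ := hW.tr_alg h1 h2
  -- the trace in coordinates
  have h3 := ε.tr_expand hW hX a j hzT hz
  have h4 : (((-1) ^ j * t : ℚ) : ℂ) = ((∑ J, Complex.normSq (ι (ε.co a z J)) : ℝ) : ℂ) := by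
    have h5 : ι (W.tr _ (z * z)) = (t : ℂ) := by
      rw [ht]
      exact map_ratCast ι t
    have h6 : ι (W.tr _ (z * z)) = (-1) ^ j * ((∑ J, Complex.normSq (ι (ε.co a z J)) : ℝ) : ℂ) := by
      rw [h3, map_sum]
      push_cast
      rw [Finset.mul_sum]
      refine Finset.sum_congr rfl (fun J _ => ?_)
      by_cases hJ : ε.co a z J = 0
      · rw [hJ]; simp
      · have hb := ε.co_bal hW hX hq hF hind hj hz hJ
        rw [ε.nm_bal hb, div_one, map_mul]
        have hg := ε.good_all hW hX ι hconj hq hF hind a J j hj z hz hzT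
        rw [Complex.normSq_eq_conj_mul_self, hg, ← hjr]
        have h7 : ((-1 : ℂ) ^ j) * (-1) ^ j = 1 := by rw [← mul_pow]; simp
        linear_combination (-(ι (ε.co a z (ε.ν ∘ J)) * ι (ε.co a z J))) * h7
    have h8 : ((-1 : ℂ) ^ j) * (-1) ^ j = 1 := by rw [← mul_pow]; simp
    rw [h5] at h6
    push_cast at h6 ⊢
    rw [h6, ← mul_assoc, h8, one_mul]
  have h9 : 0 < ∑ J, Complex.normSq (ι (ε.co a z J)) := by
    refine Finset.sum_pos' (fun J _ => Complex.normSq_nonneg _) ⟨J₀, Finset.mem_univ _, ?_⟩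
    rw [Complex.normSq_pos]
    intro h
    exact hJ₀ ((map_eq_zero ι).mp h)
  refine ⟨(-1) ^ j * t, ?_, ?_⟩
  · have h10 : (((-1) ^ j * t : ℚ) : ℝ) = ∑ J, Complex.normSq (ι (ε.co a z J)) := by
      have h11 : ((((-1) ^ j * t : ℚ) : ℝ) : ℂ)
          = ((∑ J, Complex.normSq (ι (ε.co a z J)) : ℝ) : ℂ) := by
        rw [← h4]; push_cast; ring
      exact_mod_cast h11
    rw [← h10] at h9
    exact_mod_cast h9
  · rw [ht]; push_cast; ring

include hW hX hconj hq hF hind in
theorem hts_all (a : ℕ) :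
    HTS W (prodPow (𝟙_ (Sch k)) X a) (0 + a * n)
      (prodPol W (0 : W.coh (𝟙_ (Sch k))) (fun _ => (0 : W.coh X)) a)
      (tpow W (⊤ : Submodule K (W.coh (𝟙_ (Sch k)))) T a) := by
  intro j hj z hz hzT _ hne
  have h1 := prodPow_mem 𝒱.point hX a
  have hj2 : 2 * j = a * n := by
    by_contra hcon
    apply hne
    refine hW.duality h1 _ (fun y => ?_)
    refine hW.hom_induction h1 (P := fun y => W.tr _ (z * y) = 0) y ?_ ?_ ?_
    · intro m y hy
      by_cases hm : a * n + m = 2 * (0 + a * n)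
      · exact hW.tr_gr h1 (hW.mul_gr h1 (hW.alg_gr h1 hz) hy) (by omega)
      · exact hW.tr_gr h1 (hW.mul_gr h1 (ε.tpow_gr hW hX a hzT) hy) hm
    · simp
    · intro p r hp hr
      rw [mul_add, map_add, hp, hr, add_zero]
  have h2 := ε.pos_main hW hX ι hconj hq hF hind a j hj2 hz hzT hne
  rw [show 0 + a * n - 2 * j = 0 by omega, pow_zero, one_mul]
  exact h2

end Eigen

end Pool.Agent.Lib.MP_361a6f_ag.H3
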