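import Pool.Agent.Lib.MP_361a6f_ag.H3.RealX
import Pool.Agent.Lib.MP_361a6f_ag.H3.DefsPow

/-!
# Algebraic classes on powers are real
-/

open CategoryTheory AlgebraicGeometry MonoidalCategory CartesianMonoidalCategory Opposite

universe u v w

set_option linter.unusedSectionVars false

namespace Pool.Agent.Lib.MP_361a6f_ag.H3

section

variable {k : Type u} [Field k] {W : CohomologyData.{u, 0, w} k ℂ} {𝒱 : VarietyClass k}
  {X : Sch k} {n : ℕ} (hW : IsWeilCohomology W 𝒱) (hX : 𝒱.mem X n)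

/-- A real structure on `H(X)` for which algebraic classes on `X` and on `X × X` are real. -/
structure GoodRS (W : CohomologyData.{u, 0, w} k ℂ) (X : Sch k) (n : ℕ) where
  R : RS W X
  alg : ∀ j, ∀ a ∈ W.alg X j, R.j a = a
  mem : ∀ t ∈ trans W X n, R.j t ∈ trans W X n
  bil : ∀ m, ∀ γ ∈ W.alg (X ⊗ X) m, ∀ s ∈ trans W X n, ∀ t ∈ trans W X n,
    bil W γ (R.j s) (R.j t) = starRingEnd ℂ (bil W γ s t)
  surj : Function.Surjective R.j

variable (R : GoodRS W X n)

include hW hX in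
theorem real_tr2 {Y : Sch k} {e : ℕ} (hY : 𝒱.mem Y e) {j : ℕ} {a : W.coh Y}
    (ha : a ∈ W.alg Y j) : starRingEnd ℂ (W.tr Y a) = W.tr Y a := by
  by_cases h : j = e
  · subst h
    obtain ⟨q, hq⟩ := hW.tr_alg hY ha
    rw [hq]
    simp
  · rw [hW.tr_gr hY (hW.alg_gr hY ha) (by omega), map_zero]

include hW hX in
theorem push_trans {f : X ⊗ X ⟶ X} {m : ℕ} {γ : W.coh (X ⊗ X)} (hγ : γ ∈ W.alg (X ⊗ X) m)
    {t : W.coh X} (ht : t ∈ trans W X n) : W.tr X (t * W.push f γ) = 0 := by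
  have hXX := 𝒱.prod hX hX
  by_cases hm : n ≤ m
  · exact ht.2 (m - n) _ (hW.push_alg hXX hX f hγ (by omega))
  · rw [hW.push_zero hXX hX f (hW.alg_gr hXX hγ) (by omega), mul_zero, map_zero]

variable (hsup : perpT (trans W X n) ⊔ trans W X n = ⊤)

include hW hX hsup in
theorem GoodRS.bil_all {m : ℕ} {γ : W.coh (X ⊗ X)} (hγ : γ ∈ W.alg (X ⊗ X) m) (x y : W.coh X) :
    Pool.Agent.Lib.MP_361a6f_ag.H3.bil W γ (R.R.j x) (R.R.j y)
      = starRingEnd ℂ (Pool.Agent.Lib.MP_361a6f_ag.H3.bil W γ x y) := by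
  have hXX := 𝒱.prod hX hX
  have hat : ∀ {i : ℕ} {a t : W.coh X}, a ∈ W.alg X i → t ∈ trans W X n →
      Pool.Agent.Lib.MP_361a6f_ag.H3.bil W γ a t = 0 := by
    intro i a t ha ht
    have h1 := hW.mul_alg hXX (hW.pull_alg hXX hX (fst X X) ha) hγ
    rw [← act_tr hW hX hγ, act]
    have h2 : W.push (snd X X) (W.pull (fst X X) a * γ) * t
        = t * W.push (snd X X) (W.pull (fst X X) a * γ) := by
      by_cases hm : n ≤ i + m
      · exact hW.alg_comm hX (hW.push_alg hXX hX (snd X X) (i := i + m) (j := i + m - n) h1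
          (by omega)) t
      · rw [hW.push_zero hXX hX (snd X X) (hW.alg_gr hXX h1) (by omega), zero_mul, mul_zero]
    rw [h2]
    exact push_trans hW hX h1 ht
  have hta : ∀ {i : ℕ} {a t : W.coh X}, a ∈ W.alg X i → t ∈ trans W X n →
      Pool.Agent.Lib.MP_361a6f_ag.H3.bil W γ t a = 0 := by
    intro i a t ha ht
    have h1 := hW.mul_alg hXX (hW.pull_alg hXX hX (snd X X) ha) hγ
    rw [Pool.Agent.Lib.MP_361a6f_ag.H3.bil, mul_assoc, ← tr_mul_push_fst hW hX]
    exact push_trans hW hX h1 ht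
  refine AT_induction hsup (P := fun x => Pool.Agent.Lib.MP_361a6f_ag.H3.bil W γ (R.R.j x)
    (R.R.j y) = starRingEnd ℂ (Pool.Agent.Lib.MP_361a6f_ag.H3.bil W γ x y)) x ?_ ?_ ?_ ?_
  · intro i a ha
    refine AT_induction hsup (P := fun y => Pool.Agent.Lib.MP_361a6f_ag.H3.bil W γ (R.R.j a)
      (R.R.j y) = starRingEnd ℂ (Pool.Agent.Lib.MP_361a6f_ag.H3.bil W γ a y)) y ?_ ?_ ?_ ?_
    · intro j c hc
      rw [R.alg i a ha, R.alg j c hc, Pool.Agent.Lib.MP_361a6f_ag.H3.bil]
      exact (real_tr2 hW hX hXX (hW.mul_alg hXX (hW.mul_alg hXX (hW.pull_alg hXX hX _ ha)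
        (hW.pull_alg hXX hX _ hc)) hγ)).symm
    · intro t ht
      rw [R.alg i a ha, hat ha ht, hat ha (R.mem t ht), map_zero]
    · intro p q hp hq
      rw [map_add, bil_add_right, hp, hq, bil_add_right, map_add]
    · intro c p hp
      rw [LinearMap.map_smulₛₗ, bil_smul_right, hp, bil_smul_right, map_mul]
  · intro s hs
    refine AT_induction hsup (P := fun y => Pool.Agent.Lib.MP_361a6f_ag.H3.bil W γ (R.R.j s)
      (R.R.j y) = starRingEnd ℂ (Pool.Agent.Lib.MP_361a6f_ag.H3.bil W γ s y)) y ?_ ?_ ?_ ?_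
    · intro i a ha
      rw [R.alg i a ha, hta ha hs, hta ha (R.mem s hs), map_zero]
    · intro t ht
      exact R.bil m γ hγ s hs t ht
    · intro p q hp hq
      rw [map_add, bil_add_right, hp, hq, bil_add_right, map_add]
    · intro c p hp
      rw [LinearMap.map_smulₛₗ, bil_smul_right, hp, bil_smul_right, map_mul]
  · intro p q hp hq
    rw [map_add, bil_add_left, hp, hq, bil_add_left, map_add]
  · intro c p hp
    rw [LinearMap.map_smulₛₗ, bil_smul_left, hp, bil_smul_left, map_mul]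

include hW hX hsup in
/-- algebraic classes on the square are real -/
theorem GoodRS.fixed (P : RS W (X ⊗ X)) (hP : ∀ y x, P.j (W.pull (fst X X) y *
    W.pull (snd X X) x) = W.pull (fst X X) (R.R.j y) * W.pull (snd X X) (R.R.j x))
    {m : ℕ} {γ : W.coh (X ⊗ X)} (hγ : γ ∈ W.alg (X ⊗ X) m) : P.j γ = γ := by
  have hXX := 𝒱.prod hX hX
  have h1 : ∀ w, W.tr _ (γ * P.j w) = starRingEnd ℂ (W.tr _ (γ * w)) := by
    intro w
    refine prod_induction hW hX hX (P := fun w => W.tr _ (γ * P.j w)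
      = starRingEnd ℂ (W.tr _ (γ * w))) w ?_ ?_ ?_ ?_
    · intro y x
      rw [hP, hW.alg_comm hXX hγ, hW.alg_comm hXX hγ]
      exact R.bil_all hW hX hsup hγ y x
    · simp
    · intro p q hp hq
      rw [map_add, mul_add, map_add, hp, hq, mul_add, map_add, map_add]
    · intro c p hp
      rw [LinearMap.map_smulₛₗ, mul_smul_comm, map_smul, hp, mul_smul_comm, map_smul,
        smul_eq_mul, smul_eq_mul, RingHom.map_mul]
  have hsurj : ∀ w, ∃ w', P.j w' = w := by
    intro w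
    refine prod_induction hW hX hX (P := fun w => ∃ w', P.j w' = w) w ?_ ?_ ?_ ?_
    · intro y x
      obtain ⟨y', rfl⟩ := R.surj y
      obtain ⟨x', rfl⟩ := R.surj x
      exact ⟨_, hP y' x'⟩
    · exact ⟨0, map_zero _⟩
    · rintro _ _ ⟨p, rfl⟩ ⟨q, rfl⟩
      exact ⟨p + q, map_add _ _ _⟩
    · rintro c _ ⟨p, rfl⟩
      refine ⟨starRingEnd ℂ c • p, ?_⟩
      rw [LinearMap.map_smulₛₗ, Complex.conj_conj]
  rw [← sub_eq_zero]
  refine hW.duality hXX _ (fun w => ?_)
  obtain ⟨w', rfl⟩ := hsurj w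
  rw [sub_mul, map_sub, ← P.mul, P.tr, h1, sub_self]

/-- the real structures on the powers of `X` -/
structure PowRS (W : CohomologyData.{u, 0, w} k ℂ) (X : Sch k) (R : RS W X) where
  P : (a : ℕ) → RS W (prodPow (𝟙_ (Sch k)) X a)
  gen : ∀ a y x, (P (a + 1)).j (W.pull (fst (prodPow (𝟙_ (Sch k)) X a) X) y
        * W.pull (snd (prodPow (𝟙_ (Sch k)) X a) X) x)
      = W.pull (fst (prodPow (𝟙_ (Sch k)) X a) X) ((P a).j y)
        * W.pull (snd (prodPow (𝟙_ (Sch k)) X a) X) (R.j x)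

variable {R₀ : RS W X} (P : PowRS W X R₀)

theorem PowRS.fst (a : ℕ) (y : W.coh (prodPow (𝟙_ (Sch k)) X a)) :
    (P.P (a + 1)).j (W.pull (CartesianMonoidalCategory.fst (prodPow (𝟙_ (Sch k)) X a) X) y)
      = W.pull (CartesianMonoidalCategory.fst (prodPow (𝟙_ (Sch k)) X a) X) ((P.P a).j y) := by
  have h := P.gen a y 1
  rwa [R₀.one, map_one, mul_one, mul_one] at h

theorem PowRS.snd (a : ℕ) (x : W.coh X) :
    (P.P (a + 1)).j (W.pull (CartesianMonoidalCategory.snd (prodPow (𝟙_ (Sch k)) X a) X) x)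
      = W.pull (CartesianMonoidalCategory.snd (prodPow (𝟙_ (Sch k)) X a) X) (R₀.j x) := by
  have h := P.gen a 1 x
  rwa [(P.P a).one, map_one, one_mul, one_mul] at h

theorem powPr_last (a : ℕ) : powPr X (a + 1) (Fin.last a)
    = CartesianMonoidalCategory.snd (prodPow (𝟙_ (Sch k)) X a) X := by
  simp only [powPr, Fin.lastCases_last]

theorem powPr_castSucc (a : ℕ) (i : Fin a) : powPr X (a + 1) i.castSucc
    = CartesianMonoidalCategory.fst (prodPow (𝟙_ (Sch k)) X a) X ≫ powPr X a i := by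
  simp only [powPr, Fin.lastCases_castSucc]
  rfl

theorem PowRS.proj (a : ℕ) (i : Fin a) (x : W.coh X) :
    (P.P a).j (W.pull (powPr X a i) x) = W.pull (powPr X a i) (R₀.j x) := by
  induction a with
  | zero => exact i.elim0
  | succ a ih =>
    refine Fin.lastCases ?_ (fun i => ?_) i
    · rw [powPr_last]
      exact P.snd a x
    · rw [powPr_castSucc]
      have e1 : W.pull (CartesianMonoidalCategory.fst (prodPow (𝟙_ (Sch k)) X a) X
          ≫ powPr X a i) x = W.pull (CartesianMonoidalCategory.fst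
            (prodPow (𝟙_ (Sch k)) X a) X) (W.pull (powPr X a i) x) := W.pull_comp _ _ _
      have e2 : W.pull (CartesianMonoidalCategory.fst (prodPow (𝟙_ (Sch k)) X a) X
          ≫ powPr X a i) (R₀.j x) = W.pull (CartesianMonoidalCategory.fst
            (prodPow (𝟙_ (Sch k)) X a) X) (W.pull (powPr X a i) (R₀.j x)) := W.pull_comp _ _ _
      have e3 := P.fst a (W.pull (powPr X a i) x)
      rw [ih i] at e3
      exact (congrArg (P.P (a + 1)).j e1).trans (e3.trans e2.symm)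

include hW hX in
theorem PowRS.pair (S : RS W (X ⊗ X)) (hS : ∀ y x, S.j (W.pull
    (CartesianMonoidalCategory.fst X X) y * W.pull (CartesianMonoidalCategory.snd X X) x)
      = W.pull (CartesianMonoidalCategory.fst X X) (R₀.j y)
        * W.pull (CartesianMonoidalCategory.snd X X) (R₀.j x))
    (a : ℕ) (i l : Fin a) (γ : W.coh (X ⊗ X)) :
    (P.P a).j (W.pull (powPr₂ X a i l) γ) = W.pull (powPr₂ X a i l) (S.j γ) := by
  have e : ∀ y x : W.coh X, W.pull (powPr₂ X a i l) (W.pull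
      (CartesianMonoidalCategory.fst X X) y * W.pull (CartesianMonoidalCategory.snd X X) x)
      = W.pull (powPr X a i) y * W.pull (powPr X a l) x := by
    intro y x
    rw [map_mul, ← W.pull_comp, ← W.pull_comp]
    congr 3
    · simp [powPr₂]
    · simp [powPr₂]
  refine prod_induction hW hX hX (P := fun γ => (P.P a).j (W.pull (powPr₂ X a i l) γ)
    = W.pull (powPr₂ X a i l) (S.j γ)) γ ?_ ?_ ?_ ?_
  · intro y x
    rw [hS, e, e, (P.P a).mul, P.proj, P.proj]
  · simp
  · intro p q hp hq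
    rw [map_add, map_add, hp, hq, map_add, map_add]
  · intro c p hp
    rw [map_smul, LinearMap.map_smulₛₗ, hp, LinearMap.map_smulₛₗ, map_smul]

/-- the real algebraic classes on a power -/
def RealAlg (P : PowRS W X R₀) (a : ℕ) : Set (W.coh (prodPow (𝟙_ (Sch k)) X a)) :=
  {w | (P.P a).j w = w ∧ ∃ j, w ∈ W.alg _ j}

include hW hX in
/-- the subalgebra generated by the square classes is spanned by real algebraic classes -/
theorem adjoin_le (hsq : ∀ a w, SquareClass W X a w → (P.P a).j w = w) (a : ℕ)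
    {z : W.coh (prodPow (𝟙_ (Sch k)) X a)}
    (hz : z ∈ Algebra.adjoin ℂ {w | SquareClass W X a w}) :
    z ∈ Submodule.span ℂ (RealAlg P a) := by
  have h1 := prodPow_mem 𝒱.point hX a
  have hz' : z ∈ Subalgebra.toSubmodule (Algebra.adjoin ℂ {w | SquareClass W X a w}) := hz
  rw [Algebra.adjoin_eq_span] at hz'
  refine Submodule.span_mono ?_ hz'
  intro w hw
  have hw' : w ∈ Submonoid.closure {w | SquareClass W X a w} := hw
  clear hw
  induction hw' using Submonoid.closure_induction with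
  | mem w hw =>
    have hw2 : SquareClass W X a w := hw
    refine ⟨hsq a w hw2, ?_⟩
    obtain ⟨i, l, j, γ, hγ, rfl⟩ := hw2
    exact ⟨j, hW.pull_alg h1 (𝒱.prod hX hX) _ hγ⟩
  | one => exact ⟨(P.P a).one, 0, hW.one_alg h1⟩
  | mul x y _ _ hx hy =>
    obtain ⟨hx, i, hx'⟩ := hx
    obtain ⟨hy, j, hy'⟩ := hy
    exact ⟨by rw [(P.P a).mul, hx, hy], i + j, hW.mul_alg h1 hx' hy'⟩

end

end Pool.Agent.Lib.MP_361a6f_ag.H3
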