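import Pool.Agent.Lib.MP_361a6f_ag.H3.Real2

/-!
# Positivity on the tensor powers of the transcendental part
-/

open CategoryTheory AlgebraicGeometry MonoidalCategory CartesianMonoidalCategory Opposite

universe u v w

set_option linter.unusedSectionVars false

namespace Pool.Agent.Lib.MP_361a6f_ag.H3

section

variable {k : Type u} [Field k] {W : CohomologyData.{u, 0, w} k ℂ} {𝒱 : VarietyClass k}
  {X : Sch k} {n : ℕ} (hW : IsWeilCohomology W 𝒱) (hX : 𝒱.mem X n)

/-- an orthogonal basis of `T` -/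
structure OrthBasis (W : CohomologyData.{u, 0, w} k ℂ) (X : Sch k) (n : ℕ)
    (R : RS W X) (δ : ℂ) (I : Type) [Fintype I] [DecidableEq I] where
  e : I → W.coh X
  mem : ∀ i, e i ∈ trans W X n
  span : trans W X n ≤ Submodule.span ℂ (Set.range e)
  pair : ∀ i l, W.tr X (e i * R.j (e l)) = if i = l then δ else 0

/-- products of basis vectors -/
noncomputable def eJ {I : Type} (e : I → W.coh X) :
    (a : ℕ) → (Fin a → I) → W.coh (prodPow (𝟙_ (Sch k)) X a)
  | 0, _ => 1
  | a + 1, J => W.pull (fst (prodPow (𝟙_ (Sch k)) X a) X)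
      (eJ e a (Fin.init J)) *
      W.pull (snd (prodPow (𝟙_ (Sch k)) X a) X) (e (J (Fin.last a)))

/-- the sign of the form on `T^{⊗ a}` -/
def sgn (n : ℕ) (δ : ℂ) : ℕ → ℂ
  | 0 => 1
  | a + 1 => (-1) ^ (n * (a * n)) * (sgn n δ a * δ)

theorem sgn_ne {δ : ℂ} (hδ : δ * δ = 1) (a : ℕ) : sgn n δ a ≠ 0 := by
  have hδ0 : δ ≠ 0 := by
    intro h
    rw [h, mul_zero] at hδ
    exact zero_ne_one hδ
  induction a with
  | zero => exact one_ne_zero
  | succ a ih => exact mul_ne_zero (pow_ne_zero _ (by norm_num)) (mul_ne_zero ih hδ0)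

theorem sgn_even {δ : ℂ} (hδ : δ * δ = 1) (b : ℕ) : sgn n δ (2 * b) = (-1) ^ (n * b) := by
  induction b with
  | zero => rfl
  | succ b ih =>
    have e : sgn n δ (2 * (b + 1)) = (-1) ^ (n * ((2 * b + 1) * n))
        * ((-1) ^ (n * (2 * b * n)) * (sgn n δ (2 * b) * δ) * δ) := rfl
    rw [e, ih]
    have e1 : (-1 : ℂ) ^ (n * (2 * b * n)) = 1 := by
      rw [show n * (2 * b * n) = 2 * (n * b * n) by ring, pow_mul]; simp
    have e2 : (-1 : ℂ) ^ (n * ((2 * b + 1) * n)) = (-1) ^ n := by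
      rw [show n * ((2 * b + 1) * n) = 2 * (n * b * n) + n * n by ring, pow_add, pow_mul]
      have e3 : (-1 : ℂ) ^ (n * n) = (-1) ^ n := by
        rcases Nat.even_or_odd n with h | h
        · rw [h.neg_one_pow, (h.mul_right n).neg_one_pow]
        · rw [h.neg_one_pow, (h.mul h).neg_one_pow]
      rw [e3]; simp
    rw [e1, e2, show n * (b + 1) = n * b + n by ring, pow_add]
    linear_combination ((-1 : ℂ) ^ n * (-1) ^ (n * b)) * hδ

variable {I : Type} [Fintype I] [DecidableEq I] {R : RS W X} {δ : ℂ}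
  (E : OrthBasis W X n R δ I)

include hW hX in
theorem eJ_gr (a : ℕ) (J : Fin a → I) :
    eJ E.e a J ∈ W.gr (prodPow (𝟙_ (Sch k)) X a) (a * n) := by
  induction a with
  | zero =>
    rw [zero_mul]
    exact hW.one_gr 𝒱.point
  | succ a ih =>
    have h1 := prodPow_mem 𝒱.point hX a
    have h2 := 𝒱.prod h1 hX
    have h3 := hW.mul_gr h2 (hW.pull_gr h2 h1 (fst _ X) (ih (Fin.init J)))
      (hW.pull_gr h2 hX (snd _ X) (E.mem (J (Fin.last a))).1)
    rw [show (a + 1) * n = a * n + n by ring]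
    exact h3

include hW in
theorem tpow_eJ (a : ℕ) :
    ∀ z ∈ tpow W (⊤ : Submodule ℂ (W.coh (𝟙_ (Sch k)))) (trans W X n) a,
      z ∈ Submodule.span ℂ (Set.range (eJ E.e a)) := by
  induction a with
  | zero =>
    intro z _
    obtain ⟨c, hc⟩ := hW.point_coh z
    rw [hc]
    exact Submodule.smul_mem _ _ (Submodule.subset_span ⟨Fin.elim0, rfl⟩)
  | succ a ih =>
    intro z hz
    have key : ∀ z ∈ tens W (tpow W
        (⊤ : Submodule ℂ (W.coh (𝟙_ (Sch k)))) (trans W X n) a) (trans W X n),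
        z ∈ Submodule.span ℂ (Set.range (eJ E.e (a + 1))) := by
      intro z hz
      refine Submodule.span_induction (p := fun z _ =>
        z ∈ Submodule.span ℂ (Set.range (eJ E.e (a + 1)))) ?_ ?_ ?_ ?_ hz
      · rintro _ ⟨y, hy, t, ht, rfl⟩
        have ht' := E.span ht
        refine Submodule.span_induction (p := fun t _ =>
          W.pull (fst (prodPow (𝟙_ (Sch k)) X a) X) y *
          W.pull (snd (prodPow (𝟙_ (Sch k)) X a) X) t ∈
            Submodule.span ℂ (Set.range (eJ E.e (a + 1)))) ?_ ?_ ?_ ?_ ht'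
        · rintro _ ⟨i, rfl⟩
          refine Submodule.span_induction (p := fun y _ =>
            W.pull (fst (prodPow (𝟙_ (Sch k)) X a) X) y *
            W.pull (snd (prodPow (𝟙_ (Sch k)) X a) X) (E.e i) ∈
              Submodule.span ℂ (Set.range (eJ E.e (a + 1)))) ?_ ?_ ?_ ?_ (ih y hy)
          · rintro _ ⟨J, rfl⟩
            refine Submodule.subset_span ⟨(Fin.snoc J i : Fin (a + 1) → I), ?_⟩
            rw [eJ, Fin.init_snoc, Fin.snoc_last]
          · rw [map_zero, zero_mul]; exact zero_mem _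
          · intro p q _ _ hp hq
            rw [map_add, add_mul]; exact add_mem hp hq
          · intro c p _ hp
            rw [map_smul, smul_mul_assoc]; exact Submodule.smul_mem _ _ hp
        · rw [map_zero, mul_zero]; exact zero_mem _
        · intro p q _ _ hp hq
          rw [map_add, mul_add]; exact add_mem hp hq
        · intro c p _ hp
          rw [map_smul, mul_smul_comm]; exact Submodule.smul_mem _ _ hp
      · exact zero_mem _
      · intro p q _ _ hp hq; exact add_mem hp hq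
      · intro c p _ hp; exact Submodule.smul_mem _ _ hp
    exact key z hz

variable (P : PowRS W X R)

include hW hX in
theorem eJ_tr (a : ℕ) (J J' : Fin a → I) :
    W.tr _ (eJ E.e a J * (P.P a).j (eJ E.e a J')) = if J = J' then sgn n δ a else 0 := by
  induction a with
  | zero =>
    rw [if_pos (Subsingleton.elim _ _)]
    have e1 : (P.P 0).j (eJ E.e 0 J') = 1 := (P.P 0).one
    rw [e1]
    change W.tr (𝟙_ (Sch k)) (1 * 1) = 1
    rw [one_mul, hW.point_tr]
  | succ a ih =>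
    have h1 := prodPow_mem 𝒱.point hX a
    have e1 : (P.P (a + 1)).j (eJ E.e (a + 1) J')
        = W.pull (fst (prodPow (𝟙_ (Sch k)) X a) X) ((P.P a).j (eJ E.e a (Fin.init J')))
          * W.pull (snd (prodPow (𝟙_ (Sch k)) X a) X) (R.j (E.e (J' (Fin.last a)))) :=
      P.gen a _ _
    rw [e1]
    have h2 := Eigen.tr_sign hW h1 hX (E.mem (J (Fin.last a))).1 (R.j (E.e (J' (Fin.last a))))
      ((P.P a).gr _ _ (eJ_gr hW hX E a (Fin.init J'))) (eJ E.e a (Fin.init J))
    refine h2.trans ?_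
    rw [ih, E.pair]
    by_cases h3 : Fin.init J = Fin.init J'
    · by_cases h4 : J (Fin.last a) = J' (Fin.last a)
      · have h5 : J = J' := by
          funext b
          refine Fin.lastCases ?_ (fun c => ?_) b
          · exact h4
          · exact congrFun h3 c
        rw [if_pos h3, if_pos h4, if_pos h5, sgn]
      · rw [if_neg h4, mul_zero, mul_zero, if_neg]
        intro h5
        exact h4 (by rw [h5])
    · rw [if_neg h3, zero_mul, mul_zero, if_neg]
      intro h5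
      exact h3 (by rw [h5])

include hW hX E in
/-- the form is definite on `T^{⊗ a}` -/
theorem pos_tpow (a : ℕ) {z : W.coh (prodPow (𝟙_ (Sch k)) X a)}
    (hz : z ∈ tpow W (⊤ : Submodule ℂ (W.coh (𝟙_ (Sch k)))) (trans W X n) a) :
    ∃ r : ℝ, 0 ≤ r ∧ W.tr _ (z * (P.P a).j z) = sgn n δ a * r ∧ (r = 0 → z = 0) := by
  classical
  obtain ⟨c, hc⟩ := (Submodule.mem_span_range_iff_exists_fun ℂ).mp (tpow_eJ hW E a z hz)
  refine ⟨∑ J, Complex.normSq (c J), Finset.sum_nonneg (fun J _ => Complex.normSq_nonneg _),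
    ?_, ?_⟩
  · rw [← hc, map_sum, Finset.sum_mul, map_sum]
    have e1 : ∀ J, W.tr _ (c J • eJ E.e a J * ∑ J', (P.P a).j (c J' • eJ E.e a J'))
        = sgn n δ a * (Complex.normSq (c J) : ℂ) := by
      intro J
      rw [smul_mul_assoc, map_smul, Finset.mul_sum, map_sum, Finset.sum_eq_single J]
      · rw [LinearMap.map_smulₛₗ, mul_smul_comm, map_smul, eJ_tr hW hX E P, if_pos rfl,
          smul_eq_mul, smul_eq_mul, ← Complex.mul_conj]
        ring
      · intro J' _ hJ'
        rw [LinearMap.map_smulₛₗ, mul_smul_comm, map_smul, eJ_tr hW hX E P,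
          if_neg (Ne.symm hJ'), smul_zero]
      · intro h; exact absurd (Finset.mem_univ _) h
    rw [Finset.sum_congr rfl (fun J _ => e1 J), ← Finset.mul_sum]
    push_cast
    rfl
  · intro h
    have h1 := (Finset.sum_eq_zero_iff_of_nonneg (fun J _ => Complex.normSq_nonneg (c J))).mp h
    rw [← hc]
    refine Finset.sum_eq_zero (fun J hJ => ?_)
    rw [Complex.normSq_eq_zero.mp (h1 J hJ), zero_smul]

theorem Q_tens {Y : Sch k} {Q : RS W (Y ⊗ X)} {R₁ : RS W Y}
    (hQ : ∀ y x, Q.j (W.pull (fst Y X) y * W.pull (snd Y X) x)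
      = W.pull (fst Y X) (R₁.j y) * W.pull (snd Y X) (R.j x))
    {S : Submodule ℂ (W.coh Y)} {T : Submodule ℂ (W.coh X)} (hS : ∀ y ∈ S, R₁.j y ∈ S)
    (hT : ∀ t ∈ T, R.j t ∈ T) : ∀ z ∈ tens W S T, Q.j z ∈ tens W S T := by
  intro z hz
  refine Submodule.span_induction (p := fun z _ => Q.j z ∈ tens W S T) ?_ ?_ ?_ ?_ hz
  · rintro _ ⟨y, hy, t, ht, rfl⟩
    rw [hQ]
    exact mem_tens (hS y hy) (hT t ht)
  · rw [map_zero]; exact zero_mem _
  · intro p q _ _ hp hq
    rw [map_add]; exact add_mem hp hq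
  · intro c p _ hp
    rw [LinearMap.map_smulₛₗ]; exact Submodule.smul_mem _ _ hp

theorem P_tpow (hmem : ∀ t ∈ trans W X n, R.j t ∈ trans W X n) (a : ℕ) :
    ∀ z ∈ tpow W (⊤ : Submodule ℂ (W.coh (𝟙_ (Sch k)))) (trans W X n) a,
      (P.P a).j z ∈ tpow W (⊤ : Submodule ℂ (W.coh (𝟙_ (Sch k)))) (trans W X n) a := by
  induction a with
  | zero => intro z _; trivial
  | succ a ih => exact Q_tens (P.gen a) ih hmem

theorem Q_neg {Y : Sch k} {Q Q' : RS W (Y ⊗ X)} {R₁ R₁' : RS W Y} {R' : RS W X}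
    (hQ : ∀ y x, Q.j (W.pull (fst Y X) y * W.pull (snd Y X) x)
      = W.pull (fst Y X) (R₁.j y) * W.pull (snd Y X) (R.j x))
    (hQ' : ∀ y x, Q'.j (W.pull (fst Y X) y * W.pull (snd Y X) x)
      = W.pull (fst Y X) (R₁'.j y) * W.pull (snd Y X) (R'.j x))
    {S : Submodule ℂ (W.coh Y)} {T : Submodule ℂ (W.coh X)} {c : ℂ}
    (hS : ∀ y ∈ S, R₁'.j y = c • R₁.j y)
    (hT : ∀ t ∈ T, R'.j t = - R.j t) : ∀ z ∈ tens W S T, Q'.j z = (c * (-1)) • Q.j z := by
  intro z hz
  refine Submodule.span_induction (p := fun z _ => Q'.j z = (c * (-1)) • Q.j z) ?_ ?_ ?_ ?_ hz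
  · rintro _ ⟨y, hy, t, ht, rfl⟩
    rw [hQ, hQ', hS y hy, hT t ht, map_smul, map_neg, smul_mul_assoc, mul_neg,
      mul_smul, neg_smul, one_smul]
  · simp
  · intro p q _ _ hp hq
    rw [map_add, hp, hq, map_add, smul_add]
  · intro d p _ hp
    rw [LinearMap.map_smulₛₗ, hp, LinearMap.map_smulₛₗ, smul_comm]

/-- the real structure of a point is complex conjugation -/
theorem RS.point (Q : RS W (𝟙_ (Sch k))) (c : ℂ) :
    Q.j (c • (1 : W.coh (𝟙_ (Sch k)))) = starRingEnd ℂ c • (1 : W.coh _) := by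
  rw [LinearMap.map_smulₛₗ, Q.one]

include hW hX E in
/-- algebraic classes in the span of the real algebraic classes are real -/
theorem real_of_span (hδ : δ * δ = 1) (hmem : ∀ t ∈ trans W X n, R.j t ∈ trans W X n)
    {a j : ℕ} {z : W.coh (prodPow (𝟙_ (Sch k)) X a)} (hz : z ∈ W.alg _ j)
    (hzT : z ∈ tpow W (⊤ : Submodule ℂ (W.coh (𝟙_ (Sch k)))) (trans W X n) a)
    (hzU : z ∈ Submodule.span ℂ (RealAlg P a)) : (P.P a).j z = z := by
  have h1 := prodPow_mem 𝒱.point hX a
  have hPs : ∀ x ∈ Submodule.span ℂ (RealAlg P a),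
      (P.P a).j x ∈ Submodule.span ℂ (RealAlg P a) := by
    intro x hx
    refine Submodule.span_induction (p := fun x _ => (P.P a).j x ∈
      Submodule.span ℂ (RealAlg P a)) ?_ ?_ ?_ ?_ hx
    · intro w hw
      rw [hw.1]
      exact Submodule.subset_span hw
    · rw [map_zero]; exact zero_mem _
    · intro p q _ _ hp hq
      rw [map_add]; exact add_mem hp hq
    · intro c p _ hp
      rw [LinearMap.map_smulₛₗ]; exact Submodule.smul_mem _ _ hp
  have hu : ∀ w ∈ Submodule.span ℂ (RealAlg P a), W.tr _ (((P.P a).j z - z) * w) = 0 := by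
    intro w hw
    refine Submodule.span_induction (p := fun w _ => W.tr _ (((P.P a).j z - z) * w) = 0)
      ?_ ?_ ?_ ?_ hw
    · rintro w ⟨hw, i, hw'⟩
      have e1 : (P.P a).j z * w = (P.P a).j (z * w) := by
        rw [(P.P a).mul, hw]
      rw [sub_mul, map_sub, e1, (P.P a).tr, real_tr2 hW hX h1 (hW.mul_alg h1 hz hw'), sub_self]
    · simp
    · intro p q _ _ hp hq
      rw [mul_add, map_add, hp, hq, add_zero]
    · intro c p _ hp
      rw [mul_smul_comm, map_smul, hp, smul_zero]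
  have huU : (P.P a).j z - z ∈ Submodule.span ℂ (RealAlg P a) := sub_mem (hPs z hzU) hzU
  obtain ⟨r, _, hr2, hr3⟩ := pos_tpow hW hX E P a
    (z := (P.P a).j z - z) (sub_mem (P_tpow P hmem a z hzT) hzT)
  rw [hu _ (hPs _ huU)] at hr2
  have hr : r = 0 := by
    have := (mul_eq_zero.mp hr2.symm).resolve_left (sgn_ne hδ a)
    exact_mod_cast this
  exact sub_eq_zero.mp (hr3 hr)

include hW in
theorem P_neg {R' : RS W X} (P' : PowRS W X R') (hneg : ∀ t ∈ trans W X n, R'.j t = - R.j t)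
    (a : ℕ) : ∀ z ∈ tpow W (⊤ : Submodule ℂ (W.coh (𝟙_ (Sch k)))) (trans W X n) a,
      (P'.P a).j z = (-1 : ℂ) ^ a • (P.P a).j z := by
  induction a with
  | zero =>
    intro z _
    obtain ⟨c, hc⟩ := hW.point_coh z
    have e1 := RS.point (P'.P 0) c
    have e2 := RS.point (P.P 0) c
    rw [hc, pow_zero, one_smul]
    exact e1.trans e2.symm
  | succ a ih => exact Q_neg (P.gen a) (P'.gen a) ih hneg

include hW hX E in
/-- positivity on algebraic classes in `T^{⊗ a}` -/
theorem pos_alg {R' : RS W X} {δ' : ℂ} (E' : OrthBasis W X n R' δ' I) (P' : PowRS W X R')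
    (hδ : δ * δ = 1) (hδ' : δ' * δ' = 1)
    (hneg : ∀ t ∈ trans W X n, R'.j t = - R.j t)
    (hmem : ∀ t ∈ trans W X n, R.j t ∈ trans W X n)
    {a j : ℕ} (hj : 2 * j = a * n) {z : W.coh (prodPow (𝟙_ (Sch k)) X a)} (hz : z ∈ W.alg _ j)
    (hzT : z ∈ tpow W (⊤ : Submodule ℂ (W.coh (𝟙_ (Sch k)))) (trans W X n) a)
    (hzU : z ∈ Submodule.span ℂ (RealAlg P a)) (hzU' : z ∈ Submodule.span ℂ (RealAlg P' a))
    (hne : z ≠ 0) : RatPos ((-1) ^ j * W.tr _ (z * z)) := by
  have h1 := prodPow_mem 𝒱.point hX a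
  have hP := real_of_span hW hX E P hδ hmem hz hzT hzU
  have hP' := real_of_span hW hX E' P' hδ' (fun t ht => by
    rw [hneg t ht]; exact neg_mem (hmem t ht)) hz hzT hzU'
  have hneg' := P_neg hW P P' hneg a z hzT
  rw [hP, hP'] at hneg'
  rcases Nat.even_or_odd' a with ⟨c, hc | hc⟩
  · subst hc
    obtain ⟨r, hr1, hr2, hr3⟩ := pos_tpow hW hX E P (2 * c) hzT
    rw [hP, sgn_even hδ c] at hr2
    have hr0 : 0 < r := lt_of_le_of_ne hr1 (fun h => hne (hr3 h.symm))
    have hjc : j = n * c := by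
      have : 2 * j = 2 * (n * c) := by rw [hj]; ring
      omega
    have h2 := hW.mul_alg h1 hz hz
    rw [show j + j = 0 + 2 * c * n by omega] at h2
    obtain ⟨t, ht⟩ := hW.tr_alg h1 h2
    have h8 : ((-1 : ℂ) ^ j) * (-1) ^ j = 1 := by rw [← mul_pow]; simp
    have h4 : ((-1 : ℂ) ^ j) * (t : ℂ) = (r : ℂ) := by
      rw [← ht, hr2, hjc, ← mul_assoc]
      rw [hjc] at h8
      rw [h8, one_mul]
    have h5 : (((-1) ^ j * t : ℚ) : ℝ) = r := by
      have : (((((-1) ^ j * t : ℚ) : ℝ)) : ℂ) = ((r : ℝ) : ℂ) := by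
        rw [← h4]; push_cast; ring
      exact_mod_cast this
    refine ⟨(-1) ^ j * t, ?_, ?_⟩
    · have : (0 : ℝ) < (((-1) ^ j * t : ℚ) : ℝ) := by rw [h5]; exact hr0
      exact_mod_cast this
    · rw [ht]; push_cast; ring
  · exfalso
    apply hne
    have hodd : (-1 : ℂ) ^ a = -1 := by rw [hc, pow_succ, pow_mul]; simp
    rw [hodd, neg_smul, one_smul] at hneg'
    have h2 : (2 : ℂ) • z = 0 := by
      rw [two_smul]
      nth_rewrite 1 [hneg']
      exact neg_add_cancel z
    exact (smul_eq_zero.mp h2).resolve_left (by norm_num)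

end

end Pool.Agent.Lib.MP_361a6f_ag.H3
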