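import Pool.Agent.Lib.MP_361a6f_ag.H3.MatTr
import Pool.Agent.Lib.MP_361a6f_ag.H3.RealStr

/-!
# The real structure on the cohomology of `X`
-/

open CategoryTheory AlgebraicGeometry MonoidalCategory CartesianMonoidalCategory Opposite

universe u v w

set_option linter.unusedSectionVars false

namespace Pool.Agent.Lib.MP_361a6f_ag.H3

/-- a semilinear map with prescribed values on a basis -/
theorem exists_semi_of_basis {V ι : Type*} [AddCommGroup V] [Module ℂ V] [Fintype ι]
    (B : Module.Basis ι ℂ V) (f : ι → V) :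
    ∃ J : V →ₛₗ[starRingEnd ℂ] V, ∀ i, J (B i) = f i := by
  classical
  let j : V →ₛₗ[starRingEnd ℂ] V :=
    { toFun := fun z => ∑ p, starRingEnd ℂ (B.repr z p) • f p
      map_add' := fun z z' => by
        rw [← Finset.sum_add_distrib]
        refine Finset.sum_congr rfl (fun p _ => ?_)
        rw [map_add, Finsupp.add_apply, map_add, add_smul]
      map_smul' := fun c z => by
        rw [Finset.smul_sum]
        refine Finset.sum_congr rfl (fun p _ => ?_)
        rw [map_smul, Finsupp.smul_apply, smul_eq_mul, map_mul, smul_smul] }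
  refine ⟨j, fun p => ?_⟩
  have hj : ∀ z, j z = ∑ p, starRingEnd ℂ (B.repr z p) • f p := fun z => rfl
  rw [hj, Finset.sum_eq_single p]
  · rw [Module.Basis.repr_self, Finsupp.single_eq_same, map_one, one_smul]
  · intro q _ hq
    rw [Module.Basis.repr_self, Finsupp.single_eq_of_ne hq, map_zero, zero_smul]
  · intro h; exact absurd (Finset.mem_univ _) h

section

variable {k : Type u} [Field k] {W : CohomologyData.{u, 0, w} k ℂ} {𝒱 : VarietyClass k}
  {X : Sch k} {n : ℕ} (hW : IsWeilCohomology W 𝒱) (hX : 𝒱.mem X n)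

/-- the span of all algebraic classes -/
def algSpan (W : CohomologyData.{u, 0, w} k ℂ) (X : Sch k) : Submodule ℂ (W.coh X) :=
  Submodule.span ℂ {a | ∃ j, a ∈ W.alg X j}

theorem perpT_le : perpT (trans W X n) ≤ algSpan W X :=
  Submodule.span_mono (fun _ ⟨j, hj, _⟩ => ⟨j, hj⟩)

include hW hX in
theorem real_tr {j m : ℕ} {a c : W.coh X} (ha : a ∈ W.alg X j) (hc : c ∈ W.alg X m) :
    starRingEnd ℂ (W.tr X (a * c)) = W.tr X (a * c) := by
  by_cases h : j + m = n
  · have h1 := hW.mul_alg hX ha hc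
    rw [h] at h1
    obtain ⟨q, hq⟩ := hW.tr_alg hX h1
    rw [hq]
    simp
  · rw [hW.tr_gr hX (hW.alg_gr hX (hW.mul_alg hX ha hc)) (by omega), map_zero]

include hW hX in
theorem algSpan_comm {x : W.coh X} (hx : x ∈ algSpan W X) (y : W.coh X) : x * y = y * x := by
  refine Submodule.span_induction (p := fun x _ => x * y = y * x) ?_ ?_ ?_ ?_ hx
  · rintro a ⟨j, ha⟩
    exact hW.alg_comm hX ha y
  · simp
  · intro p q _ _ hp hq
    rw [add_mul, mul_add, hp, hq]
  · intro c p _ hp
    rw [smul_mul_assoc, mul_smul_comm, hp]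

theorem trans_algSpan {t : W.coh X} (ht : t ∈ trans W X n) {x : W.coh X}
    (hx : x ∈ algSpan W X) : W.tr X (t * x) = 0 := by
  refine Submodule.span_induction (p := fun x _ => W.tr X (t * x) = 0) ?_ ?_ ?_ ?_ hx
  · rintro a ⟨j, ha⟩
    exact ht.2 j a ha
  · simp
  · intro p q _ _ hp hq
    rw [mul_add, map_add, hp, hq, add_zero]
  · intro c p _ hp
    rw [mul_smul_comm, map_smul, hp, smul_zero]

variable (hsup : perpT (trans W X n) ⊔ trans W X n = ⊤)

include hsup in
theorem algSpan_sup : algSpan W X ⊔ trans W X n = ⊤ := by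
  rw [eq_top_iff, ← hsup]
  exact sup_le_sup_right perpT_le _

include hW hX hsup in
theorem algSpan_nondeg {x : W.coh X} (hx : x ∈ algSpan W X)
    (h : ∀ j, ∀ a ∈ W.alg X j, W.tr X (x * a) = 0) : x = 0 := by
  refine hW.duality hX _ (fun y => ?_)
  have hy : y ∈ algSpan W X ⊔ trans W X n := by rw [algSpan_sup hsup]; trivial
  obtain ⟨a, ha, t, ht, rfl⟩ := Submodule.mem_sup.mp hy
  rw [mul_add, map_add, algSpan_comm hW hX hx t, trans_algSpan ht hx, add_zero]
  refine Submodule.span_induction (p := fun a _ => W.tr X (x * a) = 0) ?_ ?_ ?_ ?_ ha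
  · rintro a ⟨j, ha⟩
    exact h j a ha
  · simp
  · intro p q _ _ hp hq
    rw [mul_add, map_add, hp, hq, add_zero]
  · intro c p _ hp
    rw [mul_smul_comm, map_smul, hp, smul_zero]

include hW hX hsup in
theorem algSpan_isCompl : IsCompl (algSpan W X) (trans W X n) := by
  refine ⟨?_, ?_⟩
  · rw [Submodule.disjoint_def]
    intro x hx ht
    exact algSpan_nondeg hW hX hsup hx (fun j a ha => ht.2 j a ha)
  · rw [codisjoint_iff]
    exact algSpan_sup hsup

include hsup in
/-- induction from algebraic and transcendental classes -/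
theorem AT_induction {P : W.coh X → Prop} (x : W.coh X)
    (halg : ∀ j, ∀ a ∈ W.alg X j, P a) (hT : ∀ t ∈ trans W X n, P t)
    (hadd : ∀ a b, P a → P b → P (a + b)) (hsmul : ∀ (c : ℂ) a, P a → P (c • a)) : P x := by
  have hx : x ∈ algSpan W X ⊔ trans W X n := by rw [algSpan_sup hsup]; trivial
  obtain ⟨a, ha, t, ht, rfl⟩ := Submodule.mem_sup.mp hx
  refine hadd _ _ ?_ (hT t ht)
  refine Submodule.span_induction (p := fun a _ => P a) ?_ ?_ ?_ ?_ ha
  · rintro a ⟨j, ha⟩
    exact halg j a ha
  · exact hT 0 (zero_mem _)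
  · intro p q _ _ hp hq; exact hadd _ _ hp hq
  · intro c p _ hp; exact hsmul _ _ hp

variable {I : Type} [Fintype I] [DecidableEq I] (b : Module.Basis I ℂ (trans W X n))

include hW hX hsup in
/-- the antilinear map on the cohomology of `X` -/
theorem exists_J (U : Matrix I I ℂ) : ∃ J : W.coh X →ₛₗ[starRingEnd ℂ] W.coh X,
    (∀ j, ∀ a ∈ W.alg X j, J a = a) ∧
      ∀ i, J (b i : W.coh X) = ∑ l, U l i • (b l : W.coh X) := by
  classical
  have := hW.finite hX
  obtain ⟨s, hs1, hs2, hs3⟩ := exists_linearIndependent ℂ {a : W.coh X | ∃ j, a ∈ W.alg X j}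
  have hs4 : LinearIndependent ℂ (fun x : s => (x : W.coh X)) := hs3
  have hrange : Submodule.span ℂ (Set.range (fun x : s => (x : W.coh X))) = algSpan W X := by
    rw [Subtype.range_coe]; exact hs2
  let bL : Module.Basis s ℂ (algSpan W X) := (Module.Basis.span hs4).map
    (LinearEquiv.ofEq _ _ hrange)
  have hbL : ∀ i : s, (bL i : W.coh X) = i := by
    intro i
    simp only [bL, Module.Basis.map_apply, LinearEquiv.coe_ofEq_apply]
    exact congrArg Subtype.val (Module.Basis.span_apply hs4 i)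
  have hfin : Finite s := Module.Finite.finite_basis bL
  have := Fintype.ofFinite s
  have hcompl := algSpan_isCompl hW hX hsup
  let B : Module.Basis (s ⊕ I) ℂ (W.coh X) :=
    (bL.prod b).map (Submodule.prodEquivOfIsCompl _ _ hcompl)
  have hB1 : ∀ i : s, B (Sum.inl i) = i := by
    intro i
    simp only [B, Module.Basis.map_apply, Module.Basis.prod_apply_inl_fst,
      Submodule.coe_prodEquivOfIsCompl', Module.Basis.prod_apply_inl_snd]
    rw [hbL]; simp
  have hB2 : ∀ i : I, B (Sum.inr i) = b i := by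
    intro i
    simp only [B, Module.Basis.map_apply, Module.Basis.prod_apply_inr_fst,
      Submodule.coe_prodEquivOfIsCompl', Module.Basis.prod_apply_inr_snd]
    simp
  obtain ⟨J, hJ⟩ := exists_semi_of_basis B
    (Sum.elim (fun i : s => (i : W.coh X)) (fun i => ∑ l, U l i • (b l : W.coh X)))
  have hJs : ∀ x ∈ s, J x = x := by
    intro x hx
    have h1 := hJ (Sum.inl ⟨x, hx⟩)
    rw [hB1] at h1
    exact h1
  have hJspan : ∀ x ∈ algSpan W X, J x ∈ algSpan W X ∧ ∀ m, ∀ c ∈ W.alg X m,
      W.tr X (J x * c) = starRingEnd ℂ (W.tr X (x * c)) := by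
    intro x hx
    rw [← hrange, Subtype.range_coe] at hx
    refine Submodule.span_induction (p := fun x _ => J x ∈ algSpan W X ∧ ∀ m, ∀ c ∈ W.alg X m,
      W.tr X (J x * c) = starRingEnd ℂ (W.tr X (x * c))) ?_ ?_ ?_ ?_ hx
    · intro x hx
      rw [hJs x hx]
      refine ⟨Submodule.subset_span (hs1 hx), fun m c hc => ?_⟩
      obtain ⟨j, hj⟩ := hs1 hx
      exact (real_tr hW hX hj hc).symm
    · rw [map_zero]
      exact ⟨zero_mem _, fun m c _ => by simp⟩
    · intro p q _ _ hp hq
      rw [map_add]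
      exact ⟨add_mem hp.1 hq.1, fun m c hc => by
        rw [add_mul, map_add, hp.2 m c hc, hq.2 m c hc, add_mul, map_add, map_add]⟩
    · intro c p _ hp
      rw [LinearMap.map_smulₛₗ]
      exact ⟨Submodule.smul_mem _ _ hp.1, fun m d hd => by
        rw [smul_mul_assoc, map_smul, hp.2 m d hd, smul_mul_assoc, map_smul, smul_eq_mul,
          smul_eq_mul, RingHom.map_mul]⟩
  refine ⟨J, ?_, ?_⟩
  · intro j a ha
    have ha' : a ∈ algSpan W X := Submodule.subset_span ⟨j, ha⟩
    have h1 := hJspan a ha'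
    rw [← sub_eq_zero]
    refine algSpan_nondeg hW hX hsup (sub_mem h1.1 ha') (fun m c hc => ?_)
    rw [sub_mul, map_sub, h1.2 m c hc, real_tr hW hX ha hc, sub_self]
  · intro i
    have h1 := hJ (Sum.inr i)
    rw [hB2] at h1
    exact h1

variable {J : W.coh X →ₛₗ[starRingEnd ℂ] W.coh X} {U : Matrix I I ℂ}
  (hJ1 : ∀ j, ∀ a ∈ W.alg X j, J a = a)
  (hJ2 : ∀ i, J (b i : W.coh X) = ∑ l, U l i • (b l : W.coh X))

/-- induction on `T` -/
theorem T_induction {P : W.coh X → Prop} {t : W.coh X} (ht : t ∈ trans W X n)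
    (hb : ∀ i, P (b i : W.coh X)) (h0 : P 0)
    (hadd : ∀ x y, P x → P y → P (x + y)) (hsmul : ∀ (c : ℂ) x, P x → P (c • x)) : P t := by
  rw [basis_expand b ht]
  have key : ∀ S : Finset I, P (∑ i ∈ S, b.repr ⟨t, ht⟩ i • (b i : W.coh X)) := by
    intro S
    induction S using Finset.induction_on with
    | empty => simpa using h0
    | insert a S ha ih =>
      rw [Finset.sum_insert ha]
      exact hadd _ _ (hsmul _ _ (hb a)) ih
  exact key _

include hJ2 in
theorem J_mem {t : W.coh X} (ht : t ∈ trans W X n) : J t ∈ trans W X n := by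
  refine T_induction b (P := fun t => J t ∈ trans W X n) ht ?_ ?_ ?_ ?_
  · intro i
    rw [hJ2]
    exact sum_mem (fun l _ => Submodule.smul_mem _ _ (b l).2)
  · rw [map_zero]; exact zero_mem _
  · intro x y hx hy; rw [map_add]; exact add_mem hx hy
  · intro c x hx; rw [LinearMap.map_smulₛₗ]; exact Submodule.smul_mem _ _ hx

include hJ2 in
theorem J_sq {ε : ℂ} (hU : U * cj U = ε • (1 : Matrix I I ℂ)) {t : W.coh X}
    (ht : t ∈ trans W X n) : J (J t) = ε • t := by
  refine T_induction b (P := fun t => J (J t) = ε • t) ht ?_ ?_ ?_ ?_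
  · intro i
    rw [hJ2, map_sum]
    have e1 : ∀ l, J (U l i • (b l : W.coh X)) = ∑ m, (U m l * cj U l i) • (b m : W.coh X) := by
      intro l
      rw [LinearMap.map_smulₛₗ, hJ2, Finset.smul_sum]
      refine Finset.sum_congr rfl (fun m _ => ?_)
      rw [smul_smul, cj_apply, mul_comm]
    rw [Finset.sum_congr rfl (fun l _ => e1 l), Finset.sum_comm]
    simp only [← Finset.sum_smul, ← Matrix.mul_apply, hU, Matrix.smul_apply, Matrix.one_apply,
      smul_eq_mul]
    rw [Finset.sum_eq_single i]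
    · simp
    · intro m _ hm
      rw [if_neg hm]; simp
    · intro h; exact absurd (Finset.mem_univ _) h
  · simp
  · intro x y hx hy; rw [map_add, map_add, hx, hy, smul_add]
  · intro c x hx; rw [LinearMap.map_smulₛₗ, LinearMap.map_smulₛₗ, hx, Complex.conj_conj,
      smul_comm]

include hJ2 in
/-- compatibility of `J` with the correspondences -/
theorem J_bil_basis {γ : W.coh (X ⊗ X)} {M : Matrix I I ℂ} (h : Rep b γ M)
    (hform : U.transpose * gram b * U = cj (gram b)) (hc : M * U = U * cj M) (i m : I) :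
    bil W γ (J (b i : W.coh X)) (J (b m : W.coh X))
      = starRingEnd ℂ (bil W γ (b i : W.coh X) (b m : W.coh X)) := by
  have e1 : bil W γ (J (b i : W.coh X)) (J (b m : W.coh X))
      = (U.transpose * (M.transpose * gram b) * U) i m := by
    rw [hJ2, hJ2, bil_sum_left, mul_assoc, Matrix.mul_apply]
    refine Finset.sum_congr rfl (fun l _ => ?_)
    rw [bil_smul_left, bil_sum_right, Matrix.transpose_apply, Matrix.mul_apply]
    congr 1
    refine Finset.sum_congr rfl (fun p _ => ?_)
    rw [bil_smul_right, h l p, mul_comm]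
  have e2 : U.transpose * (M.transpose * gram b) * U = cj (M.transpose * gram b) := by
    calc U.transpose * (M.transpose * gram b) * U = (M * U).transpose * gram b * U := by
          rw [Matrix.transpose_mul]; simp only [mul_assoc]
      _ = (cj M).transpose * (U.transpose * gram b * U) := by
          rw [hc, Matrix.transpose_mul]; simp only [mul_assoc]
      _ = _ := by
          rw [hform, cj_mul, transpose_cj, cj_transpose]
  rw [e1, e2, cj_apply, h i m]

include hW hX hsup hJ2 in
theorem J_bil (hform : U.transpose * gram b * U = cj (gram b))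
    (hc : ∀ γ ∈ W.alg (X ⊗ X) n, ∀ M, Rep b γ M → M * U = U * cj M)
    {γ : W.coh (X ⊗ X)} {m : ℕ} (hγ : γ ∈ W.alg (X ⊗ X) m) {s t : W.coh X}
    (hs : s ∈ trans W X n) (ht : t ∈ trans W X n) :
    bil W γ (J s) (J t) = starRingEnd ℂ (bil W γ s t) := by
  have hXX := 𝒱.prod hX hX
  by_cases hm : m = n
  · subst hm
    obtain ⟨M, hM⟩ := rep_exists b (gram_isUnit b hW hX hsup) γ
    refine T_induction b (P := fun s => bil W γ (J s) (J t) = starRingEnd ℂ (bil W γ s t))
      hs ?_ ?_ ?_ ?_
    · intro i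
      refine T_induction b (P := fun t => bil W γ (J (b i : W.coh X)) (J t)
        = starRingEnd ℂ (bil W γ (b i : W.coh X) t)) ht ?_ ?_ ?_ ?_
      · intro l
        exact J_bil_basis b hJ2 hM hform (hc γ hγ M hM) i l
      · simp [bil]
      · intro x y hx hy
        rw [map_add, bil_add_right, hx, hy, bil_add_right, map_add]
      · intro c x hx
        rw [LinearMap.map_smulₛₗ, bil_smul_right, hx, bil_smul_right, map_mul]
    · simp [bil]
    · intro x y hx hy
      rw [map_add, bil_add_left, hx, hy, bil_add_left, map_add]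
    · intro c x hx
      rw [LinearMap.map_smulₛₗ, bil_smul_left, hx, bil_smul_left, map_mul]
  · have key : ∀ s t : W.coh X, s ∈ W.gr X n → t ∈ W.gr X n → bil W γ s t = 0 := by
      intro s t hs ht
      exact hW.tr_gr hXX (hW.mul_gr hXX (hW.mul_gr hXX (hW.pull_gr hXX hX _ hs)
        (hW.pull_gr hXX hX _ ht)) (hW.alg_gr hXX hγ)) (by omega)
    rw [key _ _ (J_mem b hJ2 hs).1 (J_mem b hJ2 ht).1, key _ _ hs.1 ht.1, map_zero]

include hW hX in
theorem bil_diag {m : ℕ} {a : W.coh X} (ha : a ∈ W.alg X m) (s t : W.coh X) :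
    bil W (W.push (lift (𝟙 X) (𝟙 X)) a) s t = W.tr X (a * s * t) := by
  have hXX := 𝒱.prod hX hX
  have h1 : W.push (lift (𝟙 X) (𝟙 X)) a ∈ W.alg (X ⊗ X) (m + n) :=
    hW.push_alg hX hXX _ ha (by omega)
  rw [bil, ← hW.alg_comm hXX h1, hW.push_adj hX hXX, map_mul (W.pull (lift (𝟙 X) (𝟙 X))),
    ← W.pull_comp, ← W.pull_comp, lift_fst, lift_snd, W.pull_id, W.pull_id, mul_assoc]

include hW hX hsup hJ2 in
theorem J_tr_alg (hform : U.transpose * gram b * U = cj (gram b))
    (hc : ∀ γ ∈ W.alg (X ⊗ X) n, ∀ M, Rep b γ M → M * U = U * cj M)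
    {m : ℕ} {a : W.coh X} (ha : a ∈ W.alg X m) {s t : W.coh X}
    (hs : s ∈ trans W X n) (ht : t ∈ trans W X n) :
    W.tr X (a * J s * J t) = starRingEnd ℂ (W.tr X (a * s * t)) := by
  have hXX := 𝒱.prod hX hX
  have h1 : W.push (lift (𝟙 X) (𝟙 X)) a ∈ W.alg (X ⊗ X) (m + n) :=
    hW.push_alg hX hXX _ ha (by omega)
  rw [← bil_diag hW hX ha, ← bil_diag hW hX ha]
  exact J_bil hW hX hsup b hJ2 hform hc h1 hs ht

include hW hX hsup hJ1 hJ2 in
/-- the trilinear form is compatible with `J` -/
theorem J_tri (hn : 0 < n) (hform : U.transpose * gram b * U = cj (gram b))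
    (hc : ∀ γ ∈ W.alg (X ⊗ X) n, ∀ M, Rep b γ M → M * U = U * cj M) (x y z : W.coh X) :
    W.tr X (J x * J y * J z) = starRingEnd ℂ (W.tr X (x * y * z)) := by
  have hJm : ∀ t ∈ trans W X n, J t ∈ trans W X n := fun t ht => J_mem b hJ2 ht
  have haat : ∀ {i j : ℕ} {a c t : W.coh X}, a ∈ W.alg X i → c ∈ W.alg X j →
      t ∈ trans W X n → W.tr X (a * c * t) = 0 := by
    intro i j a c t ha hc ht
    have h1 := hW.mul_alg hX ha hc
    rw [hW.alg_comm hX h1]
    exact ht.2 _ _ h1
  have hata : ∀ {i j : ℕ} {a c t : W.coh X}, a ∈ W.alg X i → c ∈ W.alg X j →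
      t ∈ trans W X n → W.tr X (a * t * c) = 0 := by
    intro i j a c t ha hc ht
    rw [hW.alg_comm hX ha, mul_assoc]
    exact ht.2 _ _ (hW.mul_alg hX ha hc)
  have htaa : ∀ {i j : ℕ} {a c t : W.coh X}, a ∈ W.alg X i → c ∈ W.alg X j →
      t ∈ trans W X n → W.tr X (t * a * c) = 0 := by
    intro i j a c t ha hc ht
    rw [mul_assoc]
    exact ht.2 _ _ (hW.mul_alg hX ha hc)
  have hatt : ∀ {i : ℕ} {a s t : W.coh X}, a ∈ W.alg X i → s ∈ trans W X n →
      t ∈ trans W X n → W.tr X (a * J s * J t) = starRingEnd ℂ (W.tr X (a * s * t)) :=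
    fun ha hs ht => J_tr_alg hW hX hsup b hJ2 hform hc ha hs ht
  have httt : ∀ {r s t : W.coh X}, r ∈ W.gr X n → s ∈ W.gr X n →
      t ∈ W.gr X n → W.tr X (r * s * t) = 0 := by
    intro r s t hr hs ht
    exact hW.tr_gr hX (hW.mul_gr hX (hW.mul_gr hX hr hs) ht) (by omega)
  refine AT_induction hsup (P := fun x => W.tr X (J x * J y * J z)
    = starRingEnd ℂ (W.tr X (x * y * z))) x ?_ ?_ ?_ ?_
  · intro i a ha
    refine AT_induction hsup (P := fun y => W.tr X (J a * J y * J z)
      = starRingEnd ℂ (W.tr X (a * y * z))) y ?_ ?_ ?_ ?_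
    · intro j c hcc
      refine AT_induction hsup (P := fun z => W.tr X (J a * J c * J z)
        = starRingEnd ℂ (W.tr X (a * c * z))) z ?_ ?_ ?_ ?_
      · intro l d hd
        rw [hJ1 i a ha, hJ1 j c hcc, hJ1 l d hd, real_tr hW hX (hW.mul_alg hX ha hcc) hd]
      · intro t ht
        rw [hJ1 i a ha, hJ1 j c hcc, haat ha hcc ht, haat ha hcc (hJm t ht), map_zero]
      · intro p q hp hq
        rw [map_add, mul_add, map_add, hp, hq, mul_add, map_add, map_add]
      · intro e p hp
        rw [LinearMap.map_smulₛₗ, mul_smul_comm, map_smul, hp, mul_smul_comm, map_smul,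
          smul_eq_mul, smul_eq_mul, RingHom.map_mul]
    · intro s hs
      refine AT_induction hsup (P := fun z => W.tr X (J a * J s * J z)
        = starRingEnd ℂ (W.tr X (a * s * z))) z ?_ ?_ ?_ ?_
      · intro l d hd
        rw [hJ1 i a ha, hJ1 l d hd, hata ha hd hs, hata ha hd (hJm s hs), map_zero]
      · intro t ht
        rw [hJ1 i a ha]
        exact hatt ha hs ht
      · intro p q hp hq
        rw [map_add, mul_add, map_add, hp, hq, mul_add, map_add, map_add]
      · intro e p hp
        rw [LinearMap.map_smulₛₗ, mul_smul_comm, map_smul, hp, mul_smul_comm, map_smul,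
          smul_eq_mul, smul_eq_mul, RingHom.map_mul]
    · intro p q hp hq
      rw [map_add, mul_add, add_mul, map_add, hp, hq, mul_add, add_mul, map_add, map_add]
    · intro e p hp
      rw [LinearMap.map_smulₛₗ, mul_smul_comm, smul_mul_assoc, map_smul, hp, mul_smul_comm,
        smul_mul_assoc, map_smul, smul_eq_mul, smul_eq_mul, RingHom.map_mul]
  · intro r hr
    refine AT_induction hsup (P := fun y => W.tr X (J r * J y * J z)
      = starRingEnd ℂ (W.tr X (r * y * z))) y ?_ ?_ ?_ ?_
    · intro j c hcc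
      refine AT_induction hsup (P := fun z => W.tr X (J r * J c * J z)
        = starRingEnd ℂ (W.tr X (r * c * z))) z ?_ ?_ ?_ ?_
      · intro l d hd
        rw [hJ1 j c hcc, hJ1 l d hd, htaa hcc hd hr, htaa hcc hd (hJm r hr), map_zero]
      · intro t ht
        rw [hJ1 j c hcc, ← hW.alg_comm hX hcc (J r), ← hW.alg_comm hX hcc r]
        exact hatt hcc hr ht
      · intro p q hp hq
        rw [map_add, mul_add, map_add, hp, hq, mul_add, map_add, map_add]
      · intro e p hp
        rw [LinearMap.map_smulₛₗ, mul_smul_comm, map_smul, hp, mul_smul_comm, map_smul,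
          smul_eq_mul, smul_eq_mul, RingHom.map_mul]
    · intro s hs
      refine AT_induction hsup (P := fun z => W.tr X (J r * J s * J z)
        = starRingEnd ℂ (W.tr X (r * s * z))) z ?_ ?_ ?_ ?_
      · intro l d hd
        rw [hJ1 l d hd, ← hW.alg_comm hX hd (J r * J s), ← hW.alg_comm hX hd (r * s),
          ← mul_assoc, ← mul_assoc]
        exact hatt hd hr hs
      · intro t ht
        rw [httt hr.1 hs.1 ht.1, httt (hJm r hr).1 (hJm s hs).1 (hJm t ht).1, map_zero]
      · intro p q hp hq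
        rw [map_add, mul_add, map_add, hp, hq, mul_add, map_add, map_add]
      · intro e p hp
        rw [LinearMap.map_smulₛₗ, mul_smul_comm, map_smul, hp, mul_smul_comm, map_smul,
          smul_eq_mul, smul_eq_mul, RingHom.map_mul]
    · intro p q hp hq
      rw [map_add, mul_add, add_mul, map_add, hp, hq, mul_add, add_mul, map_add, map_add]
    · intro e p hp
      rw [LinearMap.map_smulₛₗ, mul_smul_comm, smul_mul_assoc, map_smul, hp, mul_smul_comm,
        smul_mul_assoc, map_smul, smul_eq_mul, smul_eq_mul, RingHom.map_mul]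
  · intro p q hp hq
    rw [map_add, add_mul, add_mul, map_add, hp, hq, add_mul, add_mul, map_add, map_add]
  · intro e p hp
    rw [LinearMap.map_smulₛₗ, smul_mul_assoc, smul_mul_assoc, map_smul, hp,
      smul_mul_assoc, smul_mul_assoc, map_smul, smul_eq_mul, smul_eq_mul, RingHom.map_mul]

include hW hX hsup hJ1 hJ2 in
/-- the real structure on the cohomology of `X` -/
theorem exists_RS (hn : 0 < n) {ε : ℂ} (hε : ε * ε = 1) (hεr : starRingEnd ℂ ε = ε)
    (hU : U * cj U = ε • (1 : Matrix I I ℂ))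
    (hform : U.transpose * gram b * U = cj (gram b))
    (hc : ∀ γ ∈ W.alg (X ⊗ X) n, ∀ M, Rep b γ M → M * U = U * cj M) :
    ∃ R : RS W X, R.j = J ∧ Function.Surjective J := by
  classical
  have hJm : ∀ t ∈ trans W X n, J t ∈ trans W X n := fun t ht => J_mem b hJ2 ht
  have h3 := J_tri hW hX hsup b hJ1 hJ2 hn hform hc
  have hone : J 1 = 1 := hJ1 0 1 (hW.one_alg hX)
  have h2 : ∀ x y, W.tr X (J x * J y) = starRingEnd ℂ (W.tr X (x * y)) := by
    intro x y
    have := h3 x y 1
    rwa [hone, mul_one, mul_one] at this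
  have hsurj : Function.Surjective J := by
    intro y
    refine AT_induction hsup (P := fun y => ∃ x, J x = y) y ?_ ?_ ?_ ?_
    · intro j a ha
      exact ⟨a, hJ1 j a ha⟩
    · intro t ht
      refine ⟨ε • J t, ?_⟩
      rw [LinearMap.map_smulₛₗ, J_sq b hJ2 hU ht, smul_smul, hεr, hε, one_smul]
    · rintro _ _ ⟨x, rfl⟩ ⟨y, rfl⟩
      exact ⟨x + y, map_add _ _ _⟩
    · rintro c _ ⟨x, rfl⟩
      refine ⟨starRingEnd ℂ c • x, ?_⟩
      rw [LinearMap.map_smulₛₗ, Complex.conj_conj]
  refine ⟨⟨J, ?_, hone, ?_, ?_⟩, rfl, hsurj⟩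
  · let _ := (hW.internal hX).chooseDecomposition
    have key : ∀ x : W.coh X, ∀ i, J (DirectSum.decompose (W.gr X) x i : W.gr X i)
        = (DirectSum.decompose (W.gr X) (J x) i : W.gr X i) := by
      intro x
      refine AT_induction hsup (P := fun x => ∀ i, J (DirectSum.decompose (W.gr X) x i : W.gr X i)
        = (DirectSum.decompose (W.gr X) (J x) i : W.gr X i)) x ?_ ?_ ?_ ?_
      · intro j a ha i
        rw [hJ1 j a ha]
        by_cases hi : 2 * j = i
        · subst hi
          rw [DirectSum.decompose_of_mem_same _ (hW.alg_gr hX ha), hJ1 j a ha]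
        · rw [DirectSum.decompose_of_mem_ne _ (hW.alg_gr hX ha) hi, map_zero]
      · intro t ht i
        by_cases hi : n = i
        · subst hi
          rw [DirectSum.decompose_of_mem_same _ ht.1,
            DirectSum.decompose_of_mem_same _ (hJm t ht).1]
        · rw [DirectSum.decompose_of_mem_ne _ ht.1 hi,
            DirectSum.decompose_of_mem_ne _ (hJm t ht).1 hi, map_zero]
      · intro p q hp hq i
        rw [DirectSum.decompose_add, DirectSum.add_apply, Submodule.coe_add, map_add, hp, hq,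
          map_add, DirectSum.decompose_add, DirectSum.add_apply, Submodule.coe_add]
      · intro c p hp i
        rw [DirectSum.decompose_smul, DirectSum.smul_apply, Submodule.coe_smul,
          LinearMap.map_smulₛₗ, hp, LinearMap.map_smulₛₗ, DirectSum.decompose_smul,
          DirectSum.smul_apply, Submodule.coe_smul]
    intro i x hx
    have h4 := key x i
    rw [DirectSum.decompose_of_mem_same _ hx] at h4
    rw [h4]
    exact SetLike.coe_mem _
  · intro x y
    rw [← sub_eq_zero]
    refine hW.duality hX _ (fun z => ?_)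
    obtain ⟨z, rfl⟩ := hsurj z
    rw [sub_mul, map_sub, h2, h3, sub_self]
  · intro x
    have := h2 x 1
    rwa [hone, mul_one, mul_one] at this

end

end Pool.Agent.Lib.MP_361a6f_ag.H3
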