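import Pool.Agent.Lib.MP_361a6f_ag.H3.Final

/-!
# Reduction of powers to tensor powers of the transcendental part
-/

open CategoryTheory AlgebraicGeometry MonoidalCategory CartesianMonoidalCategory Opposite

universe u v w

set_option linter.unusedSectionVars false

namespace Pool.Agent.Lib.MP_361a6f_ag.H3

variable {k : Type u} [Field k] {K : Type v} [Field K] [CharZero K]
  {W : CohomologyData.{u, v, w} k K} {𝒱 : VarietyClass k}

/-- the subspace `S ⊗ T^{⊗ a}` of the cohomology of `Z × X^a` -/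
noncomputable def tpow (W : CohomologyData.{u, v, w} k K) {Z X : Sch k}
    (S : Submodule K (W.coh Z)) (T : Submodule K (W.coh X)) :
    (a : ℕ) → Submodule K (W.coh (prodPow Z X a))
  | 0 => S
  | a + 1 => tens W (tpow W S T a) T

/-- moving the first factor `X` to the end -/
noncomputable def move (Z X : Sch k) :
    (a : ℕ) → (prodPow Z X a ⊗ X ≅ prodPow (Z ⊗ X) X a)
  | 0 => Iso.refl _
  | a + 1 => swap (prodPow Z X a) X ≪≫ whiskerRightIso (move Z X a) X

section

variable (hW : IsWeilCohomology W 𝒱) {Z X : Sch k} {d n : ℕ}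
  (hZ : 𝒱.mem Z d) (hX : 𝒱.mem X n)

theorem pull_whisker {Y Y' : Sch k} (f : Y ⟶ Y') (y : W.coh Y')
    (x : W.coh X) : W.pull (f ▷ X) (W.pull (fst Y' X) y * W.pull (snd Y' X) x)
      = W.pull (fst Y X) (W.pull f y) * W.pull (snd Y X) x := by
  rw [map_mul, ← W.pull_comp, ← W.pull_comp, ← W.pull_comp]
  congr 3
  · simp
  · simp

theorem pull_whisker_lam {Y Y' : Sch k} (f : Y ⟶ Y') (l : W.coh Y')
    (ξ : W.coh X) : W.pull (f ▷ X) (lam W l ξ) = lam W (W.pull f l) ξ := by
  rw [lam, lam, map_add, ← W.pull_comp, ← W.pull_comp, ← W.pull_comp]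
  congr 3
  · simp
  · simp

theorem prodPol_succ (l : W.coh Z) (ξ : ℕ → W.coh X) (a : ℕ) :
    prodPol W l ξ (a + 1) = lam W (prodPol W l ξ a) (ξ a) := rfl

theorem move_pol (l : W.coh Z) (ξ : W.coh X) (a : ℕ) :
    W.pull (move Z X a).hom (prodPol W (lam W l ξ) (fun _ => (0 : W.coh X)) a)
      = lam W (prodPol W l (fun _ => (0 : W.coh X)) a) ξ := by
  induction a with
  | zero => exact W.pull_id _
  | succ a ih =>
    change W.pull ((swap (prodPow Z X a) X).hom ≫ ((move Z X a).hom ▷ X))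
      (lam W (prodPol W (lam W l ξ) (fun _ => (0 : W.coh X)) a) 0)
      = lam W (lam W (prodPol W l (fun _ => (0 : W.coh X)) a) 0) ξ
    rw [W.pull_comp, pull_whisker_lam, ih, swap_lam]

include hW hZ hX in
theorem swap_tens' {S : Submodule K (W.coh Z)} {T : Submodule K (W.coh X)} (hTn : T ≤ W.gr X n) :
    ∀ x ∈ tens W (tens W S (⊤ : Submodule K (W.coh X))) T,
      W.pull (swap Z X).hom x ∈ tens W (tens W S T) (⊤ : Submodule K (W.coh X)) := by
  have hZX := 𝒱.prod hZ hX
  have h1 := 𝒱.prod hZX hX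
  intro x hx
  refine Submodule.span_induction (p := fun x _ => W.pull (swap Z X).hom x
    ∈ tens W (tens W S T) (⊤ : Submodule K (W.coh X))) ?_ ?_ ?_ ?_ hx
  · rintro _ ⟨b, hb, t, ht, rfl⟩
    refine Submodule.span_induction (p := fun b _ => W.pull (swap Z X).hom
      (W.pull (fst (Z ⊗ X) X) b * W.pull (snd (Z ⊗ X) X) t)
      ∈ tens W (tens W S T) (⊤ : Submodule K (W.coh X))) ?_ ?_ ?_ ?_ hb
    · rintro _ ⟨y, hy, x, _, rfl⟩
      refine hW.hom_induction hX (P := fun x => W.pull (swap Z X).hom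
        (W.pull (fst (Z ⊗ X) X) (W.pull (fst Z X) y * W.pull (snd Z X) x)
          * W.pull (snd (Z ⊗ X) X) t)
        ∈ tens W (tens W S T) (⊤ : Submodule K (W.coh X))) x ?_ ?_ ?_
      · intro i x hx
        rw [map_mul (W.pull (swap Z X).hom), map_mul (W.pull (fst (Z ⊗ X) X)),
          map_mul (W.pull (swap Z X).hom), ← W.pull_comp, ← W.pull_comp,
          ← W.pull_comp, ← W.pull_comp, ← W.pull_comp, swap_snd, swap_fst_fst, swap_fst_snd,
          mul_assoc]
        rw [hW.comm_gr h1 (hW.pull_gr h1 hX (snd (Z ⊗ X) X) hx)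
          (hW.pull_gr h1 hX (fst (Z ⊗ X) X ≫ snd Z X) (hTn ht)), mul_smul_comm, ← mul_assoc,
          W.pull_comp, W.pull_comp, ← map_mul]
        exact Submodule.smul_mem _ _ (mem_tens (mem_tens hy ht) trivial)
      · simp
      · intro p q hp hq
        rw [map_add, mul_add, map_add, add_mul, map_add]
        exact add_mem hp hq
    · simp
    · intro p q _ _ hp hq
      rw [map_add, add_mul, map_add]
      exact add_mem hp hq
    · intro c p _ hp
      rw [map_smul, smul_mul_assoc, map_smul]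
      exact Submodule.smul_mem _ _ hp
  · rw [map_zero]; exact zero_mem _
  · intro p q _ _ hp hq
    rw [map_add]
    exact add_mem hp hq
  · intro c p _ hp
    rw [map_smul]
    exact Submodule.smul_mem _ _ hp

include hW hZ hX in
theorem move_tpow {T : Submodule K (W.coh X)} (hTn : T ≤ W.gr X n) (a : ℕ) :
    ∀ x ∈ tpow W (⊤ : Submodule K (W.coh (Z ⊗ X))) T a,
      W.pull (move Z X a).hom x ∈ tens W (tpow W (⊤ : Submodule K (W.coh Z)) T a)
        (⊤ : Submodule K (W.coh X)) := by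
  induction a with
  | zero =>
    intro x _
    have : W.pull (move Z X 0).hom x ∈ tens W (⊤ : Submodule K (W.coh Z))
        (⊤ : Submodule K (W.coh X)) := by
      rw [tens_top hW hZ hX]; trivial
    exact this
  | succ a ih =>
    intro x hx
    change W.pull ((swap (prodPow Z X a) X).hom ≫ ((move Z X a).hom ▷ X)) x
      ∈ tens W (tens W (tpow W (⊤ : Submodule K (W.coh Z)) T a) T) (⊤ : Submodule K (W.coh X))
    rw [W.pull_comp]
    refine swap_tens' hW (prodPow_mem hZ hX a) hX (S := tpow W (⊤ : Submodule K (W.coh Z)) T a)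
      hTn _ ?_
    have key : ∀ z ∈ tens W (tpow W (⊤ : Submodule K (W.coh (Z ⊗ X))) T a) T,
        W.pull ((move Z X a).hom ▷ X) z ∈ tens W (tens W (tpow W (⊤ : Submodule K (W.coh Z)) T a)
          (⊤ : Submodule K (W.coh X))) T := by
      intro z hz
      refine Submodule.span_induction (p := fun z _ => W.pull ((move Z X a).hom ▷ X) z
        ∈ tens W (tens W (tpow W (⊤ : Submodule K (W.coh Z)) T a)
          (⊤ : Submodule K (W.coh X))) T) ?_ ?_ ?_ ?_ hz
      · rintro _ ⟨b, hb, t, ht, rfl⟩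
        rw [pull_whisker]
        exact mem_tens (ih b hb) ht
      · rw [map_zero]; exact zero_mem _
      · intro p q _ _ hp hq
        rw [map_add]
        exact add_mem hp hq
      · intro c p _ hp
        rw [map_smul]
        exact Submodule.smul_mem _ _ hp
    exact key x hx

include hW hZ hX in
theorem tpow_stable {T : Submodule K (W.coh X)} {l : W.coh Z} (hl : l ∈ W.alg Z 1) (a : ℕ) :
    ∀ x ∈ tpow W (⊤ : Submodule K (W.coh Z)) T a,
      prodPol W l (fun _ => (0 : W.coh X)) a * x ∈ tpow W (⊤ : Submodule K (W.coh Z)) T a := by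
  induction a with
  | zero => intro x _; trivial
  | succ a ih =>
    exact tens_stable hW (prodPow_mem hZ hX a) hX
      (prodPol_alg hW hZ hX hl (fun _ => zero_mem _) a) (zero_mem _) ih
      (fun t _ => by rw [zero_mul]; exact zero_mem _)

include hW hZ hX in
/-- on `S ⊗ T` the polarisation of `X` does not matter -/
theorem HTS_change' {S : Submodule K (W.coh Z)} {T : Submodule K (W.coh X)}
    {l : W.coh Z} (hl : l ∈ W.alg Z 1) (hS : ∀ y ∈ S, l * y ∈ S)
    {ξ₁ ξ₂ : W.coh X} (hξ₁ : ξ₁ ∈ W.alg X 1) (hξ₂ : ξ₂ ∈ W.alg X 1)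
    (hT₁ : ∀ t ∈ T, ξ₁ * t = 0) (hT₂ : ∀ t ∈ T, ξ₂ * t = 0)
    {e : ℕ} (h : HTS W (Z ⊗ X) e (lam W l ξ₁) (tens W S T)) :
    HTS W (Z ⊗ X) e (lam W l ξ₂) (tens W S T) := by
  have hst : ∀ z ∈ tens W S T, lam W l ξ₂ * z ∈ tens W S T :=
    tens_stable hW hZ hX hl hξ₂ hS (fun t ht => by rw [hT₂ t ht]; exact zero_mem _)
  have h1 : ∀ z ∈ tens W S T, lam W l ξ₁ * z = lam W l ξ₂ * z := by
    intro z hz
    refine Submodule.span_induction (p := fun z _ => lam W l ξ₁ * z = lam W l ξ₂ * z)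
      ?_ ?_ ?_ ?_ hz
    · rintro _ ⟨y, _, t, ht, rfl⟩
      rw [lam_mul hW hZ hX hl hξ₁, lam_mul hW hZ hX hl hξ₂, hT₁ t ht, hT₂ t ht]
    · simp
    · intro p q _ _ hp hq
      rw [mul_add, mul_add, hp, hq]
    · intro c p _ hp
      rw [mul_smul_comm, mul_smul_comm, hp]
  have h2 : ∀ r, ∀ z ∈ tens W S T, lam W l ξ₁ ^ r * z = lam W l ξ₂ ^ r * z := by
    intro r
    induction r with
    | zero => intro z _; simp
    | succ r ih =>
      intro z hz
      rw [pow_succ, mul_assoc, h1 z hz, ih _ (hst z hz), ← mul_assoc, ← pow_succ]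
  intro j hj x hx hxS h3 h4
  have h5 := h j hj x hx hxS (by rw [h2 _ x hxS]; exact h3) h4
  rw [← mul_assoc, h2 _ x hxS, mul_assoc] at h5
  exact h5

include hW hZ hX in
/-- reduction step -/
theorem red_step {l : W.coh Z} (hl : l ∈ W.alg Z 1) {ξ : W.coh X} (hξ : ξ ∈ W.alg X 1)
    {ι : Type} [Fintype ι] (σ : Strings W X n ξ ι)
    (h : ∀ a, HTS W (prodPow Z X a) (d + a * n) (prodPol W l (fun _ => (0 : W.coh X)) a)
      (tpow W (⊤ : Submodule K (W.coh Z)) σ.T a)) (a : ℕ) :
    HTS W (prodPow (Z ⊗ X) X a) (d + n + a * n)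
      (prodPol W (lam W l ξ) (fun _ => (0 : W.coh X)) a)
      (tpow W (⊤ : Submodule K (W.coh (Z ⊗ X))) σ.T a) := by
  have hY := prodPow_mem hZ hX a
  have hYX := 𝒱.prod hY hX
  have hla := prodPol_alg hW hZ hX hl (fun _ => zero_mem (W.alg X 1)) a
  have hst := tpow_stable hW hZ hX (T := σ.T) hl a
  have h1 := h a
  have h2 : HTS W (prodPow Z X a ⊗ X) (d + a * n + n)
      (lam W (prodPol W l (fun _ => (0 : W.coh X)) a) ξ)
      (tens W (tpow W (⊤ : Submodule K (W.coh Z)) σ.T a) σ.T) := by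
    refine HTS_change' hW hY hX hla hst (zero_mem _) hξ (fun t _ => zero_mul t) σ.T_xi ?_
    have h3 := h (a + 1)
    rw [show d + (a + 1) * n = d + a * n + n by ring] at h3
    exact h3
  have h3 := (LD_HR_iff hW hYX (lam_alg hW hY hX hla hξ) _ _).mp
    (σ.hr_prod hW hY hX hla hξ hst ((LD_HR_iff hW hY hla _ hst).mpr h1)
      ((LD_HR_iff hW hYX (lam_alg hW hY hX hla hξ) _ _).mpr h2))
  rw [show d + n + a * n = d + a * n + n by ring]
  refine HTS.iso hW hYX (prodPow_mem (𝒱.prod hZ hX) hX a) (move Z X a)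
    (S' := tens W (tpow W (⊤ : Submodule K (W.coh Z)) σ.T a) ⊤)
    (move_tpow hW hZ hX σ.T_gr a) ?_
  rw [move_pol]
  exact h3

include hW hZ hX in
/-- reduction of powers to tensor powers of the transcendental part -/
theorem red {l : W.coh Z} (hl : l ∈ W.alg Z 1) {ξ : ℕ → W.coh X} (hξ : ∀ i, ξ i ∈ W.alg X 1)
    (T : Submodule K (W.coh X))
    (hσ : ∀ i, ∃ (ι : Type) (_ : Fintype ι) (σ : Strings W X n (ξ i) ι), σ.T = T)
    (h : ∀ a, HTS W (prodPow Z X a) (d + a * n) (prodPol W l (fun _ => (0 : W.coh X)) a)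
      (tpow W (⊤ : Submodule K (W.coh Z)) T a)) (m : ℕ) :
    HodgeType W (prodPow Z X m) (d + m * n) (prodPol W l ξ m) := by
  have key : ∀ m, ∀ a, HTS W (prodPow (prodPow Z X m) X a) (d + m * n + a * n)
      (prodPol W (prodPol W l ξ m) (fun _ => (0 : W.coh X)) a)
      (tpow W (⊤ : Submodule K (W.coh (prodPow Z X m))) T a) := by
    intro m
    induction m with
    | zero =>
      intro a
      have h1 := h a
      rw [show d + 0 * n + a * n = d + a * n by ring]
      exact h1
    | succ m ih =>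
      intro a
      obtain ⟨ι, hι, σ, hσT⟩ := hσ m
      subst hσT
      have h3 := red_step hW (prodPow_mem hZ hX m) hX (prodPol_alg hW hZ hX hl hξ m) (hξ m) σ ih a
      rw [show d + (m + 1) * n + a * n = d + m * n + n + a * n by ring]
      exact h3
  have h4 := key m 0
  rw [zero_mul, add_zero] at h4
  exact HTS_top.mp h4

end

end Pool.Agent.Lib.MP_361a6f_ag.H3
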