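import Pool.Agent.Lib.MP_361a6f_ag.H3.TT

/-!
# Frames from finite groups of automorphisms
-/

open CategoryTheory AlgebraicGeometry MonoidalCategory CartesianMonoidalCategory Opposite

universe u v w

set_option linter.unusedSectionVars false

namespace Pool.Agent.Lib.MP_361a6f_ag.H3

variable {k : Type u} [Field k] {K : Type v} [Field K] [CharZero K]
  {W : CohomologyData.{u, v, w} k K} {𝒱 : VarietyClass k}

/-- The transcendental part of `H^n(X)`: the classes orthogonal to all algebraic classes. -/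
noncomputable def trans (W : CohomologyData.{u, v, w} k K) (X : Sch k)
    (n : ℕ) : Submodule K (W.coh X) where
  carrier := {t | t ∈ W.gr X n ∧ ∀ j, ∀ a ∈ W.alg X j, W.tr X (t * a) = 0}
  add_mem' := by
    rintro x y ⟨hx, hx'⟩ ⟨hy, hy'⟩
    refine ⟨add_mem hx hy, fun j a ha => ?_⟩
    rw [add_mul, map_add, hx' j a ha, hy' j a ha, add_zero]
  zero_mem' := ⟨zero_mem _, fun j a _ => by simp⟩
  smul_mem' := by
    rintro c x ⟨hx, hx'⟩
    refine ⟨Submodule.smul_mem _ _ hx, fun j a ha => ?_⟩
    rw [smul_mul_assoc, map_smul, hx' j a ha, smul_zero]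

section

variable (hW : IsWeilCohomology W 𝒱) {X : Sch k} {n : ℕ}
  (hX : 𝒱.mem X n)

theorem pull_hom_inv (g : Aut X) (x : W.coh X) : W.pull g.hom (W.pull g.inv x) = x := by
  rw [← W.pull_comp, g.hom_inv_id, W.pull_id]

theorem pull_inv_hom (g : Aut X) (x : W.coh X) : W.pull g.inv (W.pull g.hom x) = x := by
  rw [← W.pull_comp, g.inv_hom_id, W.pull_id]

include hW hX in
theorem tr_pull_left (g : Aut X) (x y : W.coh X) :
    W.tr X (W.pull g.hom x * y) = W.tr X (x * W.pull g.inv y) := by
  rw [← hW.tr_iso hX hX g (x * W.pull g.inv y), map_mul (W.pull g.hom), pull_hom_inv]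

include hW hX in
theorem tr_pull_right (g : Aut X) (x y : W.coh X) :
    W.tr X (W.pull g.inv x * y) = W.tr X (x * W.pull g.hom y) := by
  rw [← hW.tr_iso hX hX g (W.pull g.inv x * y), map_mul (W.pull g.hom), pull_hom_inv]

include hW hX in
theorem trans_stable (g : Aut X) {t : W.coh X} (ht : t ∈ trans W X n) :
    W.pull g.hom t ∈ trans W X n := by
  refine ⟨hW.pull_gr hX hX _ ht.1, fun j a ha => ?_⟩
  rw [tr_pull_left hW hX, ht.2 j _ (hW.pull_alg hX hX _ ha)]

include hW hX in
theorem trans_stable' (g : Aut X) {t : W.coh X} (ht : t ∈ trans W X n) :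
    W.pull g.inv t ∈ trans W X n := trans_stable hW hX g.symm ht

/-- the class of the graph of an automorphism -/
noncomputable def graph (W : CohomologyData.{u, v, w} k K) {X : Sch k}
    (g : Aut X) : W.coh (X ⊗ X) := W.push (lift (𝟙 X) g.hom) 1

include hW hX in
theorem graph_alg (g : Aut X) : graph W g ∈ W.alg (X ⊗ X) n :=
  hW.push_alg hX (𝒱.prod hX hX) _ (hW.one_alg hX) (by omega)

include hW hX in
theorem graph_tr (g : Aut X) (s t : W.coh X) :
    W.tr (X ⊗ X) (W.pull (fst X X) s * W.pull (snd X X) t * graph W g)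
      = W.tr X (s * W.pull g.hom t) := by
  have hXX := 𝒱.prod hX hX
  rw [← hW.alg_comm hXX (graph_alg hW hX g), graph, hW.push_adj hX hXX, one_mul, map_mul,
    ← W.pull_comp, ← W.pull_comp, lift_fst, lift_snd, W.pull_id]

/-- the averaging operator -/
noncomputable def avg (W : CohomologyData.{u, v, w} k K) {X : Sch k}
    (G : Subgroup (Aut X)) [Fintype G] (s s' : W.coh X) : W.coh X →ₗ[K] W.coh X :=
  ∑ g : G, ((W.tr X) ∘ₗ (LinearMap.mulLeft K s) ∘ₗ
    (W.pull (g : Aut X).hom).toLinearMap).smulRight (W.pull (g : Aut X).inv s')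

theorem avg_apply (G : Subgroup (Aut X)) [Fintype G] (s s' t : W.coh X) :
    avg W G s s' t = ∑ g : G, W.tr X (s * W.pull (g : Aut X).hom t) •
      W.pull (g : Aut X).inv s' := by
  simp [avg, LinearMap.sum_apply]

theorem avg_comm (G : Subgroup (Aut X)) [Fintype G] (s s' t : W.coh X) (h : Aut X) (hh : h ∈ G) :
    avg W G s s' (W.pull h.hom t) = W.pull h.hom (avg W G s s' t) := by
  rw [avg_apply, avg_apply, map_sum]
  rw [← Equiv.sum_comp (Equiv.mulLeft (⟨h, hh⟩ : G))
    (fun g : G => W.pull h.hom (W.tr X (s * W.pull (g : Aut X).hom t) •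
      W.pull (g : Aut X).inv s'))]
  refine Finset.sum_congr rfl (fun g _ => ?_)
  have e1 : (((Equiv.mulLeft (⟨h, hh⟩ : G)) g : G) : Aut X) = h * (g : Aut X) := rfl
  rw [e1, map_smul]
  have e2 : (h * (g : Aut X)).hom = (g : Aut X).hom ≫ h.hom := rfl
  have e3 : (h * (g : Aut X)).inv = h.inv ≫ (g : Aut X).inv := rfl
  rw [e2, e3, W.pull_comp, W.pull_comp, pull_hom_inv]

variable {T : Submodule K (W.coh X)} {G : Subgroup (Aut X)}
  (hGT : ∀ g ∈ G, ∀ t ∈ T, W.pull g.hom t ∈ T)

include hGT in
theorem stable_inv (g : Aut X) (hg : g ∈ G) {t : W.coh X} (ht : t ∈ T) :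
    W.pull g.inv t ∈ T := hGT g⁻¹ (inv_mem hg) t ht

include hGT in
theorem avg_mem [Fintype G] (s : W.coh X) {s' : W.coh X}
    (hs' : s' ∈ T) (t : W.coh X) : avg W G s s' t ∈ T := by
  rw [avg_apply]
  exact sum_mem (fun g _ => Submodule.smul_mem _ _ (stable_inv hGT g g.2 hs'))

include hW hX in
theorem avg_tr [Fintype G] (s s' t t' : W.coh X) :
    W.tr X (avg W G s s' t * t')
      = ∑ g : G, W.tr X (s * W.pull (g : Aut X).hom t) * W.tr X (s' * W.pull (g : Aut X).hom t') := by
  rw [avg_apply, Finset.sum_mul, map_sum]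
  refine Finset.sum_congr rfl (fun g _ => ?_)
  rw [smul_mul_assoc, map_smul, smul_eq_mul, tr_pull_right hW hX]

include hW hX in
theorem avg_trace [Fintype G] (s : W.coh X) {s' : W.coh X}
    (hs' : s' ∈ T) :
    LinearMap.trace K T ((avg W G s s').restrict
      (p := T) (q := T) (fun t _ => avg_mem hGT s hs' t))
      = (Fintype.card G : K) * W.tr X (s * s') := by
  have hfin := hW.finite hX
  have e : (avg W G s s').restrict
      (p := T) (q := T) (fun t _ => avg_mem hGT s hs' t)
      = ∑ g : G, (((W.tr X) ∘ₗ (LinearMap.mulLeft K s) ∘ₗ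
        (W.pull (g : Aut X).hom).toLinearMap) ∘ₗ T.subtype).smulRight
          (⟨W.pull (g : Aut X).inv s', stable_inv hGT g g.2 hs'⟩ : T) := by
    ext t
    simp [avg_apply, LinearMap.sum_apply]
  rw [e, map_sum]
  have e2 : ∀ g : G, LinearMap.trace K T ((((W.tr X) ∘ₗ (LinearMap.mulLeft K s) ∘ₗ
        (W.pull (g : Aut X).hom).toLinearMap) ∘ₗ T.subtype).smulRight
          (⟨W.pull (g : Aut X).inv s', stable_inv hGT g g.2 hs'⟩ : T))
      = W.tr X (s * s') := by
    intro g
    rw [LinearMap.trace_smulRight]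
    simp only [LinearMap.comp_apply, Submodule.subtype_apply, AlgHom.toLinearMap_apply,
      LinearMap.mulLeft_apply]
    rw [pull_hom_inv]
  rw [Finset.sum_congr rfl (fun g _ => e2 g)]
  simp

variable (hirr : ∀ φ : W.coh X →ₗ[K] W.coh X, (∀ t ∈ T, φ t ∈ T) →
      (∀ g ∈ G, ∀ t ∈ T, φ (W.pull g.hom t) = W.pull g.hom (φ t)) →
      ∃ c : K, ∀ t ∈ T, φ t = c • t)

include hW hX hGT hirr in
/-- Schur orthogonality -/
theorem schur [Fintype G] {s s' t t' : W.coh X} (hs' : s' ∈ T) (ht : t ∈ T) :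
    (Module.finrank K T : K) * ∑ g : G, (W.tr X (s * W.pull (g : Aut X).hom t)
        * W.tr X (s' * W.pull (g : Aut X).hom t'))
      = (Fintype.card G : K) * (W.tr X (s * s') * W.tr X (t * t')) := by
  have hfin := hW.finite hX
  obtain ⟨c, hc⟩ := hirr (avg W G s s') (fun t _ => avg_mem hGT s hs' t)
    (fun g hg t _ => avg_comm G s s' t g hg)
  have e1 : (avg W G s s').restrict
      (p := T) (q := T) (fun t _ => avg_mem hGT s hs' t)
      = c • LinearMap.id := by
    ext t
    exact hc t t.2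
  have e2 := avg_trace hW hX hGT s hs'
  rw [e1, map_smul, LinearMap.trace_id, smul_eq_mul] at e2
  rw [← avg_tr hW hX, hc t ht, smul_mul_assoc, map_smul, smul_eq_mul]
  linear_combination (W.tr X (t * t')) * e2

include hW hX hGT hirr in
/-- the frame of graphs of automorphisms -/
theorem exists_frame [Finite G] : ∃ r : ℕ, Nonempty (Frame W X n T (Fin r)) := by
  let _ := Fintype.ofFinite G
  have hfin := hW.finite hX
  refine ⟨Fintype.card G, ⟨?_⟩⟩
  set N : ℕ := Module.finrank K T with hN
  have hG : 0 < Fintype.card G := Fintype.card_pos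
  have hG' : ((Fintype.card G : ℕ) : K) ≠ 0 := by exact_mod_cast hG.ne'
  refine
    { γ := fun i => graph W (((Fintype.equivFin G).symm i : G) : Aut X)
      c := fun _ => (if N = 0 then 1 else (N : ℚ)) / (Fintype.card G : ℚ)
      γ_alg := fun i => graph_alg hW hX _
      c_pos := fun i => ?_
      frame := ?_ }
  · refine div_pos ?_ (by exact_mod_cast hG)
    by_cases h : N = 0
    · rw [if_pos h]; exact one_pos
    · rw [if_neg h]; exact_mod_cast Nat.pos_of_ne_zero h
  · intro s hs t ht s' hs' t' ht'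
    by_cases h : N = 0
    · have hbot : T = ⊥ := Submodule.finrank_eq_zero.mp h
      have hs0 : s = 0 := by rw [hbot] at hs; exact (Submodule.mem_bot K).mp hs
      rw [hs0]; simp
    · have h1 := schur hW hX hGT hirr (s := s) (t' := t') hs' ht
      rw [← hN] at h1
      simp only [graph_tr hW hX]
      rw [if_neg h, ← Finset.mul_sum]
      rw [Equiv.sum_comp (Fintype.equivFin G).symm (fun g : G => W.tr X
        (s * W.pull (g : Aut X).hom t) * W.tr X (s' * W.pull (g : Aut X).hom t'))]
      push_cast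
      field_simp
      linear_combination h1

end

end Pool.Agent.Lib.MP_361a6f_ag.H3
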