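import Pool.Agent.Lib.MP_361a6f_ag.H3.Frame

/-!
# The Hodge-Riemann property on `H(Z) ⊗ T ⊗ T`
-/

open CategoryTheory AlgebraicGeometry MonoidalCategory CartesianMonoidalCategory Opposite

universe u v w

set_option linter.unusedSectionVars false

namespace Pool.Agent.Lib.MP_361a6f_ag.H3

variable {k : Type u} [Field k] {K : Type v} [Field K] [CharZero K]
  {W : CohomologyData.{u, v, w} k K} {𝒱 : VarietyClass k}

/-- induction for elements of `H(Z) ⊗ T ⊗ T` -/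
theorem TT_induction {Z X : Sch k} {T : Submodule K (W.coh X)}
    {P : W.coh ((Z ⊗ X) ⊗ X) → Prop}
    (hgen : ∀ (y : W.coh Z), ∀ s ∈ T, ∀ t ∈ T, P (gen W y s t))
    (h0 : P 0) (hadd : ∀ a b, P a → P b → P (a + b)) (hsmul : ∀ (c : K) a, P a → P (c • a))
    {z : W.coh ((Z ⊗ X) ⊗ X)}
    (hz : z ∈ tens W (tens W (⊤ : Submodule K (W.coh Z)) T) T) : P z := by
  refine Submodule.span_induction (p := fun z _ => P z) ?_ h0 (fun a b _ _ ha hb => hadd a b ha hb)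
    (fun c a _ ha => hsmul c a ha) hz
  rintro _ ⟨a, ha, t, ht, rfl⟩
  refine Submodule.span_induction
    (p := fun a _ => P (W.pull (fst (Z ⊗ X) X) a * W.pull (snd (Z ⊗ X) X) t)) ?_ ?_ ?_ ?_ ha
  · rintro _ ⟨y, _, s, hs, rfl⟩
    exact hgen y s hs t ht
  · simpa using h0
  · intro a b _ _ ha hb
    rw [map_add, add_mul]; exact hadd _ _ ha hb
  · intro c a _ ha
    rw [map_smul, smul_mul_assoc]; exact hsmul _ _ ha

section

variable (hW : IsWeilCohomology W 𝒱) {Z X : Sch k} {d n : ℕ}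
  (hZ : 𝒱.mem Z d) (hX : 𝒱.mem X n)

include hW hZ hX in
theorem orth_right {i : ℕ} {t : W.coh X} (ht : t ∈ W.gr X i) {t' : W.coh X}
    (h : W.tr X (t * t') = 0) (a a' : W.coh Z) :
    W.tr (Z ⊗ X) (W.pull (fst Z X) a * W.pull (snd Z X) t
      * (W.pull (fst Z X) a' * W.pull (snd Z X) t')) = 0 := by
  have hZX := 𝒱.prod hZ hX
  refine hW.hom_induction hZ (P := fun a' => W.tr (Z ⊗ X) (W.pull (fst Z X) a *
      W.pull (snd Z X) t * (W.pull (fst Z X) a' * W.pull (snd Z X) t')) = 0) a' ?_ ?_ ?_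
  · intro j a' ha'
    have e2 : W.pull (snd Z X) t * W.pull (fst Z X) a'
        = (-1 : K) ^ (i * j) • (W.pull (fst Z X) a' * W.pull (snd Z X) t) :=
      hW.comm_gr hZX (hW.pull_gr hZX hX _ ht) (hW.pull_gr hZX hZ _ ha')
    have e4 : (W.pull (fst Z X) a * W.pull (snd Z X) t)
          * (W.pull (fst Z X) a' * W.pull (snd Z X) t')
          = (-1 : K) ^ (i * j) • (W.pull (fst Z X) (a * a') * W.pull (snd Z X) (t * t')) := by
      rw [mul_assoc, ← mul_assoc (W.pull (snd Z X) t), e2, smul_mul_assoc, mul_smul_comm,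
        map_mul, map_mul]
      congr 1
      simp only [mul_assoc]
    rw [e4, map_smul, hW.kunneth_tr hZ hX, h, mul_zero, smul_zero]
  · simp
  · intro b c hb hc
    rw [map_add, add_mul, mul_add, map_add, hb, hc, add_zero]

include hW hZ hX in
theorem orth_left {i j : ℕ} {t : W.coh X} (ht : t ∈ W.gr X i) (t' : W.coh X)
    {a a' : W.coh Z} (ha' : a' ∈ W.gr Z j) (h : W.tr Z (a * a') = 0) :
    W.tr (Z ⊗ X) (W.pull (fst Z X) a * W.pull (snd Z X) t
      * (W.pull (fst Z X) a' * W.pull (snd Z X) t')) = 0 := by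
  have hZX := 𝒱.prod hZ hX
  have e2 : W.pull (snd Z X) t * W.pull (fst Z X) a'
      = (-1 : K) ^ (i * j) • (W.pull (fst Z X) a' * W.pull (snd Z X) t) :=
    hW.comm_gr hZX (hW.pull_gr hZX hX _ ht) (hW.pull_gr hZX hZ _ ha')
  have e4 : (W.pull (fst Z X) a * W.pull (snd Z X) t)
        * (W.pull (fst Z X) a' * W.pull (snd Z X) t')
        = (-1 : K) ^ (i * j) • (W.pull (fst Z X) (a * a') * W.pull (snd Z X) (t * t')) := by
    rw [mul_assoc, ← mul_assoc (W.pull (snd Z X) t), e2, smul_mul_assoc, mul_smul_comm,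
      map_mul, map_mul]
    congr 1
    simp only [mul_assoc]
  rw [e4, map_smul, hW.kunneth_tr hZ hX, h, zero_mul, smul_zero]

/-- the span of the algebraic classes orthogonal to `T` -/
def perpT (T : Submodule K (W.coh X)) : Submodule K (W.coh X) :=
  Submodule.span K {a | ∃ j, a ∈ W.alg X j ∧ ∀ t ∈ T, W.tr X (t * a) = 0}

include hW hX in
theorem Strings.perpT_sup {ξ : W.coh X} (hξ : ξ ∈ W.alg X 1) {ι : Type} [Fintype ι]
    (σ : Strings W X n ξ ι) : perpT σ.T ⊔ σ.T = ⊤ := by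
  rw [eq_top_iff, ← σ.decomp]
  refine sup_le_sup_right (Submodule.span_le.mpr ?_) _
  rintro _ ⟨s, b, rfl⟩
  refine Submodule.subset_span ⟨b + σ.j s, hW.mul_alg hX (hW.pow_alg hX hξ b) (σ.p_alg s), ?_⟩
  intro t ht
  have e : t * (ξ ^ b * σ.p s) = ξ ^ b * (t * σ.p s) := by
    rw [← mul_assoc, ← hW.alg_comm hX (hW.pow_alg hX hξ _) t, mul_assoc]
  rw [e, σ.T_orth t ht]

variable {T : Submodule K (W.coh X)} (hTn : T ≤ W.gr X n)

include hW hZ hX hTn in
/-- the trace form is nondegenerate on `H(Z) ⊗ T ⊗ T` -/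
theorem TT_nondeg (hsup : perpT T ⊔ T = ⊤) {z : W.coh ((Z ⊗ X) ⊗ X)}
    (hz : z ∈ tens W (tens W (⊤ : Submodule K (W.coh Z)) T) T)
    (h : ∀ z' ∈ tens W (tens W (⊤ : Submodule K (W.coh Z)) T) T,
      W.tr ((Z ⊗ X) ⊗ X) (z * z') = 0) : z = 0 := by
  have hZX := 𝒱.prod hZ hX
  have h1 := 𝒱.prod hZX hX
  -- orthogonality to the complement
  have k1 : ∀ z'' ∈ tens W (tens W (⊤ : Submodule K (W.coh Z)) T) T,
      ∀ (b : W.coh (Z ⊗ X)), ∀ a ∈ perpT (W := W) T,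
      W.tr ((Z ⊗ X) ⊗ X) (z'' * (W.pull (fst (Z ⊗ X) X) b * W.pull (snd (Z ⊗ X) X) a)) = 0 := by
    intro z'' hz'' b a ha
    refine Submodule.span_induction (p := fun a _ => W.tr ((Z ⊗ X) ⊗ X)
      (z'' * (W.pull (fst (Z ⊗ X) X) b * W.pull (snd (Z ⊗ X) X) a)) = 0) ?_ ?_ ?_ ?_ ha
    · rintro a ⟨j, _, ha2⟩
      refine TT_induction (P := fun z'' => W.tr ((Z ⊗ X) ⊗ X)
        (z'' * (W.pull (fst (Z ⊗ X) X) b * W.pull (snd (Z ⊗ X) X) a)) = 0) ?_ ?_ ?_ ?_ hz''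
      · intro y s hs t ht
        exact orth_right hW hZX hX (hTn ht) (ha2 t ht) _ _
      · simp
      · intro p q hp hq
        rw [add_mul, map_add, hp, hq, add_zero]
      · intro c p hp
        rw [smul_mul_assoc, map_smul, hp, smul_zero]
    · simp
    · intro p q _ _ hp hq
      rw [map_add, mul_add, mul_add, map_add, hp, hq, add_zero]
    · intro c p _ hp
      rw [map_smul, mul_smul_comm, mul_smul_comm, map_smul, hp, smul_zero]
  have k2 : ∀ z'' ∈ tens W (tens W (⊤ : Submodule K (W.coh Z)) T) T,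
      ∀ (y' : W.coh Z), ∀ a ∈ perpT (W := W) T, ∀ t' : W.coh X,
      W.tr ((Z ⊗ X) ⊗ X) (z'' * gen W y' a t') = 0 := by
    intro z'' hz'' y' a ha t'
    refine Submodule.span_induction (p := fun a _ => W.tr ((Z ⊗ X) ⊗ X)
      (z'' * gen W y' a t') = 0) ?_ ?_ ?_ ?_ ha
    · rintro a ⟨j, ha1, ha2⟩
      refine TT_induction (P := fun z'' => W.tr ((Z ⊗ X) ⊗ X) (z'' * gen W y' a t') = 0)
        ?_ ?_ ?_ ?_ hz''
      · intro y s hs t ht
        refine hW.hom_induction hZ (P := fun y' => W.tr ((Z ⊗ X) ⊗ X)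
          (gen W y s t * gen W y' a t') = 0) y' ?_ ?_ ?_
        · intro i y' hy'
          exact orth_left hW hZX hX (hTn ht) t'
            (hW.mul_gr hZX (hW.pull_gr hZX hZ _ hy') (hW.pull_gr hZX hX _ (hW.alg_gr hX ha1)))
            (orth_right hW hZ hX (hTn hs) (ha2 s hs) _ _)
        · simp [gen]
        · intro p q hp hq
          rw [gen_add_left, mul_add, map_add, hp, hq, add_zero]
      · simp
      · intro p q hp hq
        rw [add_mul, map_add, hp, hq, add_zero]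
      · intro c p hp
        rw [smul_mul_assoc, map_smul, hp, smul_zero]
    · simp [gen]
    · intro p q _ _ hp hq
      rw [gen, map_add, mul_add, map_add, add_mul, mul_add, map_add]
      rw [gen] at hp hq
      rw [hp, hq, add_zero]
    · intro c p _ hp
      rw [gen] at hp ⊢
      rw [map_smul, mul_smul_comm, map_smul, smul_mul_assoc, mul_smul_comm, map_smul, hp,
        smul_zero]
  refine hW.duality h1 _ (fun w => ?_)
  have hw : w ∈ tens W (⊤ : Submodule K (W.coh (Z ⊗ X))) (⊤ : Submodule K (W.coh X)) := by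
    rw [tens_top hW hZX hX]; trivial
  refine Submodule.span_induction (p := fun w _ => W.tr ((Z ⊗ X) ⊗ X) (z * w) = 0) ?_ ?_ ?_ ?_ hw
  · rintro _ ⟨b, _, x, _, rfl⟩
    have hx : x ∈ perpT (W := W) T ⊔ T := by rw [hsup]; trivial
    obtain ⟨a, ha, t', ht', rfl⟩ := Submodule.mem_sup.mp hx
    rw [map_add, mul_add, mul_add, map_add, k1 z hz b a ha, zero_add]
    have hb : b ∈ tens W (⊤ : Submodule K (W.coh Z)) (⊤ : Submodule K (W.coh X)) := by
      rw [tens_top hW hZ hX]; trivial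
    refine Submodule.span_induction (p := fun b _ => W.tr ((Z ⊗ X) ⊗ X)
      (z * (W.pull (fst (Z ⊗ X) X) b * W.pull (snd (Z ⊗ X) X) t')) = 0) ?_ ?_ ?_ ?_ hb
    · rintro _ ⟨y', _, s', _, rfl⟩
      have hs' : s' ∈ perpT (W := W) T ⊔ T := by rw [hsup]; trivial
      obtain ⟨a', ha', s'', hs'', rfl⟩ := Submodule.mem_sup.mp hs'
      have e1 := k2 z hz y' a' ha' t'
      have e2 := h (gen W y' s'' t') (mem_tens (mem_tens trivial hs'') ht')
      rw [gen] at e1 e2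
      rw [map_add, mul_add, map_add, add_mul, mul_add, map_add, e1, e2, add_zero]
    · simp
    · intro p q _ _ hp hq
      rw [map_add, add_mul, mul_add, map_add, hp, hq, add_zero]
    · intro c p _ hp
      rw [map_smul, smul_mul_assoc, mul_smul_comm, map_smul, hp, smul_zero]
  · simp
  · intro p q _ _ hp hq
    rw [mul_add, map_add, hp, hq, add_zero]
  · intro c p _ hp
    rw [mul_smul_comm, map_smul, hp, smul_zero]

variable {κ : Type} [Fintype κ] (φ : Frame W X n T κ)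

include hW hZ hX hTn in
/-- intersection numbers in terms of contractions -/
theorem frame_tr {z z' : W.coh ((Z ⊗ X) ⊗ X)}
    (hz : z ∈ tens W (tens W (⊤ : Submodule K (W.coh Z)) T) T)
    (hz' : z' ∈ tens W (tens W (⊤ : Submodule K (W.coh Z)) T) T) :
    W.tr ((Z ⊗ X) ⊗ X) (z * z')
      = (-1) ^ n * ∑ i, (φ.c i : K) * W.tr Z (contr W (φ.γ i) z * contr W (φ.γ i) z') := by
  refine TT_induction (P := fun z => W.tr ((Z ⊗ X) ⊗ X) (z * z')
      = (-1) ^ n * ∑ i, (φ.c i : K) * W.tr Z (contr W (φ.γ i) z * contr W (φ.γ i) z'))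
      ?_ ?_ ?_ ?_ hz
  · intro y s hs t ht
    refine TT_induction (P := fun z' => W.tr ((Z ⊗ X) ⊗ X) (gen W y s t * z')
      = (-1) ^ n * ∑ i, (φ.c i : K) * W.tr Z (contr W (φ.γ i) (gen W y s t)
        * contr W (φ.γ i) z')) ?_ ?_ ?_ ?_ hz'
    · intro y' s' hs' t' ht'
      rw [tr_gen hW hZ hX y y' (hTn hs) (hTn ht) (hTn hs'),
        ← φ.frame s hs t ht s' hs' t' ht']
      congr 1
      rw [Finset.mul_sum]
      refine Finset.sum_congr rfl (fun i _ => ?_)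
      rw [contr_gen hW hZ hX, contr_gen hW hZ hX, smul_mul_assoc, mul_smul_comm, map_smul,
        map_smul, smul_eq_mul, smul_eq_mul]
      ring
    · simp
    · intro p q hp hq
      rw [mul_add, map_add, hp, hq, ← mul_add, ← Finset.sum_add_distrib]
      congr 1
      refine Finset.sum_congr rfl (fun i _ => ?_)
      rw [map_add, mul_add, map_add]; ring
    · intro c p hp
      rw [mul_smul_comm, map_smul, hp, smul_eq_mul, mul_left_comm, Finset.mul_sum]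
      congr 1
      refine Finset.sum_congr rfl (fun i _ => ?_)
      rw [map_smul, mul_smul_comm, map_smul, smul_eq_mul]; ring
  · simp
  · intro p q hp hq
    rw [add_mul, map_add, hp, hq, ← mul_add, ← Finset.sum_add_distrib]
    congr 1
    refine Finset.sum_congr rfl (fun i _ => ?_)
    rw [map_add, add_mul, map_add]; ring
  · intro c p hp
    rw [smul_mul_assoc, map_smul, hp, smul_eq_mul, mul_left_comm, Finset.mul_sum]
    congr 1
    refine Finset.sum_congr rfl (fun i _ => ?_)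
    rw [map_smul, smul_mul_assoc, map_smul, smul_eq_mul]; ring

variable {l : W.coh Z} (hl : l ∈ W.alg Z 1) {ξ₁ ξ₂ : W.coh X} (hξ₁ : ξ₁ ∈ W.alg X 1)
  (hξ₂ : ξ₂ ∈ W.alg X 1) (hT₁ : ∀ t ∈ T, ξ₁ * t = 0) (hT₂ : ∀ t ∈ T, ξ₂ * t = 0)

include hW hZ hX hl hξ₁ hξ₂ hT₁ hT₂ in
theorem lam_gen (y : W.coh Z) {s t : W.coh X} (hs : s ∈ T) (ht : t ∈ T) :
    lam W (lam W l ξ₁) ξ₂ * gen W y s t = gen W (l * y) s t := by
  have hZX := 𝒱.prod hZ hX
  rw [gen, lam_mul hW hZX hX (lam_alg hW hZ hX hl hξ₁) hξ₂, lam_mul hW hZ hX hl hξ₁, hT₂ t ht,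
    hT₁ s hs, gen]
  simp

include hW hZ hX hl hξ₁ hξ₂ hT₁ hT₂ in
theorem contr_L (γ : W.coh (X ⊗ X)) {z : W.coh ((Z ⊗ X) ⊗ X)}
    (hz : z ∈ tens W (tens W (⊤ : Submodule K (W.coh Z)) T) T) :
    contr W γ (lam W (lam W l ξ₁) ξ₂ * z) = l * contr W γ z := by
  refine TT_induction (P := fun z => contr W γ (lam W (lam W l ξ₁) ξ₂ * z) = l * contr W γ z)
      ?_ ?_ ?_ ?_ hz
  · intro y s hs t ht
    rw [lam_gen hW hZ hX hl hξ₁ hξ₂ hT₁ hT₂ y hs ht, contr_gen hW hZ hX, contr_gen hW hZ hX, mul_smul_comm]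
  · simp
  · intro p q hp hq
    rw [mul_add, map_add, hp, hq, map_add, mul_add]
  · intro c p hp
    rw [mul_smul_comm, map_smul, hp, map_smul, mul_smul_comm]

include hW hZ hX hl hξ₁ hξ₂ hT₁ hT₂ in
theorem TT_stable : ∀ z ∈ tens W (tens W (⊤ : Submodule K (W.coh Z)) T) T,
    lam W (lam W l ξ₁) ξ₂ * z ∈ tens W (tens W (⊤ : Submodule K (W.coh Z)) T) T :=
  tens_stable hW (𝒱.prod hZ hX) hX (lam_alg hW hZ hX hl hξ₁) hξ₂
    (tens_stable hW hZ hX hl hξ₁ (fun _ _ => trivial)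
      (fun t ht => by rw [hT₁ t ht]; exact zero_mem _))
    (fun t ht => by rw [hT₂ t ht]; exact zero_mem _)

include hW hZ hX hl hξ₁ hξ₂ hT₁ hT₂ in
theorem contr_pow (γ : W.coh (X ⊗ X)) (r : ℕ) {z : W.coh ((Z ⊗ X) ⊗ X)}
    (hz : z ∈ tens W (tens W (⊤ : Submodule K (W.coh Z)) T) T) :
    contr W γ (lam W (lam W l ξ₁) ξ₂ ^ r * z) = l ^ r * contr W γ z
      ∧ lam W (lam W l ξ₁) ξ₂ ^ r * z ∈ tens W (tens W (⊤ : Submodule K (W.coh Z)) T) T := by
  induction r with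
  | zero => simpa using hz
  | succ r ih =>
    rw [pow_succ', mul_assoc]
    refine ⟨?_, TT_stable hW hZ hX hl hξ₁ hξ₂ hT₁ hT₂ _ ih.2⟩
    rw [contr_L hW hZ hX hl hξ₁ hξ₂ hT₁ hT₂ γ ih.2, ih.1, pow_succ', mul_assoc]

include hTn φ in
/-- Hodge-Riemann property on `H(Z) ⊗ T ⊗ T` -/
theorem hr_TT (hsup : perpT T ⊔ T = ⊤) (h : (LD hW hZ hl (⊤ : Submodule K (W.coh Z)) (fun _ _ => trivial)).HR d) :
    (LD hW (𝒱.prod (𝒱.prod hZ hX) hX)
      (lam_alg hW (𝒱.prod hZ hX) hX (lam_alg hW hZ hX hl hξ₁) hξ₂)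
      (tens W (tens W (⊤ : Submodule K (W.coh Z)) T) T)
      (TT_stable hW hZ hX hl hξ₁ hξ₂ hT₁ hT₂)).HR (d + n + n) := by
  intro j hj z hz hprim hne
  obtain ⟨hzalg, hzTT⟩ := hz
  obtain ⟨r, hr⟩ : ∃ r, d + n + n - 2 * j = r := ⟨_, rfl⟩
  rw [hr] at hprim ⊢
  rw [LD_pow] at hprim
  rw [LD_pow, LD_B]
  have hsome : ∃ i, contr W (φ.γ i) z ≠ 0 := by
    by_contra hcon
    push Not at hcon
    apply hne
    refine TT_nondeg hW hZ hX hTn hsup hzTT (fun z' hz' => ?_)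
    rw [frame_tr hW hZ hX hTn φ hzTT hz']
    have : ∑ i, (φ.c i : K) * W.tr Z (contr W (φ.γ i) z * contr W (φ.γ i) z') = 0 := by
      refine Finset.sum_eq_zero (fun i _ => ?_)
      rw [hcon i]; simp
    rw [this, mul_zero]
  have hjn : n ≤ j := by
    by_contra hcon
    obtain ⟨i, hi⟩ := hsome
    exact hi ((contr_alg hW hZ hX (φ.γ_alg i) hzalg).2 (by omega))
  obtain ⟨j', rfl⟩ : ∃ j', j = j' + n := ⟨j - n, by omega⟩
  have hpos : ∀ i, contr W (φ.γ i) z ≠ 0 →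
      RatPos ((φ.c i : K) * ((-1) ^ j' * W.tr Z (contr W (φ.γ i) z
        * (l ^ r * contr W (φ.γ i) z)))) := by
    intro i hi
    have hexp : d - 2 * j' = r := by omega
    have h3 := h j' (by omega) (contr W (φ.γ i) z)
      ⟨(contr_alg hW hZ hX (φ.γ_alg i) hzalg).1 j' rfl, trivial⟩
      (by
        rw [hexp, LD_pow, ← (contr_pow hW hZ hX hl hξ₁ hξ₂ hT₁ hT₂ (φ.γ i) (r + 1) hzTT).1, hprim, map_zero])
      hi
    rw [hexp, LD_pow, LD_B] at h3
    exact h3.smul (φ.c_pos i)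
  have e : (-1 : K) ^ (j' + n) * W.tr ((Z ⊗ X) ⊗ X) (z * (lam W (lam W l ξ₁) ξ₂ ^ r * z))
      = ∑ i, (φ.c i : K) * ((-1) ^ j' * W.tr Z (contr W (φ.γ i) z
        * (l ^ r * contr W (φ.γ i) z))) := by
    rw [frame_tr hW hZ hX hTn φ hzTT (contr_pow hW hZ hX hl hξ₁ hξ₂ hT₁ hT₂ 0 r hzTT).2, ← mul_assoc,
      pow_add, mul_assoc ((-1 : K) ^ j'), ← mul_pow]
    simp only [mul_neg, mul_one, neg_neg, one_pow]
    rw [Finset.mul_sum]
    refine Finset.sum_congr rfl (fun i _ => ?_)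
    rw [(contr_pow hW hZ hX hl hξ₁ hξ₂ hT₁ hT₂ (φ.γ i) r hzTT).1]
    ring
  rw [e]
  refine RatPos.sum _ _ (fun i _ => ?_) ?_
  · by_cases hi : contr W (φ.γ i) z = 0
    · left; rw [hi]; simp
    · right; exact hpos i hi
  · obtain ⟨i, hi⟩ := hsome
    exact ⟨i, Finset.mem_univ _, hpos i hi⟩

end

end Pool.Agent.Lib.MP_361a6f_ag.H3
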