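import Mathlib

/-!
# Weil cohomology theories on classes of smooth proper varieties
-/

open CategoryTheory AlgebraicGeometry MonoidalCategory CartesianMonoidalCategory

universe u v w

namespace Pool.Agent.Lib.MP_361a6f_ag.H3

/-- `k`-schemes, i.e. schemes with a morphism to `Spec k`. -/
def Sch (k : Type u) [Field k] : Type (u + 1) := Over (Spec (CommRingCat.of k))

/-- `X` as a scheme with a structure morphism `X.toOver.hom` to `Spec k`. -/
def Sch.toOver {k : Type u} [Field k] (X : Sch k) : Over (Spec (CommRingCat.of k)) := X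

/-- The category of `k`-schemes. -/
noncomputable instance Sch.category (k : Type u) [Field k] : Category.{u} (Sch k) :=
  instCategoryOver (X := Spec (CommRingCat.of k))

/-- Products of `k`-schemes: `X ⊗ Y` is the product over `k`, with projections `fst X Y` and
`snd X Y`, and `𝟙_ (Sch k)` is `Spec k`. -/
noncomputable instance Sch.cartesian (k : Type u) [Field k] : CartesianMonoidalCategory (Sch k) :=
  @instCartesianMonoidalCategoryOverScheme (Spec (CommRingCat.of k))

/-- Morphisms of `k`-schemes. -/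
abbrev Sch.Mor {k : Type u} [Field k] (X Y : Sch k) : Type u := X ⟶ Y

/-- The `k`-scheme `Spec k`. -/
noncomputable abbrev Sch.point (k : Type u) [Field k] : Sch k := 𝟙_ (Sch k)

/-- The product `X × Y` over `k`. -/
noncomputable abbrev Sch.prod {k : Type u} [Field k] (X Y : Sch k) : Sch k := X ⊗ Y

/-- The projection of `X × Y` to `X`. -/
noncomputable abbrev Sch.pr₁ {k : Type u} [Field k] (X Y : Sch k) : Sch.Mor (X.prod Y) X := fst X Y

/-- The projection of `X × Y` to `Y`. -/
noncomputable abbrev Sch.pr₂ {k : Type u} [Field k] (X Y : Sch k) : Sch.Mor (X.prod Y) Y := snd X Y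

/-- A class of smooth proper schemes over `k` of pure dimension that contains `Spec k` and is
closed under products, for instance the class of all smooth projective varieties of pure
dimension. Here `mem X d` says that `X` belongs to the class and has pure dimension `d`. -/
structure VarietyClass (k : Type u) [Field k] where
  mem : Sch k → ℕ → Prop
  smooth : ∀ {X : Sch k} {d : ℕ}, mem X d → SmoothOfRelativeDimension d X.toOver.hom
  proper : ∀ {X : Sch k} {d : ℕ}, mem X d → IsProper X.toOver.hom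
  point : mem (Sch.point k) 0
  prod : ∀ {X Y : Sch k} {d e : ℕ}, mem X d → mem Y e → mem (X.prod Y) (d + e)

/-- The points of codimension `j` of the `k`-scheme `X`. -/
def Sch.Pt {k : Type u} [Field k] (X : Sch k) (j : ℕ) : Type u :=
  {x : X.toOver.left // Order.coheight x = (j : ℕ∞)}

/-- The data of a cohomology theory on `k`-schemes with coefficients in `K`. -/
structure CohomologyData (k : Type u) [Field k] (K : Type v) [Field K] where
  /-- the cohomology algebra of `X` -/
  coh : Sch k → Type w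
  [ring : ∀ X, Ring (coh X)]
  [algebra : ∀ X, Algebra K (coh X)]
  /-- the pull-back `f^*` -/
  pull : ∀ {X Y : Sch k}, Sch.Mor X Y → (coh Y →ₐ[K] coh X)
  pull_id : ∀ {X : Sch k} (x : coh X), pull (𝟙 X) x = x
  pull_comp : ∀ {X Y Z : Sch k} (f : Sch.Mor X Y) (g : Sch.Mor Y Z) (z : coh Z),
    pull (f ≫ g) z = pull f (pull g z)
  /-- `gr X i` is the subspace `H^i(X)` of the cohomology algebra of `X` -/
  gr : ∀ X : Sch k, ℕ → Submodule K (coh X)
  /-- the trace map -/
  tr : ∀ X : Sch k, coh X →ₗ[K] K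
  /-- the push-forward (Gysin) maps -/
  push : ∀ {X Y : Sch k}, Sch.Mor X Y → (coh X →ₗ[K] coh Y)
  /-- the cycle class of (the closure of) a point of codimension `j` -/
  cl : ∀ (X : Sch k) (j : ℕ), X.Pt j → coh X

attribute [instance] CohomologyData.ring CohomologyData.algebra

namespace CohomologyData

variable {k : Type u} [Field k] {K : Type v} [Field K] (W : CohomologyData.{u, v, w} k K)

/-- The space `C^j(X)` of algebraic classes: the `ℚ`-span of the classes of the closed integral
subschemes of codimension `j`. -/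
def alg (X : Sch k) (j : ℕ) : AddSubgroup (W.coh X) :=
  AddSubgroup.closure {x | ∃ (q : ℚ) (Z : X.Pt j), x = (q : K) • W.cl X j Z}

/-- `x` lies in `H^i(X)`. -/
abbrev Deg (X : Sch k) (i : ℕ) (x : W.coh X) : Prop := x ∈ W.gr X i

/-- `x` lies in `C^j(X)`. -/
abbrev IsAlg (X : Sch k) (j : ℕ) (x : W.coh X) : Prop := x ∈ W.alg X j

/-- The product of two cohomology classes. -/
abbrev cup {X : Sch k} (x y : W.coh X) : W.coh X := x * y

/-- The scalar multiple `c x` of a cohomology class. -/
abbrev scal {X : Sch k} (c : K) (x : W.coh X) : W.coh X := c • x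

/-- The trace of `x`. -/
abbrev Tr {X : Sch k} (x : W.coh X) : K := W.tr X x

/-- The pull-back `f^* y`. -/
abbrev pb {X Y : Sch k} (f : Sch.Mor X Y) (y : W.coh Y) : W.coh X := W.pull f y

/-- The push-forward `f_* x`. -/
abbrev pf {X Y : Sch k} (f : Sch.Mor X Y) (x : W.coh X) : W.coh Y := W.push f x

/-- The exterior product `pr₁^* x · pr₂^* y`. -/
noncomputable abbrev ext {X Y : Sch k} (x : W.coh X) (y : W.coh Y) : W.coh (X.prod Y) :=
  W.cup (W.pb (X.pr₁ Y) x) (W.pb (X.pr₂ Y) y)

end CohomologyData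

section

variable {k : Type u} [Field k] {K : Type v} [Field K] (W : CohomologyData.{u, v, w} k K)
  (𝒱 : VarietyClass k)

/-- Axioms on the degree: the cohomology algebras are finite-dimensional and graded-commutative,
`H^i(X) = 0` for `i > 2 dim X`, and pull-backs preserve the degree. -/
structure GradedAxioms : Prop where
  internal : ∀ {X d}, 𝒱.mem X d → DirectSum.IsInternal (W.gr X)
  finite : ∀ {X d}, 𝒱.mem X d → Module.Finite K (W.coh X)
  one : ∀ {X d}, 𝒱.mem X d → W.Deg X 0 1
  mul : ∀ {X d}, 𝒱.mem X d → ∀ {i j} {x y : W.coh X}, W.Deg X i x → W.Deg X j y →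
    W.Deg X (i + j) (W.cup x y)
  comm : ∀ {X d}, 𝒱.mem X d → ∀ {i j} {x y : W.coh X}, W.Deg X i x → W.Deg X j y →
    W.cup x y = W.scal ((-1) ^ (i * j)) (W.cup y x)
  top : ∀ {X d}, 𝒱.mem X d → ∀ {i} {x : W.coh X}, W.Deg X i x → 2 * d < i → x = 0
  pull : ∀ {X Y d e}, 𝒱.mem X d → 𝒱.mem Y e → ∀ (f : Sch.Mor X Y) {i} {y : W.coh Y},
    W.Deg Y i y → W.Deg X i (W.pb f y)

/-- Axioms on the trace map, including Poincaré duality, and the adjunction between push-forward
and pull-back. -/
structure DualityAxioms : Prop where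
  point_coh : ∀ x : W.coh (Sch.point k), ∃ c : K, x = W.scal c 1
  point_tr : W.Tr (1 : W.coh (Sch.point k)) = 1
  deg : ∀ {X d}, 𝒱.mem X d → ∀ {i} {x : W.coh X}, W.Deg X i x → i ≠ 2 * d → W.Tr x = 0
  duality : ∀ {X d}, 𝒱.mem X d → ∀ x : W.coh X, (∀ y, W.Tr (W.cup x y) = 0) → x = 0
  iso : ∀ {X Y d e}, 𝒱.mem X d → 𝒱.mem Y e → ∀ (f : X ≅ Y) (y : W.coh Y),
    W.Tr (W.pb f.hom y) = W.Tr y
  adj : ∀ {X Y d e}, 𝒱.mem X d → 𝒱.mem Y e → ∀ (f : Sch.Mor X Y) (x : W.coh X) (y : W.coh Y),
    W.Tr (W.cup (W.pf f x) y) = W.Tr (W.cup x (W.pb f y))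

/-- The Künneth formula. -/
structure KunnethAxioms : Prop where
  span : ∀ {X Y d e}, 𝒱.mem X d → 𝒱.mem Y e →
    Submodule.span K {z | ∃ (x : W.coh X) (y : W.coh Y), z = W.ext x y} = ⊤
  trace : ∀ {X Y d e}, 𝒱.mem X d → 𝒱.mem Y e → ∀ (x : W.coh X) (y : W.coh Y),
    W.Tr (W.ext x y) = W.Tr x * W.Tr y

/-- Axioms on cycle classes: their degree, the class of a point, and stability of algebraic
classes under products, pull-backs and push-forwards. -/
structure CycleAxioms : Prop where
  deg : ∀ {X d}, 𝒱.mem X d → ∀ j Z, W.Deg X (2 * j) (W.cl X j Z)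
  point : ∀ {X d}, 𝒱.mem X d → ∀ Z, W.Tr (W.cl X d Z) = 1
  one : ∀ {X d}, 𝒱.mem X d → W.IsAlg X 0 1
  mul : ∀ {X d}, 𝒱.mem X d → ∀ {i j} {x y : W.coh X}, W.IsAlg X i x → W.IsAlg X j y →
    W.IsAlg X (i + j) (W.cup x y)
  pull : ∀ {X Y d e}, 𝒱.mem X d → 𝒱.mem Y e → ∀ (f : Sch.Mor X Y) {j} {y : W.coh Y},
    W.IsAlg Y j y → W.IsAlg X j (W.pb f y)
  push : ∀ {X Y d e}, 𝒱.mem X d → 𝒱.mem Y e → ∀ (f : Sch.Mor X Y) {i j} {x : W.coh X},
    W.IsAlg X i x → i + e = j + d → W.IsAlg Y j (W.pf f x)

/-- The axioms of a Weil cohomology theory (Tate twists suppressed) for a class `𝒱` of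
varieties: finite-dimensional graded-commutative cohomology algebras, Poincaré duality, the
Künneth formula, push-forwards adjoint to pull-backs, and cycle classes such that algebraic
classes are stable under products, pull-backs and push-forwards. -/
structure IsWeilCohomology : Prop where
  graded : GradedAxioms W 𝒱
  poincare : DualityAxioms W 𝒱
  kunneth : KunnethAxioms W 𝒱
  cycles : CycleAxioms W 𝒱

end

end Pool.Agent.Lib.MP_361a6f_ag.H3
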