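import Pool.Agent.Lib.MP_361a6f_ag.H3.Defs

/-!
# The axioms of a Weil cohomology theory in expanded form
-/

open CategoryTheory AlgebraicGeometry MonoidalCategory CartesianMonoidalCategory

universe u v w

namespace Pool.Agent.Lib.MP_361a6f_ag.H3

namespace IsWeilCohomology

variable {k : Type u} [Field k] {K : Type v} [Field K] {W : CohomologyData.{u, v, w} k K}
  {𝒱 : VarietyClass k} (hW : IsWeilCohomology W 𝒱)

include hW

theorem internal {X : Sch k} {d : ℕ} (hX : 𝒱.mem X d) : DirectSum.IsInternal (W.gr X) :=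
  hW.graded.internal hX

theorem finite {X : Sch k} {d : ℕ} (hX : 𝒱.mem X d) : Module.Finite K (W.coh X) :=
  hW.graded.finite hX

theorem one_gr {X : Sch k} {d : ℕ} (hX : 𝒱.mem X d) : (1 : W.coh X) ∈ W.gr X 0 :=
  hW.graded.one hX

theorem mul_gr {X : Sch k} {d : ℕ} (hX : 𝒱.mem X d) {i j : ℕ} {x y : W.coh X}
    (hx : x ∈ W.gr X i) (hy : y ∈ W.gr X j) : x * y ∈ W.gr X (i + j) :=
  hW.graded.mul hX hx hy

theorem comm_gr {X : Sch k} {d : ℕ} (hX : 𝒱.mem X d) {i j : ℕ} {x y : W.coh X}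
    (hx : x ∈ W.gr X i) (hy : y ∈ W.gr X j) : x * y = (-1 : K) ^ (i * j) • (y * x) :=
  hW.graded.comm hX hx hy

theorem top_gr {X : Sch k} {d : ℕ} (hX : 𝒱.mem X d) {i : ℕ} {x : W.coh X}
    (hx : x ∈ W.gr X i) (hi : 2 * d < i) : x = 0 :=
  hW.graded.top hX hx hi

theorem pull_gr {X Y : Sch k} {d e : ℕ} (hX : 𝒱.mem X d) (hY : 𝒱.mem Y e) (f : X ⟶ Y) {i : ℕ}
    {y : W.coh Y} (hy : y ∈ W.gr Y i) : W.pull f y ∈ W.gr X i :=
  hW.graded.pull hX hY f hy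

theorem point_coh (x : W.coh (𝟙_ (Sch k))) : ∃ c : K, x = c • 1 := hW.poincare.point_coh x

theorem point_tr : W.tr (𝟙_ (Sch k)) 1 = 1 := hW.poincare.point_tr

theorem tr_gr {X : Sch k} {d : ℕ} (hX : 𝒱.mem X d) {i : ℕ} {x : W.coh X}
    (hx : x ∈ W.gr X i) (hi : i ≠ 2 * d) : W.tr X x = 0 :=
  hW.poincare.deg hX hx hi

theorem duality {X : Sch k} {d : ℕ} (hX : 𝒱.mem X d) (x : W.coh X)
    (h : ∀ y, W.tr X (x * y) = 0) : x = 0 :=
  hW.poincare.duality hX x h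

theorem tr_iso {X Y : Sch k} {d e : ℕ} (hX : 𝒱.mem X d) (hY : 𝒱.mem Y e) (f : X ≅ Y)
    (y : W.coh Y) : W.tr X (W.pull f.hom y) = W.tr Y y :=
  hW.poincare.iso hX hY f y

theorem kunneth_span {X Y : Sch k} {d e : ℕ} (hX : 𝒱.mem X d) (hY : 𝒱.mem Y e) :
    Submodule.span K {z | ∃ (x : W.coh X) (y : W.coh Y),
      z = W.pull (fst X Y) x * W.pull (snd X Y) y} = ⊤ :=
  hW.kunneth.span hX hY

theorem kunneth_tr {X Y : Sch k} {d e : ℕ} (hX : 𝒱.mem X d) (hY : 𝒱.mem Y e) (x : W.coh X)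
    (y : W.coh Y) :
    W.tr (X ⊗ Y) (W.pull (fst X Y) x * W.pull (snd X Y) y) = W.tr X x * W.tr Y y :=
  hW.kunneth.trace hX hY x y

theorem push_adj {X Y : Sch k} {d e : ℕ} (hX : 𝒱.mem X d) (hY : 𝒱.mem Y e) (f : X ⟶ Y)
    (x : W.coh X) (y : W.coh Y) : W.tr Y (W.push f x * y) = W.tr X (x * W.pull f y) :=
  hW.poincare.adj hX hY f x y

theorem cl_gr {X : Sch k} {d : ℕ} (hX : 𝒱.mem X d) (j : ℕ) (Z : X.Pt j) :
    W.cl X j Z ∈ W.gr X (2 * j) :=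
  hW.cycles.deg hX j Z

theorem cl_point {X : Sch k} {d : ℕ} (hX : 𝒱.mem X d) (Z : X.Pt d) :
    W.tr X (W.cl X d Z) = 1 :=
  hW.cycles.point hX Z

theorem one_alg {X : Sch k} {d : ℕ} (hX : 𝒱.mem X d) : (1 : W.coh X) ∈ W.alg X 0 :=
  hW.cycles.one hX

theorem mul_alg {X : Sch k} {d : ℕ} (hX : 𝒱.mem X d) {i j : ℕ} {x y : W.coh X}
    (hx : x ∈ W.alg X i) (hy : y ∈ W.alg X j) : x * y ∈ W.alg X (i + j) :=
  hW.cycles.mul hX hx hy

theorem pull_alg {X Y : Sch k} {d e : ℕ} (hX : 𝒱.mem X d) (hY : 𝒱.mem Y e) (f : X ⟶ Y) {j : ℕ}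
    {y : W.coh Y} (hy : y ∈ W.alg Y j) : W.pull f y ∈ W.alg X j :=
  hW.cycles.pull hX hY f hy

theorem push_alg {X Y : Sch k} {d e : ℕ} (hX : 𝒱.mem X d) (hY : 𝒱.mem Y e) (f : X ⟶ Y)
    {i j : ℕ} {x : W.coh X} (hx : x ∈ W.alg X i) (h : i + e = j + d) :
    W.push f x ∈ W.alg Y j :=
  hW.cycles.push hX hY f hx h

end IsWeilCohomology

end Pool.Agent.Lib.MP_361a6f_ag.H3
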